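import Pool.Agent.W_7d29a1_KL.FlucD46
import Pool.Agent.W_7d29a1_KZ.TrZ19

/-!
The exponent of the variance is at most `2 ν' - 1`, where `ν'` is the exponent of the typical
displacement: almost every velocity, every tilt.
-/

namespace Pool.Agent.W_7d29a1_KP

open MeasureTheory ProbabilityTheory Filter Topology Pool.Agent.W_MP_7d29a1_pr
  Pool.Agent.W_7d29a1_h46 Pool.Agent.W_7d29a1_h46u Pool.Agent.W_7d29a1_D2
  Pool.Agent.W_7d29a1_D2.B35 Pool.Agent.W_7d29a1_Q29 Pool.Agent.W_7d29a1_R34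
  Pool.Agent.W_7d29a1_SP Pool.Agent.W_7d29a1_SD Pool.Agent.W_7d29a1_UC Pool.Agent.W_7d29a1_KZ
  Pool.Agent.W_7d29a1_KL Pool.Agent.W_7d29a1_D2.NuH99

variable {d : ℕ} {Ω : Type*} [MeasurableSpace Ω] {μ : Measure Ω} [IsProbabilityMeasure μ]
  {ρ : Measure ℝ} [IsProbabilityMeasure ρ] {ω : ℕ × Site d → Ω → ℝ} {β : ℝ}

/-- The set in the definition of `nuP`. -/
def PS19 {Ω : Type*} [MeasurableSpace Ω] (μ : Measure Ω) {d : ℕ} (β : ℝ)
    (ω : ℕ × Site d → Ω → ℝ) (h v : Vec d) : Set ℝ :=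
  {a : ℝ | 0 < a ∧ Tendsto (fun n : ℕ =>
    ∫ x, (1 - PolT β h (fun p => ω p x) (tube d n v ((n : ℝ) ^ a))) ∂μ) atTop (𝓝 0)}

omit [IsProbabilityMeasure ρ] in
lemma int_out19 (hmeas : ∀ p, Measurable (ω p)) (h v : Vec d) (n : ℕ) (r : ℝ) :
    Integrable (fun x => 1 - PolT β h (fun p => ω p x) (tube d n v r)) μ := by
  have hm : Measurable fun x => 1 - PolT β h (fun p => ω p x) (tube d n v r) :=
    measurable_const.sub ((measurable_PolT β h _).comp (measurable_pi_iff.2 hmeas))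
  refine Integrable.mono' (integrable_const (1 : ℝ)) hm.aestronglyMeasurable
    (ae_of_all _ fun x => ?_)
  have h0 : 0 ≤ 1 - PolT β h (fun p => ω p x) (tube d n v r) :=
    sub_nonneg.2 (PolT_le_one β h _ _)
  rw [Real.norm_eq_abs, abs_of_nonneg h0]
  linarith [PolT_nonneg β h (fun p => ω p x) (tube d n v r)]

omit [IsProbabilityMeasure μ] in
lemma out_nonneg19 (h v : Vec d) (n : ℕ) (r : ℝ) :
    0 ≤ ∫ x, (1 - PolT β h (fun p => ω p x) (tube d n v r)) ∂μ :=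
  integral_nonneg fun x => sub_nonneg.2 (PolT_le_one β h _ _)

/-- `2` is in the set: the tube of radius `n ^ 2` is everything for large `n`. -/
lemma two_mem19 (hd : 0 < d) (h v : Vec d) : (2 : ℝ) ∈ PS19 μ β ω h v := by
  refine ⟨two_pos, ?_⟩
  refine (tendsto_congr' ?_).2 tendsto_const_nhds
  filter_upwards [eventually_ge_atTop ⌈1 + ‖v‖⌉₊] with n hn
  have hn' : 1 + ‖v‖ ≤ n := Nat.ceil_le.1 hn
  have h2 : tube d n v ((n : ℝ) ^ (2 : ℝ)) = Set.univ := by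
    rw [tube_univ]
    rw [Real.rpow_two, sq]
    exact mul_le_mul_of_nonneg_left hn' (Nat.cast_nonneg n)
  rw [h2]
  simp only [PolT_univ hd, sub_self, integral_zero]

/-- Above `nuP` the mean mass outside the tube tends to `0`. -/
lemma tend19 (hd : 0 < d) (hmeas : ∀ p, Measurable (ω p)) {h v : Vec d} {a : ℝ}
    (ha : nuP μ β ω h v < a) : Tendsto (fun n : ℕ =>
      ∫ x, (1 - PolT β h (fun p => ω p x) (tube d n v ((n : ℝ) ^ a))) ∂μ) atTop (𝓝 0) := by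
  obtain ⟨b, hb, hba⟩ := exists_lt_of_csInf_lt ⟨2, two_mem19 hd h v⟩ ha
  refine tendsto_of_tendsto_of_tendsto_of_le_of_le' tendsto_const_nhds hb.2
    (Eventually.of_forall fun n => out_nonneg19 h v n _) ?_
  filter_upwards [eventually_ge_atTop 1] with n hn
  have hn1 : (1 : ℝ) ≤ n := by exact_mod_cast hn
  refine integral_mono (int_out19 hmeas h v n _) (int_out19 hmeas h v n _) fun x => ?_
  exact sub_le_sub_left (PolT_mono _ _ _ (tube_mono v
    (Real.rpow_le_rpow_of_exponent_le hn1 hba.le))) _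

/-- Above `nuP` the tube is typical. -/
lemma n0P19 (hd : 0 < d) (hmeas : ∀ p, Measurable (ω p)) {h v : Vec d} {a : ℝ}
    (ha : nuP μ β ω h v < a) {κ : ℝ} (hκ : 0 < κ) : ∃ n0 : ℕ, ∀ N ≥ n0,
      μ.real {x | ¬ (1 - κ ≤ PolT β h (fun p => ω p x) (tube d N v ((N : ℝ) ^ a)))} ≤ κ := by
  have h1 := (tend19 hd hmeas ha).eventually_lt_const (show (0 : ℝ) < κ * κ by positivity)
  obtain ⟨n0, hn0⟩ := eventually_atTop.1 h1
  refine ⟨n0, fun N hN => ?_⟩
  have h2 := hn0 N hN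
  have h3 := mul_meas_ge_le_integral_of_nonneg
    (ae_of_all μ fun x => sub_nonneg.2 (PolT_le_one β h (fun p => ω p x)
      (tube d N v ((N : ℝ) ^ a)))) (int_out19 hmeas h v N _) κ
  have h4 : {x | ¬ (1 - κ ≤ PolT β h (fun p => ω p x) (tube d N v ((N : ℝ) ^ a)))} ⊆
      {x | κ ≤ 1 - PolT β h (fun p => ω p x) (tube d N v ((N : ℝ) ^ a))} := by
    intro x hx
    have h5 : ¬ (1 - κ ≤ PolT β h (fun p => ω p x) (tube d N v ((N : ℝ) ^ a))) := hx
    show κ ≤ 1 - PolT β h (fun p => ω p x) (tube d N v ((N : ℝ) ^ a))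
    linarith [not_le.1 h5]
  have h6 := measureReal_mono (μ := μ) h4
  have h7 : κ * μ.real {x | κ ≤ 1 - PolT β h (fun p => ω p x)
      (tube d N v ((N : ℝ) ^ a))} ≤ κ * κ := h3.trans h2.le
  exact h6.trans (le_of_mul_le_mul_left h7 hκ)

/-- The tube property of the frame, from the definition of `nuP`. -/
theorem halfP19 (hd : 0 < d) (hω : IID μ ρ ω) {h v : Vec d} {a : ℝ}
    (ha : nuP μ β ω h v < a) : HalfD ρ β h v (a - 1 / 2) := by
  intro ε hε
  have h1 := (tend19 hd hω.meas ha).eventually_lt_const hε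
  filter_upwards [h1, eventually_ge_atTop 1] with n hn hn1
  have hn0 : (0 : ℝ) < n := by exact_mod_cast hn1
  have e : (n : ℝ) ^ (a - 1 / 2) * Real.sqrt n = (n : ℝ) ^ a := by
    rw [Real.sqrt_eq_rpow, ← Real.rpow_add hn0]
    congr 1
    ring
  have e2 : ∫ x, (1 - PolT β h (fun p => ω p x) (tube d n v ((n : ℝ) ^ a))) ∂μ =
      ∫ η, (1 - PolT β h η (tube d n v ((n : ℝ) ^ a))) ∂(law d ρ) :=
    StrA_int hω (F := fun η : Env d => 1 - PolT β h η (tube d n v ((n : ℝ) ^ a)))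
      ((measurable_PolT β h _).const_sub 1)
  unfold Tb
  rw [e, ← e2]
  exact hn.le

/-- A velocity with `nuP < 1` is a slope of the free energy. -/
theorem slopeP19 (hd : 0 < d) (hω : IID μ ρ ω) (hρ : EM ρ) {h v : Vec d}
    (hν : nuP μ β ω h v < 1) (k : Vec d) :
    lam ρ β h + inner ℝ v k ≤ lam ρ β (h + k) := by
  obtain ⟨a, ha, ha1⟩ := exists_between hν
  refine coreG20 hd hρ h v k (θ := 1 / 2) (α := 1 / 2) (by norm_num) (by norm_num)
    (fun n => (n : ℝ) ^ a) ?_ ?_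
  · have t3 : Tendsto (fun n : ℕ => (n : ℝ) ^ (-(1 - a))) atTop (𝓝 0) :=
      (tendsto_rpow_neg_atTop (by linarith : (0 : ℝ) < 1 - a)).comp
        (tendsto_natCast_atTop_atTop (R := ℝ))
    refine t3.congr' ?_
    filter_upwards [eventually_ge_atTop 1] with n hn
    have hn0 : (0 : ℝ) < n := by exact_mod_cast hn
    rw [eq_div_iff hn0.ne']
    nth_rewrite 2 [← Real.rpow_one (n : ℝ)]
    rw [← Real.rpow_add hn0]
    congr 1
    ring
  · obtain ⟨n₀, hn₀⟩ := n0P19 hd hω.meas ha (show (0 : ℝ) < 1 / 2 by norm_num)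
    filter_upwards [eventually_ge_atTop n₀] with n hn
    have hms : MeasurableSet {η : Env d | 1 / 2 ≤ PolT β h η (tube d n v ((n : ℝ) ^ a))} :=
      measurableSet_le measurable_const (measurable_PolT β h _)
    have hSm : MeasurableSet {η : Env d | ¬ (1 - 1 / 2 ≤
        PolT β h η (tube d n v ((n : ℝ) ^ a)))} :=
      (measurableSet_le measurable_const (measurable_PolT β h _)).compl
    have h2 : (law d ρ).real {η | ¬ (1 - 1 / 2 ≤
        PolT β h η (tube d n v ((n : ℝ) ^ a)))} ≤ 1 / 2 := by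
      rw [← (mp_env hω).measureReal_preimage hSm.nullMeasurableSet]
      exact hn₀ n hn
    have h1 : {η : Env d | ¬ (1 - 1 / 2 ≤ PolT β h η (tube d n v ((n : ℝ) ^ a)))} =
        {η : Env d | 1 / 2 ≤ PolT β h η (tube d n v ((n : ℝ) ^ a))}ᶜ := by
      ext η
      rw [Set.mem_compl_iff, Set.mem_ofPred_eq, Set.mem_ofPred_eq,
        show (1 : ℝ) - 1 / 2 = 1 / 2 by norm_num]
    rw [h1, probReal_compl_eq_one_sub hms] at h2
    linarith

/-- At almost every velocity `v` and every tilt `nuP` is at least `1 / 2`. -/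
theorem nuP_half19 (hd : 0 < d) (hω : IID μ ρ ω) (hρ : EM ρ) :
    ∀ᵐ v : Vec d, ∀ h : Vec d, 1 / 2 ≤ nuP μ β ω h v := by
  have hL : ConvexOn ℝ Set.univ (lam (d := d) ρ β) := lam_convex hd hρ β
  have key : ∀ᵐ v : Vec d, ∀ (q : ℚ) (m : ℕ),
      v ∈ W_7d29a1_KL.LeafV21.Hv (lam ρ β) μ β ω (q : ℝ) m →
      ∀ ε : ℝ, 0 < ε → ∃ s0 : ℝ, 0 < s0 ∧ ∀ r : Vec d, 0 < ‖r‖ → ‖r‖ ≤ s0 →
        ∃ w ∈ W_7d29a1_KL.LeafV21.Hv (lam ρ β) μ β ω (q : ℝ) m, ‖w - (v + r)‖ ≤ ε * ‖r‖ :=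
    ae_all_iff.2 fun q => ae_all_iff.2 fun m => ae_dens _
  filter_upwards [key, alJ60 hL] with v hv hlo h
  by_contra hcon
  push Not at hcon
  have hsub : ∀ k : Vec d, lam ρ β h + inner ℝ v k ≤ lam ρ β (h + k) := fun k =>
    slopeP19 hd hω hρ (hcon.trans (by norm_num)) k
  have h0 : 0 ≤ nuP μ β ω h v := Real.sInf_nonneg fun b hb => hb.1.le
  obtain ⟨q, hq1, hq2⟩ := exists_rat_btwn hcon
  obtain ⟨n0, hn0⟩ := n0P19 hd hω.meas hq1 (show (0 : ℝ) < 1 / 8 by norm_num)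
  obtain ⟨m, hm⟩ : ∃ m : ℕ, Pc μ β ω (1 / 8) (q : ℝ) (m + 1) h v := by
    refine ⟨max n0 ⌈‖v‖⌉₊, ?_, fun N hN => hn0 N ?_⟩
    · have h1 := Nat.le_ceil ‖v‖
      have h2 : (⌈‖v‖⌉₊ : ℝ) ≤ (max n0 ⌈‖v‖⌉₊ : ℕ) := by exact_mod_cast le_max_right _ _
      push_cast at h2 ⊢
      linarith
    · exact (le_max_left n0 _).trans ((Nat.le_succ _).trans hN)
  have hge : ∀ r, 0 ≤ gap (lam ρ β) h v r := by
    intro r
    unfold gap
    have := hsub r
    linarith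
  refine W_7d29a1_KL.LeafV21.no_density21 hd hL (h0.trans_lt hq1) hq2 m
    (hv q m ⟨h, hge, hm⟩) (hlo h fun w => ?_) hm
  have := hsub (w - h)
  rwa [show h + (w - h) = w by abel] at this

/-- `nuP` is at most the exponent of the problem. -/
theorem nuP_le_nuT19 (hd : 0 < d) (hω : IID μ ρ ω) (h v : Vec d) :
    nuP μ β ω h v ≤ nuT μ β ω h v := by
  refine le_of_forall_gt_imp_ge_of_dense fun a ha => ?_
  have h0 : 0 ≤ nuT μ β ω h v := Real.sInf_nonneg fun b hb => hb.1.le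
  have ha0 : 0 < a := lt_of_le_of_lt h0 ha
  refine csInf_le ⟨0, fun b hb => hb.1.le⟩ ⟨ha0, ?_⟩
  rw [Metric.tendsto_atTop]
  intro ε hε
  obtain ⟨n₀, hn₀⟩ := eventually_atTop.1 (tube0_19 hd hω ha (half_pos hε))
  refine ⟨n₀, fun n hn => ?_⟩
  have e2 : ∫ x, (1 - PolT β h (fun p => ω p x) (tube d n v ((n : ℝ) ^ a))) ∂μ =
      ∫ η, (1 - PolT β h η (tube d n v ((n : ℝ) ^ a))) ∂(law d ρ) :=
    StrA_int hω (F := fun η : Env d => 1 - PolT β h η (tube d n v ((n : ℝ) ^ a)))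
      ((measurable_PolT β h _).const_sub 1)
  rw [Real.dist_eq, sub_zero, abs_of_nonneg (out_nonneg19 h v n _), e2]
  linarith [hn₀ n hn]

/-- The variance is at most `n ^ (2 x)` for all large `n` if `x > 1 / 2`. -/
lemma var_half19 (hd : 0 < d) (hω : IID μ ρ ω) (hρ : EM ρ) (h : Vec d) {x : ℝ}
    (hx : 1 / 2 < x) : ∀ᶠ n : ℕ in atTop,
      Var[fun y => Real.log (Zn β h (fun p => ω p y) n); μ] ≤ (n : ℝ) ^ (2 * x) := by
  obtain ⟨-, hF⟩ := (mem_chiSetF (μ := μ) (β := β) hd hω hρ h (1 / 2)).1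
    (half_mem_chiSetF hd hω hρ h)
  obtain ⟨C, hC⟩ := hF 2
  have ht : Tendsto (fun n : ℕ => (n : ℝ) ^ (2 * x - 1)) atTop atTop :=
    (tendsto_rpow_atTop (by linarith)).comp tendsto_natCast_atTop_atTop
  filter_upwards [ht.eventually_ge_atTop C, eventually_ge_atTop 1] with n hn hn1
  have hn0 : (0 : ℝ) < n := by exact_mod_cast hn1
  rw [varV19 hd hω hρ]
  have h6 := hC n hn1
  rw [show (1 / 2 * ((2 : ℕ) : ℝ)) = 1 by norm_num, Real.rpow_one] at h6
  have h7 : ∫ η, |X β h η n - A ρ β h n| ^ 2 ∂(law d ρ) = Va ρ β h n := by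
    unfold Va
    simp only [sq_abs]
  rw [h7] at h6
  have h2 : (n : ℝ) ^ (2 * x) = (n : ℝ) ^ (2 * x - 1) * n := by
    rw [← Real.rpow_add_one hn0.ne']
    congr 1
    ring
  rw [h2]
  exact h6.trans (mul_le_mul_of_nonneg_right hn hn0.le)

/-- The exponent of the variance is at least the exponent of the problem. -/
theorem chiT_le_chiV19 (hd : 0 < d) (hω : IID μ ρ ω) (hρ : EM ρ) (h : Vec d) :
    chiT μ β ω h ≤ chiV μ β ω h := by
  refine le_csInf ⟨1, one_pos, var_half19 hd hω hρ h (by norm_num)⟩ fun x hx => ?_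
  exact chi_of19 hx.1.le hx.2

/-- The exponent of the variance is at most `1 / 2`. -/
theorem chiV_le_half19 (hd : 0 < d) (hω : IID μ ρ ω) (hρ : EM ρ) (h : Vec d) :
    chiV μ β ω h ≤ 1 / 2 := by
  refine le_of_forall_gt_imp_ge_of_dense fun x hx => ?_
  exact csInf_le ⟨0, fun b hb => hb.1.le⟩ ⟨by linarith, var_half19 hd hω hρ h hx⟩

/-- The two fluctuations at a tilt, for all large `n`, with any bound `ν` for the exponent of the
tube. -/
theorem upP19 (hd : 0 < d) (hω : IID μ ρ ω) (hρ : EM ρ) (hN : NvsP d ρ β) {h v : Vec d}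
    (hK : VSD ρ β h → ∀ δ : ℝ, 0 ≤ δ → δ < 1 / 2 → HalfD ρ β h v δ → ∀ x : ℝ, 2 * δ < x →
      ∀ᶠ n : ℕ in atTop, Va ρ β h n ≤ (n : ℝ) ^ (2 * x) ∧ En ρ β h n ≤ (n : ℝ) ^ x)
    {ν : ℝ} (hH : ∀ a : ℝ, ν < a → HalfD ρ β h v (a - 1 / 2)) (hn : 1 / 2 ≤ ν) {x : ℝ}
    (hx : 2 * ν - 1 < x) :
    ∀ᶠ n : ℕ in atTop, Va ρ β h n ≤ (n : ℝ) ^ (2 * x) ∧ En ρ β h n ≤ (n : ℝ) ^ x := by
  by_cases hV : VSD ρ β h
  · rcases lt_or_ge ν 1 with h1 | h1
    · obtain ⟨a, ha, ha1⟩ := exists_between (lt_min h1 (show ν < (1 + x) / 2 by linarith))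
      have ha2 : a < 1 := ha1.trans_le (min_le_left _ _)
      have ha3 : a < (1 + x) / 2 := ha1.trans_le (min_le_right _ _)
      exact hK hV (a - 1 / 2) (by linarith) (by linarith) (hH a ha) x (by linarith)
    · have hx1 : 1 < x := by linarith
      have ht : Tendsto (fun n : ℕ => (n : ℝ) ^ (x - 1)) atTop atTop :=
        (tendsto_rpow_atTop (by linarith)).comp tendsto_natCast_atTop_atTop
      filter_upwards [ht.eventually_ge_atTop |En ρ β h 1|, eventually_ge_atTop 1,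
        var_half19 (μ := μ) (β := β) hd hω hρ h (show 1 / 2 < x by linarith)] with n hn hn1 hv
      rw [varV19 hd hω hρ] at hv
      have hn1' : (1 : ℝ) ≤ n := by exact_mod_cast hn1
      have hn0 : (0 : ℝ) < n := by linarith
      have e1 : (n : ℝ) ^ x = (n : ℝ) ^ (x - 1) * n := by
        rw [← Real.rpow_add_one hn0.ne']
        congr 1
        ring
      refine ⟨hv, ?_⟩
      rw [e1]
      calc En ρ β h n ≤ n * En ρ β h 1 := en_lin19 hd hρ h n
        _ ≤ n * |En ρ β h 1| := mul_le_mul_of_nonneg_left (le_abs_self _) hn0.le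
        _ = |En ρ β h 1| * n := mul_comm _ _
        _ ≤ (n : ℝ) ^ (x - 1) * n := mul_le_mul_of_nonneg_right hn hn0.le
  · obtain ⟨C, hC⟩ := hN h hV
    filter_upwards [log_pow19 (show 0 < x by linarith) C] with n hn
    exact ⟨(hC n).1.trans hn.2, (hC n).2.trans hn.1⟩

/-- **Leaf REL, upper half**: at almost every velocity `v` and EVERY tilt `h`, `1 / 2 ≤ nuP`,
`chiV ≤ 2 nuP - 1`, and both fluctuations are at most `n ^ x` for every `x > 2 nuP - 1`. -/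
theorem relB19 (hd : 0 < d) (hω : IID μ ρ ω) (hρ : EM ρ) (hK : MainKA d ρ β)
    (hN : NvsP d ρ β) : ∀ᵐ v : Vec d, ∀ h : Vec d, 1 / 2 ≤ nuP μ β ω h v ∧
      chiV μ β ω h ≤ 2 * nuP μ β ω h v - 1 ∧ ∀ x : ℝ, 2 * nuP μ β ω h v - 1 < x →
        FlucLe μ β ω h (lamN ρ β h) x := by
  have hK' : ∀ᵐ v : Vec d, ∀ h : Vec d, VSD ρ β h → ∀ δ : ℝ, 0 ≤ δ → δ < 1 / 2 →
      HalfD ρ β h v δ → ∀ x : ℝ, 2 * δ < x → ∀ᶠ n : ℕ in atTop,
        Va ρ β h n ≤ (n : ℝ) ^ (2 * x) ∧ En ρ β h n ≤ (n : ℝ) ^ x := hK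
  filter_upwards [hK', nuP_half19 (β := β) hd hω hρ] with v hv hn h
  have key : ∀ x : ℝ, 2 * nuP μ β ω h v - 1 < x → FlucLe μ β ω h (lamN ρ β h) x := by
    intro x hx
    unfold FlucLe
    filter_upwards [upP19 hd hω hρ hN (hv h) (fun a ha => halfP19 hd hω ha) (hn h) hx] with n h2
    rw [varV19 hd hω hρ, en19 hd hω hρ]
    exact ⟨h2.1, En_nonneg15 hd hρ β h n, h2.2⟩
  refine ⟨hn h, ?_, key⟩
  refine le_of_forall_gt_imp_ge_of_dense fun x hx => ?_
  have h2 := hn h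
  exact csInf_le ⟨0, fun b hb => hb.1.le⟩ ⟨by linarith, (key x hx).mono fun n h3 => h3.1⟩

end Pool.Agent.W_7d29a1_KP
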