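import Pool.Agent.W_7d29a1_KP.DefsKP89
import Pool.Agent.W_7d29a1_KZ.GapN41

/-!
Theorem KPZV, leaf TUB, for every law with exponential moments: the halving over the points of the
exits, with the amplification without moments in place of Ehrhard's inequality (helper68).
-/

set_option autoImplicit false

namespace Pool.Agent.W_7d29a1_KP

open MeasureTheory ProbabilityTheory Filter Topology Pool.Agent.W_MP_7d29a1_pr
  Pool.Agent.W_7d29a1_h46 Pool.Agent.W_7d29a1_h46u Pool.Agent.W_7d29a1_D2.B35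
  Pool.Agent.W_7d29a1_Q29 Pool.Agent.W_7d29a1_R34 Pool.Agent.W_7d29a1_SP Pool.Agent.W_7d29a1_SD
  Pool.Agent.W_7d29a1_SQ Pool.Agent.W_7d29a1_KZ Pool.Agent.W_7d29a1_AM Pool.Agent.W_7d29a1_NR.L84
  Pool.Agent.W_7d29a1_NR.TrU41 Pool.Agent.W_7d29a1_NR.HaN41

namespace U68

variable {d n : ℕ}

open Classical in
/-- The logarithm of the weight of a set of walks is a logarithm of a sum of exponentials. -/
lemma logZT68 (β : ℝ) (h : Vec d) (η : Env d) (E : Set (Fin n → Step d)) :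
    Real.log (ZT β h η E) = LS β (fun s : {s // s ∈ E} => inner ℝ h (emb (pos s.1 n)))
      (fun (s : {s // s ∈ E}) (i : Fin n) =>
        (((i : ℕ) + 1, pos s.1 ((i : ℕ) + 1)) : ℕ × Site d)) η := by
  unfold LS ZT
  congr 1
  rw [← Finset.sum_filter, Finset.sum_subtype (p := fun s => s ∈ E) _ (by simp)]
  rfl

/-- **The amplification for the weight of a set of walks**, every law. -/
theorem ampE68 {ρ : Measure ℝ} [IsProbabilityMeasure ρ] {β : ℝ}
    (hβ : 0 ≤ β) {D₁ C c : ℝ} (hC : 1 ≤ C) (hA : AmpDN ρ β D₁ C) (hD₁ : D₁ = 2 + 1 / c)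
    (hc : 0 < c) (h : Vec d) {E : Set (Fin n → Step d)} (hE : E.Nonempty)
    {r L M b : ℝ} (hr : 0 < r) (hr2 : r ≤ 1 / 2)
    (hb : C * (1 + Real.log (1 / r)) ≤ b) (hL : c * (L - (M + b)) ≤ b)
    (h0 : r ≤ (law d ρ).real {η | Real.log (ZT β h η E) ≤ M})
    (h1 : r ≤ (law d ρ).real {η | M + b ≤ Real.log (ZT β h η E)}) :
    r ^ C ≤ (law d ρ).real {η | L ≤ Real.log (ZT β h η E)} := by
  classical
  have : Nonempty {s // s ∈ E} := hE.to_subtype
  simp only [logZT68] at h0 h1 ⊢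
  have hlr : 0 ≤ Real.log (1 / r) := Real.log_nonneg (by rw [le_div_iff₀ hr]; linarith)
  have hb1 : 1 ≤ b := by nlinarith
  obtain ⟨W, hW⟩ : ∃ W : Env d → ℝ, W = fun η =>
    LS β (fun s : {s // s ∈ E} => inner ℝ h (emb (pos s.1 n)))
      (fun (s : {s // s ∈ E}) (i : Fin n) =>
        (((i : ℕ) + 1, pos s.1 ((i : ℕ) + 1)) : ℕ × Site d)) η := ⟨_, rfl⟩
  have key := ampLSN41 (d := d) (m := n) hβ hA
    (fun s : {s // s ∈ E} => inner ℝ h (emb (pos s.1 n)))
    (q := fun (s : {s // s ∈ E}) (i : Fin n) =>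
      (((i : ℕ) + 1, pos s.1 ((i : ℕ) + 1)) : ℕ × Site d))
    (fun s i j hij => Fin.ext (by
      have := congrArg Prod.fst hij
      simp only at this
      omega)) (r := r) (M := M) (b := b) hr hr2 hb h0 h1
  refine key.trans (measureReal_mono fun η hη => ?_)
  have hη' : D₁ * b ≤ Real.log (1 + Real.exp (W η - M)) := by rw [hW]; exact hη
  have hgoal : L ≤ W η := by
    have k1 := Pool.Agent.W_7d29a1_NR.HaN41.log_le41 (W η - M)
    have k2 : Real.log 2 < 1 := by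
      have := Real.log_two_lt_d9
      linarith
    have k3 : D₁ * b = 2 * b + b / c := by rw [hD₁]; ring
    have k4 : L - (M + b) ≤ b / c := by
      rw [le_div_iff₀ hc]
      linarith
    have k5 : 0 ≤ b / c := by positivity
    rw [k3] at hη'
    rcases le_total (W η - M) 0 with k6 | k6
    · rw [max_eq_right k6] at k1
      linarith
    · rw [max_eq_left k6] at k1
      linarith
  rw [hW] at hgoal
  exact hgoal

open Classical in
/-- The weights of the classes. -/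
lemma ZT_cls68 {ι : Type*} (β : ℝ) (h : Vec d) (η : Env d) (Ex : Set (Fin n → Step d))
    (Lb : (Fin n → Step d) → ι) (D : Finset ι) :
    ∑ y ∈ D, ZT β h η {s | s ∈ Ex ∧ Lb s = y} = ZT β h η {s | s ∈ Ex ∧ Lb s ∈ D} := by
  unfold ZT
  rw [Finset.sum_comm]
  refine Finset.sum_congr rfl fun s _ => ?_
  by_cases hs : s ∈ Ex ∧ Lb s ∈ D
  · rw [if_pos (show s ∈ {s | s ∈ Ex ∧ Lb s ∈ D} from hs), Finset.sum_eq_single (Lb s)]
    · rw [if_pos (show s ∈ {s' | s' ∈ Ex ∧ Lb s' = Lb s} from ⟨hs.1, rfl⟩)]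
    · intro y _ hy
      rw [if_neg]
      intro h2
      exact hy (show Lb s = y from h2.2).symm
    · intro h2
      exact absurd hs.2 h2
  · rw [if_neg (show ¬ s ∈ {s | s ∈ Ex ∧ Lb s ∈ D} from hs)]
    refine Finset.sum_eq_zero fun y hy => if_neg ?_
    intro h2
    have h3 : Lb s = y := h2.2
    exact hs ⟨h2.1, by rw [h3]; exact hy⟩

/-- The weight of the complement. -/
lemma ZT_compl68 (β : ℝ) (h : Vec d) (η : Env d) (E : Set (Fin n → Step d)) :
    ZT β h η E + ZT β h η Eᶜ = Z β h η n := by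
  classical
  unfold Z ZT
  rw [← Finset.sum_add_distrib]
  refine Finset.sum_congr rfl fun s _ => ?_
  by_cases hs : s ∈ E
  · rw [if_pos hs, if_neg (show ¬ s ∈ Eᶜ from fun h => h hs), if_pos (Set.mem_univ s), add_zero]
  · rw [if_neg hs, if_pos (show s ∈ Eᶜ from hs), if_pos (Set.mem_univ s), zero_add]

variable {ρ : Measure ℝ} [IsProbabilityMeasure ρ] {β : ℝ}

lemma meas68 (β : ℝ) (h : Vec d) (E : Set (Fin n → Step d)) :
    Measurable fun η : Env d => Real.log (ZT β h η E) :=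
  Real.measurable_log.comp (measurable_ZT β h E)

/-- Markov's inequality for the free energy. -/
lemma mk68 (hd : 0 < d) (hρ : EM ρ) (β : ℝ) (h : Vec d) (n : ℕ) {P κ : ℝ} (hP : 0 < P)
    (hκ : 0 < κ) (hF : Fn ρ β h n ≤ P) :
    (law d ρ).real {η | P / κ ≤ |X β h η n - A ρ β h n|} ≤ κ := by
  have hi := (intX15 (ρ := ρ) hd hρ β h n).abs
  have h1 := mul_meas_ge_le_integral_of_nonneg (μ := law d ρ)
    (Eventually.of_forall fun η => abs_nonneg (X β h η n - A ρ β h n)) hi (P / κ)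
  have h2 : ∫ η, |X β h η n - A ρ β h n| ∂(law d ρ) = Fn ρ β h n := rfl
  rw [h2] at h1
  have h3 : P / κ * (law d ρ).real {η | P / κ ≤ |X β h η n - A ρ β h n|} ≤ P := h1.trans hF
  have h4 : P / κ * (law d ρ).real {η | P / κ ≤ |X β h η n - A ρ β h n|} ≤ P / κ * κ := by
    rw [div_mul_cancel₀ P hκ.ne']
    exact h3
  exact le_of_mul_le_mul_left h4 (by positivity)

/-- The upper tail of the weight of a set of walks. -/
lemma up68 (hd : 0 < d) (hρ : EM ρ) (β : ℝ) (h : Vec d) {E : Set (Fin n → Step d)}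
    (hE : E.Nonempty) {P κ : ℝ} (hP : 0 < P) (hκ : 0 < κ) (hF : Fn ρ β h n ≤ P) :
    (law d ρ).real {η | n * lam ρ β h + P / κ ≤ Real.log (ZT β h η E)} ≤ κ := by
  refine (measureReal_mono fun η hη => ?_).trans (mk68 hd hρ β h n hP hκ hF)
  have hη' : n * lam ρ β h + P / κ ≤ Real.log (ZT β h η E) := hη
  have h1 : Real.log (ZT β h η E) ≤ X β h η n :=
    Real.log_le_log (ZT_pos β h η hE) (ZT_mono β h η (Set.subset_univ E))
  have h2 := En_nonneg15 (ρ := ρ) hd hρ β h n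
  unfold En at h2
  show P / κ ≤ |X β h η n - A ρ β h n|
  exact le_trans (by linarith) (le_abs_self _)

end U68

open U68

/-- **Leaf TUB, every law**, from the amplification in the class. -/
theorem tubA68 {d : ℕ} {ρ : Measure ℝ} [IsProbabilityMeasure ρ] {β : ℝ} (hd : 0 < d) (hρ : EM ρ)
    (hβ : 0 ≤ β) (hN : AmpCN ρ β) (hS : SinK d ρ β) : TubK d ρ β := by
  classical
  intro ε η₁ M hε hη hM
  obtain ⟨c, K, hc0, hc1, hK, hnum⟩ := num42 (d := d + 1) (Nat.succ_pos d) hη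
  have hci : 0 < 1 / c := by positivity
  obtain ⟨C, hC1, hC⟩ := hN (2 + 1 / c) (by linarith)
  obtain ⟨κ, hκ⟩ : ∃ κ : ℝ, κ = (1 / 4 : ℝ) ^ C := ⟨_, rfl⟩
  have hκ0 : 0 < κ := by rw [hκ]; exact Real.rpow_pos_of_pos (by norm_num) _
  have hκ1 : κ ≤ 1 / 4 := by
    rw [hκ]
    calc (1 / 4 : ℝ) ^ C ≤ (1 / 4) ^ (1 : ℝ) :=
          Real.rpow_le_rpow_of_exponent_ge (by norm_num) (by norm_num) hC1
      _ = 1 / 4 := Real.rpow_one _
  obtain ⟨b₀, hb₀⟩ : ∃ b₀ : ℝ, b₀ = C * (1 + Real.log (1 / (1 / 4))) := ⟨_, rfl⟩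
  have hl4 : 0 ≤ Real.log (1 / (1 / 4 : ℝ)) := Real.log_nonneg (by norm_num)
  have hb0 : 0 ≤ b₀ := by rw [hb₀]; nlinarith
  obtain ⟨r₁, hr₁⟩ : ∃ r₁ : ℝ, r₁ = min ε 1 / 4 := ⟨_, rfl⟩
  have hr0 : 0 < r₁ := by rw [hr₁]; positivity
  have hr1 : r₁ ≤ 1 / 4 := by
    rw [hr₁]
    have := min_le_right ε 1
    linarith
  have hrε : r₁ ≤ ε / 4 := by
    rw [hr₁]
    have := min_le_left ε 1
    linarith
  have hlr : 0 ≤ Real.log (1 / r₁) := Real.log_nonneg (by rw [le_div_iff₀ hr0]; linarith)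
  obtain ⟨b₁, hb₁⟩ : ∃ b₁ : ℝ, b₁ = C * (1 + Real.log (1 / r₁)) := ⟨_, rfl⟩
  have hb10 : 0 ≤ b₁ := by rw [hb₁]; nlinarith
  obtain ⟨κ₁, hκ₁⟩ : ∃ κ₁ : ℝ, κ₁ = r₁ ^ C / 2 := ⟨_, rfl⟩
  have hrC : 0 < r₁ ^ C := Real.rpow_pos_of_pos hr0 _
  have hκ₁0 : 0 < κ₁ := by rw [hκ₁]; positivity
  obtain ⟨G, hG⟩ : ∃ G : ℝ, G = 1 + 4 / ε + |Real.log (ε / 2)| := ⟨_, rfl⟩
  have hG1 : 1 ≤ G := by
    rw [hG]
    have : 0 ≤ 4 / ε := by positivity
    have := abs_nonneg (Real.log (ε / 2))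
    linarith
  obtain ⟨Q₁, hQ₁⟩ : ∃ Q₁ : ℝ, Q₁ = 2 * G + b₁ + 1 / κ₁ + 16 := ⟨_, rfl⟩
  obtain ⟨Q₂, hQ₂⟩ : ∃ Q₂ : ℝ, Q₂ = 2 / κ + 2 * G + b₁ + 1 / κ₁ + b₀ + 2 := ⟨_, rfl⟩
  have hi1 : 0 < 1 / κ₁ := by positivity
  have hi2 : 0 < 2 / κ := by positivity
  have hQ10 : 0 ≤ Q₁ := by rw [hQ₁]; linarith
  have hQ20 : 0 ≤ Q₂ := by rw [hQ₂]; linarith
  obtain ⟨Q, hQ⟩ : ∃ Q : ℝ, Q = Q₁ + Q₂ * (K / c) := ⟨_, rfl⟩
  have hQ0 : 0 ≤ Q := by rw [hQ]; positivity
  have hd' : (0 : ℝ) < d := by exact_mod_cast hd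
  refine ⟨1 + 32 * M * d * Q, by
    have : 0 ≤ 32 * M * d * Q := by positivity
    linarith, ?_⟩
  intro h v n P R r hn hP hR hrR hD hex
  obtain ⟨J, hJ1, hJ2⟩ := hnum n hn
  have hP0 : 0 < P := by linarith
  have hn0 : (0 : ℝ) < n := by exact_mod_cast hn
  obtain ⟨hFn, hEn⟩ := hD.fl n le_rfl
  -- the exit set
  obtain ⟨Ex, hEx⟩ : ∃ Ex : Set (Fin n → Step d), Ex = (tube d n v R)ᶜ := ⟨_, rfl⟩
  have hlab : ∀ s : Fin n → Step d, ∃ i : ℕ, s ∈ Ex →
      i ≤ n ∧ R < ‖emb (pos s i) - (i : ℝ) • v‖ := by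
    intro s
    by_cases hs : s ∈ Ex
    · rw [hEx] at hs
      have hs' : ¬ ∀ i ≤ n, ‖emb (pos s i) - (i : ℝ) • v‖ ≤ R := hs
      push Not at hs'
      obtain ⟨i, hi, hi2⟩ := hs'
      exact ⟨i, fun _ => ⟨hi, hi2⟩⟩
    · exact ⟨0, fun h => absurd h hs⟩
  choose lab hlab using hlab
  obtain ⟨Lb, hLb⟩ : ∃ Lb : (Fin n → Step d) → ℕ × Site d, Lb = fun s =>
    (lab s, pos s (lab s)) := ⟨_, rfl⟩
  obtain ⟨S, hSd⟩ : ∃ S : Finset (ℕ × Site d), S =
    (Finset.univ.filter fun s => s ∈ Ex).image Lb := ⟨_, rfl⟩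
  have hcl : ∀ y ∈ S, ({s | s ∈ Ex ∧ Lb s = y} : Set (Fin n → Step d)).Nonempty := by
    intro y hy
    rw [hSd, Finset.mem_image] at hy
    obtain ⟨s, hs, hsy⟩ := hy
    exact ⟨s, (Finset.mem_filter.1 hs).2, hsy⟩
  have hmemS : ∀ s ∈ Ex, Lb s ∈ S := by
    intro s hs
    rw [hSd]
    exact Finset.mem_image_of_mem _ (Finset.mem_filter.2 ⟨Finset.mem_univ _, hs⟩)
  have hSE : ({s | s ∈ Ex ∧ Lb s ∈ S} : Set (Fin n → Step d)) = Ex := by
    ext s
    exact ⟨fun hs => hs.1, fun hs => ⟨hs, hmemS s hs⟩⟩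
  -- the number of the labels
  have hScard : S.card ≤ 2 ^ J := by
    refine le_trans ?_ hJ1
    have h1 : S ⊆ (Finset.range (n + 1)) ×ˢ (boxF d n) := by
      intro y hy
      rw [hSd, Finset.mem_image] at hy
      obtain ⟨s, hs, rfl⟩ := hy
      have hs' := (Finset.mem_filter.1 hs).2
      rw [hLb]
      refine Finset.mem_product.2 ⟨Finset.mem_range.2 ?_, pos_mem_box s _⟩
      have := (hlab s hs').1
      show lab s < n + 1
      omega
    refine (Finset.card_le_card h1).trans ?_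
    rw [Finset.card_product, Finset.card_range]
    have h2 : (boxF d n).card = (2 * n + 1) ^ d := by exact_mod_cast card_boxF d n
    rw [h2, pow_succ, mul_comm]
    exact Nat.mul_le_mul_left _ (by omega)
  -- the free energies of the classes
  obtain ⟨V, hV⟩ : ∃ V : ℕ × Site d → Env d → ℝ, V = fun y η =>
    Real.log (ZT β h η {s | s ∈ Ex ∧ Lb s = y}) := ⟨_, rfl⟩
  have hVm : ∀ y ∈ S, Measurable (V y) := fun y _ => by
    rw [hV]
    exact meas68 β h _
  have hWD : ∀ D : Finset (ℕ × Site d), D ⊆ S → ∀ η,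
      Pool.Agent.W_7d29a1_NR.WD45 (fun _ => (1 : ℝ)) V D η =
        Real.log (ZT β h η {s | s ∈ Ex ∧ Lb s ∈ D}) := by
    intro D hDS η
    unfold Pool.Agent.W_7d29a1_NR.WD45
    rw [← ZT_cls68 β h η Ex Lb D]
    congr 1
    refine Finset.sum_congr rfl fun y hy => ?_
    rw [hV, one_mul]
    exact Real.exp_log (ZT_pos β h η (hcl y (hDS hy)))
  have hWS : ∀ η, Pool.Agent.W_7d29a1_NR.WD45 (fun _ => (1 : ℝ)) V S η =
      Real.log (ZT β h η Ex) := by
    intro η
    rw [hWD S (Finset.Subset.refl S) η, hSE]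
  have hEDn : ∀ D : Finset (ℕ × Site d), D ⊆ S → D.Nonempty →
      ({s | s ∈ Ex ∧ Lb s ∈ D} : Set (Fin n → Step d)).Nonempty := by
    intro D hDS hDn
    obtain ⟨y, hy⟩ := hDn
    obtain ⟨s, hs⟩ := hcl y (hDS hy)
    exact ⟨s, hs.1, by rw [hs.2]; exact hy⟩
  -- the probability of the exit
  obtain ⟨f, hf⟩ : ∃ f : Env d → ℝ, f = fun η => 1 - PolT β h η (tube d n v R) := ⟨_, rfl⟩
  have hfm : Measurable f := by
    rw [hf]
    exact (measurable_PolT β h _).const_sub 1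
  have hf0 : ∀ η, 0 ≤ f η := fun η => by
    rw [hf]
    have := PolT_le_one β h η (tube d n v R)
    simp only
    linarith
  have hf1 : ∀ η, f η ≤ 1 := fun η => by
    rw [hf]
    have := PolT_nonneg β h η (tube d n v R)
    simp only
    linarith
  have hfZ : ∀ η, f η * Z β h η n = ZT β h η Ex := by
    intro η
    have h1 := ZT_compl68 β h η (tube d n v R)
    have h2 : 0 < Z β h η n := ZT_univ_pos hd β h η
    rw [hf, hEx]
    have h3 : PolT β h η (tube d n v R) * Z β h η n = ZT β h η (tube d n v R) := by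
      unfold PolT
      exact div_mul_cancel₀ _ h2.ne'
    simp only
    rw [sub_mul, one_mul, h3]
    linarith
  have hfi : Integrable f (law d ρ) := by
    refine Integrable.of_bound (C := 1) hfm.aestronglyMeasurable (Eventually.of_forall fun η => ?_)
    rw [Real.norm_eq_abs, abs_of_nonneg (hf0 η)]
    exact hf1 η
  have hex' : ε < ∫ η, f η ∂(law d ρ) := by rw [hf]; exact hex
  have hE2m : MeasurableSet {η | ε / 2 ≤ f η} := measurableSet_le measurable_const hfm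
  have hp1 : ε / 2 ≤ (law d ρ).real {η | ε / 2 ≤ f η} := by
    have h1 : ∫ η, f η ∂(law d ρ) ≤
        ∫ η, (ε / 2 + Set.indicator {η | ε / 2 ≤ f η} (fun _ => (1 : ℝ)) η) ∂(law d ρ) := by
      refine integral_mono hfi ((integrable_const _).add
        ((integrable_const _).indicator hE2m)) fun η => ?_
      by_cases hη : η ∈ {η | ε / 2 ≤ f η}
      · simp only [Set.indicator_of_mem hη]
        have := hf1 η
        linarith
      · simp only [Set.indicator_of_notMem hη]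
        have h2 : ¬ ε / 2 ≤ f η := hη
        push Not at h2
        linarith
    rw [integral_add (integrable_const _) ((integrable_const _).indicator hE2m),
      integral_indicator_const _ hE2m] at h1
    simp only [integral_const, probReal_univ, smul_eq_mul, one_mul, mul_one] at h1
    linarith
  have hExn : Ex.Nonempty := by
    by_contra hcon
    rw [Set.not_nonempty_iff_eq_empty] at hcon
    have h1 : ∀ η, f η = 0 := by
      intro η
      have h2 := hfZ η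
      have h3 : 0 < Z β h η n := ZT_univ_pos hd β h η
      rw [hcon] at h2
      have h4 : ZT β h η (∅ : Set (Fin n → Step d)) = 0 := by
        unfold ZT
        exact Finset.sum_eq_zero fun s _ => if_neg (Set.notMem_empty s)
      rw [h4] at h2
      rcases mul_eq_zero.1 h2 with h5 | h5
      · exact h5
      · exact absurd h5 h3.ne'
    simp only [h1, integral_zero] at hex'
    linarith
  have hSn : S.Nonempty := by
    obtain ⟨s, hs⟩ := hExn
    exact ⟨_, hmemS s hs⟩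
  -- the first estimate
  obtain ⟨T₁, hT₁⟩ : ∃ T₁ : ℝ, T₁ = n * lam ρ β h - P - 4 * P / ε + Real.log (ε / 2) := ⟨_, rfl⟩
  have hlow : r₁ ≤ (law d ρ).real {η | T₁ ≤ Real.log (ZT β h η Ex)} := by
    have h1 := mk68 (ρ := ρ) hd hρ β h n hP0 (show 0 < ε / 4 by positivity) hFn
    have h2 : (law d ρ).real {η | ε / 2 ≤ f η} ≤
        (law d ρ).real {η | T₁ ≤ Real.log (ZT β h η Ex)} +
          (law d ρ).real {η | P / (ε / 4) ≤ |X β h η n - A ρ β h n|} := by
      refine (measureReal_mono ?_).trans (measureReal_union_le _ _)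
      intro η hη
      have hη' : ε / 2 ≤ f η := hη
      by_cases h3 : P / (ε / 4) ≤ |X β h η n - A ρ β h n|
      · exact Or.inr h3
      · left
        push Not at h3
        have h4 : 0 < Z β h η n := ZT_univ_pos hd β h η
        have h5 : ε / 2 * Z β h η n ≤ ZT β h η Ex := by
          rw [← hfZ η]
          exact mul_le_mul_of_nonneg_right hη' h4.le
        have h6 : Real.log (ε / 2) + X β h η n ≤ Real.log (ZT β h η Ex) := by
          have h7 : Real.log (ε / 2 * Z β h η n) = Real.log (ε / 2) + X β h η n :=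
            Real.log_mul (by positivity) h4.ne'
          rw [← h7]
          exact Real.log_le_log (by positivity) h5
        have h8 := (abs_lt.1 h3).1
        have h9 : P / (ε / 4) = 4 * P / ε := by field_simp
        rw [h9] at h8
        have h10 : (n : ℝ) * lam ρ β h - A ρ β h n ≤ P := hEn
        show T₁ ≤ Real.log (ZT β h η Ex)
        rw [hT₁]
        linarith
    linarith
  -- a median
  obtain ⟨Md, hMd1, hMd2⟩ := Pool.Agent.W_7d29a1_NR.median45 (law d ρ) (meas68 β h Ex)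
  obtain ⟨L₁, hL₁⟩ : ∃ L₁ : ℝ, L₁ = n * lam ρ β h + P / κ₁ := ⟨_, rfl⟩
  obtain ⟨L₂, hL₂⟩ : ∃ L₂ : ℝ, L₂ = n * lam ρ β h + P / (κ / 2) := ⟨_, rfl⟩
  have hgap : (n : ℝ) * lam ρ β h - T₁ ≤ G * P := by
    rw [hT₁, hG]
    have h1 := neg_abs_le (Real.log (ε / 2))
    have h2 := abs_nonneg (Real.log (ε / 2))
    have h3 : |Real.log (ε / 2)| ≤ |Real.log (ε / 2)| * P := le_mul_of_one_le_right h2 hP
    have h4 : (1 + 4 / ε + |Real.log (ε / 2)|) * P =
        P + 4 * P / ε + |Real.log (ε / 2)| * P := by ring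
    rw [h4]
    linarith
  have hT1L : T₁ ≤ L₁ := by
    by_contra hcon
    push Not at hcon
    have h1 := up68 (ρ := ρ) hd hρ β h hExn hP0 hκ₁0 hFn
    rw [← hL₁] at h1
    have h2 : (law d ρ).real {η | T₁ ≤ Real.log (ZT β h η Ex)} ≤
        (law d ρ).real {η | L₁ ≤ Real.log (ZT β h η Ex)} :=
      measureReal_mono fun η (hη : T₁ ≤ Real.log (ZT β h η Ex)) => by
        show L₁ ≤ Real.log (ZT β h η Ex)
        linarith
    have h3 : r₁ ^ C ≤ r₁ := by
      calc r₁ ^ C ≤ r₁ ^ (1 : ℝ) :=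
            Real.rpow_le_rpow_of_exponent_ge hr0 (by linarith) hC1
        _ = r₁ := Real.rpow_one _
    rw [hκ₁] at h1
    linarith
  have hMdlow : T₁ - b₁ - (L₁ - T₁) ≤ Md := by
    by_contra hcon
    push Not at hcon
    obtain ⟨b, hb⟩ : ∃ b : ℝ, b = T₁ - Md := ⟨_, rfl⟩
    have hMb : Md + b = T₁ := by rw [hb]; ring
    have h1 : b₁ ≤ b := by rw [hb]; linarith
    have h2 : c * (L₁ - (Md + b)) ≤ b := by
      rw [hMb]
      have h3 : c * (L₁ - T₁) ≤ 1 * (L₁ - T₁) :=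
        mul_le_mul_of_nonneg_right hc1 (by linarith)
      rw [hb]
      linarith
    have h4 := ampE68 (d := d) (ρ := ρ) hβ hC1 hC rfl hc0 h hExn (r := r₁) (L := L₁) (M := Md)
      (b := b) hr0 (by linarith) (by rw [← hb₁]; exact h1) h2 (by linarith)
      (by rw [hMb]; exact hlow)
    have h5 := up68 (ρ := ρ) hd hρ β h hExn hP0 hκ₁0 hFn
    rw [← hL₁] at h5
    rw [hκ₁] at h5
    linarith
  have hupS : (law d ρ).real {η | L₂ ≤ Real.log (ZT β h η Ex)} < κ := by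
    have h1 := up68 (ρ := ρ) hd hρ β h hExn hP0 (show 0 < κ / 2 by positivity) hFn
    rw [← hL₂] at h1
    linarith
  have hMdL : Md ≤ L₂ := by
    by_contra hcon
    push Not at hcon
    have h2 : (law d ρ).real {η | Md ≤ Real.log (ZT β h η Ex)} ≤
        (law d ρ).real {η | L₂ ≤ Real.log (ZT β h η Ex)} :=
      measureReal_mono fun η (hη : Md ≤ Real.log (ZT β h η Ex)) => by
        show L₂ ≤ Real.log (ZT β h η Ex)
        linarith
    linarith
  obtain ⟨a, ha⟩ : ∃ a : ℝ, a = L₂ - Md := ⟨_, rfl⟩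
  have ha0 : 0 ≤ a := by rw [ha]; linarith
  have hMa : Md + a = L₂ := by rw [ha]; ring
  -- the halving
  have hset : ∀ D : Finset (ℕ × Site d), D ⊆ S → ∀ T : Set ℝ,
      {η | Pool.Agent.W_7d29a1_NR.WD45 (fun _ => (1 : ℝ)) V D η ∈ T} =
        {η | Real.log (ZT β h η {s | s ∈ Ex ∧ Lb s ∈ D}) ∈ T} := by
    intro D hDS T
    ext η
    rw [Set.mem_setOf_eq, hWD D hDS η]
    rfl
  have key := Pool.Agent.W_7d29a1_NR.halvB45 (law d ρ) (μ := fun _ : ℕ × Site d => (1 : ℝ)) hSn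
    (fun y _ => one_pos) (fun y _ => le_rfl) hVm (T := Md) (a := a) (c := c) (κ := κ) (b₀ := b₀)
    (u₀ := n * lam ρ β h - R ^ 2 / (32 * M * d * n) + 16 * P) hc0 hc1 ha0 hb0 ?_ ?_ ?_ ?_ hScard
  · -- the end
    have hk1 : (1 : ℝ) ≤ (n : ℝ) ^ η₁ := Real.one_le_rpow (by exact_mod_cast hn) hη.le
    obtain ⟨g, hg⟩ : ∃ g : ℝ, g = (n : ℝ) ^ η₁ := ⟨_, rfl⟩
    rw [← hg] at hk1 hJ2
    have hL1T : L₁ - T₁ ≤ (1 / κ₁ + G) * P := by
      rw [hL₁]
      have : (1 / κ₁ + G) * P = P / κ₁ + G * P := by ring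
      rw [this]
      linarith
    have ha1 : a ≤ (2 / κ + 2 * G + b₁ + 1 / κ₁) * P := by
      have h1 : L₂ - T₁ ≤ (2 / κ + G) * P := by
        rw [hL₂]
        have : (2 / κ + G) * P = P / (κ / 2) + G * P := by field_simp
        rw [this]
        linarith
      have h2 : b₁ ≤ b₁ * P := le_mul_of_one_le_right hb10 hP
      have h3 : (2 / κ + 2 * G + b₁ + 1 / κ₁) * P =
          (2 / κ + G) * P + b₁ * P + (1 / κ₁ + G) * P := by ring
      rw [ha, h3]
      linarith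
    have h8 : (a + b₀ + 2) / c * (1 + c) ^ J ≤ (a + b₀ + 2) / c * (K * g) :=
      mul_le_mul_of_nonneg_left hJ2 (by positivity)
    have h9 : a + b₀ + 2 ≤ Q₂ * P := by
      have h2 : b₀ ≤ b₀ * P := le_mul_of_one_le_right hb0 hP
      have h3 : Q₂ * P = (2 / κ + 2 * G + b₁ + 1 / κ₁) * P + b₀ * P + 2 * P := by
        rw [hQ₂]
        ring
      rw [h3]
      linarith
    have h10 : (a + b₀ + 2) / c * (K * g) ≤ Q₂ * (K / c) * (g * P) := by
      have h11 : (a + b₀ + 2) / c * (K * g) = (a + b₀ + 2) * (K / c * g) := by ring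
      have h12 : Q₂ * (K / c) * (g * P) = Q₂ * P * (K / c * g) := by ring
      rw [h11, h12]
      exact mul_le_mul_of_nonneg_right h9 (by positivity)
    have h13 : R ^ 2 / (32 * M * d * n) ≤ Q * (g * P) := by
      have h14 : 0 ≤ Q₁ * P := by positivity
      have h15 : Q₁ * P ≤ Q₁ * (g * P) := by
        have : Q₁ * (g * P) = Q₁ * P * g := by ring
        rw [this]
        exact le_mul_of_one_le_right h14 hk1
      have h16 : Q * (g * P) = Q₁ * (g * P) + Q₂ * (K / c) * (g * P) := by rw [hQ]; ring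
      have h17 : Q₁ * P = G * P + b₁ * P + (1 / κ₁ + G) * P + 16 * P := by rw [hQ₁]; ring
      have h2 : b₁ ≤ b₁ * P := le_mul_of_one_le_right hb10 hP
      rw [h16]
      linarith
    have h18 : 0 < 32 * M * d * n := by positivity
    rw [div_le_iff₀ h18] at h13
    have h19 : (n : ℝ) ^ (1 + η₁) = n * g := by
      rw [hg, Real.rpow_add hn0, Real.rpow_one]
    rw [h19]
    have h20 : 0 ≤ (n : ℝ) * g * P := by positivity
    have h21 : (1 + 32 * M * d * Q) * (n * g) * P =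
        n * g * P + Q * (g * P) * (32 * M * d * n) := by ring
    rw [h21]
    linarith
  · -- one class
    intro y hy u hu
    rw [hV]
    obtain ⟨s, hs⟩ := hcl y hy
    have hy1 : y = (lab s, pos s (lab s)) := by
      have := hs.2
      rw [hLb] at this
      exact this.symm
    have h1 := hlab s hs.1
    refine hS h v n M P R r hn hM hP0.le hR hrR hD y.1 y.2 {s | s ∈ Ex ∧ Lb s = y} ?_
      (hcl y hy) ?_ ?_ u hu
    · rw [hy1]
      exact h1.1
    · intro s' hs'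
      have h2 : Lb s' = y := hs'.2
      rw [hLb] at h2
      rw [← h2]
    · rw [hy1]
      exact h1.2
  · -- the amplification
    intro D hDS hDn M' b hb hbb hcb hMT hq1 hq2 hq3
    have e1 := hset D hDS
    have f1 := e1 (Set.Iic M')
    have f2 := e1 (Set.Ici (M' + b))
    have f3 := e1 (Set.Ici (Md + a))
    simp only [Set.mem_Iic, Set.mem_Ici] at f1 f2 f3
    rw [f1] at hq1
    rw [f2] at hq3
    rw [f3, hκ]
    exact ampE68 (d := d) (ρ := ρ) hβ hC1 hC rfl hc0 h (hEDn D hDS hDn) (r := 1 / 4)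
      (L := Md + a) (M := M') (b := b) (by norm_num) (by norm_num)
      (by rw [← hb₀]; exact hbb) hcb (by linarith) hq3
  · -- the upper tail
    have e1 := hset S (Finset.Subset.refl S) (Set.Ici (Md + a))
    simp only [Set.mem_Ici] at e1
    rw [e1, hSE, hMa]
    exact hupS
  · have e1 := hset S (Finset.Subset.refl S) (Set.Ici Md)
    simp only [Set.mem_Ici] at e1
    rw [e1, hSE]
    exact hMd2

/-- **Leaf TUB, every law of the problem.** -/
theorem tubU68 {d : ℕ} {ρ : Measure ℝ} [IsProbabilityMeasure ρ] {β : ℝ} (hd : 0 < d) (hρ : EM ρ)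
    (hnc : ∀ c : ℝ, ρ {c} ≠ 1) (hβ : 0 < β) (hS : SinK d ρ β) : TubK d ρ β :=
  tubA68 hd hρ hβ.le (ampCNAll5 hρ hnc hβ) hS

end Pool.Agent.W_7d29a1_KP
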