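import Pool.Agent.W_7d29a1_KP.DefsKO62
import Pool.Agent.W_7d29a1_KP.TubU68
import Pool.Agent.W_7d29a1_AM.DeepU5

/-!
Theorem KPZO, leaf LOWN, for every law with exponential moments: the lower tail of the free energy
is exponential at the scale of the random fluctuation (helper68, from helper5's `deepU5`).
-/

set_option autoImplicit false

namespace Pool.Agent.W_7d29a1_KP

open MeasureTheory ProbabilityTheory Filter Topology Pool.Agent.W_MP_7d29a1_pr
  Pool.Agent.W_7d29a1_h46 Pool.Agent.W_7d29a1_h46u Pool.Agent.W_7d29a1_D2.B35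
  Pool.Agent.W_7d29a1_Q29 Pool.Agent.W_7d29a1_R34 Pool.Agent.W_7d29a1_SP Pool.Agent.W_7d29a1_SD
  Pool.Agent.W_7d29a1_SQ Pool.Agent.W_7d29a1_KZ Pool.Agent.W_7d29a1_AM U68

/-- **The lower tail, every law**: exponential at the scale of the random fluctuation. -/
theorem lowU68 {d : ℕ} (hd : 0 < d) {ρ : Measure ℝ} [IsProbabilityMeasure ρ] (hρ : EM ρ)
    (hnc : ∀ c : ℝ, ρ {c} ≠ 1) {β : ℝ} (hβ : 0 < β) : ∃ C : ℝ, 1 ≤ C ∧
      ∀ (h : Vec d) (n : ℕ) (P t : ℝ), 1 ≤ P → Fn ρ β h n ≤ P →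
        (law d ρ).real {η | X β h η n ≤ A ρ β h n - t * P} ≤ Real.exp (1 - t / C) := by
  obtain ⟨C, c, hC1, hc0, hC⟩ := deepU5 hd hβ.le (deepCAll5 hρ hnc hβ)
  obtain ⟨K, hK⟩ : ∃ K : ℝ, K = 2 + C + 2 / c := ⟨_, rfl⟩
  have hc2 : 0 < 2 / c := by positivity
  have hK3 : 3 ≤ K := by rw [hK]; linarith
  obtain ⟨C₃, hC₃⟩ : ∃ C₃ : ℝ, C₃ = C * (K + 1) + 2 := ⟨_, rfl⟩
  have hC30 : 1 ≤ C₃ := by rw [hC₃]; nlinarith
  refine ⟨C₃, hC30, fun h n P t hP hF => ?_⟩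
  have hP0 : 0 < P := by linarith
  obtain ⟨q, hq⟩ : ∃ q : ℝ, q = (law d ρ).real {η | X β h η n ≤ A ρ β h n - t * P} := ⟨_, rfl⟩
  rw [← hq]
  have hq0 : 0 ≤ q := by rw [hq]; exact measureReal_nonneg
  have hq1 : q ≤ 1 := by rw [hq]; exact measureReal_le_one
  rcases hq0.eq_or_lt with h0 | h0
  · rw [← h0]
    exact (Real.exp_pos _).le
  have hmX := measurable_X (d := d) β h n
  -- the median
  have h1 := mk68 (ρ := ρ) hd hρ β h n hP0 (show (0 : ℝ) < 1 / 2 by norm_num) hF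
  have h2 : 1 / 4 ≤ (law d ρ).real {η | A ρ β h n - 2 * P < X β h η n} := by
    have h3 : (law d ρ).real {η | X β h η n ≤ A ρ β h n - 2 * P} ≤ 1 / 2 := by
      refine (measureReal_mono fun η hη => ?_).trans h1
      have hη' : X β h η n ≤ A ρ β h n - 2 * P := hη
      show P / (1 / 2) ≤ |X β h η n - A ρ β h n|
      have h4 : P / (1 / 2) = 2 * P := by ring
      rw [h4]
      have := neg_abs_le (X β h η n - A ρ β h n)
      linarith
    have h5 : (law d ρ).real {η | A ρ β h n - 2 * P < X β h η n} =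
        1 - (law d ρ).real {η | X β h η n ≤ A ρ β h n - 2 * P} := by
      rw [← probReal_compl_eq_one_sub (measurableSet_le hmX measurable_const)]
      congr 1
      ext η
      simp
    rw [h5]
    linarith
  have hKP : C ≤ K * P := by
    have : C ≤ K := by rw [hK]; linarith
    nlinarith
  have h6 := hC h n (A ρ β h n - t * P) (A ρ β h n - 2 * P) (K * P) q h0 hq1 hKP
    (le_of_eq hq) h2
  have h7 : ¬ c ≤ (law d ρ).real {η | A ρ β h n - 2 * P + K * P < X β h η n} := by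
    rw [not_le]
    have hk : 0 < c / 2 := by positivity
    have h8 := mk68 (ρ := ρ) hd hρ β h n hP0 hk hF
    have h9 : (law d ρ).real {η | A ρ β h n - 2 * P + K * P < X β h η n} ≤
        (law d ρ).real {η | P / (c / 2) ≤ |X β h η n - A ρ β h n|} := by
      refine measureReal_mono fun η hη => ?_
      have hη' : A ρ β h n - 2 * P + K * P < X β h η n := hη
      show P / (c / 2) ≤ |X β h η n - A ρ β h n|
      have h10 : P / (c / 2) = 2 / c * P := by field_simp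
      have h11 : K * P = 2 * P + C * P + 2 / c * P := by rw [hK]; ring
      have h12 : 0 ≤ C * P := by positivity
      rw [h10]
      exact le_trans (by linarith) (le_abs_self _)
    linarith
  have h13 := h6.resolve_right h7
  obtain ⟨Λ, hΛ⟩ : ∃ Λ : ℝ, Λ = Real.log (1 / q) := ⟨_, rfl⟩
  rw [← hΛ] at h13
  have hΛ0 : 0 ≤ Λ := by
    rw [hΛ]
    exact Real.log_nonneg (by rw [le_div_iff₀ h0]; linarith)
  have hsq : Real.sqrt (1 + Λ) ≤ 1 + Λ := by
    rw [Real.sqrt_le_left (by linarith)]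
    nlinarith
  have h14 : C * (K * P * Real.sqrt (1 + Λ) + (1 + Λ)) ≤ C * (K + 1) * (1 + Λ) * P := by
    have h15 : K * P * Real.sqrt (1 + Λ) ≤ K * P * (1 + Λ) :=
      mul_le_mul_of_nonneg_left hsq (by positivity)
    have h16 : 1 + Λ ≤ (1 + Λ) * P := le_mul_of_one_le_right (by linarith) hP
    have h17 : C * (K + 1) * (1 + Λ) * P = C * (K * P * (1 + Λ) + (1 + Λ) * P) := by ring
    rw [h17]
    exact mul_le_mul_of_nonneg_left (by linarith) (by linarith)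
  have h18 : (t - 2) * P ≤ C * (K + 1) * (1 + Λ) * P := by
    have h19 : A ρ β h n - 2 * P - (A ρ β h n - t * P) = (t - 2) * P := by ring
    rw [h19] at h13
    linarith
  have h20 : t - 2 ≤ C * (K + 1) * (1 + Λ) := le_of_mul_le_mul_right h18 hP0
  have h21 : t ≤ C₃ * (1 + Λ) := by
    rw [hC₃]
    nlinarith
  have h22 : t / C₃ ≤ 1 + Λ := by
    rw [div_le_iff₀ (by linarith)]
    linarith
  have h23 : Λ = -Real.log q := by rw [hΛ, one_div, Real.log_inv]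
  have h24 : Real.log q ≤ 1 - t / C₃ := by linarith
  exact (Real.log_le_iff_le_exp h0).1 h24

/-- The numbers of LOWN. -/
lemma numL68 {η p C : ℝ} (hη : 0 < η) (hC : 0 < C) : ∃ N₀ : ℕ, 1 ≤ N₀ ∧ ∀ N : ℕ, N₀ ≤ N →
    ((N : ℝ) + 1) * Real.exp (1 - ((N : ℝ) ^ η - 1) / C) ≤ (N : ℝ) ^ (-p) / 2 := by
  have h1 := tendsto_rpow_mul_exp_neg_mul_atTop_nhds_zero ((p + 1) / η) (1 / C) (by positivity)
  have h2 : Tendsto (fun N : ℕ => (N : ℝ) ^ η) atTop atTop :=
    (tendsto_rpow_atTop hη).comp tendsto_natCast_atTop_atTop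
  have h3 := (h1.comp h2).eventually (gt_mem_nhds
    (show (0 : ℝ) < 1 / (4 * Real.exp (1 + 1 / C)) by positivity))
  obtain ⟨N₁, hN₁⟩ := eventually_atTop.1 h3
  refine ⟨max N₁ 1, le_max_right _ _, fun N hN => ?_⟩
  have hN1 : N₁ ≤ N := (le_max_left _ _).trans hN
  have hN2 : 1 ≤ N := (le_max_right _ _).trans hN
  have hn : (1 : ℝ) ≤ N := by exact_mod_cast hN2
  have hn0 : (0 : ℝ) < N := by linarith
  have h4 := hN₁ N hN1
  simp only [Function.comp_apply] at h4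
  rw [← Real.rpow_mul hn0.le, mul_div_cancel₀ (p + 1) hη.ne', lt_div_iff₀ (by positivity)] at h4
  have h5 : Real.exp (1 - ((N : ℝ) ^ η - 1) / C) =
      Real.exp (1 + 1 / C) * Real.exp (-(1 / C) * (N : ℝ) ^ η) := by
    rw [← Real.exp_add]
    congr 1
    ring
  have h6 : (N : ℝ) ^ (-p) = (N : ℝ) / (N : ℝ) ^ (p + 1) := by
    rw [Real.rpow_add hn0, Real.rpow_one, Real.rpow_neg hn0.le]
    have : (N : ℝ) ^ p ≠ 0 := (Real.rpow_pos_of_pos hn0 p).ne'
    field_simp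
  have h7 : 0 < (N : ℝ) ^ (p + 1) := Real.rpow_pos_of_pos hn0 _
  rw [h5, h6, div_div, le_div_iff₀ (by positivity)]
  have h8 : 0 < Real.exp (1 + 1 / C) * Real.exp (-(1 / C) * (N : ℝ) ^ η) := by positivity
  have h9 : ((N : ℝ) + 1) * (Real.exp (1 + 1 / C) * Real.exp (-(1 / C) * (N : ℝ) ^ η)) *
      ((N : ℝ) ^ (p + 1) * 2) ≤ (2 * N) * (Real.exp (1 + 1 / C) *
        Real.exp (-(1 / C) * (N : ℝ) ^ η)) * ((N : ℝ) ^ (p + 1) * 2) := by
    refine mul_le_mul_of_nonneg_right (mul_le_mul_of_nonneg_right (by linarith) h8.le)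
      (by positivity)
  refine h9.trans ?_
  have h10 : (2 * N) * (Real.exp (1 + 1 / C) * Real.exp (-(1 / C) * (N : ℝ) ^ η)) *
      ((N : ℝ) ^ (p + 1) * 2) = N * ((N : ℝ) ^ (p + 1) * Real.exp (-(1 / C) * (N : ℝ) ^ η) *
        (4 * Real.exp (1 + 1 / C))) := by ring
  rw [h10]
  have h11 := mul_le_mul_of_nonneg_left h4.le hn0.le
  linarith

/-- **Leaf LOWN, every law.** -/
theorem lowN68 {d : ℕ} (hd : 0 < d) {ρ : Measure ℝ} [IsProbabilityMeasure ρ] (hρ : EM ρ)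
    (hnc : ∀ c : ℝ, ρ {c} ≠ 1) {β : ℝ} (hβ : 0 < β) : LowN d ρ β := by
  obtain ⟨C, hC1, hC⟩ := lowU68 hd hρ hnc hβ
  intro η p hη hp
  obtain ⟨N₀, hN₀1, hN₀⟩ := numL68 (p := p) hη (show 0 < C by linarith)
  refine ⟨N₀, fun h N P hN hP hD => ?_⟩
  have hsub : {ξ : Env d | ∃ n : ℕ, N ≤ n ∧ n ≤ 2 * N ∧
      X β h ξ n < n * lam ρ β h - (N : ℝ) ^ η * P} ⊆
      ⋃ n ∈ Finset.Icc N (2 * N), {ξ : Env d | X β h ξ n ≤
        A ρ β h n - ((N : ℝ) ^ η - 1) * P} := by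
    intro ξ hξ
    obtain ⟨n, hn1, hn2, hn3⟩ := hξ
    refine Set.mem_iUnion₂.2 ⟨n, Finset.mem_Icc.2 ⟨hn1, hn2⟩, ?_⟩
    show X β h ξ n ≤ A ρ β h n - ((N : ℝ) ^ η - 1) * P
    have h1 : (n : ℝ) * lam ρ β h - A ρ β h n ≤ P := (hD n hn2).2
    have h2 : ((N : ℝ) ^ η - 1) * P = (N : ℝ) ^ η * P - P := by ring
    rw [h2]
    linarith
  refine (measureReal_mono hsub (measure_ne_top _ _)).trans
    ((measureReal_biUnion_finset_le _ _).trans ?_)
  refine (Finset.sum_le_card_nsmul _ _ _ fun n hn =>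
    hC h n P ((N : ℝ) ^ η - 1) hP (hD n (Finset.mem_Icc.1 hn).2).1).trans ?_
  rw [nsmul_eq_mul, Nat.card_Icc]
  have h3 : ((2 * N + 1 - N : ℕ) : ℝ) = (N : ℝ) + 1 := by
    have : 2 * N + 1 - N = N + 1 := by omega
    rw [this]
    push_cast
    ring
  rw [h3]
  exact hN₀ N hN

end Pool.Agent.W_7d29a1_KP
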