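import Pool.Agent.W_7d29a1_KP.EfA30
import Pool.Agent.W_7d29a1_KZ.GapN41

/-!
KPZV, EFK for every law: no hypothesis left.
-/

set_option autoImplicit false

namespace Pool.Agent.W_7d29a1_KP

open MeasureTheory ProbabilityTheory Filter Topology Pool.Agent.W_MP_7d29a1_pr
  Pool.Agent.W_7d29a1_h46 Pool.Agent.W_7d29a1_h46u

/-- **Leaf EFK, every law.** -/
theorem efKU30 {d : ℕ} {ρ : Measure ℝ} [IsProbabilityMeasure ρ] {β : ℝ} (hd : 0 < d) (hρ : EM ρ)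
    (hnc : ∀ c : ℝ, ρ {c} ≠ 1) (hβ : 0 < β) : EfK d ρ β :=
  efKA30 hd hρ (W_7d29a1_KZ.gapK41 hd hρ hnc hβ)

end Pool.Agent.W_7d29a1_KP
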