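import Pool.Agent.W_7d29a1_KP.DefsKP89
import Pool.Agent.W_7d29a1_D2.Dens21
import Pool.Agent.W_7d29a1_D2.Dich31
import Pool.Agent.W_7d29a1_SP.Bas15

/-!
Theorem KPZV, leaf ParK (second text, helper16): slope, upper parabola and neighbours at almost
every tilt.
-/

namespace Pool.Agent.W_7d29a1_KP

open MeasureTheory ProbabilityTheory Filter Topology Pool.Agent.W_MP_7d29a1_pr
  Pool.Agent.W_7d29a1_h46 Pool.Agent.W_7d29a1_h46u Pool.Agent.W_7d29a1_D2.B35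
  Pool.Agent.W_7d29a1_Q29 Pool.Agent.W_7d29a1_R34 Pool.Agent.W_7d29a1_SP Pool.Agent.W_7d29a1_SD
  Pool.Agent.W_7d29a1_SQ Pool.Agent.W_7d29a1_KZ Pool.Agent.W_7d29a1_D2

variable {d : ℕ} {ρ : Measure ℝ} [IsProbabilityMeasure ρ]

omit [IsProbabilityMeasure ρ] in
lemma mo_one16 (β : ℝ) (n : ℕ) (h : Vec d) : mo21 ρ β 1 n h = Fn ρ β h n := by
  unfold mo21 Fn
  simp only [pow_one]

lemma norm_uv16 (j : Fin d) : ‖(uv j : Vec d)‖ = 1 := by
  unfold uv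
  simp

/-- **Leaf ParK.** -/
theorem parK16 (hd : 0 < d) (hρ : EM ρ) (β : ℝ) : ParK d ρ β := by
  have h1 : ∀ z : ℚ, ∀ C : ℕ, ∀ᵐ h : Vec d, h ∈ (St21 ρ β (z : ℝ) 1 C : Set (Vec d)) →
      ∀ ε > 0, ∃ δ > 0, ∀ r : Vec d, 0 < ‖r‖ → ‖r‖ < δ →
        ∃ k ∈ (St21 ρ β (z : ℝ) 1 C : Set (Vec d)), ‖k - (h + r)‖ ≤ ε * ‖r‖ := by
    intro z C
    exact (ae_restrict_iff' (closed_St21 hd hρ β (z : ℝ) 1 C).measurableSet).1
      (dens_pts21 (St21 ρ β (z : ℝ) 1 C))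
  have h2 : ∀ᵐ h : Vec d, ∀ z : ℚ, ∀ C : ℕ, h ∈ (St21 ρ β (z : ℝ) 1 C : Set (Vec d)) →
      ∀ ε > 0, ∃ δ > 0, ∀ r : Vec d, 0 < ‖r‖ → ‖r‖ < δ →
        ∃ k ∈ (St21 ρ β (z : ℝ) 1 C : Set (Vec d)), ‖k - (h + r)‖ ≤ ε * ‖r‖ :=
    ae_all_iff.2 fun z => ae_all_iff.2 fun C => h1 z C
  have hconv := lam_convex (ρ := ρ) hd hρ β
  filter_upwards [h2, ae_upp hconv] with h hh hu
  obtain ⟨v, C, hC0, δ, hδ, hC⟩ := hu
  have hsub := Dich31.sub_of_upp hconv hC0 hδ hC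
  refine ⟨v, C + 1, δ, by linarith, hδ, hsub, fun k hk => ?_, ?_⟩
  · have e1 := hC k hk
    have e2 : 0 ≤ ‖k‖ ^ 2 := sq_nonneg _
    linarith
  · intro x hx hF x' hxx' κ hκ
    obtain ⟨z, hz1, hz2⟩ := exists_rat_btwn hxx'
    obtain ⟨k₀, hk₀⟩ := eventually_atTop.1 hF
    obtain ⟨K, hK⟩ := exists_nat_ge (1 + ∑ k ∈ Finset.range k₀, Fn ρ β h k)
    have hmem : h ∈ (St21 ρ β (z : ℝ) 1 K : Set (Vec d)) := by
      intro n hn
      rw [mo_one16]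
      have hn1 : (1 : ℝ) ≤ n := by exact_mod_cast hn
      have hz0 : 0 ≤ (z : ℝ) := by linarith
      have hp : 1 ≤ (n : ℝ) ^ ((z : ℝ) * ((1 : ℕ) : ℝ)) :=
        Real.one_le_rpow hn1 (by simpa using hz0)
      have hs : 0 ≤ ∑ k ∈ Finset.range k₀, Fn ρ β h k :=
        Finset.sum_nonneg fun k _ => Fn_nonneg15 β h k
      rcases lt_or_ge n k₀ with e | e
      · have e1 : Fn ρ β h n ≤ ∑ k ∈ Finset.range k₀, Fn ρ β h k :=
          Finset.single_le_sum (f := fun k => Fn ρ β h k) (fun k _ => Fn_nonneg15 β h k)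
            (Finset.mem_range.2 e)
        have e2 : (K : ℝ) ≤ K * (n : ℝ) ^ ((z : ℝ) * ((1 : ℕ) : ℝ)) :=
          le_mul_of_one_le_right (Nat.cast_nonneg _) hp
        linarith
      · have e1 := hk₀ n e
        have e2 : (n : ℝ) ^ x ≤ (n : ℝ) ^ ((z : ℝ) * ((1 : ℕ) : ℝ)) := by
          refine Real.rpow_le_rpow_of_exponent_le hn1 ?_
          rw [Nat.cast_one, mul_one]
          exact hz1.le
        have hK1 : (1 : ℝ) ≤ K := by linarith
        calc Fn ρ β h n ≤ (n : ℝ) ^ ((z : ℝ) * ((1 : ℕ) : ℝ)) := e1.trans e2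
          _ ≤ K * (n : ℝ) ^ ((z : ℝ) * ((1 : ℕ) : ℝ)) :=
              le_mul_of_one_le_left (by linarith) hK1
    obtain ⟨δ', hδ', hdens⟩ := hh z K hmem κ hκ
    refine ⟨K, δ' / 2, by linarith, fun r hr hrδ j s hs => ?_⟩
    have hnorm : ‖(s * r) • (uv j : Vec d)‖ = r := by
      rw [norm_smul, norm_uv16, mul_one, Real.norm_eq_abs, abs_mul]
      have : |s| = 1 := by
        rcases hs with e | e <;> rw [e] <;> simp
      rw [this, one_mul, abs_of_pos hr]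
    obtain ⟨g, hg1, hg2⟩ := hdens ((s * r) • (uv j : Vec d)) (by rw [hnorm]; exact hr)
      (by rw [hnorm]; linarith)
    refine ⟨g, ?_, fun k => ?_⟩
    · rw [hnorm] at hg2
      rw [sub_sub]
      exact hg2
    · rcases Nat.eq_zero_or_pos k with e | e
      · rw [e, Fn_zero15]
        exact mul_nonneg (Nat.cast_nonneg _) (Real.rpow_nonneg (Nat.cast_nonneg _) _)
      · have e1 := hg1 k e
        rw [mo_one16] at e1
        have hk1 : (1 : ℝ) ≤ k := by exact_mod_cast e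
        refine e1.trans (mul_le_mul_of_nonneg_left ?_ (Nat.cast_nonneg _))
        refine Real.rpow_le_rpow_of_exponent_le hk1 ?_
        rw [Nat.cast_one, mul_one]
        exact hz2.le

end Pool.Agent.W_7d29a1_KP
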