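import Pool.Agent.W_7d29a1_SP.DefsSP
import Pool.Agent.W_7d29a1_R34.Tail13

/-!
One far site is unlikely to be heavy (helper95): the single point bound of KPZV.
-/

set_option autoImplicit false

namespace Pool.Agent.W_7d29a1_KP

open MeasureTheory ProbabilityTheory Filter Topology Pool.Agent.W_MP_7d29a1_pr
  Pool.Agent.W_7d29a1_h46 Pool.Agent.W_7d29a1_h46u Pool.Agent.W_7d29a1_D2.B35
  Pool.Agent.W_7d29a1_Q29 Pool.Agent.W_7d29a1_R34 Pool.Agent.W_7d29a1_SP

variable {d : ℕ} {ρ : Measure ℝ}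

/-- A coordinate direction in which a vector is long. -/
lemma dir95 (hd : 0 < d) (w : Vec d) : ∃ (j : Fin d) (s : ℝ), (s = 1 ∨ s = -1) ∧
    ‖w‖ / Real.sqrt d ≤ s * w j := by
  have : Nonempty (Fin d) := ⟨⟨0, hd⟩⟩
  have hd0 : (0 : ℝ) < d := by exact_mod_cast hd
  obtain ⟨j, -, hj⟩ := Finset.exists_max_image (Finset.univ : Finset (Fin d)) (fun j => |w j|)
    Finset.univ_nonempty
  have h1 : ‖w‖ ^ 2 ≤ d * |w j| ^ 2 := by
    rw [EuclideanSpace.norm_sq_eq]
    calc ∑ i, ‖w i‖ ^ 2 ≤ ∑ _i : Fin d, |w j| ^ 2 := by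
          refine Finset.sum_le_sum fun i _ => ?_
          rw [Real.norm_eq_abs]
          exact pow_le_pow_left₀ (abs_nonneg _) (hj i (Finset.mem_univ i)) 2
      _ = d * |w j| ^ 2 := by simp
  have h2 : ‖w‖ ≤ Real.sqrt d * |w j| := by
    have h3 : ‖w‖ = Real.sqrt (‖w‖ ^ 2) := (Real.sqrt_sq (norm_nonneg w)).symm
    rw [h3]
    calc Real.sqrt (‖w‖ ^ 2) ≤ Real.sqrt (d * |w j| ^ 2) := Real.sqrt_le_sqrt h1
      _ = Real.sqrt d * |w j| := by
          rw [Real.sqrt_mul hd0.le, Real.sqrt_sq (abs_nonneg _)]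
  have h3 : ‖w‖ / Real.sqrt d ≤ |w j| := by
    rw [div_le_iff₀ (Real.sqrt_pos.2 hd0)]
    linarith
  rcases le_total 0 (w j) with h0 | h0
  · refine ⟨j, 1, Or.inl rfl, ?_⟩
    rw [one_mul]
    rwa [abs_of_nonneg h0] at h3
  · refine ⟨j, -1, Or.inr rfl, ?_⟩
    rw [neg_one_mul]
    rwa [abs_of_nonpos h0] at h3

/-- The inner product with a tilt near an axis. -/
lemma inn95 {w z : Vec d} {j : Fin d} {s r a : ℝ} (hr : 0 ≤ r)
    (hj : a ≤ s * w j) (hz : ‖z - (s * r) • ej j‖ * ‖w‖ ≤ r * a / 4) :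
    3 / 4 * (r * a) ≤ inner ℝ z w := by
  have h1 : inner ℝ z w = inner ℝ (z - (s * r) • ej j) w + (s * r) * w j := by
    rw [inner_sub_left, inner_smul_left]
    have h2 : inner ℝ (ej j) w = w j := by
      unfold ej
      rw [EuclideanSpace.inner_single_left]
      simp
    rw [h2]
    simp
  have h2 := abs_real_inner_le_norm (z - (s * r) • ej j) w
  have h3 := (abs_le.1 h2).1
  have h4 : r * a ≤ (s * r) * w j := by
    calc r * a ≤ r * (s * w j) := mul_le_mul_of_nonneg_left hj hr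
      _ = (s * r) * w j := by ring
  rw [h1]
  linarith

/-- The numbers. -/
lemma num95 {M q n r R D : ℝ} (hM : 0 < M) (hq : 0 < q) (hn : 0 < n)
    (hr : r = R / (16 * M * q * n)) (hD : D = q * q) :
    M * n * (5 / 4 * r) ^ 2 + R ^ 2 / (32 * M * D * n) ≤ 3 / 4 * (r * (R / q)) := by
  have e1 : M * n * (5 / 4 * r) ^ 2 = 25 / 4096 * (R ^ 2 / (M * D * n)) := by
    rw [hr, hD]
    field_simp
    ring
  have e2 : 3 / 4 * (r * (R / q)) = 3 / 64 * (R ^ 2 / (M * D * n)) := by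
    rw [hr, hD]
    field_simp
    ring
  have e3 : R ^ 2 / (32 * M * D * n) = 1 / 32 * (R ^ 2 / (M * D * n)) := by
    rw [hD]
    field_simp
  have h0 : 0 ≤ R ^ 2 / (M * D * n) := by
    rw [hD]
    positivity
  rw [e1, e2, e3]
  linarith

variable [IsProbabilityMeasure ρ]

/-- Markov for the first absolute moment. -/
lemma mkv95 (hd : 0 < d) (hρ : EM ρ) (β : ℝ) (h : Vec d) (n : ℕ) {P : ℝ} (hP : 0 < P)
    (hF : Fn ρ β h n ≤ P) :
    (law d ρ).real {η | A ρ β h n + 8 * P < X β h η n} ≤ 1 / 8 := by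
  have hi : Integrable (fun η => X β h η n - A ρ β h n) (law d ρ) :=
    (concU hd hρ β h n).1.sub (integrable_const _)
  have h1 := mul_meas_ge_le_integral_of_nonneg (μ := law d ρ)
    (f := fun η => |X β h η n - A ρ β h n|) (Eventually.of_forall fun η => abs_nonneg _)
    hi.abs (8 * P)
  have h2 : (law d ρ).real {η | A ρ β h n + 8 * P < X β h η n} ≤
      (law d ρ).real {η | 8 * P ≤ |X β h η n - A ρ β h n|} := by
    refine measureReal_mono (fun η hη => ?_) (measure_ne_top _ _)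
    have h3 : A ρ β h n + 8 * P < X β h η n := hη
    show 8 * P ≤ |X β h η n - A ρ β h n|
    refine le_trans ?_ (le_abs_self _)
    linarith
  refine h2.trans ?_
  have h3 : ∫ η, |X β h η n - A ρ β h n| ∂(law d ρ) ≤ P := hF
  rw [le_div_iff₀ (by norm_num : (0 : ℝ) < 8)]
  have h4 : (8 * P) * (law d ρ).real {η | 8 * P ≤ |X β h η n - A ρ β h n|} ≤ P := h1.trans h3
  nlinarith

/-- **SIN.** One far site is unlikely to be heavy. -/
theorem sin95 (hd : 0 < d) (hρ : EM ρ) {β : ℝ} {h v : Vec d} {M P r R : ℝ} {n i : ℕ}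
    {y : Site d} (hi : i ≤ n) (hn : 1 ≤ n) (hM : 0 < M) (hP : 0 < P) (hR : 0 < R)
    (hr : r = R / (16 * M * Real.sqrt d * n))
    (hF : ∀ k : ℕ, k ≤ n → Fn ρ β h k ≤ P)
    (hden : ∀ (j : Fin d) (s : ℝ), (s = 1 ∨ s = -1) → ∃ z : Vec d,
      ‖z - (s * r) • ej j‖ ≤ r / (4 * Real.sqrt d) ∧ (∀ k : ℕ, k ≤ n → Fn ρ β (h + z) k ≤ P) ∧
      lam ρ β (h + z) ≤ lam ρ β h + inner ℝ v z + M * ‖z‖ ^ 2)
    (hy : R ≤ ‖emb y - (i : ℝ) • v‖) :
    (law d ρ).real {η | Real.exp (n * lam ρ β h - R ^ 2 / (32 * M * d * n) + 16 * P) <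
      PP β h η i y * Z β h (sh i y η) (n - i)} ≤ 1 / 4 := by
  have hd0 : (0 : ℝ) < d := by exact_mod_cast hd
  have hn0 : (0 : ℝ) < n := by exact_mod_cast hn
  have hq0 : 0 < Real.sqrt d := Real.sqrt_pos.2 hd0
  have hq1 : 1 ≤ Real.sqrt d := by
    rw [Real.one_le_sqrt]
    exact_mod_cast hd
  have hqq : Real.sqrt d * Real.sqrt d = d := Real.mul_self_sqrt hd0.le
  have hr0 : 0 < r := by
    rw [hr]
    positivity
  obtain ⟨w, hw⟩ : ∃ w : Vec d, w = emb y - (i : ℝ) • v := ⟨_, rfl⟩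
  rw [← hw] at hy
  obtain ⟨j, s, hs, hj⟩ := dir95 hd w
  obtain ⟨z, hz, hFz, hcz⟩ := hden j s hs
  have hin : 3 / 4 * (r * (‖w‖ / Real.sqrt d)) ≤ inner ℝ z w := by
    refine inn95 hr0.le hj ?_
    calc ‖z - (s * r) • ej j‖ * ‖w‖ ≤ r / (4 * Real.sqrt d) * ‖w‖ :=
          mul_le_mul_of_nonneg_right hz (norm_nonneg w)
      _ = r * (‖w‖ / Real.sqrt d) / 4 := by
          field_simp
  have hin2 : 3 / 4 * (r * (R / Real.sqrt d)) ≤ inner ℝ z w := by
    refine le_trans ?_ hin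
    have h1 : R / Real.sqrt d ≤ ‖w‖ / Real.sqrt d := div_le_div_of_nonneg_right hy hq0.le
    have h2 : r * (R / Real.sqrt d) ≤ r * (‖w‖ / Real.sqrt d) :=
      mul_le_mul_of_nonneg_left h1 hr0.le
    linarith
  have hzn : ‖z‖ ≤ 5 / 4 * r := by
    have h1 : ‖(s * r) • (ej j : Vec d)‖ = r := by
      rw [norm_smul, Real.norm_eq_abs, abs_mul, abs_of_pos hr0]
      have h2 : |s| = 1 := by
        rcases hs with rfl | rfl
        · exact abs_one
        · rw [abs_neg, abs_one]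
      have h3 : ‖(ej j : Vec d)‖ = 1 := by
        unfold ej
        simp
      rw [h2, h3]
      ring
    have h2 : ‖z‖ ≤ ‖z - (s * r) • ej j‖ + ‖(s * r) • (ej j : Vec d)‖ := by
      have := norm_add_le (z - (s * r) • ej j) ((s * r) • ej j)
      rwa [sub_add_cancel] at this
    have h3 : r / (4 * Real.sqrt d) ≤ r / 4 := by
      refine div_le_div_of_nonneg_left hr0.le (by norm_num) ?_
      linarith
    rw [h1] at h2
    linarith
  -- the numbers
  have hnum : M * n * (5 / 4 * r) ^ 2 + R ^ 2 / (32 * M * d * n) ≤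
      3 / 4 * (r * (R / Real.sqrt d)) := num95 hM hq0 hn0 hr hqq.symm
  have hA1 : A ρ β (h + z) i ≤ i * lam ρ β h + inner ℝ z ((i : ℝ) • v) + M * n * (5 / 4 * r) ^ 2 := by
    have h1 := A_le_lam hd hρ β (h + z) i
    have h2 : (i : ℝ) * lam ρ β (h + z) ≤ i * (lam ρ β h + inner ℝ v z + M * ‖z‖ ^ 2) :=
      mul_le_mul_of_nonneg_left hcz (Nat.cast_nonneg i)
    have h3 : inner ℝ z ((i : ℝ) • v) = i * inner ℝ v z := by
      rw [inner_smul_right, real_inner_comm]
    have h4 : (i : ℝ) * (M * ‖z‖ ^ 2) ≤ M * n * (5 / 4 * r) ^ 2 := by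
      have h5 : ‖z‖ ^ 2 ≤ (5 / 4 * r) ^ 2 := pow_le_pow_left₀ (norm_nonneg z) hzn 2
      have h6 : (i : ℝ) ≤ n := by exact_mod_cast hi
      calc (i : ℝ) * (M * ‖z‖ ^ 2) ≤ n * (M * (5 / 4 * r) ^ 2) := by
            refine mul_le_mul h6 (mul_le_mul_of_nonneg_left h5 hM.le) (by positivity) hn0.le
        _ = M * n * (5 / 4 * r) ^ 2 := by ring
    rw [h3]
    linarith
  have hA2 : A ρ β h (n - i) ≤ n * lam ρ β h - i * lam ρ β h := by
    have h1 := A_le_lam hd hρ β h (n - i)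
    rw [Nat.cast_sub hi] at h1
    linarith
  have hsub : {η | Real.exp (n * lam ρ β h - R ^ 2 / (32 * M * d * n) + 16 * P) <
      PP β h η i y * Z β h (sh i y η) (n - i)} ⊆
      {η | A ρ β (h + z) i + 8 * P < X β (h + z) η i} ∪
        (sh i y) ⁻¹' {η | A ρ β h (n - i) + 8 * P < X β h η (n - i)} := by
    intro η hη
    have h1 : Real.exp (n * lam ρ β h - R ^ 2 / (32 * M * d * n) + 16 * P) <
      PP β h η i y * Z β h (sh i y η) (n - i) := hη
    by_contra hcon
    rw [Set.mem_union, not_or] at hcon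
    have h2 : X β (h + z) η i ≤ A ρ β (h + z) i + 8 * P := not_lt.1 hcon.1
    have h3 : X β h (sh i y η) (n - i) ≤ A ρ β h (n - i) + 8 * P := not_lt.1 hcon.2
    have h4 : PP β h η i y ≤ Real.exp (X β (h + z) η i - inner ℝ z (emb y)) := by
      have h5 : PP β (h + z) η i y ≤ Z β (h + z) η i := PP_le_Z _ _ _ _ _
      rw [PP_tilt, TubV_exp hd β (h + z) η i] at h5
      have h6 : PP β h η i y = Real.exp (-inner ℝ z (emb y)) *
          (Real.exp (inner ℝ z (emb y)) * PP β h η i y) := by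
        rw [← mul_assoc, ← Real.exp_add]
        simp
      rw [h6]
      calc Real.exp (-inner ℝ z (emb y)) * (Real.exp (inner ℝ z (emb y)) * PP β h η i y) ≤
          Real.exp (-inner ℝ z (emb y)) * Real.exp (X β (h + z) η i) :=
            mul_le_mul_of_nonneg_left h5 (Real.exp_pos _).le
        _ = Real.exp (X β (h + z) η i - inner ℝ z (emb y)) := by
            rw [← Real.exp_add]
            ring_nf
    have h5 : Z β h (sh i y η) (n - i) = Real.exp (X β h (sh i y η) (n - i)) :=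
      TubV_exp hd β h (sh i y η) (n - i)
    have h6 : PP β h η i y * Z β h (sh i y η) (n - i) ≤
        Real.exp (X β (h + z) η i - inner ℝ z (emb y) + X β h (sh i y η) (n - i)) := by
      rw [Real.exp_add, h5]
      exact mul_le_mul_of_nonneg_right h4 (Real.exp_pos _).le
    have h7 := h1.trans_le h6
    rw [Real.exp_lt_exp] at h7
    have h8 : inner ℝ z (emb y) = inner ℝ z w + inner ℝ z ((i : ℝ) • v) := by
      rw [hw, inner_sub_right]
      ring
    rw [h8] at h7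
    linarith
  calc (law d ρ).real {η | Real.exp (n * lam ρ β h - R ^ 2 / (32 * M * d * n) + 16 * P) <
      PP β h η i y * Z β h (sh i y η) (n - i)}
      ≤ (law d ρ).real ({η | A ρ β (h + z) i + 8 * P < X β (h + z) η i} ∪
        (sh i y) ⁻¹' {η | A ρ β h (n - i) + 8 * P < X β h η (n - i)}) :=
        measureReal_mono hsub (measure_ne_top _ _)
    _ ≤ (law d ρ).real {η | A ρ β (h + z) i + 8 * P < X β (h + z) η i} +
        (law d ρ).real ((sh i y) ⁻¹' {η | A ρ β h (n - i) + 8 * P < X β h η (n - i)}) :=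
        measureReal_union_le _ _
    _ ≤ 1 / 8 + 1 / 8 := by
        refine add_le_add (mkv95 hd hρ β (h + z) i hP (hFz i hi)) ?_
        have hm : MeasurableSet {η : Env d | A ρ β h (n - i) + 8 * P < X β h η (n - i)} :=
          measurableSet_lt measurable_const (measurable_X β h (n - i))
        have h1 : (law d ρ).real ((sh i y) ⁻¹' {η | A ρ β h (n - i) + 8 * P < X β h η (n - i)}) =
            (law d ρ).real {η | A ρ β h (n - i) + 8 * P < X β h η (n - i)} := by
          rw [measureReal_def, measureReal_def,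
            (mp_sh (ρ := ρ) i y).measure_preimage hm.nullMeasurableSet]
        rw [h1]
        exact mkv95 hd hρ β h (n - i) hP (hF (n - i) (Nat.sub_le n i))
    _ = 1 / 4 := by norm_num

end Pool.Agent.W_7d29a1_KP
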