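import Pool.Agent.W_7d29a1_KP.DefsKP89
import Pool.Agent.W_7d29a1_KP.Sin95
import Pool.Agent.W_7d29a1_Q29.Site39

/-!
The leaf SIN of KPZV (helper95).
-/

set_option autoImplicit false

namespace Pool.Agent.W_7d29a1_KP

open MeasureTheory ProbabilityTheory Filter Topology Pool.Agent.W_MP_7d29a1_pr
  Pool.Agent.W_7d29a1_h46 Pool.Agent.W_7d29a1_h46u Pool.Agent.W_7d29a1_D2.B35
  Pool.Agent.W_7d29a1_Q29 Pool.Agent.W_7d29a1_R34 Pool.Agent.W_7d29a1_SP

variable {d : ℕ} {ρ : Measure ℝ}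

/-- The walks which are at `y` at the time `i`. -/
lemma at95 (β : ℝ) (h : Vec d) (η : Env d) {n i : ℕ} (hi : i ≤ n) {y : Site d}
    {E : Set (Fin n → Step d)} (hE : ∀ s ∈ E, pos s i = y) :
    ZT β h η E ≤ PP β h η i y * Z β h (sh i y η) (n - i) := by
  classical
  obtain ⟨k, rfl⟩ := Nat.exists_eq_add_of_le hi
  rw [Nat.add_sub_cancel_left, s39_through]
  unfold ZT
  refine Finset.sum_le_sum fun s _ => ?_
  by_cases hs : s ∈ E
  · rw [if_pos hs, if_pos (hE s hs)]
  · rw [if_neg hs]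
    split_ifs
    · exact (wgt_pos _ _ _ _).le
    · exact le_rfl

/-- **SIN.** -/
theorem sinK95 [IsProbabilityMeasure ρ] (hd : 0 < d) (hρ : EM ρ) {β : ℝ} : SinK d ρ β := by
  intro h v n M P R r hn hM hP hR hr hD i y E hi hne hE hy u hu
  have hd0 : (0 : ℝ) < d := by exact_mod_cast hd
  have hn0 : (0 : ℝ) < n := by exact_mod_cast hn
  have hq0 : 0 < Real.sqrt d := Real.sqrt_pos.2 hd0
  have hr' : r = R / (16 * M * Real.sqrt d * n) := by
    rw [eq_div_iff (by positivity)]
    linarith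
  obtain ⟨e, he⟩ : ∃ e, e = (u - (n * lam ρ β h - R ^ 2 / (32 * M * d * n) + 16 * P)) / 32 :=
    ⟨_, rfl⟩
  have he0 : 0 < e := by
    rw [he]
    linarith
  have h1 := sin95 (ρ := ρ) (β := β) (h := h) (v := v) (M := M) (P := P + e) (r := r) (R := R)
    (y := y) hd hρ hi hn hM (by linarith) hR hr'
    (fun k hk => ((hD.fl k hk).1).trans (by linarith))
    (fun j s hs => by
      obtain ⟨g, hg1, hg2, hg3⟩ := hD.pa j s hs
      refine ⟨g - h, hg1, fun k hk => ?_, ?_⟩
      · rw [add_sub_cancel]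
        exact (hg2 k hk).trans (by linarith)
      · rw [add_sub_cancel]
        exact hg3)
    hy.le
  have h2 : (law d ρ).real {η | u ≤ Real.log (ZT β h η E)} ≤
      (law d ρ).real {η | Real.exp (n * lam ρ β h - R ^ 2 / (32 * M * d * n) + 16 * (P + e)) <
      PP β h η i y * Z β h (sh i y η) (n - i)} := by
    refine measureReal_mono (fun η hη => ?_) (measure_ne_top _ _)
    have h3 : u ≤ Real.log (ZT β h η E) := hη
    have h4 : Real.exp u ≤ ZT β h η E := (Real.le_log_iff_exp_le (ZT_pos β h η hne)).1 h3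
    have h5 : n * lam ρ β h - R ^ 2 / (32 * M * d * n) + 16 * (P + e) < u := by
      have h6 : 32 * e = u - (n * lam ρ β h - R ^ 2 / (32 * M * d * n) + 16 * P) := by
        rw [he]
        ring
      linarith
    exact (Real.exp_lt_exp.2 h5).trans_le (h4.trans (at95 β h η hi hE))
  linarith

end Pool.Agent.W_7d29a1_KP
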