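import Pool.Agent.W_7d29a1_KP.DefsKO62
import Pool.Agent.W_7d29a1_PL.Push78

/-!
Theorem KPZO, leaf MAXX: a large weight of the walks which leave the tube is continued to the end
of the window (helper78).
-/

namespace Pool.Agent.W_7d29a1_KP

open MeasureTheory ProbabilityTheory Filter Topology Pool.Agent.W_MP_7d29a1_pr
  Pool.Agent.W_7d29a1_h46 Pool.Agent.W_7d29a1_h46u Pool.Agent.W_7d29a1_D2.B35
  Pool.Agent.W_7d29a1_Q29 Pool.Agent.W_7d29a1_R34 Pool.Agent.W_7d29a1_SP Pool.Agent.W_7d29a1_SD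
  Pool.Agent.W_7d29a1_SQ Pool.Agent.W_7d29a1_KZ

namespace MX78

open Pool.Agent.W_7d29a1_SP.C79 Pool.Agent.W_7d29a1_PL.P78

variable {d : ℕ}

open Classical in
/-- The weight of a walk of the set `E`. -/
noncomputable def wE (β : ℝ) (h : Vec d) {s : ℕ} (E : Set (Fin s → Step d))
    (w : Fin s → Step d) (η : Env d) : ℝ := if w ∈ E then wgt β h η w else 0

/-- The Gibbs weight in the set `E`. -/
noncomputable def pE (β : ℝ) (h : Vec d) {s : ℕ} (E : Set (Fin s → Step d))
    (w : Fin s → Step d) (η : Env d) : ℝ := wE β h E w η / ZT β h η E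

lemma ZT_eq (β : ℝ) (h : Vec d) {s : ℕ} (E : Set (Fin s → Step d)) (η : Env d) :
    ZT β h η E = ∑ w, wE β h E w η := rfl

lemma wE_nn (β : ℝ) (h : Vec d) {s : ℕ} (E : Set (Fin s → Step d)) (w : Fin s → Step d)
    (η : Env d) : 0 ≤ wE β h E w η := by
  unfold wE
  split_ifs
  · exact (wgt_pos β h η w).le
  · exact le_rfl

lemma wE_meas (β : ℝ) (h : Vec d) {s : ℕ} (E : Set (Fin s → Step d)) (w : Fin s → Step d) :
    Measurable (wE β h E w) := by
  by_cases hw : w ∈ E
  · have : wE β h E w = fun η => wgt β h η w := by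
      funext η
      unfold wE
      rw [if_pos hw]
    rw [this]
    exact measurable_wgt β h w
  · have : wE β h E w = fun _ => 0 := by
      funext η
      unfold wE
      rw [if_neg hw]
    rw [this]
    exact measurable_const

lemma ZT_meas (β : ℝ) (h : Vec d) {s : ℕ} (E : Set (Fin s → Step d)) :
    Measurable fun η : Env d => ZT β h η E := by
  simp only [ZT_eq]
  exact Finset.measurable_fun_sum _ fun w _ => wE_meas β h E w

lemma ZT_nn (β : ℝ) (h : Vec d) {s : ℕ} (E : Set (Fin s → Step d)) (η : Env d) :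
    0 ≤ ZT β h η E := by
  rw [ZT_eq]
  exact Finset.sum_nonneg fun w _ => wE_nn β h E w η

lemma ZT_pos' (β : ℝ) (h : Vec d) {s : ℕ} {E : Set (Fin s → Step d)} (hE : E.Nonempty)
    (η : Env d) : 0 < ZT β h η E := by
  obtain ⟨w, hw⟩ := hE
  rw [ZT_eq]
  refine lt_of_lt_of_le ?_ (Finset.single_le_sum (f := fun w => wE β h E w η)
    (fun r _ => wE_nn β h E r η) (Finset.mem_univ w))
  unfold wE
  rw [if_pos hw]
  exact wgt_pos β h η w

lemma wE_dep (β : ℝ) (h : Vec d) {s : ℕ} (E : Set (Fin s → Step d)) (w : Fin s → Step d) :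
    DependsOn (wE β h E w) (Pa d s) := by
  intro η η' hη
  have h1 : energy η w = energy η' w := by
    unfold energy
    refine Finset.sum_congr rfl fun i _ => hη _ ?_
    exact i.2
  unfold wE wgt
  rw [h1]

lemma ZT_dep (β : ℝ) (h : Vec d) {s : ℕ} (E : Set (Fin s → Step d)) :
    DependsOn (fun η : Env d => ZT β h η E) (Pa d s) := by
  intro η η' hη
  simp only [ZT_eq]
  exact Finset.sum_congr rfl fun w _ => wE_dep β h E w hη

lemma pE_nn (β : ℝ) (h : Vec d) {s : ℕ} (E : Set (Fin s → Step d)) (w : Fin s → Step d)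
    (η : Env d) : 0 ≤ pE β h E w η := div_nonneg (wE_nn β h E w η) (ZT_nn β h E η)

lemma pE_sum (β : ℝ) (h : Vec d) {s : ℕ} {E : Set (Fin s → Step d)} (hE : E.Nonempty)
    (η : Env d) : ∑ w, pE β h E w η = 1 := by
  unfold pE
  rw [← Finset.sum_div, ← ZT_eq, div_self (ZT_pos' β h hE η).ne']

lemma pE_le (β : ℝ) (h : Vec d) {s : ℕ} {E : Set (Fin s → Step d)} (hE : E.Nonempty)
    (w : Fin s → Step d) (η : Env d) : pE β h E w η ≤ 1 := by
  rw [← pE_sum β h hE η]
  exact Finset.single_le_sum (f := fun s => pE β h E s η) (fun r _ => pE_nn β h E r η)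
    (Finset.mem_univ w)

lemma pE_meas (β : ℝ) (h : Vec d) {s : ℕ} (E : Set (Fin s → Step d)) (w : Fin s → Step d) :
    Measurable (pE β h E w) := (wE_meas β h E w).div (ZT_meas β h E)

lemma pE_dep (β : ℝ) (h : Vec d) {s : ℕ} (E : Set (Fin s → Step d)) (w : Fin s → Step d) :
    DependsOn (pE β h E w) (Pa d s) := by
  intro η η' hη
  unfold pE
  rw [wE_dep β h E w hη, show ZT β h η E = ZT β h η' E from ZT_dep β h E hη]

/-- Jensen. -/
lemma pE_pt (hd : 0 < d) (β : ℝ) (h : Vec d) {s r : ℕ} {E : Set (Fin s → Step d)}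
    {E' : Set (Fin (s + r) → Step d)} (hE : E.Nonempty)
    (hEE : ∀ w ∈ E, ∀ q : Fin r → Step d, Fin.append w q ∈ E') (η : Env d) :
    Real.log (ZT β h η E) + ∑ w : Fin s → Step d, pE β h E w η * X β h (sh s (pos w s) η) r ≤
      Real.log (ZT β h η E') := by
  classical
  have hZ := ZT_pos' β h hE η
  have h1 : ZT β h η E * ∑ w : Fin s → Step d, pE β h E w η * Z β h (sh s (pos w s) η) r ≤
      ZT β h η E' := by
    rw [ZT_eq β h E' η, sum_glue, Finset.mul_sum]
    refine Finset.sum_le_sum fun w _ => ?_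
    unfold pE
    rw [← mul_assoc, mul_div_cancel₀ _ hZ.ne', Z_eq, Finset.mul_sum]
    refine Finset.sum_le_sum fun q _ => ?_
    by_cases hw : w ∈ E
    · unfold wE
      rw [if_pos hw, if_pos (hEE w hw q), wgt_glue]
    · have h2 : wE β h E w η = 0 := by
        unfold wE
        rw [if_neg hw]
      rw [h2, zero_mul]
      exact wE_nn β h E' _ η
  have hj := strictConcaveOn_log_Ioi.concaveOn.le_map_sum (t := Finset.univ)
    (w := fun w : Fin s → Step d => pE β h E w η)
    (p := fun w : Fin s → Step d => Z β h (sh s (pos w s) η) r)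
    (fun w _ => pE_nn β h E w η) (pE_sum β h hE η)
    (fun w _ => Z_pos hd β h _ r)
  simp only [smul_eq_mul] at hj
  have hpos : 0 < ∑ w : Fin s → Step d, pE β h E w η * Z β h (sh s (pos w s) η) r := by
    obtain ⟨w₀, hw₀⟩ := hE
    refine lt_of_lt_of_le ?_ (Finset.single_le_sum
      (f := fun w => pE β h E w η * Z β h (sh s (pos w s) η) r)
      (fun w _ => mul_nonneg (pE_nn β h E w η) (Z_pos hd β h _ r).le) (Finset.mem_univ w₀))
    refine mul_pos (div_pos ?_ hZ) (Z_pos hd β h _ r)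
    unfold wE
    rw [if_pos hw₀]
    exact wgt_pos β h η w₀
  have h2 := Real.log_le_log (mul_pos hZ hpos) h1
  rw [Real.log_mul hZ.ne' hpos.ne'] at h2
  unfold X
  linarith

variable {ρ : Measure ℝ} [IsProbabilityMeasure ρ]

/-- The continuation from the time `s` on an event of the first rows. -/
lemma pushE (hd : 0 < d) (hρ : EM ρ) (β : ℝ) (h : Vec d) {s r : ℕ} {E : Set (Fin s → Step d)}
    {E' : Set (Fin (s + r) → Step d)} (hE : E.Nonempty)
    (hEE : ∀ w ∈ E, ∀ q : Fin r → Step d, Fin.append w q ∈ E') {B : Set (Env d)}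
    (hB : MeasurableSet B) (hdep : DependsOn (fun η => η ∈ B) (Pa d s)) {u : ℝ} :
    u * (law d ρ).real (B ∩ {η | Real.log (ZT β h η E') <
      Real.log (ZT β h η E) + A ρ β h r - u}) ≤ Fn ρ β h r / 2 * (law d ρ).real B := by
  set g := lo ρ β h r with hg
  have hgm : Measurable g := lo_meas β h r
  have hg0 : ∀ η, 0 ≤ g η := lo_nn β h r
  have hgi : Integrable g (law d ρ) := lo_int hd hρ β h r
  have hgs : ∀ y : Site d, Integrable (fun η => g (sh s y η)) (law d ρ) := fun y =>
    (mp_sh s y).integrable_comp_of_integrable hgi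
  have i2 : ∀ w : Fin s → Step d, Integrable (fun η => (one B η * pE β h E w η) *
      g (sh s (pos w s) η)) (law d ρ) := fun w =>
    (hgs (pos w s)).bdd_mul (c := 1)
      ((one_meas hB).mul (pE_meas β h E w)).aestronglyMeasurable
      (Eventually.of_forall fun η => by
        rw [norm_mul]
        refine mul_le_one₀ (one_abs B η) (norm_nonneg _) ?_
        rw [Real.norm_eq_abs, abs_of_nonneg (pE_nn β h E w η)]
        exact pE_le β h hE w η)
  have i1 : ∀ w : Fin s → Step d, Integrable (fun η => one B η * pE β h E w η) (law d ρ) :=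
    fun w => mul_int hB ((integrable_const (1 : ℝ)).mono' (pE_meas β h E w).aestronglyMeasurable
      (Eventually.of_forall fun η => by
        rw [Real.norm_eq_abs, abs_of_nonneg (pE_nn β h E w η)]
        exact pE_le β h hE w η))
  have e1 : ∀ w : Fin s → Step d, ∫ η, (one B η * pE β h E w η) *
      g (sh s (pos w s) η) ∂(law d ρ) =
      (∫ η, one B η * pE β h E w η ∂(law d ρ)) * ∫ η, g η ∂(law d ρ) := by
    intro w
    have h1 := integral_indep (ρ := ρ) (Pa d s) (F := fun η => one B η * pE β h E w η)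
      (G := fun η => g (sh s (pos w s) η)) ((one_meas hB).mul (pE_meas β h E w))
      (hgm.comp (measurable_sh s (pos w s)))
      (fun η η' hη => by
        simp only
        rw [one_dep hdep hη, pE_dep β h E w hη])
      (fun η η' hη => by
        have h2 := FreeU_dep2 β h s r (pos w s) hη
        rw [hg]
        simp only [lo] at h2 ⊢
        rw [h2])
    rw [h1, integral_sh s (pos w s) hgm]
  set D := {η | Real.log (ZT β h η E') < Real.log (ZT β h η E) + A ρ β h r - u} with hD
  have hDm : MeasurableSet D := measurableSet_lt (ZT_meas β h E').log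
    (((ZT_meas β h E).log.add_const _).sub_const _)
  have hpt : ∀ η, u * one (B ∩ D) η ≤ ∑ w : Fin s → Step d, (one B η * pE β h E w η) *
      g (sh s (pos w s) η) := by
    intro η
    have h4 : 0 ≤ ∑ w : Fin s → Step d, (one B η * pE β h E w η) *
        g (sh s (pos w s) η) :=
      Finset.sum_nonneg fun w _ => mul_nonneg (mul_nonneg (one_nn B η)
        (pE_nn β h E w η)) (hg0 _)
    by_cases hη : η ∈ B ∩ D
    · rw [one_of hη, mul_one]
      have hB1 : one B η = 1 := one_of hη.1
      simp only [hB1, one_mul]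
      have h1 := pE_pt hd β h hE hEE η
      have h2 : ∑ w : Fin s → Step d, pE β h E w η *
          (A ρ β h r - X β h (sh s (pos w s) η) r) ≤ ∑ w : Fin s → Step d, pE β h E w η *
          g (sh s (pos w s) η) :=
        Finset.sum_le_sum fun w _ => mul_le_mul_of_nonneg_left (le_max_right _ _)
          (pE_nn β h E w η)
      have h3 : ∑ w : Fin s → Step d, pE β h E w η *
          (A ρ β h r - X β h (sh s (pos w s) η) r) =
          A ρ β h r - ∑ w : Fin s → Step d, pE β h E w η *
            X β h (sh s (pos w s) η) r := by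
        simp only [mul_sub]
        rw [Finset.sum_sub_distrib, ← Finset.sum_mul, pE_sum β h hE, one_mul]
      have h5 : Real.log (ZT β h η E') < Real.log (ZT β h η E) + A ρ β h r - u := hη.2
      linarith
    · rw [one_not hη, mul_zero]
      exact h4
  have i4 : Integrable (fun η => ∑ w : Fin s → Step d, (one B η * pE β h E w η) *
      g (sh s (pos w s) η)) (law d ρ) := integrable_finsetSum _ fun w _ => i2 w
  have hfin := integral_mono ((one_int (ρ := ρ) (hB.inter hDm)).const_mul u) i4 hpt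
  rw [integral_const_mul, one_I (hB.inter hDm), integral_finsetSum _ fun w _ => i2 w,
    Finset.sum_congr rfl fun w _ => e1 w, ← Finset.sum_mul,
    ← integral_finsetSum _ fun w _ => i1 w] at hfin
  have e2 : ∫ η, ∑ w : Fin s → Step d, one B η * pE β h E w η ∂(law d ρ) =
      (law d ρ).real B := by
    simp only [← Finset.mul_sum, pE_sum β h hE, mul_one]
    exact one_I hB
  rw [e2, hg, lo_half hd hρ β h r] at hfin
  linarith

/-- A walk which has left the tube stays outside. -/
lemma app (v : Vec d) (R : ℝ) {s r : ℕ} {w : Fin s → Step d} (hw : w ∈ (tube d s v R)ᶜ)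
    (q : Fin r → Step d) : Fin.append w q ∈ (tube d (s + r) v R)ᶜ := by
  intro h1
  refine hw fun i hi => ?_
  have h2 := h1 i (by omega)
  rwa [pos_glue_le w q hi] at h2

end MX78

open MX78 Pool.Agent.W_7d29a1_SP.C79 Pool.Agent.W_7d29a1_PL.P78 in
/-- Leaf MAXX. -/
theorem maxX78 {d : ℕ} {ρ : Measure ℝ} [IsProbabilityMeasure ρ] (hd : 0 < d) (hρ : EM ρ)
    (β : ℝ) : MaxX d ρ β := by
  intro h v H S R w Ψ hΨ hr
  obtain ⟨Ev, hEv⟩ : ∃ Ev : ℕ → Set (Env d), Ev = fun s =>
    {η | Real.exp (((H + s : ℕ) : ℝ) * lam ρ β h + w) ≤ ZT β h η (tube d (H + s) v R)ᶜ} :=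
    ⟨_, rfl⟩
  obtain ⟨T, hT⟩ : ∃ T : Set (Env d), T =
    {η | Real.exp (((H + S : ℕ) : ℝ) * lam ρ β h + w - 2 * Ψ) ≤
      ZT β h η (tube d (H + S) v R)ᶜ} := ⟨_, rfl⟩
  have hTm : MeasurableSet T := by
    rw [hT]
    exact measurableSet_le measurable_const (ZT_meas β h _)
  have hEm : ∀ s, MeasurableSet (Ev s) := fun s => by
    rw [hEv]
    exact measurableSet_le measurable_const (ZT_meas β h _)
  have hEd : ∀ s, DependsOn (fun η => η ∈ Ev s) (Pa d (H + s)) := by
    intro s η η' hη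
    have h2 : ZT β h η (tube d (H + s) v R)ᶜ = ZT β h η' (tube d (H + s) v R)ᶜ :=
      ZT_dep β h _ hη
    rw [hEv]
    show (Real.exp (((H + s : ℕ) : ℝ) * lam ρ β h + w) ≤ ZT β h η (tube d (H + s) v R)ᶜ) =
      (Real.exp (((H + s : ℕ) : ℝ) * lam ρ β h + w) ≤ ZT β h η' (tube d (H + s) v R)ᶜ)
    rw [h2]
  obtain ⟨B, hBd⟩ : ∃ B : ℕ → Set (Env d), B = fun s => Ev s ∩ ⋂ s' ∈ Finset.range s, (Ev s')ᶜ :=
    ⟨_, rfl⟩
  have hBm : ∀ s, MeasurableSet (B s) := fun s => by
    rw [hBd]
    exact (hEm s).inter (Finset.measurableSet_biInter _ fun s' _ => (hEm s').compl)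
  have hBdep : ∀ s, DependsOn (fun η => η ∈ B s) (Pa d (H + s)) := by
    intro s η η' hη
    rw [hBd]
    simp only [Set.mem_inter_iff, Set.mem_iInter, Set.mem_compl_iff, Finset.mem_range]
    have h1 : (η ∈ Ev s) = (η' ∈ Ev s) := hEd s hη
    have h2 : ∀ s' < s, (η ∈ Ev s') = (η' ∈ Ev s') := fun s' hs' =>
      hEd s' fun p hp => hη p (by
        change p.1 ≤ H + s
        have : p.1 ≤ H + s' := hp
        omega)
    rw [h1]
    have h3 : (∀ i < s, η ∉ Ev i) ↔ (∀ i < s, η' ∉ Ev i) :=
      forall₂_congr fun i hi => by rw [h2 i hi]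
    rw [eq_iff_iff]
    exact and_congr Iff.rfl h3
  have hdis : (↑(Finset.range (S + 1)) : Set ℕ).PairwiseDisjoint fun s => B s ∩ T := by
    intro i _ j _ hij
    refine Set.disjoint_left.2 fun η h1 h2 => ?_
    rw [hBd] at h1 h2
    obtain ⟨⟨h3, h4⟩, _⟩ := h1
    obtain ⟨⟨h5, h6⟩, _⟩ := h2
    simp only [Set.mem_iInter, Set.mem_compl_iff, Finset.mem_range] at h4 h6
    rcases lt_or_gt_of_ne hij with h7 | h7
    · exact h6 i h7 h3
    · exact h4 j h7 h5
  have hsub : {η | ∃ s : ℕ, s ≤ S ∧ Real.exp (((H + s : ℕ) : ℝ) * lam ρ β h + w) ≤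
      ZT β h η (tube d (H + s) v R)ᶜ} ⊆ ⋃ s ∈ Finset.range (S + 1), B s := by
    classical
    rintro η ⟨s, hs, h1⟩
    have h2 : ∃ s, η ∈ Ev s := ⟨s, by rw [hEv]; exact h1⟩
    have h3 := Nat.find_spec h2
    have h4 : Nat.find h2 ≤ s := Nat.find_min' h2 (by rw [hEv]; exact h1)
    simp only [Set.mem_iUnion, Finset.mem_range]
    refine ⟨Nat.find h2, by omega, ?_⟩
    rw [hBd]
    refine ⟨h3, ?_⟩
    simp only [Set.mem_iInter, Set.mem_compl_iff, Finset.mem_range]
    exact fun i hi => Nat.find_min h2 hi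
  have hone : ∀ s, s ≤ S → (law d ρ).real (B s) ≤ 2 * (law d ρ).real (B s ∩ T) := by
    intro s hs
    obtain ⟨r, rfl⟩ : ∃ r, S = s + r := ⟨S - s, by omega⟩
    by_cases hne : ((tube d (H + s) v R)ᶜ).Nonempty
    swap
    · have h1 : B s ⊆ ∅ := by
        intro η hη
        rw [hBd, hEv] at hη
        have h2 : Real.exp (((H + s : ℕ) : ℝ) * lam ρ β h + w) ≤
          ZT β h η (tube d (H + s) v R)ᶜ := hη.1
        rw [Set.not_nonempty_iff_eq_empty.1 hne] at h2
        have h3 : ZT β h η (∅ : Set (Fin (H + s) → Step d)) = 0 := by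
          rw [ZT_eq]
          exact Finset.sum_eq_zero fun w _ => by
            unfold wE
            rw [if_neg (Set.notMem_empty w)]
        rw [h3] at h2
        exact absurd h2 (not_le.2 (Real.exp_pos _))
      have h2 := measureReal_mono (μ := law d ρ) h1 (measure_ne_top _ _)
      rw [measureReal_empty] at h2
      have h3 : 0 ≤ (law d ρ).real (B s ∩ T) := measureReal_nonneg
      linarith
    obtain ⟨hE, hF⟩ := hr r (by omega)
    have hEE : ∀ w' ∈ (tube d (H + s) v R)ᶜ, ∀ q : Fin r → Step d,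
        Fin.append w' q ∈ (tube d (H + s + r) v R)ᶜ := fun w' hw' q => app v R hw' q
    have hne' : ((tube d (H + s + r) v R)ᶜ).Nonempty := by
      obtain ⟨w', hw'⟩ := hne
      exact ⟨_, hEE w' hw' fun _ => ⟨⟨0, hd⟩, true⟩⟩
    have h1 := pushE hd hρ β h hne hEE (hBm s) (hBdep s) (u := Ψ)
    have h2 : (law d ρ).real (B s) ≤ (law d ρ).real (B s ∩ T) +
        (law d ρ).real (B s ∩ {η | Real.log (ZT β h η (tube d (H + s + r) v R)ᶜ) <
          Real.log (ZT β h η (tube d (H + s) v R)ᶜ) + A ρ β h r - Ψ}) := by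
      refine le_trans (measureReal_mono ?_ (measure_ne_top _ _)) (measureReal_union_le _ _)
      intro η hη
      by_cases h3 : Real.log (ZT β h η (tube d (H + s + r) v R)ᶜ) <
          Real.log (ZT β h η (tube d (H + s) v R)ᶜ) + A ρ β h r - Ψ
      · exact Or.inr ⟨hη, h3⟩
      · refine Or.inl ⟨hη, ?_⟩
        rw [hBd, hEv] at hη
        have h4 : Real.exp (((H + s : ℕ) : ℝ) * lam ρ β h + w) ≤
          ZT β h η (tube d (H + s) v R)ᶜ := hη.1
        rw [← Real.le_log_iff_exp_le (ZT_pos' β h hne η)] at h4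
        rw [hT]
        show Real.exp (((H + (s + r) : ℕ) : ℝ) * lam ρ β h + w - 2 * Ψ) ≤
          ZT β h η (tube d (H + (s + r)) v R)ᶜ
        rw [← Nat.add_assoc, ← Real.le_log_iff_exp_le (ZT_pos' β h hne' η)]
        unfold En at hE
        push_cast at h4 ⊢
        linarith [not_lt.1 h3]
    have h3 : Fn ρ β h r / 2 * (law d ρ).real (B s) ≤ Ψ / 2 * (law d ρ).real (B s) :=
      mul_le_mul_of_nonneg_right (by linarith) measureReal_nonneg
    have h4 : (law d ρ).real (B s ∩ {η | Real.log (ZT β h η (tube d (H + s + r) v R)ᶜ) <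
          Real.log (ZT β h η (tube d (H + s) v R)ᶜ) + A ρ β h r - Ψ}) ≤
        (law d ρ).real (B s) / 2 := by
      refine le_of_mul_le_mul_left ?_ hΨ
      linarith
    linarith
  calc (law d ρ).real {η | ∃ s : ℕ, s ≤ S ∧ Real.exp (((H + s : ℕ) : ℝ) * lam ρ β h + w) ≤
      ZT β h η (tube d (H + s) v R)ᶜ} ≤
        (law d ρ).real (⋃ s ∈ Finset.range (S + 1), B s) := measureReal_mono hsub (measure_ne_top _ _)
    _ ≤ ∑ s ∈ Finset.range (S + 1), (law d ρ).real (B s) := measureReal_biUnion_finset_le _ _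
    _ ≤ ∑ s ∈ Finset.range (S + 1), 2 * (law d ρ).real (B s ∩ T) :=
        Finset.sum_le_sum fun s hs => hone s (by
          have := Finset.mem_range.1 hs
          omega)
    _ = 2 * (law d ρ).real (⋃ s ∈ Finset.range (S + 1), B s ∩ T) := by
        rw [← Finset.mul_sum, measureReal_biUnion_finset hdis fun s _ => (hBm s).inter hTm]
    _ ≤ 2 * (law d ρ).real T := by
        refine mul_le_mul_of_nonneg_left (measureReal_mono ?_ (measure_ne_top _ _)) (by norm_num)
        intro η hη
        simp only [Set.mem_iUnion] at hη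
        obtain ⟨s, _, h1⟩ := hη
        exact h1.2
    _ = _ := by rw [hT]

end Pool.Agent.W_7d29a1_KP
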