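import Pool.Agent.W_7d29a1_KP.DefsKU68
import Pool.Agent.W_7d29a1_KP.TubU68
import Pool.Agent.W_7d29a1_KP.LowU68

/-!
Theorem KPZO for every law: the leaves TUB1 and TUBN (helper68).
-/

set_option autoImplicit false

namespace Pool.Agent.W_7d29a1_KP

open MeasureTheory ProbabilityTheory Filter Topology Pool.Agent.W_MP_7d29a1_pr
  Pool.Agent.W_7d29a1_h46 Pool.Agent.W_7d29a1_h46u Pool.Agent.W_7d29a1_D2.B35
  Pool.Agent.W_7d29a1_Q29 Pool.Agent.W_7d29a1_R34 Pool.Agent.W_7d29a1_SP Pool.Agent.W_7d29a1_SD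
  Pool.Agent.W_7d29a1_SQ Pool.Agent.W_7d29a1_KZ Pool.Agent.W_7d29a1_AM Pool.Agent.W_7d29a1_NR.L84
  Pool.Agent.W_7d29a1_NR.TrU41 Pool.Agent.W_7d29a1_NR.HaN41 U68

/-- **Leaf TUB1, every law**, from the amplification in the class. -/
theorem tub1A68 {d : ℕ} {ρ : Measure ℝ} [IsProbabilityMeasure ρ] {β : ℝ} (hd : 0 < d) (hρ : EM ρ)
    (hβ : 0 ≤ β) (hN : AmpCN ρ β) (hS : SinK d ρ β) : Tub1U d ρ β := by
  classical
  intro η₁ M hη hM
  obtain ⟨c, K, hc0, hc1, hK, hnum⟩ := num42 (d := d + 1) (Nat.succ_pos d) hη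
  have hci : 0 < 1 / c := by positivity
  obtain ⟨C, hC1, hC⟩ := hN (2 + 1 / c) (by linarith)
  obtain ⟨κ, hκ⟩ : ∃ κ : ℝ, κ = (1 / 4 : ℝ) ^ C := ⟨_, rfl⟩
  have hκ0 : 0 < κ := by rw [hκ]; exact Real.rpow_pos_of_pos (by norm_num) _
  have hκ1 : κ ≤ 1 / 4 := by
    rw [hκ]
    calc (1 / 4 : ℝ) ^ C ≤ (1 / 4) ^ (1 : ℝ) :=
          Real.rpow_le_rpow_of_exponent_ge (by norm_num) (by norm_num) hC1
      _ = 1 / 4 := Real.rpow_one _
  obtain ⟨b₀, hb₀⟩ : ∃ b₀ : ℝ, b₀ = C * (1 + Real.log (1 / (1 / 4))) := ⟨_, rfl⟩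
  have hl4 : 0 ≤ Real.log (1 / (1 / 4 : ℝ)) := Real.log_nonneg (by norm_num)
  have hb0 : 0 ≤ b₀ := by rw [hb₀]; nlinarith
  obtain ⟨Q₁, hQ₁⟩ : ∃ Q₁ : ℝ, Q₁ = C + 18 := ⟨_, rfl⟩
  obtain ⟨Q₂, hQ₂⟩ : ∃ Q₂ : ℝ, Q₂ = 2 / κ + C + 4 + b₀ := ⟨_, rfl⟩
  have hi2 : 0 < 2 / κ := by positivity
  have hQ10 : 2 ≤ Q₁ := by rw [hQ₁]; linarith
  have hQ20 : 2 ≤ Q₂ := by rw [hQ₂]; linarith
  obtain ⟨Q, hQ⟩ : ∃ Q : ℝ, Q = Q₁ + Q₂ * (K / c) := ⟨_, rfl⟩
  have hQ0 : 0 ≤ Q := by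
    rw [hQ]
    have : 0 ≤ Q₂ * (K / c) := mul_nonneg (by linarith) (by positivity)
    linarith
  have hd' : (0 : ℝ) < d := by exact_mod_cast hd
  have hCf0 : 0 ≤ 32 * M * d * Q := by positivity
  refine ⟨C + 32 * M * d * Q, by linarith, ?_⟩
  intro h v n P R r T₁ ε hn hP hR hε hε2 hrR hD hTle hex
  obtain ⟨J, hJ1, hJ2⟩ := hnum n hn
  have hP0 : 0 < P := by linarith
  have hn0 : (0 : ℝ) < n := by exact_mod_cast hn
  obtain ⟨hFn, hEn⟩ := hD.fl n le_rfl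
  have hεC : 0 < ε ^ C := Real.rpow_pos_of_pos hε _
  have hεC1 : ε ^ C ≤ ε := by
    calc ε ^ C ≤ ε ^ (1 : ℝ) :=
          Real.rpow_le_rpow_of_exponent_ge hε (by linarith) hC1
      _ = ε := Real.rpow_one _
  obtain ⟨E, hE⟩ : ∃ E : ℝ, E = P / ε ^ C := ⟨_, rfl⟩
  have hE1 : 1 / ε ≤ E := by
    rw [hE]
    exact div_le_div₀ hP0.le hP hεC hεC1
  have hEP : P ≤ E := by
    rw [hE, le_div_iff₀ hεC]
    have : P * ε ^ C ≤ P * 1 := mul_le_mul_of_nonneg_left (by linarith) hP0.le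
    linarith
  have hE0 : 0 < E := by linarith
  have hlr : 0 ≤ Real.log (1 / ε) := Real.log_nonneg (by rw [le_div_iff₀ hε]; linarith)
  obtain ⟨b₁, hb₁⟩ : ∃ b₁ : ℝ, b₁ = C * (1 + Real.log (1 / ε)) := ⟨_, rfl⟩
  have hb10 : 0 ≤ b₁ := by rw [hb₁]; nlinarith
  have hb1E : b₁ ≤ C * E := by
    rw [hb₁]
    have h1 := Real.log_le_sub_one_of_pos (show (0 : ℝ) < 1 / ε by positivity)
    exact mul_le_mul_of_nonneg_left (by linarith) (by linarith)
  obtain ⟨κ₁, hκ₁⟩ : ∃ κ₁ : ℝ, κ₁ = ε ^ C / 2 := ⟨_, rfl⟩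
  have hκ₁0 : 0 < κ₁ := by rw [hκ₁]; positivity
  -- the exit set
  obtain ⟨Ex, hEx⟩ : ∃ Ex : Set (Fin n → Step d), Ex = (tube d n v R)ᶜ := ⟨_, rfl⟩
  have hlab : ∀ s : Fin n → Step d, ∃ i : ℕ, s ∈ Ex →
      i ≤ n ∧ R < ‖emb (pos s i) - (i : ℝ) • v‖ := by
    intro s
    by_cases hs : s ∈ Ex
    · rw [hEx] at hs
      have hs' : ¬ ∀ i ≤ n, ‖emb (pos s i) - (i : ℝ) • v‖ ≤ R := hs
      push Not at hs'
      obtain ⟨i, hi, hi2⟩ := hs'
      exact ⟨i, fun _ => ⟨hi, hi2⟩⟩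
    · exact ⟨0, fun h => absurd h hs⟩
  choose lab hlab using hlab
  obtain ⟨Lb, hLb⟩ : ∃ Lb : (Fin n → Step d) → ℕ × Site d, Lb = fun s =>
    (lab s, pos s (lab s)) := ⟨_, rfl⟩
  obtain ⟨S, hSd⟩ : ∃ S : Finset (ℕ × Site d), S =
    (Finset.univ.filter fun s => s ∈ Ex).image Lb := ⟨_, rfl⟩
  have hcl : ∀ y ∈ S, ({s | s ∈ Ex ∧ Lb s = y} : Set (Fin n → Step d)).Nonempty := by
    intro y hy
    rw [hSd, Finset.mem_image] at hy
    obtain ⟨s, hs, hsy⟩ := hy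
    exact ⟨s, (Finset.mem_filter.1 hs).2, hsy⟩
  have hmemS : ∀ s ∈ Ex, Lb s ∈ S := by
    intro s hs
    rw [hSd]
    exact Finset.mem_image_of_mem _ (Finset.mem_filter.2 ⟨Finset.mem_univ _, hs⟩)
  have hSE : ({s | s ∈ Ex ∧ Lb s ∈ S} : Set (Fin n → Step d)) = Ex := by
    ext s
    exact ⟨fun hs => hs.1, fun hs => ⟨hs, hmemS s hs⟩⟩
  -- the number of the labels
  have hScard : S.card ≤ 2 ^ J := by
    refine le_trans ?_ hJ1
    have h1 : S ⊆ (Finset.range (n + 1)) ×ˢ (boxF d n) := by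
      intro y hy
      rw [hSd, Finset.mem_image] at hy
      obtain ⟨s, hs, rfl⟩ := hy
      have hs' := (Finset.mem_filter.1 hs).2
      rw [hLb]
      refine Finset.mem_product.2 ⟨Finset.mem_range.2 ?_, pos_mem_box s _⟩
      have := (hlab s hs').1
      show lab s < n + 1
      omega
    refine (Finset.card_le_card h1).trans ?_
    rw [Finset.card_product, Finset.card_range]
    have h2 : (boxF d n).card = (2 * n + 1) ^ d := by exact_mod_cast card_boxF d n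
    rw [h2, pow_succ, mul_comm]
    exact Nat.mul_le_mul_left _ (by omega)
  -- the free energies of the classes
  obtain ⟨V, hV⟩ : ∃ V : ℕ × Site d → Env d → ℝ, V = fun y η =>
    Real.log (ZT β h η {s | s ∈ Ex ∧ Lb s = y}) := ⟨_, rfl⟩
  have hVm : ∀ y ∈ S, Measurable (V y) := fun y _ => by
    rw [hV]
    exact meas68 β h _
  have hWD : ∀ D : Finset (ℕ × Site d), D ⊆ S → ∀ η,
      Pool.Agent.W_7d29a1_NR.WD45 (fun _ => (1 : ℝ)) V D η =
        Real.log (ZT β h η {s | s ∈ Ex ∧ Lb s ∈ D}) := by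
    intro D hDS η
    unfold Pool.Agent.W_7d29a1_NR.WD45
    rw [← ZT_cls68 β h η Ex Lb D]
    congr 1
    refine Finset.sum_congr rfl fun y hy => ?_
    rw [hV, one_mul]
    exact Real.exp_log (ZT_pos β h η (hcl y (hDS hy)))
  have hWS : ∀ η, Pool.Agent.W_7d29a1_NR.WD45 (fun _ => (1 : ℝ)) V S η =
      Real.log (ZT β h η Ex) := by
    intro η
    rw [hWD S (Finset.Subset.refl S) η, hSE]
  have hEDn : ∀ D : Finset (ℕ × Site d), D ⊆ S → D.Nonempty →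
      ({s | s ∈ Ex ∧ Lb s ∈ D} : Set (Fin n → Step d)).Nonempty := by
    intro D hDS hDn
    obtain ⟨y, hy⟩ := hDn
    obtain ⟨s, hs⟩ := hcl y (hDS hy)
    exact ⟨s, hs.1, by rw [hs.2]; exact hy⟩
  -- the exit set is not empty
  have hExn : Ex.Nonempty := by
    by_contra hcon
    rw [Set.not_nonempty_iff_eq_empty] at hcon
    have h1 : {η : Env d | Real.exp T₁ ≤ ZT β h η (tube d n v R)ᶜ} = ∅ := by
      ext η
      simp only [Set.mem_setOf_eq, Set.mem_empty_iff_false, iff_false, not_le]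
      rw [← hEx, hcon]
      have h4 : ZT β h η (∅ : Set (Fin n → Step d)) = 0 := by
        unfold ZT
        exact Finset.sum_eq_zero fun s _ => if_neg (Set.notMem_empty s)
      rw [h4]
      exact Real.exp_pos _
    rw [h1, measureReal_empty] at hex
    linarith
  have hSn : S.Nonempty := by
    obtain ⟨s, hs⟩ := hExn
    exact ⟨_, hmemS s hs⟩
  -- the first estimate
  have hlow : ε ≤ (law d ρ).real {η | T₁ ≤ Real.log (ZT β h η Ex)} := by
    refine hex.trans (measureReal_mono fun η hη => ?_)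
    have hη' : Real.exp T₁ ≤ ZT β h η (tube d n v R)ᶜ := hη
    rw [← hEx] at hη'
    show T₁ ≤ Real.log (ZT β h η Ex)
    exact (Real.le_log_iff_exp_le (ZT_pos β h η hExn)).2 hη'
  -- a median
  obtain ⟨Md, hMd1, hMd2⟩ := Pool.Agent.W_7d29a1_NR.median45 (law d ρ) (meas68 β h Ex)
  obtain ⟨L₁, hL₁⟩ : ∃ L₁ : ℝ, L₁ = n * lam ρ β h + P / κ₁ := ⟨_, rfl⟩
  obtain ⟨L₂, hL₂⟩ : ∃ L₂ : ℝ, L₂ = n * lam ρ β h + P / (κ / 2) := ⟨_, rfl⟩
  obtain ⟨g₀, hg₀⟩ : ∃ g₀ : ℝ, g₀ = n * lam ρ β h - T₁ := ⟨_, rfl⟩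
  have hg00 : 0 ≤ g₀ := by rw [hg₀]; linarith
  have hκP : P / κ₁ = 2 * E := by
    rw [hκ₁, hE]
    field_simp
  have hT1L : T₁ ≤ L₁ := by
    rw [hL₁, hκP]
    linarith
  have hMdlow : T₁ - b₁ - (L₁ - T₁) ≤ Md := by
    by_contra hcon
    push Not at hcon
    obtain ⟨b, hb⟩ : ∃ b : ℝ, b = T₁ - Md := ⟨_, rfl⟩
    have hMb : Md + b = T₁ := by rw [hb]; ring
    have h1 : b₁ ≤ b := by rw [hb]; linarith
    have h2 : c * (L₁ - (Md + b)) ≤ b := by
      rw [hMb]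
      have h3 : c * (L₁ - T₁) ≤ 1 * (L₁ - T₁) :=
        mul_le_mul_of_nonneg_right hc1 (by linarith)
      rw [hb]
      linarith
    have h4 := ampE68 (d := d) (ρ := ρ) hβ hC1 hC rfl hc0 h hExn (r := ε) (L := L₁) (M := Md)
      (b := b) hε hε2 (by rw [← hb₁]; exact h1) h2 (by linarith)
      (by rw [hMb]; exact hlow)
    have h5 := up68 (ρ := ρ) hd hρ β h hExn hP0 hκ₁0 hFn
    rw [← hL₁] at h5
    rw [hκ₁] at h5
    linarith
  have hupS : (law d ρ).real {η | L₂ ≤ Real.log (ZT β h η Ex)} < κ := by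
    have h1 := up68 (ρ := ρ) hd hρ β h hExn hP0 (show 0 < κ / 2 by positivity) hFn
    rw [← hL₂] at h1
    linarith
  have hMdL : Md ≤ L₂ := by
    by_contra hcon
    push Not at hcon
    have h2 : (law d ρ).real {η | Md ≤ Real.log (ZT β h η Ex)} ≤
        (law d ρ).real {η | L₂ ≤ Real.log (ZT β h η Ex)} :=
      measureReal_mono fun η (hη : Md ≤ Real.log (ZT β h η Ex)) => by
        show L₂ ≤ Real.log (ZT β h η Ex)
        linarith
    linarith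
  obtain ⟨a, ha⟩ : ∃ a : ℝ, a = L₂ - Md := ⟨_, rfl⟩
  have ha0 : 0 ≤ a := by rw [ha]; linarith
  have hMa : Md + a = L₂ := by rw [ha]; ring
  -- the halving
  have hset : ∀ D : Finset (ℕ × Site d), D ⊆ S → ∀ T : Set ℝ,
      {η | Pool.Agent.W_7d29a1_NR.WD45 (fun _ => (1 : ℝ)) V D η ∈ T} =
        {η | Real.log (ZT β h η {s | s ∈ Ex ∧ Lb s ∈ D}) ∈ T} := by
    intro D hDS T
    ext η
    rw [Set.mem_setOf_eq, hWD D hDS η]
    rfl
  have key := Pool.Agent.W_7d29a1_NR.halvB45 (law d ρ) (μ := fun _ : ℕ × Site d => (1 : ℝ)) hSn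
    (fun y _ => one_pos) (fun y _ => le_rfl) hVm (T := Md) (a := a) (c := c) (κ := κ) (b₀ := b₀)
    (u₀ := n * lam ρ β h - R ^ 2 / (32 * M * d * n) + 16 * P) hc0 hc1 ha0 hb0 ?_ ?_ ?_ ?_ hScard
  · -- the end
    have hk1 : (1 : ℝ) ≤ (n : ℝ) ^ η₁ := Real.one_le_rpow (by exact_mod_cast hn) hη.le
    obtain ⟨g, hg⟩ : ∃ g : ℝ, g = (n : ℝ) ^ η₁ := ⟨_, rfl⟩
    rw [← hg] at hk1 hJ2
    have hL1T : L₁ - T₁ = g₀ + 2 * E := by
      rw [hL₁, hκP, hg₀]
      ring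
    have ha1 : a ≤ 2 * g₀ + (2 / κ + C + 2) * E := by
      have h1 : L₂ - T₁ ≤ g₀ + 2 / κ * E := by
        rw [hL₂, hg₀]
        have h2 : P / (κ / 2) = 2 / κ * P := by field_simp
        have h3 : 2 / κ * P ≤ 2 / κ * E := mul_le_mul_of_nonneg_left hEP hi2.le
        rw [h2]
        linarith
      have h3 : 2 * g₀ + (2 / κ + C + 2) * E = (g₀ + 2 / κ * E) + C * E + (g₀ + 2 * E) := by ring
      rw [ha, h3]
      linarith
    have h8 : (a + b₀ + 2) / c * (1 + c) ^ J ≤ (a + b₀ + 2) / c * (K * g) :=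
      mul_le_mul_of_nonneg_left hJ2 (by positivity)
    have hEe : 1 ≤ E := by linarith
    have h9 : a + b₀ + 2 ≤ Q₂ * (E + g₀) := by
      have h2 : b₀ ≤ b₀ * E := le_mul_of_one_le_right hb0 hEe
      have h3 : 2 * g₀ ≤ Q₂ * g₀ := mul_le_mul_of_nonneg_right hQ20 hg00
      have h4 : Q₂ * E = (2 / κ + C + 2) * E + 2 * E + b₀ * E := by
        rw [hQ₂]
        ring
      have h5 : Q₂ * (E + g₀) = Q₂ * E + Q₂ * g₀ := by ring
      rw [h5, h4]
      linarith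
    have h10 : (a + b₀ + 2) / c * (K * g) ≤ Q₂ * (K / c) * (g * (E + g₀)) := by
      have h11 : (a + b₀ + 2) / c * (K * g) = (a + b₀ + 2) * (K / c * g) := by ring
      have h12 : Q₂ * (K / c) * (g * (E + g₀)) = Q₂ * (E + g₀) * (K / c * g) := by ring
      rw [h11, h12]
      exact mul_le_mul_of_nonneg_right h9 (by positivity)
    have h13 : R ^ 2 / (32 * M * d * n) ≤ Q * (g * (E + g₀)) := by
      have h14 : 0 ≤ Q₁ * (E + g₀) := mul_nonneg (by linarith) (by linarith)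
      have h15 : Q₁ * (E + g₀) ≤ Q₁ * (g * (E + g₀)) := by
        have : Q₁ * (g * (E + g₀)) = Q₁ * (E + g₀) * g := by ring
        rw [this]
        exact le_mul_of_one_le_right h14 hk1
      have h16 : Q * (g * (E + g₀)) = Q₁ * (g * (E + g₀)) + Q₂ * (K / c) * (g * (E + g₀)) := by
        rw [hQ]
        ring
      have h17 : 2 * g₀ ≤ Q₁ * g₀ := mul_le_mul_of_nonneg_right hQ10 hg00
      have h18 : Q₁ * (E + g₀) = C * E + 2 * E + 16 * E + Q₁ * g₀ := by rw [hQ₁]; ring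
      rw [h16]
      have h19 : (n : ℝ) * lam ρ β h = T₁ + g₀ := by rw [hg₀]; ring
      rw [h19] at key
      linarith
    have h18 : 0 < 32 * M * d * n := by positivity
    rw [div_le_iff₀ h18] at h13
    have h19 : (n : ℝ) ^ (1 + η₁) = n * g := by
      rw [hg, Real.rpow_add hn0, Real.rpow_one]
    rw [h19]
    have hg1 : 0 < g := by linarith
    obtain ⟨C', hC'⟩ : ∃ C' : ℝ, C' = C + 32 * M * d * Q := ⟨_, rfl⟩
    rw [← hC', ← hg₀]
    have hCC : C ≤ C' := by rw [hC']; linarith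
    have h20 : E ≤ P / ε ^ C' := by
      rw [hE]
      refine div_le_div_of_nonneg_left hP0.le (Real.rpow_pos_of_pos hε _) ?_
      exact Real.rpow_le_rpow_of_exponent_ge hε (by linarith) hCC
    have h21 : 0 ≤ (n : ℝ) * g * (E + g₀) := by positivity
    have h22 : Q * (g * (E + g₀)) * (32 * M * d * n) ≤ C' * (n * g) * (E + g₀) := by
      have h23 : C' * (n * g) * (E + g₀) = C * (n * g * (E + g₀)) +
          Q * (g * (E + g₀)) * (32 * M * d * n) := by rw [hC']; ring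
      rw [h23]
      have h24 : 0 ≤ C * (n * g * (E + g₀)) := mul_nonneg (by linarith) h21
      linarith
    have h25 : C' * (n * g) * (E + g₀) ≤ C' * (n * g) * (P / ε ^ C' + g₀) :=
      mul_le_mul_of_nonneg_left (by linarith) (by
        have : 0 ≤ C' := by linarith
        positivity)
    linarith
  · -- one class
    intro y hy u hu
    rw [hV]
    obtain ⟨s, hs⟩ := hcl y hy
    have hy1 : y = (lab s, pos s (lab s)) := by
      have := hs.2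
      rw [hLb] at this
      exact this.symm
    have h1 := hlab s hs.1
    refine hS h v n M P R r hn hM hP0.le hR hrR hD y.1 y.2 {s | s ∈ Ex ∧ Lb s = y} ?_
      (hcl y hy) ?_ ?_ u hu
    · rw [hy1]
      exact h1.1
    · intro s' hs'
      have h2 : Lb s' = y := hs'.2
      rw [hLb] at h2
      rw [← h2]
    · rw [hy1]
      exact h1.2
  · -- the amplification
    intro D hDS hDn M' b hb hbb hcb hMT hq1 hq2 hq3
    have e1 := hset D hDS
    have f1 := e1 (Set.Iic M')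
    have f2 := e1 (Set.Ici (M' + b))
    have f3 := e1 (Set.Ici (Md + a))
    simp only [Set.mem_Iic, Set.mem_Ici] at f1 f2 f3
    rw [f1] at hq1
    rw [f2] at hq3
    rw [f3, hκ]
    exact ampE68 (d := d) (ρ := ρ) hβ hC1 hC rfl hc0 h (hEDn D hDS hDn) (r := 1 / 4)
      (L := Md + a) (M := M') (b := b) (by norm_num) (by norm_num)
      (by rw [← hb₀]; exact hbb) hcb (by linarith) hq3
  · -- the upper tail
    have e1 := hset S (Finset.Subset.refl S) (Set.Ici (Md + a))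
    simp only [Set.mem_Ici] at e1
    rw [e1, hSE, hMa]
    exact hupS
  · have e1 := hset S (Finset.Subset.refl S) (Set.Ici Md)
    simp only [Set.mem_Ici] at e1
    rw [e1, hSE]
    exact hMd2


/-- **Leaf TUB1, every law of the problem.** -/
theorem tub1U68 {d : ℕ} {ρ : Measure ℝ} [IsProbabilityMeasure ρ] {β : ℝ} (hd : 0 < d) (hρ : EM ρ)
    (hnc : ∀ c : ℝ, ρ {c} ≠ 1) (hβ : 0 < β) (hS : SinK d ρ β) : Tub1U d ρ β :=
  tub1A68 hd hρ hβ.le (ampCNAll5 hρ hnc hβ) hS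

/-- **Leaf TUBN, every law**, from the leaves for one length. -/
theorem tubNU68 {d : ℕ} {ρ : Measure ℝ} [IsProbabilityMeasure ρ] {β : ℝ} (hd : 0 < d)
    (hT : Tub1U d ρ β) (hX : MaxX d ρ β) (hL : LowN d ρ β) : TubNU d ρ β := by
  intro η M hη hM
  have hη2 : 0 < η / 2 := by positivity
  obtain ⟨C₁, hC1, hC⟩ := hT (η / 2) M hη2 hM
  refine ⟨C₁, by linarith, fun p hp => ?_⟩
  obtain ⟨N₁, hN₁⟩ := hL (η / 2) p hη2 hp
  obtain ⟨Q, hQ⟩ : ∃ Q : ℝ, Q = C₁ * 2 ^ (1 + η / 2) * (4 ^ C₁ + (3 + 1 / (η / 2))) := ⟨_, rfl⟩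
  have h4C : (0 : ℝ) < 4 ^ C₁ := Real.rpow_pos_of_pos (by norm_num) _
  have h2C : (0 : ℝ) < 2 ^ (1 + η / 2) := Real.rpow_pos_of_pos (by norm_num) _
  have hiη : 0 < 1 / (η / 2) := by positivity
  have hQ0 : 0 < Q := by
    rw [hQ]
    positivity
  refine ⟨1 + Q, max N₁ 1, by linarith, ?_⟩
  intro h v N P R r hN hP hR hrR hD hex
  have hNN : N₁ ≤ N := (le_max_left _ _).trans hN
  have hN1 : 1 ≤ N := (le_max_right _ _).trans hN
  have hn : (1 : ℝ) ≤ N := by exact_mod_cast hN1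
  have hn0 : (0 : ℝ) < N := by linarith
  have hP0 : 0 < P := by linarith
  obtain ⟨x, hx⟩ : ∃ x : ℝ, x = (N : ℝ) ^ (-p) := ⟨_, rfl⟩
  have hx0 : 0 < x := by rw [hx]; exact Real.rpow_pos_of_pos hn0 _
  have hx1 : x ≤ 1 := by
    rw [hx]
    exact Real.rpow_le_one_of_one_le_of_nonpos hn (by linarith)
  obtain ⟨w, hw⟩ : ∃ w : ℝ, w = -((N : ℝ) ^ (η / 2) * P + Real.log N) := ⟨_, rfl⟩
  have hlogN : 0 ≤ Real.log N := Real.log_nonneg hn
  have hlow := hN₁ h N P hNN hP hD.fl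
  rw [← hx] at hex hlow
  -- from the block to its end
  have h1 : x ≤ (law d ρ).real {ξ | ∃ n : ℕ, N ≤ n ∧ n ≤ 2 * N ∧
      X β h ξ n < n * lam ρ β h - (N : ℝ) ^ (η / 2) * P} +
      (law d ρ).real {η | ∃ s : ℕ, s ≤ N ∧ Real.exp (((N + s : ℕ) : ℝ) * lam ρ β h + w) ≤
        ZT β h η (tube d (N + s) v R)ᶜ} := by
    refine hex.le.trans ((measureReal_mono ?_ (measure_ne_top _ _)).trans
      (measureReal_union_le _ _))
    intro ξ hξ
    obtain ⟨n, hn1, hn2, hn3⟩ := hξ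
    by_cases h2 : X β h ξ n < n * lam ρ β h - (N : ℝ) ^ (η / 2) * P
    · exact Or.inl ⟨n, hn1, hn2, h2⟩
    · right
      obtain ⟨s, rfl⟩ := Nat.exists_eq_add_of_le hn1
      refine ⟨s, by omega, ?_⟩
      push Not at h2
      have h3 : 0 < Z β h ξ (N + s) := ZT_univ_pos hd β h ξ
      have h4 := ZT_compl68 β h ξ (tube d (N + s) v R)
      have h5 : PolT β h ξ (tube d (N + s) v R) * Z β h ξ (N + s) =
          ZT β h ξ (tube d (N + s) v R) := by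
        unfold PolT
        exact div_mul_cancel₀ _ h3.ne'
      have h6 : 1 / (N : ℝ) * Z β h ξ (N + s) ≤ ZT β h ξ (tube d (N + s) v R)ᶜ := by
        have h7 := mul_le_mul_of_nonneg_right hn3.le h3.le
        have h8 : (1 - PolT β h ξ (tube d (N + s) v R)) * Z β h ξ (N + s) =
            ZT β h ξ (tube d (N + s) v R)ᶜ := by
          rw [sub_mul, one_mul, h5]
          linarith
        rw [h8] at h7
        exact h7
      refine le_trans ?_ h6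
      have h9 : Z β h ξ (N + s) = Real.exp (X β h ξ (N + s)) := (Real.exp_log h3).symm
      have h10 : 1 / (N : ℝ) = Real.exp (-Real.log N) := by
        rw [Real.exp_neg, Real.exp_log hn0, one_div]
      rw [h9, h10, ← Real.exp_add]
      apply Real.exp_le_exp.2
      rw [hw]
      linarith
  have h2 := hX h v N N R w P hP0 fun r hr =>
    ⟨(hD.fl r (by omega)).2, (hD.fl r (by omega)).1⟩
  have hε : x / 4 ≤ (law d ρ).real {η | Real.exp (((N + N : ℕ) : ℝ) * lam ρ β h + w - 2 * P) ≤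
      ZT β h η (tube d (N + N) v R)ᶜ} := by linarith
  have e2 : 2 * N = N + N := two_mul N
  rw [e2] at hrR hD
  have hNη : 0 < (N : ℝ) ^ (η / 2) := Real.rpow_pos_of_pos hn0 _
  have hNη1 : 1 ≤ (N : ℝ) ^ (η / 2) := Real.one_le_rpow hn hη2.le
  have hw0 : w ≤ 0 := by
    rw [hw]
    have : 0 ≤ (N : ℝ) ^ (η / 2) * P := by positivity
    linarith
  have key := hC h v (N + N) P R r (((N + N : ℕ) : ℝ) * lam ρ β h + w - 2 * P) (x / 4)
    (by omega) hP hR (by positivity) (by linarith) hrR hD (by linarith) hε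
  have e3 : ((N + N : ℕ) : ℝ) * lam ρ β h - (((N + N : ℕ) : ℝ) * lam ρ β h + w - 2 * P) =
      2 * P - w := by ring
  rw [e3] at key
  have e4 : ((N + N : ℕ) : ℝ) ^ (1 + η / 2) = 2 ^ (1 + η / 2) * (N : ℝ) ^ (1 + η / 2) := by
    have : ((N + N : ℕ) : ℝ) = 2 * N := by push_cast; ring
    rw [this, Real.mul_rpow (by norm_num) hn0.le]
  have e5 : P / (x / 4) ^ C₁ = 4 ^ C₁ * (N : ℝ) ^ (C₁ * p) * P := by
    rw [hx, Real.div_rpow (Real.rpow_nonneg hn0.le _) (by norm_num), ← Real.rpow_mul hn0.le]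
    have h6 : -p * C₁ = -(C₁ * p) := by ring
    rw [h6, Real.rpow_neg hn0.le]
    have h7 : 0 < (N : ℝ) ^ (C₁ * p) := Real.rpow_pos_of_pos hn0 _
    field_simp
  have h11 : Real.log N ≤ (N : ℝ) ^ (η / 2) / (η / 2) := Real.log_le_rpow_div hn0.le hη2
  have h12 : 2 * P - w ≤ (3 + 1 / (η / 2)) * (N : ℝ) ^ (η / 2) * P := by
    have h13 : P ≤ (N : ℝ) ^ (η / 2) * P := le_mul_of_one_le_left hP0.le hNη1
    have h14 : (N : ℝ) ^ (η / 2) / (η / 2) ≤ 1 / (η / 2) * (N : ℝ) ^ (η / 2) * P := by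
      have h15 : (N : ℝ) ^ (η / 2) / (η / 2) = 1 / (η / 2) * (N : ℝ) ^ (η / 2) := by ring
      rw [h15]
      exact le_mul_of_one_le_right (by positivity) hP
    have h16 : (3 + 1 / (η / 2)) * (N : ℝ) ^ (η / 2) * P = 3 * ((N : ℝ) ^ (η / 2) * P) +
        1 / (η / 2) * (N : ℝ) ^ (η / 2) * P := by ring
    rw [h16, hw]
    linarith
  have hCp : 0 ≤ C₁ * p := by positivity
  obtain ⟨u, hu⟩ : ∃ u : ℝ, u = (N : ℝ) ^ (η / 2 + C₁ * p) := ⟨_, rfl⟩
  have hu1 : (N : ℝ) ^ (C₁ * p) ≤ u := by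
    rw [hu]
    exact Real.rpow_le_rpow_of_exponent_le hn (by linarith)
  have hu2 : (N : ℝ) ^ (η / 2) ≤ u := by
    rw [hu]
    exact Real.rpow_le_rpow_of_exponent_le hn (by linarith)
  have h17 : P / (x / 4) ^ C₁ + (2 * P - w) ≤ (4 ^ C₁ + (3 + 1 / (η / 2))) * u * P := by
    rw [e5]
    have h18 : 4 ^ C₁ * (N : ℝ) ^ (C₁ * p) * P ≤ 4 ^ C₁ * u * P :=
      mul_le_mul_of_nonneg_right (mul_le_mul_of_nonneg_left hu1 h4C.le) hP0.le
    have h19 : (3 + 1 / (η / 2)) * (N : ℝ) ^ (η / 2) * P ≤ (3 + 1 / (η / 2)) * u * P :=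
      mul_le_mul_of_nonneg_right (mul_le_mul_of_nonneg_left hu2 (by positivity)) hP0.le
    have h20 : (4 ^ C₁ + (3 + 1 / (η / 2))) * u * P = 4 ^ C₁ * u * P +
        (3 + 1 / (η / 2)) * u * P := by ring
    rw [h20]
    linarith
  have e6 : (N : ℝ) ^ (1 + η + C₁ * p) = (N : ℝ) ^ (1 + η / 2) * u := by
    rw [hu, ← Real.rpow_add hn0]
    congr 1
    ring
  rw [e6]
  rw [e4] at key
  have h21 : 0 ≤ C₁ * (2 ^ (1 + η / 2) * (N : ℝ) ^ (1 + η / 2)) := by positivity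
  have h22 := mul_le_mul_of_nonneg_left h17 h21
  have h23 : C₁ * (2 ^ (1 + η / 2) * (N : ℝ) ^ (1 + η / 2)) *
      ((4 ^ C₁ + (3 + 1 / (η / 2))) * u * P) = Q * ((N : ℝ) ^ (1 + η / 2) * u) * P := by
    rw [hQ]
    ring
  have hu0 : 0 < u := by linarith
  have h24 : 0 ≤ (N : ℝ) ^ (1 + η / 2) * u * P := by positivity
  have h25 : (1 + Q) * ((N : ℝ) ^ (1 + η / 2) * u) * P = (N : ℝ) ^ (1 + η / 2) * u * P +
      Q * ((N : ℝ) ^ (1 + η / 2) * u) * P := by ring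
  rw [h25]
  linarith

end Pool.Agent.W_7d29a1_KP
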