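import Pool.Agent.W_7d29a1_KP.FinOU16
import Pool.Agent.W_7d29a1_KP.TubN68
import Pool.Agent.W_7d29a1_KP.MaxX78
import Pool.Agent.W_7d29a1_KP.LowU68
import Pool.Agent.W_7d29a1_KP.MainU30

/-!
Theorem KPZO for every law: no hypothesis left.
-/

set_option autoImplicit false

namespace Pool.Agent.W_7d29a1_KP

open MeasureTheory ProbabilityTheory Filter Topology Pool.Agent.W_MP_7d29a1_pr
  Pool.Agent.W_7d29a1_h46 Pool.Agent.W_7d29a1_h46u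

/-- The block of lengths, every law. -/
theorem tubNU30 {d : ℕ} {ρ : Measure ℝ} [IsProbabilityMeasure ρ] {β : ℝ} (hd : 0 < d)
    (hρ : EM ρ) (hnc : ∀ c : ℝ, ρ {c} ≠ 1) (hβ : 0 < β) : TubNU d ρ β :=
  tubNU68 hd (tub1U68 hd hρ hnc hβ (sinK95 hd hρ)) (maxX78 hd hρ β) (lowN68 hd hρ hnc hβ)

/-- **Theorem KPZO, the tube half, every law.** -/
theorem mainHOU30 {d : ℕ} {ρ : Measure ℝ} [IsProbabilityMeasure ρ] {β : ℝ} (hd : 0 < d)
    (hρ : EM ρ) (hnc : ∀ c : ℝ, ρ {c} ≠ 1) (hβ : 0 < β) : MainHO d ρ β :=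
  finOU16 hd (fun η M hη hM => by
    obtain ⟨K, hK, H⟩ := tubNU30 hd hρ hnc hβ η M hη hM
    exact ⟨K, hK.le, H⟩) (parK16 hd hρ β) (efKU30 hd hρ hnc hβ)

end Pool.Agent.W_7d29a1_KP
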