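import Pool.Agent.W_7d29a1_KP.DefsKP89
import Pool.Agent.W_7d29a1_ehr.Phi

/-!
Theorem KPZO: the scaling relation for the variance and the wandering exponent of the problem
(almost sure, all lengths). Definitions and frozen statements of the leaves (helper62).
-/

namespace Pool.Agent.W_7d29a1_KP

open MeasureTheory ProbabilityTheory Filter Topology Pool.Agent.W_MP_7d29a1_pr
  Pool.Agent.W_7d29a1_h46 Pool.Agent.W_7d29a1_h46u Pool.Agent.W_7d29a1_D2.B35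
  Pool.Agent.W_7d29a1_Q29 Pool.Agent.W_7d29a1_R34 Pool.Agent.W_7d29a1_SP Pool.Agent.W_7d29a1_SD
  Pool.Agent.W_7d29a1_SQ Pool.Agent.W_7d29a1_KZ

section Leaves

variable (d : ℕ) (ρ : Measure ℝ) (β : ℝ)

/-- TUB1 (laws in `GC`; from `SinK`, by halving over the exit points): one length, explicit in the
probability `Φ (-z)`. -/
def Tub1 : Prop := ∀ η M : ℝ, 0 < η → 0 < M → ∃ C : ℝ, 1 ≤ C ∧
  ∀ (h v : Vec d) (n : ℕ) (P R r T z : ℝ), 1 ≤ n → 1 ≤ P → 0 < R → 1 ≤ z →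
    16 * M * Real.sqrt d * n * r = R → Dk ρ β h v n M P r → T ≤ n * lam ρ β h →
    Ehr.Phi (-z) ≤ (law d ρ).real {η | Real.exp T ≤ ZT β h η (tube d n v R)ᶜ} →
      R ^ 2 ≤ C * (n : ℝ) ^ (1 + η) * (P / Ehr.Phi (-(2 * z)) + (n * lam ρ β h - T))

/-- MAXX (every law): a large weight of the walks which leave the tube, at a length in a window, is
continued to the end of the window. -/
def MaxX : Prop := ∀ (h v : Vec d) (N S : ℕ) (R w Ψ : ℝ), 0 < Ψ →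
  (∀ r : ℕ, r ≤ S → En ρ β h r ≤ Ψ ∧ Fn ρ β h r ≤ Ψ) →
  (law d ρ).real {η | ∃ s : ℕ, s ≤ S ∧ Real.exp (((N + s : ℕ) : ℝ) * lam ρ β h + w) ≤
    ZT β h η (tube d (N + s) v R)ᶜ} ≤
  2 * (law d ρ).real {η | Real.exp (((N + S : ℕ) : ℝ) * lam ρ β h + w - 2 * Ψ) ≤
    ZT β h η (tube d (N + S) v R)ᶜ}

/-- LOWN (from `EhlP`): the lower tail, uniformly in a window. -/
def LowN : Prop := ∀ η p : ℝ, 0 < η → 0 < p → ∃ N₀ : ℕ, ∀ (h : Vec d) (N : ℕ) (P : ℝ),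
  N₀ ≤ N → 1 ≤ P → (∀ k : ℕ, k ≤ 2 * N → Fn ρ β h k ≤ P ∧ En ρ β h k ≤ P) →
    (law d ρ).real {ξ | ∃ n : ℕ, N ≤ n ∧ n ≤ 2 * N ∧
      X β h ξ n < n * lam ρ β h - (N : ℝ) ^ η * P} ≤ (N : ℝ) ^ (-p) / 2

/-- TUBN (from `Tub1`, `MaxX`, `LowN`): the block of the lengths in `[N, 2 N]`. -/
def TubN : Prop := ∀ η M p : ℝ, 0 < η → 0 < M → 0 < p → ∃ (C : ℝ) (N₀ : ℕ), 1 ≤ C ∧
  ∀ (h v : Vec d) (N : ℕ) (P R r : ℝ), N₀ ≤ N → 1 ≤ P → 0 < R →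
    16 * M * Real.sqrt d * ((2 * N : ℕ) : ℝ) * r = R → Dk ρ β h v (2 * N) M P r →
    (N : ℝ) ^ (-p) < (law d ρ).real {ξ | ∃ n : ℕ, N ≤ n ∧ n ≤ 2 * N ∧
      1 / (N : ℝ) < 1 - PolT β h ξ (tube d n v R)} →
      R ^ 2 ≤ C * (N : ℝ) ^ (1 + η + 16 * p) * P

/-- FIN (from `TubN`, `ParK`, `EfK`): almost surely, the tube of radius `n ^ ((1 + x) / 2 + ε)` is
typical at all large lengths. -/
def MainHO : Prop := ∀ᵐ h : Vec d, ∃ v : Vec d,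
  (∀ k : Vec d, lam ρ β h + inner ℝ v k ≤ lam ρ β (h + k)) ∧
  ∀ x δ : ℝ, 0 < x → x < 1 → (∀ᶠ k : ℕ in atTop, Fn ρ β h k ≤ (k : ℝ) ^ x) → x / 2 < δ →
    ∀ᵐ ξ ∂(law d ρ), ∀ᶠ n : ℕ in atTop,
      1 - PolT β h ξ (tube d n v ((n : ℝ) ^ (1 / 2 + δ))) ≤ 2 / n

end Leaves

end Pool.Agent.W_7d29a1_KP
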