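import Pool.Agent.W_7d29a1_KP.RelA27
import Pool.Agent.W_7d29a1_KP.DefsKO62

/-!
Theorem KPZO: the inequality `2 ν - 1 ≤ χ'` for the wandering exponent of the problem.
-/

namespace Pool.Agent.W_7d29a1_KP

open MeasureTheory ProbabilityTheory Filter Topology Pool.Agent.W_MP_7d29a1_pr
  Pool.Agent.W_7d29a1_h46 Pool.Agent.W_7d29a1_h46u Pool.Agent.W_7d29a1_D2
  Pool.Agent.W_7d29a1_D2.B35 Pool.Agent.W_7d29a1_Q29 Pool.Agent.W_7d29a1_R34
  Pool.Agent.W_7d29a1_SP Pool.Agent.W_7d29a1_SD Pool.Agent.W_7d29a1_UC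
  Pool.Agent.W_7d29a1_KZ Pool.Agent.W_7d29a1_KL

variable {d : ℕ} {Ω : Type*} [MeasurableSpace Ω] {μ : Measure Ω} [IsProbabilityMeasure μ]
  {ρ : Measure ℝ} [IsProbabilityMeasure ρ] {ω : ℕ × Site d → Ω → ℝ} {β : ℝ}

/-- A tube which has almost surely almost all the mass bounds the exponent `ν` of the problem. -/
theorem nuT_le27 (hω : IID μ ρ ω) {h v : Vec d} {a : ℝ} (ha : 0 < a)
    (hP : ∀ᵐ η ∂(law d ρ), ∀ᶠ n : ℕ in atTop,
      1 - PolT β h η (tube d n v ((n : ℝ) ^ a)) ≤ 2 / n) : nuT μ β ω h v ≤ a := by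
  refine csInf_le ⟨0, fun _ hx => hx.1.le⟩ ⟨ha, ?_⟩
  have h1 : ∀ᵐ x ∂μ, ∀ᶠ n : ℕ in atTop,
      1 - PolT β h (fun p => ω p x) (tube d n v ((n : ℝ) ^ a)) ≤ 2 / n :=
    (mp_env hω).quasiMeasurePreserving.ae hP
  have h2 : (fun x => Filter.liminf (fun n : ℕ =>
      PolT β h (fun p => ω p x) (tube d n v ((n : ℝ) ^ a))) atTop) =ᵐ[μ] fun _ => (1 : ℝ) := by
    filter_upwards [h1] with x hx
    have h3 : Tendsto (fun n : ℕ => 1 - 2 / (n : ℝ)) atTop (𝓝 (1 - 0)) :=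
      tendsto_const_nhds.sub (tendsto_const_div_atTop_nhds_zero_nat 2)
    rw [sub_zero] at h3
    have h4 : Tendsto (fun n : ℕ =>
        PolT β h (fun p => ω p x) (tube d n v ((n : ℝ) ^ a))) atTop (𝓝 1) := by
      refine tendsto_of_tendsto_of_tendsto_of_le_of_le' h3 tendsto_const_nhds ?_ ?_
      · filter_upwards [hx] with n hn
        linarith
      · exact Eventually.of_forall fun n => PolT_le_one β h _ _
    exact h4.liminf_eq
  rw [integral_congr_ae h2]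
  simp

/-- The bound at one tilt. -/
lemma oneO27 (hd : 0 < d) (hω : IID μ ρ ω) (hρ : EM ρ) {h v : Vec d}
    (hK : ∀ x δ : ℝ, 0 < x → x < 1 → (∀ᶠ k : ℕ in atTop, Fn ρ β h k ≤ (k : ℝ) ^ x) →
      x / 2 < δ → ∀ᵐ η ∂(law d ρ), ∀ᶠ n : ℕ in atTop,
        1 - PolT β h η (tube d n v ((n : ℝ) ^ (1 / 2 + δ))) ≤ 2 / n) :
    2 * nuT μ β ω h v - 1 ≤ chiV μ β ω h := by
  have key : ∀ x : ℝ, 0 < x → x < 1 → (∀ᶠ n : ℕ in atTop,
      Var[fun y => Real.log (Zn β h (fun p => ω p y) n); μ] ≤ (n : ℝ) ^ (2 * x)) →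
      2 * nuT μ β ω h v - 1 ≤ x := by
    intro x hx0 hx1 hx
    have h1 : ∀ᶠ k : ℕ in atTop, Fn ρ β h k ≤ (k : ℝ) ^ x := by
      filter_upwards [hx] with n hn
      rw [varV19 hd hω hρ] at hn
      have h2 := (fn_sq19 (β := β) hd hρ h n).trans hn
      have h3 : (n : ℝ) ^ (2 * x) = ((n : ℝ) ^ x) ^ 2 := by
        rw [← Real.rpow_natCast ((n : ℝ) ^ x) 2, ← Real.rpow_mul (Nat.cast_nonneg n)]
        congr 1
        push_cast
        ring
      rw [h3] at h2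
      exact (abs_le_of_sq_le_sq' h2 (Real.rpow_nonneg (Nat.cast_nonneg n) x)).2
    have h2 : nuT μ β ω h v ≤ (1 + x) / 2 := by
      refine le_of_forall_gt_imp_ge_of_dense fun a ha => ?_
      have h3 := hK x (a - 1 / 2) hx0 hx1 h1 (by linarith)
      rw [show 1 / 2 + (a - 1 / 2) = a by ring] at h3
      exact nuT_le27 hω (by linarith) h3
    linarith
  refine le_csInf ⟨3 / 4, by norm_num, varH27 hd hω hρ h⟩ fun x hx => ?_
  rcases lt_or_ge x 1 with h1 | h1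
  · exact key x hx.1 h1 hx.2
  · have h2 := key (3 / 4) (by norm_num) (by norm_num) (varH27 hd hω hρ h)
    linarith

/-- **THEOREM KPZO, the inequality `2 ν - 1 ≤ χ'` for the wandering exponent `ν` of the problem**:
at almost every tilt `h` and every slope `v` of the free energy at `h`. -/
theorem relOG27 (hd : 0 < d) (hω : IID μ ρ ω) (hρ : EM ρ)
    (hM : ∀ᵐ h : Vec d, ∃ v : Vec d,
      (∀ k : Vec d, lam ρ β h + inner ℝ v k ≤ lam ρ β (h + k)) ∧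
      ∀ x δ : ℝ, 0 < x → x < 1 → (∀ᶠ k : ℕ in atTop, Fn ρ β h k ≤ (k : ℝ) ^ x) → x / 2 < δ →
        ∀ᵐ η ∂(law d ρ), ∀ᶠ n : ℕ in atTop,
          1 - PolT β h η (tube d n v ((n : ℝ) ^ (1 / 2 + δ))) ≤ 2 / n) :
    ∀ᵐ h : Vec d, ∀ v : Vec d, (∀ k, lam ρ β h + inner ℝ v k ≤ lam ρ β (h + k)) →
      2 * nuT μ β ω h v - 1 ≤ chiV μ β ω h := by
  filter_upwards [hM, ae_upp (lam_convex (ρ := ρ) hd hρ β)] with h hh hup v hv
  obtain ⟨w, hw, hK⟩ := hh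
  obtain ⟨g, C, -, δ, hδ, hC⟩ := hup
  have e1 : w = g := slope_uniq27 hδ hC hw
  have e2 : v = g := slope_uniq27 hδ hC hv
  rw [e2, ← e1]
  exact oneO27 hd hω hρ hK

/-- **THEOREM KPZO, the inequality `2 ν - 1 ≤ χ'` for the wandering exponent `ν` of the problem**,
from the frozen statement `MainHO`. -/
theorem relO27 (hd : 0 < d) (hω : IID μ ρ ω) (hρ : EM ρ) (hM : MainHO d ρ β) :
    ∀ᵐ h : Vec d, ∀ v : Vec d, (∀ k, lam ρ β h + inner ℝ v k ≤ lam ρ β (h + k)) →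
      2 * nuT μ β ω h v - 1 ≤ chiV μ β ω h :=
  relOG27 hd hω hρ hM

end Pool.Agent.W_7d29a1_KP
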