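import Pool.Agent.W_7d29a1_KP.RelA19
import Pool.Agent.W_7d29a1_VT.VTAll10

/-!
`2 χ' ≤ ν'` at every tilt and every velocity; `ν' ≤ 2 / 3` and `χ' ≤ 1 / 3` at almost every tilt.
-/

namespace Pool.Agent.W_7d29a1_KP

open MeasureTheory ProbabilityTheory Filter Topology Pool.Agent.W_MP_7d29a1_pr
  Pool.Agent.W_7d29a1_h46 Pool.Agent.W_7d29a1_h46u Pool.Agent.W_7d29a1_D2
  Pool.Agent.W_7d29a1_D2.B35 Pool.Agent.W_7d29a1_Q29 Pool.Agent.W_7d29a1_SP
  Pool.Agent.W_7d29a1_KZ Pool.Agent.W_7d29a1_KL Pool.Agent.W_7d29a1_VT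

variable {d : ℕ} {Ω : Type*} [MeasurableSpace Ω] {μ : Measure Ω} [IsProbabilityMeasure μ]
  {ρ : Measure ℝ} [IsProbabilityMeasure ρ] {ω : ℕ × Site d → Ω → ℝ} {β : ℝ}

/-- The tube in probability, above `nuP`. -/
theorem tbP19 (hd : 0 < d) (hω : IID μ ρ ω) {h v : Vec d} {a : ℝ} (ha : nuP μ β ω h v < a) :
    TbP ρ β h v a := by
  intro δ hδ
  set κ : ℝ := min (1 / 2) δ with hκd
  have hκ : 0 < κ := lt_min (by norm_num) hδ
  have hκ2 : κ ≤ 1 / 2 := min_le_left _ _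
  have hκδ : κ ≤ δ := min_le_right _ _
  obtain ⟨n₀, hn₀⟩ := n0P19 hd hω.meas (β := β) (h := h) (v := v) ha hκ
  refine ⟨n₀, fun n hn => ?_⟩
  have hSm : MeasurableSet {η : Env d | ¬ (1 - κ ≤
      PolT β h η (tube d n v ((n : ℝ) ^ a)))} :=
    (measurableSet_le measurable_const (measurable_PolT β h _)).compl
  have hP : (law d ρ).real {η | ¬ (1 - κ ≤ PolT β h η (tube d n v ((n : ℝ) ^ a)))} ≤ κ := by
    rw [← (mp_env hω).measureReal_preimage hSm.nullMeasurableSet]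
    exact hn₀ n hn
  refine (measureReal_mono ?_).trans (hP.trans hκδ)
  intro η hη hcon
  rw [Set.mem_ofPred_eq] at hη
  linarith

/-- **`2 χ' ≤ ν'`** for the exponent of the variance and the exponent of the typical displacement,
every dimension, every law, every tilt and every velocity. -/
theorem two_chiV19 (hd : 0 < d) (hω : IID μ ρ ω) (hρ : EM ρ) (h v : Vec d) :
    2 * chiV μ β ω h ≤ nuP μ β ω h v := by
  have h0 : 0 ≤ nuP μ β ω h v := Real.sInf_nonneg fun b hb => hb.1.le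
  suffices hs : chiV μ β ω h ≤ nuP μ β ω h v / 2 by linarith
  refine le_of_forall_gt_imp_ge_of_dense fun x hx => ?_
  refine csInf_le ⟨0, fun b hb => hb.1.le⟩ ⟨by linarith, ?_⟩
  rcases lt_or_ge (1 / 2) x with hx2 | hx2
  · exact var_half19 hd hω hρ h hx2
  · obtain ⟨a, ha1, ha2⟩ := exists_between (show nuP μ β ω h v < 2 * x by linarith)
    have ha0 : 0 < a := lt_of_le_of_lt h0 ha1
    obtain ⟨n₀, hn₀⟩ := varAll10 hd hρ β h v ha0 (by linarith) (tbP19 hd hω ha1) x (by linarith)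
    filter_upwards [eventually_ge_atTop n₀] with n hn
    rw [varV19 hd hω hρ]
    have h7 : ∫ η, |X β h η n - A ρ β h n| ^ 2 ∂(law d ρ) = Va ρ β h n := by
      unfold Va
      simp only [sq_abs]
    rw [← h7]
    exact hn₀ n hn

/-- At almost every tilt `h`, for every slope `v`: `ν' ≤ 2 / 3`, `χ' ≤ 1 / 3`,
`2 ν' - 1 ≤ χ' ≤ ν' / 2`. -/
theorem relT19 (hd : 0 < d) (hω : IID μ ρ ω) (hρ : EM ρ) (hM : MainHK d ρ β) :
    ∀ᵐ h : Vec d, ∀ v : Vec d, (∀ k : Vec d, lam ρ β h + inner ℝ v k ≤ lam ρ β (h + k)) →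
      2 * nuP μ β ω h v - 1 ≤ chiV μ β ω h ∧ nuP μ β ω h v ≤ 2 / 3 ∧
        chiV μ β ω h ≤ 1 / 3 := by
  filter_upwards [relA19 (μ := μ) hd hω hρ hM] with h hh v hv
  have h1 := hh v hv
  have h2 := two_chiV19 (β := β) hd hω hρ h v
  refine ⟨h1, ?_, ?_⟩ <;> linarith

end Pool.Agent.W_7d29a1_KP
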