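import Pool.Agent.W_7d29a1_KP.RelH19
import Pool.Agent.W_7d29a1_KP.MainO30
import Pool.Agent.W_7d29a1_KZ.Nvs20

/-!
The scaling relation at almost every tilt for every law, no hypothesis left (helper19).
-/

namespace Pool.Agent.W_7d29a1_KP

open MeasureTheory ProbabilityTheory Filter Topology Pool.Agent.W_MP_7d29a1_pr
  Pool.Agent.W_7d29a1_h46 Pool.Agent.W_7d29a1_h46u Pool.Agent.W_7d29a1_D2
  Pool.Agent.W_7d29a1_D2.B35 Pool.Agent.W_7d29a1_Q29 Pool.Agent.W_7d29a1_R34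
  Pool.Agent.W_7d29a1_SP Pool.Agent.W_7d29a1_SD Pool.Agent.W_7d29a1_UC Pool.Agent.W_7d29a1_KZ
  Pool.Agent.W_7d29a1_KL

variable {d : ℕ} {Ω : Type*} [MeasurableSpace Ω] {μ : Measure Ω} [IsProbabilityMeasure μ]
  {ρ : Measure ℝ} [IsProbabilityMeasure ρ] {ω : ℕ × Site d → Ω → ℝ} {β : ℝ}

/-- F3: at almost every tilt, for every slope `v`, the free energy is flat to second order or
`1 / 2 ≤ ν` and `χ' ≤ 2 ν - 1`. -/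
theorem relHTU19 (hd : 0 < d) (hω : IID μ ρ ω) (hρ : EM ρ) (hnc : ∀ c : ℝ, ρ {c} ≠ 1)
    (hβ : 0 < β) : ∀ᵐ h : Vec d, ∀ v : Vec d,
      (∀ k : Vec d, lam ρ β h + inner ℝ v k ≤ lam ρ β (h + k)) →
      FlG (lam ρ β) h v ∨ (1 / 2 ≤ nuT μ β ω h v ∧ chiV μ β ω h ≤ 2 * nuT μ β ω h v - 1) :=
  relHT19 hd hω hρ (mainKH70 hd hρ hnc hβ) (nvsP20 hd hρ hnc hβ)

/-- **The scaling relation at almost every tilt, every law.** -/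
theorem relEU19 (hd : 0 < d) (hω : IID μ ρ ω) (hρ : EM ρ) (hnc : ∀ c : ℝ, ρ {c} ≠ 1)
    (hβ : 0 < β) : ∀ᵐ h : Vec d, ∀ v : Vec d,
      (∀ k : Vec d, lam ρ β h + inner ℝ v k ≤ lam ρ β (h + k)) →
      nuT μ β ω h v ≤ 2 / 3 ∧ chiV μ β ω h ≤ 1 / 3 ∧ 2 * nuT μ β ω h v - 1 ≤ chiV μ β ω h ∧
      (FlG (lam ρ β) h v ∨ (1 / 2 ≤ nuT μ β ω h v ∧ nuP μ β ω h v = nuT μ β ω h v ∧
        chiV μ β ω h = 2 * nuT μ β ω h v - 1 ∧ ∀ x : ℝ, 2 * nuT μ β ω h v - 1 < x →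
          FlucLe μ β ω h (lamN ρ β h) x)) :=
  relE19 hd hω hρ (mainHOU30 hd hρ hnc hβ) (mainKH70 hd hρ hnc hβ) (nvsP20 hd hρ hnc hβ)

end Pool.Agent.W_7d29a1_KP
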