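import Pool.Agent.W_7d29a1_KP.LowU68
import Pool.Agent.W_7d29a1_OT.EhrU81

/-!
The weight of a set of walks, every law: the lower tail, and the median of the logarithm is low if
its mean is low (helper68, after helper5 and helper81).
-/

set_option autoImplicit false

namespace Pool.Agent.W_7d29a1_KP

open MeasureTheory ProbabilityTheory Filter Topology Pool.Agent.W_MP_7d29a1_pr
  Pool.Agent.W_7d29a1_h46 Pool.Agent.W_7d29a1_h46u Pool.Agent.W_7d29a1_D2.B35
  Pool.Agent.W_7d29a1_Q29 Pool.Agent.W_7d29a1_R34 Pool.Agent.W_7d29a1_SP Pool.Agent.W_7d29a1_SD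
  Pool.Agent.W_7d29a1_SQ Pool.Agent.W_7d29a1_KZ Pool.Agent.W_7d29a1_AM Pool.Agent.W_7d29a1_NR.L84
  Pool.Agent.W_7d29a1_NR.TrU41 Pool.Agent.W_7d29a1_NR.HaN41 U68

/-- The lower tail of the logarithm of a sum of exponentials. -/
theorem deepLS68 {ρ : Measure ℝ} [IsProbabilityMeasure ρ] {β : ℝ} (hβ : 0 ≤ β) (hA : DeepC ρ β) :
    ∃ C c : ℝ, 1 ≤ C ∧ 0 < c ∧ ∀ (d n : ℕ) (S : Type) [Fintype S] [Nonempty S] (w : S → ℝ)
      (q' : S → Fin n → ℕ × Site d), (∀ s, Function.Injective (q' s)) → ∀ s₀ s₁ a q : ℝ,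
      0 < q → q ≤ 1 → C ≤ a → q ≤ (law d ρ).real {η | LS β w q' η ≤ s₀} →
      1 / 4 ≤ (law d ρ).real {η | s₁ < LS β w q' η} →
      (law d ρ).real {η | s₁ + a < LS β w q' η} < c →
        s₁ - s₀ ≤ C * (a * Real.sqrt (1 + Real.log (1 / q)) + (1 + Real.log (1 / q))) := by
  obtain ⟨C, c, hC1, hc0, hC⟩ := hA
  refine ⟨2 * C, c, by linarith, hc0, fun d n S _ _ w q' hq' s₀ s₁ a q hq hq1 ha h0 h1 hcon => ?_⟩
  obtain ⟨s, hs⟩ : ∃ s : ℝ, s = s₁ - s₀ := ⟨_, rfl⟩
  rw [← hs]
  have hlq : 0 ≤ Real.log (1 / q) := Real.log_nonneg (by rw [le_div_iff₀ hq]; linarith)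
  have hc : ∀ s, 0 ≤ (fun s => Real.exp (w s)) s := fun s => (Real.exp_pos _).le
  have mV := (cls5 hβ hc (Aq q') s₀).meas
  have hV := V_prq (β := β) hq' (c := w) (M := s₀)
  have hlaw : ∀ T : Set ℝ, MeasurableSet T → (PN ρ (Nq q')).real
      {y | C5.V β (fun s => Real.exp (w s)) (Aq q') s₀ y ∈ T} =
      (law d ρ).real {η | Real.log (1 + Real.exp (LS β w q' η - s₀)) ∈ T} := fun T hT => by
    have mS : MeasurableSet {y | C5.V β (fun s => Real.exp (w s)) (Aq q') s₀ y ∈ T} := mV hT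
    rw [← law_prq, map_measureReal_apply (meas_prq q') mS]
    congr 1
    ext η
    show C5.V β (fun s => Real.exp (w s)) (Aq q') s₀ (prq q' η) ∈ T ↔
      Real.log (1 + Real.exp (LS β w q' η - s₀)) ∈ T
    rw [hV]
  have e0 := hlaw (Set.Iic (Real.log 2)) measurableSet_Iic
  have e1 := hlaw (Set.Ici s) measurableSet_Ici
  have e2 := hlaw (Set.Ioi (s + (a + 1))) measurableSet_Ioi
  simp only [Set.mem_Iic, Set.mem_Ici, Set.mem_Ioi] at e0 e1 e2
  have ha1 : 1 ≤ a := by linarith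
  by_cases hs0 : s < 0
  · have : 0 ≤ 2 * C * (a * Real.sqrt (1 + Real.log (1 / q)) + (1 + Real.log (1 / q))) := by
      positivity
    linarith
  rw [not_lt] at hs0
  have key := hC (Nq q') (C5.V β (fun s => Real.exp (w s)) (Aq q') s₀)
    (C5.P β (fun s => Real.exp (w s)) (Aq q') s₀) (cls5 hβ hc (Aq q') s₀)
    q s (a + 1) hq hq1 (by linarith) ?_ ?_ ?_
  · refine key.trans ?_
    have h2 : 0 ≤ Real.sqrt (1 + Real.log (1 / q)) := Real.sqrt_nonneg _
    have h3 : (a + 1) * Real.sqrt (1 + Real.log (1 / q)) ≤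
        2 * a * Real.sqrt (1 + Real.log (1 / q)) := mul_le_mul_of_nonneg_right (by linarith) h2
    have h4 : 2 * C * (a * Real.sqrt (1 + Real.log (1 / q)) + (1 + Real.log (1 / q))) =
        C * (2 * a * Real.sqrt (1 + Real.log (1 / q)) + 2 * (1 + Real.log (1 / q))) := by ring
    rw [h4]
    exact mul_le_mul_of_nonneg_left (by linarith) (by linarith)
  · rw [e0]
    refine h0.trans ?_
    refine measureReal_mono fun η (hη : LS β w q' η ≤ s₀) => ?_
    show Real.log (1 + Real.exp (LS β w q' η - s₀)) ≤ Real.log 2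
    apply Real.log_le_log (by positivity)
    have : Real.exp (LS β w q' η - s₀) ≤ 1 := Real.exp_le_one_iff.2 (by linarith)
    linarith
  · rw [e1]
    refine h1.trans ?_
    refine measureReal_mono fun η (hη : s₁ < LS β w q' η) => ?_
    show s ≤ Real.log (1 + Real.exp (LS β w q' η - s₀))
    rw [Real.le_log_iff_exp_le (by positivity)]
    have : Real.exp s ≤ Real.exp (LS β w q' η - s₀) := Real.exp_le_exp.2 (by rw [hs]; linarith)
    linarith
  · rw [e2]
    refine le_trans (measureReal_mono fun η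
      (hη : s + (a + 1) < Real.log (1 + Real.exp (LS β w q' η - s₀))) => ?_) hcon.le
    show s₁ + a < LS β w q' η
    have h3 := Pool.Agent.W_7d29a1_NR.HaN41.log_le41 (LS β w q' η - s₀)
    have h4 := Real.log_two_lt_d9
    have h5 : s + a < max (LS β w q' η - s₀) 0 := by linarith
    rcases le_total (LS β w q' η - s₀) 0 with h6 | h6
    · rw [max_eq_right h6] at h5
      linarith
    · rw [max_eq_left h6] at h5
      linarith

/-- The lower tail of the weight of a set of walks. -/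
theorem deepE68 {ρ : Measure ℝ} [IsProbabilityMeasure ρ] {β : ℝ} (hβ : 0 ≤ β) (hA : DeepC ρ β) :
    ∃ C c : ℝ, 1 ≤ C ∧ 0 < c ∧ ∀ (d n : ℕ) (h : Vec d) (E : Set (Fin n → Step d)), E.Nonempty →
      ∀ s₀ s₁ a q : ℝ, 0 < q → q ≤ 1 → C ≤ a →
      q ≤ (law d ρ).real {η | Real.log (ZT β h η E) ≤ s₀} →
      1 / 4 ≤ (law d ρ).real {η | s₁ < Real.log (ZT β h η E)} →
      (law d ρ).real {η | s₁ + a < Real.log (ZT β h η E)} < c →
        s₁ - s₀ ≤ C * (a * Real.sqrt (1 + Real.log (1 / q)) + (1 + Real.log (1 / q))) := by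
  classical
  obtain ⟨C, c, hC1, hc0, hC⟩ := deepLS68 hβ hA
  refine ⟨C, c, hC1, hc0, fun d n h E hE s₀ s₁ a q hq hq1 ha h0 h1 h2 => ?_⟩
  have : Nonempty {s // s ∈ E} := hE.to_subtype
  simp only [logZT68] at h0 h1 h2
  exact hC d n {s // s ∈ E} _ _ (fun s i j hij => Fin.ext (by
    have := congrArg Prod.fst hij
    simp only at this
    omega)) s₀ s₁ a q hq hq1 ha h0 h1 h2

/-- The logarithm of the weight of a set of walks is integrable. -/
lemma intE68 {d n : ℕ} (hd : 0 < d) {ρ : Measure ℝ} [IsProbabilityMeasure ρ] (hρ : EM ρ) (β : ℝ)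
    (h : Vec d) {E : Set (Fin n → Step d)} (hE : E.Nonempty) :
    Integrable (fun η => Real.log (ZT β h η E)) (law d ρ) := by
  obtain ⟨s, hs⟩ := hE
  have hX : Integrable (fun η => X β h η n) (law d ρ) := (concU hd hρ β h n).1
  have hE1 := (Pool.Agent.W_7d29a1_V.Conc42_energy (d := d) hρ s).1
  have hE2 : Integrable (fun η : Env d => inner ℝ h (emb (pos s n)) + β * energy η s)
      (law d ρ) := (integrable_const _).add (hE1.const_mul β)
  refine Integrable.mono' (hX.abs.add hE2.abs) (meas68 β h E).aestronglyMeasurable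
    (Eventually.of_forall fun η => ?_)
  have hpos : 0 < ZT β h η E := ZT_pos β h η ⟨s, hs⟩
  have h1 : Real.log (ZT β h η E) ≤ X β h η n :=
    Real.log_le_log hpos (ZT_mono β h η (Set.subset_univ E))
  have h2 : inner ℝ h (emb (pos s n)) + β * energy η s ≤ Real.log (ZT β h η E) := by
    rw [Real.le_log_iff_exp_le hpos]
    have h3 : Real.exp (inner ℝ h (emb (pos s n)) + β * energy η s) = ZT β h η {s} := by
      unfold ZT
      rw [Finset.sum_eq_single s]
      · rw [if_pos (Set.mem_singleton s)]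
        rfl
      · intro s' _ hs'
        exact if_neg hs'
      · intro hcon
        exact absurd (Finset.mem_univ s) hcon
    rw [h3]
    exact ZT_mono β h η (Set.singleton_subset_iff.2 hs)
  rw [Real.norm_eq_abs]
  show |Real.log (ZT β h η E)| ≤ |X β h η n| + |inner ℝ h (emb (pos s n)) + β * energy η s|
  have a1 := le_abs_self (X β h η n)
  have a2 := neg_abs_le (inner ℝ h (emb (pos s n)) + β * energy η s)
  have a3 := abs_nonneg (X β h η n)
  have a4 := abs_nonneg (inner ℝ h (emb (pos s n)) + β * energy η s)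
  rw [abs_le]
  constructor <;> linarith

/-- **The median is low if the mean is low**, every law. -/
theorem medE68 {ρ : Measure ℝ} [IsProbabilityMeasure ρ] (hρ : EM ρ) {β : ℝ} (hβ : 0 ≤ β)
    (hA : DeepC ρ β) : ∃ C : ℝ, 1 ≤ C ∧ ∀ (d : ℕ), 0 < d → ∀ (n : ℕ) (h : Vec d)
      (E : Set (Fin n → Step d)) (P l : ℝ), E.Nonempty → 1 ≤ P → 0 ≤ l → Fn ρ β h n ≤ P →
      ∫ η, Real.log (ZT β h η E) ∂(law d ρ) ≤ n * lam ρ β h - l →
      ∀ u : ℝ, n * lam ρ β h - l / C + C * P < u →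
        (law d ρ).real {η | u ≤ Real.log (ZT β h η E)} < 1 / 2 := by
  obtain ⟨D, c, hD1, hc0, hD⟩ := deepE68 hβ hA
  obtain ⟨κ, hκ⟩ : ∃ κ : ℝ, κ = min (c / 2) (1 / (D + 4)) := ⟨_, rfl⟩
  have hκ0 : 0 < κ := by rw [hκ]; exact lt_min (by linarith) (by positivity)
  have hκc : κ < c := by
    rw [hκ]
    exact lt_of_le_of_lt (min_le_left _ _) (by linarith)
  have hκD : D + 4 ≤ 1 / κ := by
    rw [le_div_iff₀ hκ0]
    have h1 : κ ≤ 1 / (D + 4) := by rw [hκ]; exact min_le_right _ _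
    rw [le_div_iff₀ (by linarith)] at h1
    linarith
  obtain ⟨C, hC⟩ : ∃ C : ℝ, C = 3 + 3 * D + 3 * D * (2 + 1 / κ) := ⟨_, rfl⟩
  have hi : 0 < 1 / κ := by positivity
  have hDi : 0 ≤ 3 * D * (2 + 1 / κ) := by positivity
  have hC6 : 6 ≤ C := by rw [hC]; linarith
  refine ⟨C, by linarith, ?_⟩
  intro d hd n h E P l hE hP hl hF hmean u hu
  by_contra hcon
  push Not at hcon
  have hP0 : 0 < P := by linarith
  -- `u` is not too large
  have hu3 : u < n * lam ρ β h + P / (1 / 3) := by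
    by_contra h1
    push Not at h1
    have h2 := up68 (ρ := ρ) hd hρ β h hE hP0 (show (0 : ℝ) < 1 / 3 by norm_num) hF
    have h3 : (law d ρ).real {η | u ≤ Real.log (ZT β h η E)} ≤
        (law d ρ).real {η | n * lam ρ β h + P / (1 / 3) ≤ Real.log (ZT β h η E)} :=
      measureReal_mono fun η (hη : u ≤ Real.log (ZT β h η E)) => h1.trans hη
    linarith
  have hP3 : P / (1 / 3) = 3 * P := by ring
  rw [hP3] at hu3
  obtain ⟨s₁, hs₁⟩ : ∃ s₁ : ℝ, s₁ = u - 1 := ⟨_, rfl⟩
  obtain ⟨a, ha⟩ : ∃ a : ℝ, a = n * lam ρ β h + 1 / κ * P - s₁ := ⟨_, rfl⟩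
  have hκP : (D + 4) * P ≤ 1 / κ * P := mul_le_mul_of_nonneg_right hκD hP0.le
  have hDP : D ≤ D * P := le_mul_of_one_le_right (by linarith) hP
  have haD : D ≤ a := by
    rw [ha, hs₁]
    nlinarith
  have hside : 1 / 4 ≤ (law d ρ).real {η | s₁ < Real.log (ZT β h η E)} := by
    have h1 : (law d ρ).real {η | u ≤ Real.log (ZT β h η E)} ≤
        (law d ρ).real {η | s₁ < Real.log (ZT β h η E)} :=
      measureReal_mono fun η (hη : u ≤ Real.log (ZT β h η E)) => by
        show s₁ < Real.log (ZT β h η E)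
        rw [hs₁]
        linarith
    linarith
  have hup : (law d ρ).real {η | s₁ + a < Real.log (ZT β h η E)} < c := by
    have h2 := up68 (ρ := ρ) hd hρ β h hE hP0 hκ0 hF
    refine lt_of_le_of_lt ((measureReal_mono fun η hη => ?_).trans h2) hκc
    have hη' : s₁ + a < Real.log (ZT β h η E) := hη
    show n * lam ρ β h + P / κ ≤ Real.log (ZT β h η E)
    have h3 : P / κ = 1 / κ * P := by ring
    rw [h3]
    rw [ha] at hη'
    linarith
  obtain ⟨B, hB⟩ : ∃ B : ℝ, B = D * (a + 1) := ⟨_, rfl⟩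
  have hB0 : 0 < B := by
    rw [hB]
    have : 0 < a + 1 := by linarith
    positivity
  have htail : ∀ t : ℝ, 0 < t → (law d ρ).real {η | Real.log (ZT β h η E) ≤ s₁ - t} ≤
      Real.exp (1 - t / B) := by
    intro t ht
    obtain ⟨q, hq⟩ : ∃ q : ℝ, q = (law d ρ).real {η | Real.log (ZT β h η E) ≤ s₁ - t} := ⟨_, rfl⟩
    rw [← hq]
    rcases le_or_gt q 0 with h0 | h0
    · exact h0.trans (Real.exp_pos _).le
    have hq1 : q ≤ 1 := by rw [hq]; exact measureReal_le_one
    have h1 := hD d n h E hE (s₁ - t) s₁ a q h0 hq1 haD hq.le hside hup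
    have hlq1 : 0 ≤ Real.log (1 / q) := Real.log_nonneg (by rw [le_div_iff₀ h0]; linarith)
    have h2 : Real.sqrt (1 + Real.log (1 / q)) ≤ 1 + Real.log (1 / q) := by
      rw [Real.sqrt_le_left (by linarith)]
      nlinarith
    have h3 : s₁ - (s₁ - t) = t := by ring
    rw [h3] at h1
    have h4 : t ≤ B * (1 + Real.log (1 / q)) := by
      refine h1.trans ?_
      have h5 : a * Real.sqrt (1 + Real.log (1 / q)) ≤ a * (1 + Real.log (1 / q)) :=
        mul_le_mul_of_nonneg_left h2 (by linarith)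
      have h6 : B * (1 + Real.log (1 / q)) =
          D * (a * (1 + Real.log (1 / q)) + (1 + Real.log (1 / q))) := by rw [hB]; ring
      rw [h6]
      exact mul_le_mul_of_nonneg_left (by linarith) (by linarith)
    have h5 : t / B ≤ 1 + Real.log (1 / q) := by
      rw [div_le_iff₀ hB0]
      linarith
    have h6 : Real.log (1 / q) = - Real.log q := by rw [one_div, Real.log_inv]
    rw [← Real.exp_log h0]
    apply Real.exp_le_exp.2
    linarith
  have hm := Pool.Agent.W_7d29a1_OT.E81.exc81 (law d ρ) (intE68 hd hρ β h hE) hB0 htail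
  -- the numbers
  obtain ⟨g, hg⟩ : ∃ g : ℝ, g = n * lam ρ β h - u := ⟨_, rfl⟩
  have h1 : g < l / C - C * P := by rw [hg]; linarith
  have h2 : l ≤ g * (1 + 3 * D) + (1 + 6 * D) + 3 * D * (1 / κ) * P := by
    have h3 : a = g + 1 + 1 / κ * P := by rw [ha, hs₁, hg]; ring
    have h4 : l ≤ n * lam ρ β h - s₁ + 3 * B := by linarith
    have h5 : n * lam ρ β h - s₁ = g + 1 := by rw [hs₁, hg]; ring
    rw [h5, hB, h3] at h4
    refine h4.trans (le_of_eq ?_)
    ring
  have h6 : g * (1 + 3 * D) ≤ (l / C - C * P) * (1 + 3 * D) :=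
    mul_le_mul_of_nonneg_right h1.le (by linarith)
  have h7 : l / C * (1 + 3 * D) ≤ l := by
    have h8 : l / C * (1 + 3 * D) ≤ l / C * C :=
      mul_le_mul_of_nonneg_left (by rw [hC]; linarith) (by positivity)
    rwa [div_mul_cancel₀ l (by linarith : C ≠ 0)] at h8
  have h8 : (1 + 6 * D) + 3 * D * (1 / κ) * P < C * P * (1 + 3 * D) := by
    have h9 : C * P ≤ C * P * (1 + 3 * D) := le_mul_of_one_le_right (by positivity) (by linarith)
    have h10 : C * P = (3 + 3 * D + 6 * D) * P + 3 * D * (1 / κ) * P := by rw [hC]; ring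
    have h11 : (3 + 3 * D + 6 * D) * 1 ≤ (3 + 3 * D + 6 * D) * P :=
      mul_le_mul_of_nonneg_left hP (by linarith)
    linarith
  have h12 : (l / C - C * P) * (1 + 3 * D) = l / C * (1 + 3 * D) - C * P * (1 + 3 * D) := by ring
  rw [h12] at h6
  linarith

/-- **The median is low if the mean is low**, every law of the problem. -/
theorem medU68 {ρ : Measure ℝ} [IsProbabilityMeasure ρ] (hρ : EM ρ)
    (hnc : ∀ c : ℝ, ρ {c} ≠ 1) {β : ℝ} (hβ : 0 < β) : ∃ C : ℝ, 1 ≤ C ∧ ∀ (d : ℕ), 0 < d →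
      ∀ (n : ℕ) (h : Vec d) (E : Set (Fin n → Step d)) (P l : ℝ), E.Nonempty → 1 ≤ P → 0 ≤ l →
      Fn ρ β h n ≤ P → ∫ η, Real.log (ZT β h η E) ∂(law d ρ) ≤ n * lam ρ β h - l →
      ∀ u : ℝ, n * lam ρ β h - l / C + C * P < u →
        (law d ρ).real {η | u ≤ Real.log (ZT β h η E)} < 1 / 2 :=
  medE68 hρ hβ.le (deepCAll5 hρ hnc hβ)

end Pool.Agent.W_7d29a1_KP
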