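import Pool.Agent.W_7d29a1_KP.HalE30
import Pool.Agent.W_7d29a1_AM.AmpNU5

/-!
KPZV, HAL, for every law: no hypothesis left.
-/

set_option autoImplicit false

namespace Pool.Agent.W_7d29a1_KP

open MeasureTheory ProbabilityTheory Filter Topology Set Pool.Agent.W_MP_7d29a1_pr
  Pool.Agent.W_7d29a1_h46 Pool.Agent.W_7d29a1_h46u

/-- **The amplification at a fixed level, every law.** -/
theorem ampEU30 {d : ℕ} {ρ : Measure ℝ} [IsProbabilityMeasure ρ] (hρ : EM ρ)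
    (hnc : ∀ c : ℝ, ρ {c} ≠ 1) {β : ℝ} (hβ : 0 < β) : AmpE d ρ β :=
  ampEA30 hβ.le (W_7d29a1_AM.ampCNAll5 hρ hnc hβ)

/-- **The halving lemma for sets of walks, every law.** -/
theorem halEU30 {d : ℕ} {ρ : Measure ℝ} [IsProbabilityMeasure ρ] (hρ : EM ρ)
    (hnc : ∀ c : ℝ, ρ {c} ≠ 1) {β : ℝ} (hβ : 0 < β) : HalE d ρ β :=
  halE30 (ampEU30 hρ hnc hβ)

end Pool.Agent.W_7d29a1_KP
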