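import Pool.Agent.W_7d29a1_KP.DefsCQ16
import Pool.Agent.W_7d29a1_KP.FinO16

/-!
CURV in the form of KPZO: at every tilt with an upper parabola, almost surely the tube of radius
`n ^ ((1 + x) / 2 + ε)` is typical at all large lengths (helper16).
-/

namespace Pool.Agent.W_7d29a1_KP

open MeasureTheory ProbabilityTheory Filter Topology Pool.Agent.W_MP_7d29a1_pr
  Pool.Agent.W_7d29a1_h46 Pool.Agent.W_7d29a1_h46u Pool.Agent.W_7d29a1_D2.B35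
  Pool.Agent.W_7d29a1_Q29 Pool.Agent.W_7d29a1_R34 Pool.Agent.W_7d29a1_SP Pool.Agent.W_7d29a1_SD
  Pool.Agent.W_7d29a1_SQ Pool.Agent.W_7d29a1_KZ

variable {d : ℕ} {ρ : Measure ℝ} {β : ℝ}

/-- One block. -/
theorem blkQ16 [IsProbabilityMeasure ρ] (hT : TubNQ d ρ β)
    {h v : Vec d} {M δ₀ : ℝ} (hM : 0 < M) (hδ₀ : 0 < δ₀)
    (hpar : ∀ k : Vec d, ‖k‖ ≤ δ₀ → lam ρ β (h + k) ≤ lam ρ β h + inner ℝ v k + M * ‖k‖ ^ 2)
    {x δ : ℝ} (hx : 0 < x) (hF : ∀ᶠ k : ℕ in atTop, Fn ρ β h k ≤ (k : ℝ) ^ x)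
    (hEf : ∀ x' : ℝ, x < x' → ∀ᶠ k : ℕ in atTop, En ρ β h k ≤ (k : ℝ) ^ x')
    (hxδ : x / 2 < δ) (hδ2 : δ < 1 / 2) : ∃ p : ℝ, 0 < p ∧ ∀ᶠ N : ℕ in atTop,
      (law d ρ).real {η | ∃ n : ℕ, N ≤ n ∧ n ≤ 2 * N ∧
        1 / (N : ℝ) < 1 - PolT β h η (tube d n v ((N : ℝ) ^ (1 / 2 + δ)))} ≤ (N : ℝ) ^ (-p) := by
  obtain ⟨x', hx'⟩ : ∃ x' : ℝ, x' = (x + 2 * δ) / 2 := ⟨_, rfl⟩
  have hxx' : x < x' := by rw [hx']; linarith
  have hx'δ : x' < 2 * δ := by rw [hx']; linarith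
  have hx'0 : 0 < x' := by linarith
  obtain ⟨η, hη⟩ : ∃ η : ℝ, η = (2 * δ - x') / 4 := ⟨_, rfl⟩
  have hη0 : 0 < η := by rw [hη]; linarith
  obtain ⟨L, hL, hTL⟩ := hT η hη0
  obtain ⟨p, hp⟩ : ∃ p : ℝ, p = (2 * δ - x') / (4 * (L + 1)) := ⟨_, rfl⟩
  have hp0 : 0 < p := by
    rw [hp]
    have : 0 < 2 * δ - x' := by linarith
    positivity
  have hLp : L * p ≤ (2 * δ - x') / 4 := by
    rw [hp, mul_div_assoc', div_le_div_iff₀ (by positivity) (by norm_num)]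
    have : 0 < 2 * δ - x' := by linarith
    nlinarith
  have hEe := hEf x' hxx'
  obtain ⟨k₁, hk₁⟩ := eventually_atTop.1 (hF.and hEe)
  obtain ⟨B, hB⟩ : ∃ B : ℝ, B = ∑ k ∈ Finset.range k₁, (|Fn ρ β h k| + |En ρ β h k|) := ⟨_, rfl⟩
  have hB0 : 0 ≤ B := by
    rw [hB]
    exact Finset.sum_nonneg fun k _ => add_nonneg (abs_nonneg _) (abs_nonneg _)
  obtain ⟨C, N₀, hC, htub⟩ := hTL p hp0
  obtain ⟨Q, hQ⟩ : ∃ Q : ℝ, Q = (1 + B) * 2 ^ x' := ⟨_, rfl⟩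
  have h2x : (1 : ℝ) ≤ 2 ^ x' := Real.one_le_rpow (by norm_num) hx'0.le
  have hQ1 : 1 ≤ Q := by
    rw [hQ]
    nlinarith
  -- the asymptotics
  have hr : Tendsto (fun N : ℕ => (N : ℝ) ^ (1 / 2 + δ) / (4 * M * N)) atTop (𝓝 0) := by
    have t1 : Tendsto (fun N : ℕ => (N : ℝ) ^ (-(1 / 2 - δ))) atTop (𝓝 0) :=
      (tendsto_rpow_neg_atTop (by linarith : (0 : ℝ) < 1 / 2 - δ)).comp
        (tendsto_natCast_atTop_atTop (R := ℝ))
    have t2 := t1.const_mul (1 / (4 * M))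
    rw [mul_zero] at t2
    refine t2.congr' ?_
    filter_upwards [eventually_ge_atTop 1] with N hN
    have hN0 : (0 : ℝ) < N := by exact_mod_cast hN
    have e1 : (N : ℝ) ^ (1 / 2 + δ) = (N : ℝ) ^ (-(1 / 2 - δ)) * N := by
      rw [← Real.rpow_add_one hN0.ne']
      congr 1
      ring
    rw [e1]
    field_simp
  have hbig : Tendsto (fun N : ℕ => (N : ℝ) ^ (2 * δ - x' - η - L * p)) atTop atTop :=
    (tendsto_rpow_atTop (by linarith)).comp tendsto_natCast_atTop_atTop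
  refine ⟨p, hp0, ?_⟩
  filter_upwards [eventually_ge_atTop 1, eventually_ge_atTop N₀, hr.eventually (gt_mem_nhds hδ₀),
    hbig.eventually_gt_atTop (8 * M * (C * Q))] with N hN hNN₀ hrN hbN
  by_contra hcon
  push Not at hcon
  have hN1 : (1 : ℝ) ≤ N := by exact_mod_cast hN
  have hN0 : (0 : ℝ) < N := by linarith
  obtain ⟨R, hR⟩ : ∃ R : ℝ, R = (N : ℝ) ^ (1 / 2 + δ) := ⟨_, rfl⟩
  obtain ⟨r, hrd⟩ : ∃ r : ℝ, r = R / (4 * M * N) := ⟨_, rfl⟩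
  have hR0 : 0 < R := by rw [hR]; positivity
  have hr0 : 0 < r := by rw [hrd]; positivity
  rw [← hR] at hrN hcon
  rw [← hrd] at hrN
  obtain ⟨P, hP⟩ : ∃ P : ℝ, P = Q * (N : ℝ) ^ x' := ⟨_, rfl⟩
  have hNx : 1 ≤ (N : ℝ) ^ x' := Real.one_le_rpow hN1 hx'0.le
  have hP1 : 1 ≤ P := by
    rw [hP]
    nlinarith
  have hPk : ∀ (a : ℝ) (k : ℕ), 0 ≤ a → a ≤ 1 + B → k ≤ 2 * N → a * (k : ℝ) ^ x' ≤ P := by
    intro a k ha0 ha hk
    have e1 : (k : ℝ) ^ x' ≤ (2 * (N : ℝ)) ^ x' :=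
      Real.rpow_le_rpow (Nat.cast_nonneg _) (by exact_mod_cast hk) hx'0.le
    rw [Real.mul_rpow (by norm_num) hN0.le] at e1
    rw [hP, hQ, mul_assoc]
    exact mul_le_mul ha e1 (Real.rpow_nonneg (Nat.cast_nonneg _) _) (ha0.trans ha)
  have hfl : ∀ k : ℕ, k ≤ 2 * N → Fn ρ β h k ≤ P ∧ En ρ β h k ≤ P := by
    intro k hk
    rcases lt_or_ge k k₁ with e | e
    · have e1 : |Fn ρ β h k| + |En ρ β h k| ≤ B := by
        rw [hB]
        exact Finset.single_le_sum (f := fun k => |Fn ρ β h k| + |En ρ β h k|)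
          (fun i _ => add_nonneg (abs_nonneg _) (abs_nonneg _)) (Finset.mem_range.2 e)
      have e2 : B ≤ P := by
        have e3 : B ≤ Q := by
          rw [hQ]
          nlinarith
        rw [hP]
        nlinarith
      have e3 := le_abs_self (Fn ρ β h k)
      have e4 := le_abs_self (En ρ β h k)
      have e5 := abs_nonneg (Fn ρ β h k)
      have e6 := abs_nonneg (En ρ β h k)
      exact ⟨by linarith, by linarith⟩
    · obtain ⟨e1, e2⟩ := hk₁ k e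
      have e3 := hPk 1 k zero_le_one (by linarith) hk
      rw [one_mul] at e3
      refine ⟨?_, e2.trans e3⟩
      rcases Nat.eq_zero_or_pos k with e4 | e4
      · rw [e4, Fn_zero15]
        linarith
      · refine e1.trans (le_trans ?_ e3)
        exact Real.rpow_le_rpow_of_exponent_le (by exact_mod_cast e4) hxx'.le
  have hW : ∀ k : Vec d, ‖k‖ ≤ r → lam ρ β (h + k) ≤ lam ρ β h + inner ℝ v k + M * r ^ 2 := by
    intro k hk
    have e1 := hpar k (hk.trans hrN.le)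
    have e2 : M * ‖k‖ ^ 2 ≤ M * r ^ 2 := by
      have := pow_le_pow_left₀ (norm_nonneg k) hk 2
      nlinarith
    linarith
  have key := htub h v N P R r (M * r ^ 2) hNN₀ hP1 hR0 hr0 (by positivity) hfl hW hcon
  -- the contradiction
  have e0 : r * R - ((2 * N : ℕ) : ℝ) * (M * r ^ 2) = R ^ 2 / (8 * M * N) := by
    rw [hrd]
    push_cast
    field_simp
    ring
  have e1 : R ^ 2 = (N : ℝ) ^ (2 * δ) * N := by
    rw [← Real.rpow_add_one hN0.ne', hR, ← Real.rpow_natCast, ← Real.rpow_mul hN0.le]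
    congr 1
    push_cast
    ring
  have e1' : R ^ 2 / (8 * M * N) = (N : ℝ) ^ (2 * δ) / (8 * M) := by
    rw [e1]
    field_simp
  have e2 : (N : ℝ) ^ (2 * δ) = (N : ℝ) ^ (2 * δ - x' - η - L * p) *
      ((N : ℝ) ^ (η + L * p) * (N : ℝ) ^ x') := by
    rw [← Real.rpow_add hN0, ← Real.rpow_add hN0]
    congr 1
    ring
  rw [e0, e1', div_le_iff₀ (by positivity), e2, hP] at key
  have e3 : 0 < (N : ℝ) ^ (η + L * p) * (N : ℝ) ^ x' := by positivity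
  have e4 : C * (N : ℝ) ^ (η + L * p) * (Q * (N : ℝ) ^ x') * (8 * M) =
      (8 * M * (C * Q)) * ((N : ℝ) ^ (η + L * p) * (N : ℝ) ^ x') := by ring
  rw [e4] at key
  have e5 := le_of_mul_le_mul_right key e3
  linarith

/-- **FIN of CURV, the bound of the gap at the tilt as a hypothesis.** -/
theorem finQE16 {d : ℕ} {ρ : Measure ℝ} [IsProbabilityMeasure ρ] {β : ℝ}
    (hT : TubNQ d ρ β) {h v : Vec d} {M δ₀ : ℝ} (hM : 0 < M) (hδ₀ : 0 < δ₀)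
    (hpar : ∀ k : Vec d, ‖k‖ ≤ δ₀ → lam ρ β (h + k) ≤ lam ρ β h + inner ℝ v k + M * ‖k‖ ^ 2)
    {x δ : ℝ} (hx : 0 < x) (hx1 : x < 1) (hF : ∀ᶠ k : ℕ in atTop, Fn ρ β h k ≤ (k : ℝ) ^ x)
    (hEf : ∀ x' : ℝ, x < x' → ∀ᶠ k : ℕ in atTop, En ρ β h k ≤ (k : ℝ) ^ x')
    (hxδ : x / 2 < δ) : ∀ᵐ ξ ∂(law d ρ), ∀ᶠ n : ℕ in atTop,
      1 - PolT β h ξ (tube d n v ((n : ℝ) ^ (1 / 2 + δ))) ≤ 2 / n := by
  obtain ⟨e, he⟩ : ∃ e, e = min δ (x / 4 + 1 / 4) := ⟨_, rfl⟩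
  have he1 : e ≤ δ := by
    rw [he]
    exact min_le_left _ _
  have he2 : e < 1 / 2 := by
    have := min_le_right δ (x / 4 + 1 / 4)
    rw [he]
    linarith
  have he3 : x / 2 < e := by
    rw [he]
    exact lt_min hxδ (by linarith)
  obtain ⟨p, hp, hb⟩ := blkQ16 hT hM hδ₀ hpar hx hF hEf he3 he2
  filter_upwards [bcO16 (by linarith) hp hb] with ξ hξ
  filter_upwards [hξ, eventually_ge_atTop 1] with n hn hn1
  have h5 : (n : ℝ) ^ (1 / 2 + e) ≤ (n : ℝ) ^ (1 / 2 + δ) :=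
    Real.rpow_le_rpow_of_exponent_le (by exact_mod_cast hn1) (by linarith)
  have h6 := PolT_mono β h ξ (tube_mono (n := n) v h5)
  linarith

/-- **FIN of CURV.** -/
theorem finQ16 {d : ℕ} {ρ : Measure ℝ} [IsProbabilityMeasure ρ] {β : ℝ}
    (hT : TubNQ d ρ β) (hE : EfK d ρ β) : MainQO d ρ β :=
  fun h _ _ _ hM hδ₀ hpar x _ hx hx1 hF hxδ =>
    finQE16 hT hM hδ₀ hpar hx hx1 hF (hE h x hx hx1 hF) hxδ

end Pool.Agent.W_7d29a1_KP
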