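import Pool.Agent.W_7d29a1_KP.TubNQ16
import Pool.Agent.W_7d29a1_KP.FinQ16
import Pool.Agent.W_7d29a1_KP.EhrE68
import Pool.Agent.W_7d29a1_KP.EfU30
import Pool.Agent.W_7d29a1_KP.MaxX78
import Pool.Agent.W_7d29a1_KP.RelO27
import Pool.Agent.W_7d29a1_QM.SinQ95

/-!
CURV in the form of KPZO, every law, every dimension, every tilt with an upper parabola: the
wandering exponent of the problem is at most `(1 + χ') / 2` (helper16).
-/

set_option autoImplicit false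

namespace Pool.Agent.W_7d29a1_KP

open MeasureTheory ProbabilityTheory Filter Topology Pool.Agent.W_MP_7d29a1_pr
  Pool.Agent.W_7d29a1_h46 Pool.Agent.W_7d29a1_h46u Pool.Agent.W_7d29a1_D2.B35
  Pool.Agent.W_7d29a1_Q29 Pool.Agent.W_7d29a1_R34 Pool.Agent.W_7d29a1_SP Pool.Agent.W_7d29a1_SD
  Pool.Agent.W_7d29a1_SQ Pool.Agent.W_7d29a1_KZ Pool.Agent.W_7d29a1_CV Pool.Agent.W_7d29a1_UC
  Pool.Agent.W_7d29a1_KL

/-- The level of one exit point, every law. -/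
theorem sinQU16 {d : ℕ} {ρ : Measure ℝ} [IsProbabilityMeasure ρ] {β : ℝ} (hd : 0 < d)
    (hρ : EM ρ) (hnc : ∀ c : ℝ, ρ {c} ≠ 1) (hβ : 0 < β) : SinQU16 d ρ β := by
  obtain ⟨C, hC, hmed⟩ := medU68 hρ hnc hβ
  refine ⟨C, hC, fun h v n P R r W hP hr hR hF hcap i y E hi hE hs hf u hu => ?_⟩
  have hint : Integrable (fun η => Real.log (ZT β h η E)) (law d ρ) := intE68 hd hρ β h hE
  have h1 := mean95 hd hρ hr hR hcap hi hE hs hf hint
  have h2 : ∫ η, Real.log (ZT β h η E) ∂(law d ρ) ≤ n * lam ρ β h := by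
    refine le_trans ?_ (A_le_lam hd hρ β h n)
    refine integral_mono hint (concU hd hρ β h n).1 fun η => ?_
    exact Real.log_le_log (ZT_pos β h η hE) (ZT_mono β h η (Set.subset_univ E))
  refine hmed d hd n h E P (max (r * R - n * W) 0) hE hP (le_max_right _ _) hF ?_ u ?_
  · rcases le_total (r * R - n * W) 0 with e | e
    · rw [max_eq_right e, sub_zero]
      exact h2
    · rw [max_eq_left e]
      exact h1
  · refine lt_of_le_of_lt ?_ hu
    have h3 : (r * R - n * W) / C ≤ max (r * R - n * W) 0 / C :=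
      div_le_div_of_nonneg_right (le_max_left _ _) (by linarith)
    linarith

/-- The block, every law: no hypothesis left. -/
theorem tubNQU16 {d : ℕ} {ρ : Measure ℝ} [IsProbabilityMeasure ρ] {β : ℝ} (hd : 0 < d)
    (hρ : EM ρ) (hnc : ∀ c : ℝ, ρ {c} ≠ 1) (hβ : 0 < β) : TubNQ d ρ β :=
  tubNQ16 hd (tub1QU16 hd hρ hnc hβ (sinQU16 hd hρ hnc hβ)) (maxX78 hd hρ β)
    (lowN68 hd hρ hnc hβ)

/-- **THEOREM CURV in the form of KPZO, every law, every tilt with an upper parabola**: almost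
surely, the tube of radius `n ^ ((1 + x) / 2 + ε)` is typical at all large lengths. -/
theorem mainQ16 {d : ℕ} {ρ : Measure ℝ} [IsProbabilityMeasure ρ] {β : ℝ} (hd : 0 < d)
    (hρ : EM ρ) (hnc : ∀ c : ℝ, ρ {c} ≠ 1) (hβ : 0 < β) : MainQO d ρ β :=
  finQ16 (tubNQU16 hd hρ hnc hβ) (efKU30 hd hρ hnc hβ)

variable {d : ℕ} {Ω : Type*} [MeasurableSpace Ω] {μ : Measure Ω} [IsProbabilityMeasure μ]
  {ρ : Measure ℝ} [IsProbabilityMeasure ρ] {ω : ℕ × Site d → Ω → ℝ} {β : ℝ}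

/-- **`2 ν - 1 ≤ χ'` for the wandering exponent of the problem, every law, every dimension, at
every tilt `h` and every `v` with an upper parabola**: `L (h + k) ≤ L h + ⟨v, k⟩ + M |k| ^ 2` for
small `k`. -/
theorem relQ16 (hd : 0 < d) (hω : IID μ ρ ω) (hρ : EM ρ) (hnc : ∀ c : ℝ, ρ {c} ≠ 1) (hβ : 0 < β)
    {h v : Vec d} {M δ₀ : ℝ} (hM : 0 < M) (hδ₀ : 0 < δ₀)
    (hpar : ∀ k : Vec d, ‖k‖ ≤ δ₀ → lam ρ β (h + k) ≤ lam ρ β h + inner ℝ v k + M * ‖k‖ ^ 2) :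
    2 * nuT μ β ω h v - 1 ≤ chiV μ β ω h :=
  oneO27 hd hω hρ fun x δ hx hx1 hF hxδ =>
    mainQ16 hd hρ hnc hβ h v M δ₀ hM hδ₀ hpar x δ hx hx1 hF hxδ

end Pool.Agent.W_7d29a1_KP
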