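import Pool.Agent.W_7d29a1_NR.HaN41
import Pool.Agent.W_7d29a1_NR.Law84

/-!
KPZV, HAL: the amplification of the free energy of every finite family of walks, at a fixed level,
for the laws of convex functions of a Gaussian variable (from Ehrhard's inequality) and for every law
(from the amplification in the class).
-/

set_option autoImplicit false

namespace Pool.Agent.W_7d29a1_KP

open MeasureTheory ProbabilityTheory Filter Topology Set Pool.Agent.W_MP_7d29a1_pr
  Pool.Agent.W_7d29a1_h46 Pool.Agent.W_7d29a1_h46u Pool.Agent.W_7d29a1_SP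
  Pool.Agent.W_7d29a1_SP.A84 Pool.Agent.W_7d29a1_NR.L84

/-- **The amplification at a fixed level** of the logarithm of a finite sum of exponentials of
sums over distinct sites. -/
def AmpE (d : ℕ) (ρ : Measure ℝ) (β : ℝ) : Prop := ∀ c ε : ℝ, 0 < c → c ≤ 1 → 0 < ε →
  ε ≤ 1 / 2 → ∃ κ b₀ : ℝ, 0 < κ ∧ 0 ≤ b₀ ∧ ∀ (n : ℕ) (S : Type) [Fintype S] [Nonempty S]
    (cS : S → ℝ) (q : S → Fin n → ℕ × Site d), (∀ s, Function.Injective (q s)) →
      ∀ M b L : ℝ, b₀ ≤ b → 0 < b → c * (L - (M + b)) ≤ b →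
        ε ≤ (law d ρ).real {η | LS β cS q η ≤ M} →
          ε ≤ (law d ρ).real {η | M + b ≤ LS β cS q η} →
            κ ≤ (law d ρ).real {η | L ≤ LS β cS q η}

/-- A normal tail below a given level. -/
lemma exZ30 {ε : ℝ} (hε : 0 < ε) (hε2 : ε ≤ 1 / 2) : Ehr.Phi (-(2 / ε)) ≤ ε := by
  have hz : 0 < 2 / ε := by positivity
  refine (Phi_upper hz.le).trans ?_
  have h1 : (1 : ℝ) / ε ≤ Real.exp ((2 / ε) ^ 2 / 2) := by
    have h2 := Real.add_one_le_exp ((2 / ε) ^ 2 / 2)
    have h3 : (1 : ℝ) / ε ≤ (2 / ε) ^ 2 / 2 := by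
      rw [div_pow, div_div, div_le_div_iff₀ hε (by positivity)]
      nlinarith
    linarith
  have h4 : Real.exp (-(2 / ε) ^ 2 / 2) = (Real.exp ((2 / ε) ^ 2 / 2))⁻¹ := by
    rw [← Real.exp_neg]
    congr 1
    ring
  rw [h4, inv_eq_one_div, div_le_iff₀ (Real.exp_pos _)]
  have h5 := mul_le_mul_of_nonneg_left h1 hε.le
  rwa [mul_one_div_cancel hε.ne'] at h5

/-- The amplification from Ehrhard's inequality, abstract form. -/
theorem haE30 {Ω : Type*} [MeasurableSpace Ω] (P : Measure Ω) [IsProbabilityMeasure P] {W : Ω → ℝ}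
    (hW : Measurable W)
    (hl : ∀ a b s0 s1 t : ℝ, 0 ≤ t → Ehr.Phi a ≤ P.real {ω | W ω ≤ s0} →
      P.real {ω | W ω ≤ s1} ≤ Ehr.Phi b →
      P.real {ω | W ω ≤ s1 + t * (s1 - s0)} ≤ Ehr.Phi (b + t * (b - a)))
    {c M b L z ε : ℝ} (hc : 0 < c) (hb : 0 < b) (hz : 0 < z) (hzε : Ehr.Phi (-z) ≤ ε)
    (hL : c * (L - (M + b)) ≤ b) (h1 : ε ≤ P.real {ω | W ω ≤ M})
    (h2 : ε ≤ P.real {ω | M + b ≤ W ω}) :
    Ehr.Phi (-(3 * z + 4 / c * z)) ≤ P.real {ω | L ≤ W ω} := by
  have hcpos : 0 < 4 / c := by positivity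
  rcases le_total L (M + b) with hLe | hLe
  · have h3 : P.real {ω | M + b ≤ W ω} ≤ P.real {ω | L ≤ W ω} :=
      measureReal_mono (fun ω hω => hLe.trans hω) (measure_ne_top _ _)
    have h4 : Ehr.Phi (-(3 * z + 4 / c * z)) ≤ Ehr.Phi (-z) :=
      Ehr.Phi_strictMono.monotone (by nlinarith)
    linarith
  · have hcompl : ∀ s : ℝ, P.real {ω | W ω ≤ s} = 1 - P.real {ω | s < W ω} := by
      intro s
      have hs : {ω | W ω ≤ s} = {ω | s < W ω}ᶜ := by
        ext ω
        simp
      rw [hs, measureReal_compl (measurableSet_lt measurable_const hW)]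
      simp
    have hP2 := Phi_add z
    have h3 : P.real {ω | W ω ≤ M + b / 2} ≤ Ehr.Phi z := by
      have h4 : P.real {ω | M + b ≤ W ω} ≤ P.real {ω | M + b / 2 < W ω} :=
        measureReal_mono (fun ω hω => by
          have : M + b ≤ W ω := hω
          show M + b / 2 < W ω
          linarith) (measure_ne_top _ _)
      rw [hcompl]
      linarith
    have ht : 0 ≤ (L - (M + b / 2)) / (b / 2) := div_nonneg (by linarith) (by linarith)
    have h5 := hl (-z) z M (M + b / 2) ((L - (M + b / 2)) / (b / 2)) ht (hzε.trans h1) h3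
    have h6 : M + b / 2 + (L - (M + b / 2)) / (b / 2) * (M + b / 2 - M) = L := by
      have hb2 : b ≠ 0 := hb.ne'
      field_simp
      ring
    rw [h6] at h5
    have h7 : (L - (M + b / 2)) / (b / 2) ≤ 2 / c + 1 := by
      rw [div_le_iff₀ (by linarith)]
      have h8 : L - (M + b) ≤ b / c := by
        rw [le_div_iff₀ hc]
        linarith
      have h9 : (2 / c + 1) * (b / 2) = b / c + b / 2 := by
        field_simp
        try ring
      rw [h9]
      linarith
    have h10 : Ehr.Phi (z + (L - (M + b / 2)) / (b / 2) * (z - -z)) ≤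
        Ehr.Phi (3 * z + 4 / c * z) := by
      apply Ehr.Phi_strictMono.monotone
      have h11 : 4 / c * z = 2 / c * (2 * z) := by ring
      have h12 := mul_le_mul_of_nonneg_right h7 (by positivity : 0 ≤ 2 * z)
      rw [h11]
      linarith
    have h12 : P.real {ω | L < W ω} ≤ P.real {ω | L ≤ W ω} :=
      measureReal_mono (fun ω hω => by
        have h0 : L < W ω := hω
        exact h0.le) (measure_ne_top _ _)
    have h13 := hcompl L
    have h14 := Phi_add (3 * z + 4 / c * z)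
    linarith

/-- The normal distribution function is positive. -/
lemma phiPos30 {x : ℝ} (hx : 0 ≤ x) : 0 < Ehr.Phi (-x) :=
  lt_of_lt_of_le (mul_pos cA_pos (Real.exp_pos _)) (Phi_lower hx)

/-- **The amplification for the laws of convex functions of a Gaussian variable.** -/
theorem ampEG30 {d : ℕ} {ρ : Measure ℝ} [IsProbabilityMeasure ρ] (hG : GC ρ) {β : ℝ}
    (hβ : 0 ≤ β) : AmpE d ρ β := by
  intro c ε hc _ hε hε2
  have hz : 0 < 2 / ε := by positivity
  refine ⟨Ehr.Phi (-(3 * (2 / ε) + 4 / c * (2 / ε))), 0, phiPos30 (by positivity), le_rfl, ?_⟩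
  intro n S _ _ cS q _ M b L _ hb hL h0 h1
  exact haE30 (law d ρ) (measurable_LS β cS q)
    (fun _ _ _ _ _ ht h2 h3 => luckS84 hG hβ cS q ht h2 h3) hc hb hz (exZ30 hε hε2) hL h0 h1

/-- **The amplification for every law**, from the amplification in the class. -/
theorem ampEA30 {d : ℕ} {ρ : Measure ℝ} [IsProbabilityMeasure ρ] {β : ℝ} (hβ : 0 ≤ β)
    (hA : ∀ D : ℝ, 1 ≤ D → ∃ C : ℝ, 1 ≤ C ∧ W_7d29a1_NR.HaN41.AmpDN ρ β D C) : AmpE d ρ β := by
  intro c ε hc _ hε hε2
  have hD1 : (1 : ℝ) ≤ 2 + 1 / c := by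
    have : 0 < 1 / c := by positivity
    linarith
  obtain ⟨C, hC, hCA⟩ := hA (2 + 1 / c) hD1
  have hlr : 0 ≤ Real.log (1 / ε) := Real.log_nonneg (by rw [le_div_iff₀ hε]; linarith)
  have hb0 : 0 ≤ C * (1 + Real.log (1 / ε)) := by positivity
  refine ⟨ε ^ C, C * (1 + Real.log (1 / ε)), Real.rpow_pos_of_pos hε _, hb0, ?_⟩
  intro n S _ _ cS q hq M b L hbb hb hL h0 h1
  have key := W_7d29a1_NR.HaN41.ampLSN41 hβ hCA cS hq hε hε2 hbb h0 h1
  refine key.trans (measureReal_mono fun η hη => ?_)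
  have hη' : (2 + 1 / c) * b ≤ Real.log (1 + Real.exp (LS β cS q η - M)) := hη
  show L ≤ LS β cS q η
  have k1 := W_7d29a1_NR.HaN41.log_le41 (LS β cS q η - M)
  have k2 : Real.log 2 < 1 := by
    have := Real.log_two_lt_d9
    linarith
  have hb1 : 1 ≤ b := by nlinarith
  have k3 : (2 + 1 / c) * b = 2 * b + b / c := by ring
  have k4 : L - (M + b) ≤ b / c := by
    rw [le_div_iff₀ hc]
    linarith
  have k5 : 0 ≤ b / c := by positivity
  rw [k3] at hη'
  rcases le_total (LS β cS q η - M) 0 with k6 | k6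
  · rw [max_eq_right k6] at k1
    linarith
  · rw [max_eq_left k6] at k1
    linarith

end Pool.Agent.W_7d29a1_KP
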