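import Pool.Agent.W_7d29a1_KP.DefsKO62

/-!
The bound of the wandering exponent of the problem by the fluctuations at every tilt with an upper
parabola (theorem CURV in the form of KPZO): the frozen statement of the block (helper16).
-/

namespace Pool.Agent.W_7d29a1_KP

open MeasureTheory ProbabilityTheory Filter Topology Pool.Agent.W_MP_7d29a1_pr
  Pool.Agent.W_7d29a1_h46 Pool.Agent.W_7d29a1_h46u Pool.Agent.W_7d29a1_D2.B35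
  Pool.Agent.W_7d29a1_Q29 Pool.Agent.W_7d29a1_R34 Pool.Agent.W_7d29a1_SP Pool.Agent.W_7d29a1_SD
  Pool.Agent.W_7d29a1_SQ Pool.Agent.W_7d29a1_KZ

/-- TUBNQ: the block of the lengths in `[N, 2 N]` at one tilt: `W` bounds the curvature of the
free energy at the scale `r`. -/
def TubNQ (d : ℕ) (ρ : Measure ℝ) (β : ℝ) : Prop := ∀ η : ℝ, 0 < η → ∃ K : ℝ, 0 ≤ K ∧
  ∀ p : ℝ, 0 < p → ∃ (C : ℝ) (N₀ : ℕ), 1 ≤ C ∧
  ∀ (h v : Vec d) (N : ℕ) (P R r W : ℝ), N₀ ≤ N → 1 ≤ P → 0 < R → 0 < r → 0 ≤ W →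
    (∀ k : ℕ, k ≤ 2 * N → Fn ρ β h k ≤ P ∧ En ρ β h k ≤ P) →
    (∀ k : Vec d, ‖k‖ ≤ r → lam ρ β (h + k) ≤ lam ρ β h + inner ℝ v k + W) →
    (N : ℝ) ^ (-p) < (law d ρ).real {ξ | ∃ n : ℕ, N ≤ n ∧ n ≤ 2 * N ∧
      1 / (N : ℝ) < 1 - PolT β h ξ (tube d n v R)} →
      r * R - ((2 * N : ℕ) : ℝ) * W ≤ C * (N : ℝ) ^ (η + K * p) * P

/-- FIN of CURV: at every tilt with an upper parabola, almost surely the tube of radius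
`n ^ ((1 + x) / 2 + ε)` is typical at all large lengths. -/
def MainQO (d : ℕ) (ρ : Measure ℝ) (β : ℝ) : Prop := ∀ (h v : Vec d) (M δ₀ : ℝ), 0 < M → 0 < δ₀ →
  (∀ k : Vec d, ‖k‖ ≤ δ₀ → lam ρ β (h + k) ≤ lam ρ β h + inner ℝ v k + M * ‖k‖ ^ 2) →
  ∀ x δ : ℝ, 0 < x → x < 1 → (∀ᶠ k : ℕ in atTop, Fn ρ β h k ≤ (k : ℝ) ^ x) → x / 2 < δ →
    ∀ᵐ ξ ∂(law d ρ), ∀ᶠ n : ℕ in atTop,
      1 - PolT β h ξ (tube d n v ((n : ℝ) ^ (1 / 2 + δ))) ≤ 2 / n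

end Pool.Agent.W_7d29a1_KP
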