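import Pool.Agent.W_7d29a1_KZ.DefsZ70

/-!
Theorem KPZV: the scaling relation for the variance and the wandering exponent in mean. Definitions
and frozen statements of the leaves (helper89).
-/

namespace Pool.Agent.W_7d29a1_KP

open MeasureTheory ProbabilityTheory Filter Topology Pool.Agent.W_MP_7d29a1_pr
  Pool.Agent.W_7d29a1_h46 Pool.Agent.W_7d29a1_h46u Pool.Agent.W_7d29a1_D2.B35
  Pool.Agent.W_7d29a1_Q29 Pool.Agent.W_7d29a1_R34 Pool.Agent.W_7d29a1_SP Pool.Agent.W_7d29a1_SD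
  Pool.Agent.W_7d29a1_SQ Pool.Agent.W_7d29a1_KZ

/-- The unit vectors. -/
noncomputable def uv {d : ℕ} (j : Fin d) : Vec d := EuclideanSpace.single j (1 : ℝ)

/-- The data of the tilt `h` at the length `n`: both fluctuations are at most `P`, and near
`h + s r e_j` there is a tilt with the same random fluctuations, where the free energy is below the
parabola. -/
structure Dk {d : ℕ} (ρ : Measure ℝ) (β : ℝ) (h v : Vec d) (n : ℕ) (M P r : ℝ) : Prop where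
  fl : ∀ k : ℕ, k ≤ n → Fn ρ β h k ≤ P ∧ En ρ β h k ≤ P
  pa : ∀ (j : Fin d) (s : ℝ), (s = 1 ∨ s = -1) → ∃ g : Vec d,
    ‖g - h - (s * r) • uv j‖ ≤ r / (4 * Real.sqrt d) ∧ (∀ k : ℕ, k ≤ n → Fn ρ β g k ≤ P) ∧
    lam ρ β g ≤ lam ρ β h + inner ℝ v (g - h) + M * ‖g - h‖ ^ 2

section Leaves

variable (d : ℕ) (ρ : Measure ℝ) (β : ℝ)

/-- SIN: the walks which are at one far site at one time have a small weight, with probability
larger than `1 / 2`. -/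
def SinK : Prop := ∀ (h v : Vec d) (n : ℕ) (M P R r : ℝ), 1 ≤ n → 0 < M → 0 ≤ P → 0 < R →
  16 * M * Real.sqrt d * n * r = R → Dk ρ β h v n M P r →
  ∀ (i : ℕ) (y : Site d) (E : Set (Fin n → Step d)), i ≤ n → E.Nonempty →
    (∀ s ∈ E, pos s i = y) → R < ‖emb y - (i : ℝ) • v‖ →
    ∀ u : ℝ, n * lam ρ β h - R ^ 2 / (32 * M * d * n) + 16 * P < u →
      (law d ρ).real {η | u ≤ Real.log (ZT β h η E)} < 1 / 2

/-- TUB (laws in `GC`; from `SinK`, by halving over the exit points). -/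
def TubK : Prop := ∀ ε η M : ℝ, 0 < ε → 0 < η → 0 < M → ∃ C : ℝ, 1 ≤ C ∧
  ∀ (h v : Vec d) (n : ℕ) (P R r : ℝ), 1 ≤ n → 1 ≤ P → 0 < R →
    16 * M * Real.sqrt d * n * r = R → Dk ρ β h v n M P r →
    ε < ∫ η, (1 - PolT β h η (tube d n v R)) ∂(law d ρ) → R ^ 2 ≤ C * (n : ℝ) ^ (1 + η) * P

/-- PAR: almost every tilt has a slope, an upper parabola, and neighbours with the same power bound
of the random fluctuation at all small distances in all directions. -/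
def ParK : Prop := ∀ᵐ h : Vec d, ∃ (v : Vec d) (M δ : ℝ), 0 < M ∧ 0 < δ ∧
  (∀ k : Vec d, lam ρ β h + inner ℝ v k ≤ lam ρ β (h + k)) ∧
  (∀ k : Vec d, ‖k‖ ≤ δ → lam ρ β (h + k) ≤ lam ρ β h + inner ℝ v k + M * ‖k‖ ^ 2) ∧
  ∀ x : ℝ, 0 < x → (∀ᶠ k : ℕ in atTop, Fn ρ β h k ≤ (k : ℝ) ^ x) →
    ∀ x' : ℝ, x < x' → ∀ κ : ℝ, 0 < κ → ∃ N δ' : ℝ, 0 < δ' ∧ ∀ r : ℝ, 0 < r → r ≤ δ' →
      ∀ (j : Fin d) (s : ℝ), (s = 1 ∨ s = -1) → ∃ g : Vec d,
        ‖g - h - (s * r) • uv j‖ ≤ κ * r ∧ ∀ k : ℕ, Fn ρ β g k ≤ N * (k : ℝ) ^ x'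

/-- EFK (laws in `GC`): the nonrandom fluctuation is at most the random one, in exponents. -/
def EfK : Prop := ∀ (h : Vec d) (x : ℝ), 0 < x → x < 1 →
  (∀ᶠ k : ℕ in atTop, Fn ρ β h k ≤ (k : ℝ) ^ x) → ∀ x' : ℝ, x < x' →
    ∀ᶠ k : ℕ in atTop, En ρ β h k ≤ (k : ℝ) ^ x'

/-- FIN (from `TubK`, `ParK`, `EfK`): at almost every tilt the tube of radius
`n ^ ((1 + x) / 2 + ε)` is typical, if the random fluctuation is at most `n ^ x`. -/
def MainHK : Prop := ∀ᵐ h : Vec d, ∃ v : Vec d,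
  (∀ k : Vec d, lam ρ β h + inner ℝ v k ≤ lam ρ β (h + k)) ∧
  ∀ x δ : ℝ, 0 < x → x < 1 → (∀ᶠ k : ℕ in atTop, Fn ρ β h k ≤ (k : ℝ) ^ x) → x / 2 < δ →
    HalfD ρ β h v δ

end Leaves

end Pool.Agent.W_7d29a1_KP
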