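import Pool.Agent.W_7d29a1_KP.DefsKO62

/-!
Theorem KPZO for every law: frozen statements of the leaves TUB1 and TUBN for every law with
exponential moments (helper68, after helper62 and helper30).
-/

namespace Pool.Agent.W_7d29a1_KP

open MeasureTheory ProbabilityTheory Filter Topology Pool.Agent.W_MP_7d29a1_pr
  Pool.Agent.W_7d29a1_h46 Pool.Agent.W_7d29a1_h46u Pool.Agent.W_7d29a1_D2.B35
  Pool.Agent.W_7d29a1_Q29 Pool.Agent.W_7d29a1_R34 Pool.Agent.W_7d29a1_SP Pool.Agent.W_7d29a1_SD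
  Pool.Agent.W_7d29a1_SQ Pool.Agent.W_7d29a1_KZ

section Leaves

variable (d : ℕ) (ρ : Measure ℝ) (β : ℝ)

/-- TUB1, every law (from `SinK`, by halving over the exit points): one length, explicit in the
probability. -/
def Tub1U : Prop := ∀ η M : ℝ, 0 < η → 0 < M → ∃ C : ℝ, 1 ≤ C ∧
  ∀ (h v : Vec d) (n : ℕ) (P R r T ε : ℝ), 1 ≤ n → 1 ≤ P → 0 < R → 0 < ε → ε ≤ 1 / 2 →
    16 * M * Real.sqrt d * n * r = R → Dk ρ β h v n M P r → T ≤ n * lam ρ β h →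
    ε ≤ (law d ρ).real {η | Real.exp T ≤ ZT β h η (tube d n v R)ᶜ} →
      R ^ 2 ≤ C * (n : ℝ) ^ (1 + η) * (P / ε ^ C + (n * lam ρ β h - T))

/-- TUBN, every law (from `Tub1U`, `MaxX`, `LowN`): the block of the lengths in `[N, 2 N]`. -/
def TubNU : Prop := ∀ η M : ℝ, 0 < η → 0 < M → ∃ K : ℝ, 0 < K ∧ ∀ p : ℝ, 0 < p →
  ∃ (C : ℝ) (N₀ : ℕ), 1 ≤ C ∧ ∀ (h v : Vec d) (N : ℕ) (P R r : ℝ), N₀ ≤ N → 1 ≤ P → 0 < R →
    16 * M * Real.sqrt d * ((2 * N : ℕ) : ℝ) * r = R → Dk ρ β h v (2 * N) M P r →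
    (N : ℝ) ^ (-p) < (law d ρ).real {ξ | ∃ n : ℕ, N ≤ n ∧ n ≤ 2 * N ∧
      1 / (N : ℝ) < 1 - PolT β h ξ (tube d n v R)} →
      R ^ 2 ≤ C * (N : ℝ) ^ (1 + η + K * p) * P

end Leaves

/-- The form of the laws in `GC` contains the form for every law. -/
theorem tubNU_of68 {d : ℕ} {ρ : Measure ℝ} {β : ℝ} (h : TubN d ρ β) : TubNU d ρ β :=
  fun η M hη hM => ⟨16, by norm_num, fun p hp => h η M p hη hM hp⟩

end Pool.Agent.W_7d29a1_KP
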