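import Pool.Agent.W_7d29a1_KP.DefsKP89
import Pool.Agent.W_7d29a1_NR.Cor11
import Pool.Agent.W_7d29a1_NR.Del11
import Pool.Agent.W_7d29a1_NR.Tra11
import Pool.Agent.W_7d29a1_NR.Spl45

/-!
EFK (helper11): the nonrandom fluctuation is at most the random one, in exponents (first moments).
-/

namespace Pool.Agent.W_7d29a1_KP

open MeasureTheory ProbabilityTheory Filter Topology Pool.Agent.W_MP_7d29a1_pr
  Pool.Agent.W_7d29a1_h46 Pool.Agent.W_7d29a1_h46u Pool.Agent.W_7d29a1_D2.B35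
  Pool.Agent.W_7d29a1_Q29 Pool.Agent.W_7d29a1_R34 Pool.Agent.W_7d29a1_SP Pool.Agent.W_7d29a1_NR

/-- **EFK.** -/
theorem efK11 {d : ℕ} {ρ : Measure ℝ} [IsProbabilityMeasure ρ] {β : ℝ} (hd : 0 < d) (hρ : EM ρ)
    (hG : GC ρ) (hβ : 0 ≤ β) : EfK d ρ β := by
  have hDel : DelP d ρ β := del11 (fun h n => (concU hd hρ β h n).1) (tra11 hd hG hβ)
    (fun h k m => splR45 hd hρ β h k m)
  obtain ⟨C, hC, hD⟩ := hDel
  intro h x hx _ hF x' hxx
  obtain ⟨C₀, hap⟩ := apr11 hd hρ β h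
  have hE0 : ∀ n : ℕ, 0 ≤ n * lam ρ β h - A ρ β h n := fun n => by
    have := A_le_lam hd hρ β h n
    linarith
  have hX := Num41.numX41 (A := A ρ β h) (F := Fn ρ β h) (w := WT41.wT (2 / 3) C) hE0
    (WT41.wT_one hC) (WT41.wT_sub (by norm_num) C) (fun k m _ => by
      refine (hD h k m).trans (le_of_eq ?_)
      unfold WT41.wT
      ring) (by norm_num : (2 / 3 : ℝ) < 1) hap (x := x) hx.le hF (e := x' - x) (by linarith)
  filter_upwards [hX] with n hn
  rw [add_sub_cancel] at hn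
  exact hn

end Pool.Agent.W_7d29a1_KP
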