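import Pool.Agent.W_7d29a1_KP.DefsKP89
import Pool.Agent.W_7d29a1_KZ.Gap30

/-!
KPZV, EFK from GAP: the resampling bound of GAP is trivial at the first moment, so the gap of the
doubling is at most the random fluctuation, up to a small power; no law in it.
-/

set_option autoImplicit false

namespace Pool.Agent.W_7d29a1_KP

open MeasureTheory ProbabilityTheory Filter Topology Pool.Agent.W_MP_7d29a1_pr
  Pool.Agent.W_7d29a1_h46 Pool.Agent.W_7d29a1_h46u Pool.Agent.W_7d29a1_D2.B35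
  Pool.Agent.W_7d29a1_Q29 Pool.Agent.W_7d29a1_R34 Pool.Agent.W_7d29a1_SP Pool.Agent.W_7d29a1_SD
  Pool.Agent.W_7d29a1_SQ Pool.Agent.W_7d29a1_KZ

variable {d : ℕ} {ρ : Measure ℝ} [IsProbabilityMeasure ρ] {β : ℝ}

omit [IsProbabilityMeasure ρ] in
lemma fnNonneg30 (h : Vec d) (n : ℕ) : 0 ≤ Fn ρ β h n := integral_nonneg fun _ => abs_nonneg _

/-- The resampling bound at the first moment. -/
lemma rsF30 (hd : 0 < d) (hρ : EM ρ) (β : ℝ) (h : Vec d) (n p : ℕ) {M δ : ℝ} (hM : 0 < M)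
    (hδ : 4 * Fn ρ β h n ≤ δ * M) : RS ρ β h n p M δ := by
  have iX : Integrable (fun η => X β h η n - A ρ β h n) (law d ρ) :=
    (concU hd hρ β h n).1.sub (integrable_const _)
  have h1 : (law d ρ).real {η | M / 2 ≤ |X β h η n - A ρ β h n|} ≤ Fn ρ β h n / (M / 2) :=
    W_7d29a1_NR.Del11.markov iX le_rfl (by positivity)
  have mS : MeasurableSet {η : Env d | M / 2 ≤ |X β h η n - A ρ β h n|} :=
    measurableSet_le measurable_const ((measurable_X β h n).sub_const _).abs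
  have e1 : ((law d ρ).prod (law d ρ)).real
      {w | M / 2 ≤ |X β h w.1 n - A ρ β h n|} =
      (law d ρ).real {η | M / 2 ≤ |X β h η n - A ρ β h n|} := by
    rw [measureReal_def, measureReal_def,
      ← (measurePreserving_fst (μ := law d ρ) (ν := law d ρ)).measure_preimage
        mS.nullMeasurableSet]
    rfl
  have e2 : ((law d ρ).prod (law d ρ)).real
      {w | M / 2 ≤ |X β h (spl (Pa d p) w.1 w.2) n - A ρ β h n|} =
      (law d ρ).real {η | M / 2 ≤ |X β h η n - A ρ β h n|} := by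
    rw [measureReal_def, measureReal_def,
      ← (W_7d29a1_Q29.mp_spl (ρ := ρ) (Pa d p)).measure_preimage mS.nullMeasurableSet]
    rfl
  unfold RS
  have h2 : ((law d ρ).prod (law d ρ)).real
      {w | M < |X β h w.1 n - X β h (spl (Pa d p) w.1 w.2) n|} ≤
      Fn ρ β h n / (M / 2) + Fn ρ β h n / (M / 2) := by
    refine ((measureReal_mono ?_).trans (measureReal_union_le _ _)).trans
      (add_le_add (e1.trans_le h1) (e2.trans_le h1))
    intro w hw
    have hw' : M < |X β h w.1 n - X β h (spl (Pa d p) w.1 w.2) n| := hw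
    by_cases h3 : M / 2 ≤ |X β h w.1 n - A ρ β h n|
    · exact Or.inl h3
    · right
      show M / 2 ≤ |X β h (spl (Pa d p) w.1 w.2) n - A ρ β h n|
      push Not at h3
      have h4 : |X β h w.1 n - X β h (spl (Pa d p) w.1 w.2) n| ≤
          |X β h w.1 n - A ρ β h n| + |X β h (spl (Pa d p) w.1 w.2) n - A ρ β h n| := by
        have h5 := abs_sub (X β h w.1 n - A ρ β h n) (X β h (spl (Pa d p) w.1 w.2) n - A ρ β h n)
        have h6 : X β h w.1 n - A ρ β h n - (X β h (spl (Pa d p) w.1 w.2) n - A ρ β h n) =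
            X β h w.1 n - X β h (spl (Pa d p) w.1 w.2) n := by ring
        rwa [h6] at h5
      linarith
  refine h2.trans ?_
  have h3 : Fn ρ β h n / (M / 2) + Fn ρ β h n / (M / 2) = 4 * Fn ρ β h n / M := by
    field_simp
    ring
  rw [h3, div_le_iff₀ hM]
  exact hδ

/-- The iteration of the doubling. -/
lemma iterE30 {E : ℕ → ℝ} {C y : ℝ} {N : ℕ} (hy : y < 1) (hC : 0 ≤ C)
    (h2 : ∀ m : ℕ, N ≤ m → 1 ≤ m → 2 * E m ≤ E (2 * m) + C * (m : ℝ) ^ y)
    (hE : ∀ κ : ℝ, 0 < κ → ∀ᶠ n : ℕ in atTop, E n ≤ κ * n) (m : ℕ) (hm : N ≤ m)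
    (hm1 : 1 ≤ m) : E m ≤ C / (2 - 2 ^ y) * (m : ℝ) ^ y := by
  have h2y : (2 : ℝ) ^ y < 2 := by
    calc (2 : ℝ) ^ y < 2 ^ (1 : ℝ) := Real.rpow_lt_rpow_of_exponent_lt (by norm_num) hy
      _ = 2 := Real.rpow_one 2
  have hden : 0 < 2 - (2 : ℝ) ^ y := by linarith
  obtain ⟨D, hD⟩ : ∃ D : ℝ, D = C / (2 - 2 ^ y) := ⟨_, rfl⟩
  have hDC : D * (2 - 2 ^ y) = C := by
    rw [hD]
    field_simp
  have hD0 : 0 ≤ D := by
    rw [hD]
    positivity
  rw [← hD]
  by_contra hcon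
  push Not at hcon
  obtain ⟨s, hs⟩ : ∃ s : ℝ, s = E m - D * (m : ℝ) ^ y := ⟨_, rfl⟩
  have hs0 : 0 < s := by
    rw [hs]
    linarith
  have hit : ∀ j : ℕ, 2 ^ j * s ≤ E (2 ^ j * m) - D * ((2 ^ j * m : ℕ) : ℝ) ^ y := by
    intro j
    induction j with
    | zero => simp [hs]
    | succ j ih =>
      have hp : 1 ≤ 2 ^ j := Nat.one_le_two_pow
      have h3 := h2 (2 ^ j * m) (hm.trans (Nat.le_mul_of_pos_left m (by positivity)))
        (hm1.trans (Nat.le_mul_of_pos_left m (by positivity)))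
      have e1 : 2 * (2 ^ j * m) = 2 ^ (j + 1) * m := by rw [pow_succ]; ring
      rw [e1] at h3
      have e2 : ((2 ^ (j + 1) * m : ℕ) : ℝ) ^ y = 2 ^ y * ((2 ^ j * m : ℕ) : ℝ) ^ y := by
        rw [← e1]
        push_cast
        rw [Real.mul_rpow (by norm_num) (by positivity)]
      rw [e2]
      have e3 : (2 : ℝ) ^ (j + 1) * s = 2 * (2 ^ j * s) := by rw [pow_succ]; ring
      rw [e3]
      have h4 : C * ((2 ^ j * m : ℕ) : ℝ) ^ y = D * (2 - 2 ^ y) * ((2 ^ j * m : ℕ) : ℝ) ^ y := by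
        rw [hDC]
      rw [h4] at h3
      nlinarith
  have hm0 : (0 : ℝ) < m := by exact_mod_cast hm1
  have hκ : 0 < s / (2 * m) := by positivity
  have htend : Tendsto (fun j : ℕ => 2 ^ j * m) atTop atTop :=
    Filter.Tendsto.atTop_mul_const' hm1 (tendsto_pow_atTop_atTop_of_one_lt one_lt_two)
  obtain ⟨j, hj⟩ := (htend.eventually (hE _ hκ)).exists
  have h5 := hit j
  have h6 : 0 ≤ D * ((2 ^ j * m : ℕ) : ℝ) ^ y := by positivity
  have h7 : s / (2 * m) * ((2 ^ j * m : ℕ) : ℝ) = 2 ^ j * s / 2 := by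
    push_cast
    field_simp
  rw [h7] at hj
  have h8 : (0 : ℝ) < 2 ^ j * s := by positivity
  linarith

/-- **EFK from GAP.** -/
theorem efKA30 (hd : 0 < d) (hρ : EM ρ) (hK : GapK d ρ β) : EfK d ρ β := by
  intro h x hx hx1 hF x' hxx
  obtain ⟨y, hy1, hy2, hy3⟩ : ∃ y : ℝ, x < y ∧ y < 1 ∧ y < x' := by
    obtain ⟨y, h1, h2⟩ := exists_between (lt_min hx1 hxx)
    exact ⟨y, h1, h2.trans_le (min_le_left _ _), h2.trans_le (min_le_right _ _)⟩
  obtain ⟨ε₀, C, hε, hC, hK⟩ := hK (y - x) (by linarith)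
  obtain ⟨N, hN⟩ := eventually_atTop.1 hF
  obtain ⟨B, hB⟩ : ∃ B : ℝ, B = 32 + C * (8 / ε₀ + 2) := ⟨_, rfl⟩
  have hB0 : 0 ≤ B := by
    rw [hB]
    positivity
  have hE2 : ∀ m : ℕ, N ≤ m → 1 ≤ m →
      2 * En ρ β h m ≤ En ρ β h (2 * m) + B * (m : ℝ) ^ y := by
    intro m hm hm1
    have hm1' : (1 : ℝ) ≤ m := by exact_mod_cast hm1
    have hm0 : (0 : ℝ) < m := by linarith
    have hFm := hN m hm
    have hF2 := hN (m + m) (by omega)
    have hF0 := fnNonneg30 (ρ := ρ) (β := β) h (m + m)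
    have e1 : ((m + m : ℕ) : ℝ) ^ x ≤ 2 * (m : ℝ) ^ x := by
      have e2 : ((m + m : ℕ) : ℝ) = 2 * m := by push_cast; ring
      rw [e2, Real.mul_rpow (by norm_num) hm0.le]
      refine mul_le_mul_of_nonneg_right ?_ (by positivity)
      calc (2 : ℝ) ^ x ≤ 2 ^ (1 : ℝ) := Real.rpow_le_rpow_of_exponent_le (by norm_num) hx1.le
        _ = 2 := Real.rpow_one 2
    obtain ⟨w, hw⟩ : ∃ w : ℝ, w = (m : ℝ) ^ x := ⟨_, rfl⟩
    have hw1 : 1 ≤ w := by
      rw [hw]
      exact Real.one_le_rpow hm1' hx.le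
    rw [← hw] at hFm e1
    have h3 := hK h m m (8 * w / ε₀ + 1) hm1 hm1 (by positivity)
      (rsF30 hd hρ β h (m + m) m (by positivity) (by
        rw [mul_add, mul_one, mul_div_cancel₀ _ hε.ne']
        linarith))
    have h4 : Gp ρ β h m m ≤ B * (m : ℝ) ^ y := by
      refine h3.trans ?_
      obtain ⟨u, hu⟩ : ∃ u : ℝ, u = (m : ℝ) ^ (y - x) := ⟨_, rfl⟩
      have hu1 : 1 ≤ u := by
        rw [hu]
        exact Real.one_le_rpow hm1' (by linarith)
      have huw : u * w = (m : ℝ) ^ y := by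
        rw [hu, hw, ← Real.rpow_add hm0]
        congr 1
        ring
      rw [← hu, ← huw, hB]
      have h5 : 8 * (Fn ρ β h (m + m) + Fn ρ β h m + Fn ρ β h m) ≤ 32 * w := by linarith
      have h6 : 32 * w ≤ 32 * (u * w) := by nlinarith
      have h7 : 8 * w / ε₀ + 1 + 1 ≤ (8 / ε₀ + 2) * w := by
        have e3 : 8 * w / ε₀ = 8 / ε₀ * w := by ring
        rw [e3]
        nlinarith
      have h8 : C * u * (8 * w / ε₀ + 1 + 1) ≤ C * u * ((8 / ε₀ + 2) * w) :=
        mul_le_mul_of_nonneg_left h7 (by positivity)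
      calc _ ≤ 32 * (u * w) + C * u * ((8 / ε₀ + 2) * w) := by linarith
        _ = _ := by ring
    unfold Gp at h4
    unfold En
    have e3 : m + m = 2 * m := by ring
    rw [e3] at h4
    push_cast
    linarith
  have hlin : ∀ κ : ℝ, 0 < κ → ∀ᶠ n : ℕ in atTop, En ρ β h n ≤ κ * n := by
    intro κ hκ
    have h1 : ∀ᶠ n : ℕ in atTop, lam ρ β h - κ < A ρ β h n / n :=
      (tendsto_A hd hρ β h).eventually (lt_mem_nhds (by linarith))
    filter_upwards [h1, eventually_ge_atTop 1] with n h2 h3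
    have h4 : (0 : ℝ) < n := by exact_mod_cast h3
    rw [lt_div_iff₀ h4] at h2
    unfold En
    linarith
  have hfin := iterE30 (E := En ρ β h) (N := N) hy2 hB0 hE2 hlin
  -- the constant is absorbed
  have hpow : ∀ᶠ n : ℕ in atTop, B / (2 - 2 ^ y) ≤ (n : ℝ) ^ (x' - y) :=
    ((tendsto_rpow_atTop (by linarith : 0 < x' - y)).comp
      tendsto_natCast_atTop_atTop).eventually_ge_atTop _
  filter_upwards [eventually_ge_atTop N, eventually_ge_atTop 1, hpow] with n hn hn1 hp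
  have hn0 : (0 : ℝ) < n := by exact_mod_cast hn1
  refine (hfin n hn hn1).trans ?_
  have h5 : (n : ℝ) ^ x' = (n : ℝ) ^ (x' - y) * (n : ℝ) ^ y := by
    rw [← Real.rpow_add hn0]
    congr 1
    ring
  rw [h5]
  exact mul_le_mul_of_nonneg_right hp (by positivity)

end Pool.Agent.W_7d29a1_KP
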