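import Pool.Agent.W_7d29a1_KP.DefsKP89
import Pool.Agent.W_7d29a1_SP.Bas15

/-!
Theorem KPZV, leaf FIN (second text, helper25).
-/

namespace Pool.Agent.W_7d29a1_KP

open MeasureTheory ProbabilityTheory Filter Topology Pool.Agent.W_MP_7d29a1_pr
  Pool.Agent.W_7d29a1_h46 Pool.Agent.W_7d29a1_h46u Pool.Agent.W_7d29a1_D2.B35
  Pool.Agent.W_7d29a1_Q29 Pool.Agent.W_7d29a1_R34 Pool.Agent.W_7d29a1_SP Pool.Agent.W_7d29a1_SD
  Pool.Agent.W_7d29a1_SQ Pool.Agent.W_7d29a1_KZ

namespace F25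

/-- A bound for all large lengths is a bound for all lengths. -/
lemma bd25 {f : ℕ → ℝ} {x : ℝ} (hx : 0 ≤ x) (hf : ∀ᶠ k : ℕ in atTop, f k ≤ (k : ℝ) ^ x) :
    ∃ C : ℝ, 1 ≤ C ∧ ∀ n k : ℕ, 1 ≤ n → k ≤ n → f k ≤ C * (n : ℝ) ^ x := by
  obtain ⟨k₀, hk₀⟩ := eventually_atTop.1 hf
  have h0 : 0 ≤ ∑ m ∈ Finset.range k₀, |f m| := Finset.sum_nonneg fun _ _ => abs_nonneg _
  refine ⟨1 + ∑ m ∈ Finset.range k₀, |f m|, by linarith, fun n k hn hk => ?_⟩
  have hn1 : (1 : ℝ) ≤ n := by exact_mod_cast hn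
  have h1 : 1 ≤ (n : ℝ) ^ x := Real.one_le_rpow hn1 hx
  rcases Nat.lt_or_ge k k₀ with h | h
  · have h2 := Finset.single_le_sum (f := fun m : ℕ => |f m|) (fun _ _ => abs_nonneg _)
      (Finset.mem_range.2 h)
    have h3 : f k ≤ ∑ m ∈ Finset.range k₀, |f m| := (le_abs_self _).trans h2
    calc f k ≤ (1 + ∑ m ∈ Finset.range k₀, |f m|) * 1 := by linarith
      _ ≤ _ := mul_le_mul_of_nonneg_left h1 (by linarith)
  · have h2 : (k : ℝ) ^ x ≤ (n : ℝ) ^ x :=
      Real.rpow_le_rpow (Nat.cast_nonneg k) (by exact_mod_cast hk) hx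
    have h3 := hk₀ k h
    have h4 : 0 ≤ (∑ m ∈ Finset.range k₀, |f m|) * (n : ℝ) ^ x := by positivity
    linarith

variable {d : ℕ} {ρ : Measure ℝ}

/-- The mass outside of the tube decreases with its radius. -/
lemma Tb_anti25 [IsProbabilityMeasure ρ] (β : ℝ) (h v : Vec d) {R R' : ℝ} (n : ℕ) (hR : R ≤ R') :
    Tb ρ β h v R' n ≤ Tb ρ β h v R n := by
  have hint : ∀ E : Set (Fin n → Step d), Integrable (fun η => 1 - PolT β h η E) (law d ρ) := by
    intro E
    refine (integrable_const 1).sub (Integrable.of_bound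
      (measurable_PolT β h E).aestronglyMeasurable 1 (Filter.Eventually.of_forall fun η => ?_))
    rw [Real.norm_eq_abs, abs_of_nonneg (PolT_nonneg β h η E)]
    exact PolT_le_one β h η E
  refine integral_mono (hint _) (hint _) fun η => ?_
  have h1 := PolT_mono β h η
    (tube_mono (n := n) v (mul_le_mul_of_nonneg_right hR (Real.sqrt_nonneg n)))
  simp only
  linarith

lemma norm_uv25 (j : Fin d) : ‖(uv j : Vec d)‖ = 1 := by
  unfold uv
  simp

end F25

open F25 in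
/-- **FIN.** -/
theorem finK25 {d : ℕ} {ρ : Measure ℝ} [IsProbabilityMeasure ρ] (hd : 0 < d) {β : ℝ}
    (hT : TubK d ρ β) (hP : ParK d ρ β) (hE : EfK d ρ β) : MainHK d ρ β := by
  unfold ParK at hP
  filter_upwards [hP] with h hh
  obtain ⟨v, M, δ₀, hM, hδ₀, hsub, hpar, hnb⟩ := hh
  refine ⟨v, hsub, fun x δ hx hx1 hF hxδ => ?_⟩
  -- a smaller exponent
  obtain ⟨e, he⟩ : ∃ e, e = min δ (x / 4 + 1 / 4) := ⟨_, rfl⟩
  have he1 : e ≤ δ := by
    rw [he]
    exact min_le_left _ _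
  have he2 : e < 1 / 2 := by
    have := min_le_right δ (x / 4 + 1 / 4)
    rw [he]
    linarith
  have he3 : x / 2 < e := by
    rw [he]
    exact lt_min hxδ (by linarith)
  obtain ⟨x', hx'⟩ : ∃ x', x' = (x + 2 * e) / 2 := ⟨_, rfl⟩
  have hxx' : x < x' := by linarith
  have hx'0 : 0 < x' := by linarith
  obtain ⟨η, hη⟩ : ∃ η, η = (2 * e - x') / 2 := ⟨_, rfl⟩
  have hη0 : 0 < η := by linarith
  have hgap : 0 < 2 * e - η - x' := by linarith
  have hd0 : (0 : ℝ) < d := by exact_mod_cast hd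
  have hsd : 0 < Real.sqrt d := Real.sqrt_pos.2 hd0
  intro ε hε
  obtain ⟨C, hC, hT'⟩ := hT ε η M hε hη0 hM
  obtain ⟨N, δ', hδ', hN⟩ := hnb x hx hF x' hxx' (1 / (4 * Real.sqrt d)) (by positivity)
  obtain ⟨C₁, hC₁, hF1⟩ := bd25 (f := fun k => Fn ρ β h k) hx.le hF
  obtain ⟨C₂, hC₂, hE1⟩ := bd25 (f := fun k => En ρ β h k) hx'0.le (hE h x hx hx1 hF x' hxx')
  beta_reduce at hF1 hE1
  obtain ⟨C', hC'⟩ : ∃ C', C' = C₁ + C₂ + |N| := ⟨_, rfl⟩
  have hN0 : 0 ≤ |N| := abs_nonneg N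
  have hC'1 : 1 ≤ C' := by linarith
  -- the limits
  have l1 : Tendsto (fun n : ℕ => (n : ℝ) ^ (e - 1 / 2)) atTop (𝓝 0) := by
    have h1 := (tendsto_rpow_neg_atTop (show 0 < 1 / 2 - e by linarith)).comp
      tendsto_natCast_atTop_atTop
    refine h1.congr fun n => ?_
    simp only [Function.comp_apply]
    congr 1
    ring
  have l2 : Tendsto (fun n : ℕ => (n : ℝ) ^ (2 * e - η - x')) atTop atTop :=
    (tendsto_rpow_atTop hgap).comp tendsto_natCast_atTop_atTop
  have hmin : 0 < 16 * M * Real.sqrt d * min δ' (δ₀ / 2) := by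
    have : 0 < min δ' (δ₀ / 2) := lt_min hδ' (by linarith)
    positivity
  filter_upwards [l1.eventually (gt_mem_nhds hmin), l2.eventually_gt_atTop (C * C'),
    eventually_ge_atTop 1] with n hn1 hn2 hn3
  refine (Tb_anti25 β h v n (R := (n : ℝ) ^ e) (Real.rpow_le_rpow_of_exponent_le
    (by exact_mod_cast hn3) he1)).trans ?_
  by_contra hcon
  rw [not_le] at hcon
  have hnR : (1 : ℝ) ≤ n := by exact_mod_cast hn3
  have hn0 : (0 : ℝ) < n := by linarith
  obtain ⟨R, hR⟩ : ∃ R, R = (n : ℝ) ^ e * Real.sqrt n := ⟨_, rfl⟩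
  have hsn : 0 < Real.sqrt n := Real.sqrt_pos.2 hn0
  have hR0 : 0 < R := by
    rw [hR]
    positivity
  have hR2 : R ^ 2 = (n : ℝ) ^ (1 + 2 * e) := by
    rw [hR, mul_pow, Real.sq_sqrt hn0.le, ← Real.rpow_natCast, ← Real.rpow_mul hn0.le,
      Real.rpow_add hn0, Real.rpow_one, mul_comm]
    congr 2
    push_cast
    ring
  obtain ⟨r, hr⟩ : ∃ r, r = R / (16 * M * Real.sqrt d * n) := ⟨_, rfl⟩
  have hr0 : 0 < r := by
    rw [hr]
    positivity
  have hrR : 16 * M * Real.sqrt d * n * r = R := by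
    rw [hr]
    field_simp
  have hr1 : r < min δ' (δ₀ / 2) := by
    have h1 : r = (n : ℝ) ^ (e - 1 / 2) / (16 * M * Real.sqrt d) := by
      rw [hr, hR, Real.rpow_sub hn0, ← Real.sqrt_eq_rpow]
      have h2 : Real.sqrt n * Real.sqrt n = n := Real.mul_self_sqrt hn0.le
      rw [div_div, div_eq_div_iff (by positivity) (by positivity)]
      calc (n : ℝ) ^ e * Real.sqrt n * (Real.sqrt n * (16 * M * Real.sqrt d)) =
            (n : ℝ) ^ e * (16 * M * Real.sqrt d) * (Real.sqrt n * Real.sqrt n) := by ring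
        _ = (n : ℝ) ^ e * (16 * M * Real.sqrt d * n) := by
            rw [h2]
            ring
    rw [h1, div_lt_iff₀ (by positivity)]
    linarith
  have hrδ' : r ≤ δ' := (hr1.trans_le (min_le_left _ _)).le
  have hrδ₀ : 2 * r ≤ δ₀ := by
    have := hr1.trans_le (min_le_right δ' (δ₀ / 2))
    linarith
  obtain ⟨P, hPdef⟩ : ∃ P, P = C' * (n : ℝ) ^ x' := ⟨_, rfl⟩
  have hnx : 1 ≤ (n : ℝ) ^ x' := Real.one_le_rpow hnR hx'0.le
  have hP1 : 1 ≤ P := by
    rw [hPdef]
    exact one_le_mul_of_one_le_of_one_le hC'1 hnx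
  have hnxx : (n : ℝ) ^ x ≤ (n : ℝ) ^ x' := Real.rpow_le_rpow_of_exponent_le hnR hxx'.le
  have hDk : Dk ρ β h v n M P r := by
    refine ⟨fun k hk => ⟨?_, ?_⟩, fun j s hs => ?_⟩
    · rw [hPdef]
      refine (hF1 n k hn3 hk).trans ?_
      exact mul_le_mul (by linarith) hnxx (by positivity) (by linarith)
    · rw [hPdef]
      refine (hE1 n k hn3 hk).trans ?_
      exact mul_le_mul_of_nonneg_right (by linarith) (by positivity)
    · obtain ⟨g, hg1, hg2⟩ := hN r hr0 hrδ' j s hs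
      have h1 : 1 / (4 * Real.sqrt d) * r = r / (4 * Real.sqrt d) := by ring
      refine ⟨g, by rw [← h1]; exact hg1, fun k hk => ?_, ?_⟩
      · refine (hg2 k).trans ?_
        rw [hPdef]
        have h2 : (k : ℝ) ^ x' ≤ (n : ℝ) ^ x' :=
          Real.rpow_le_rpow (Nat.cast_nonneg k) (by exact_mod_cast hk) hx'0.le
        calc N * (k : ℝ) ^ x' ≤ |N| * (n : ℝ) ^ x' :=
              mul_le_mul (le_abs_self N) h2 (by positivity) hN0
          _ ≤ C' * (n : ℝ) ^ x' := mul_le_mul_of_nonneg_right (by linarith) (by positivity)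
      · have h2 := hpar (g - h) ?_
        · rwa [add_sub_cancel] at h2
        · have hs1 : |s| = 1 := by
            rcases hs with h3 | h3 <;> rw [h3] <;> norm_num
          have h3 : ‖(s * r) • (uv j : Vec d)‖ = r := by
            rw [norm_smul, norm_uv25, mul_one, Real.norm_eq_abs, abs_mul, hs1, one_mul,
              abs_of_pos hr0]
          have h4 : 1 / (4 * Real.sqrt d) * r ≤ r := by
            have h5 : 1 / (4 * Real.sqrt d) ≤ 1 := by
              rw [div_le_one (by positivity)]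
              have h6 : 1 ≤ Real.sqrt d := by
                rw [Real.one_le_sqrt]
                exact_mod_cast hd
              linarith
            calc 1 / (4 * Real.sqrt d) * r ≤ 1 * r := mul_le_mul_of_nonneg_right h5 hr0.le
              _ = r := one_mul r
          have h5 : g - h = (g - h - (s * r) • uv j) + (s * r) • uv j := by abel
          rw [h5]
          refine (norm_add_le _ _).trans ?_
          rw [h3]
          linarith
  have hfin := hT' h v n P R r hn3 hP1 hR0 hrR hDk (by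
    unfold Tb at hcon
    rwa [← hR] at hcon)
  rw [hR2, hPdef] at hfin
  have h1 : (n : ℝ) ^ (1 + 2 * e) = (n : ℝ) ^ (1 + η) * (n : ℝ) ^ x' *
      (n : ℝ) ^ (2 * e - η - x') := by
    rw [← Real.rpow_add hn0, ← Real.rpow_add hn0]
    congr 1
    ring
  have h2 : C * (n : ℝ) ^ (1 + η) * (C' * (n : ℝ) ^ x') =
      (n : ℝ) ^ (1 + η) * (n : ℝ) ^ x' * (C * C') := by ring
  rw [h1, h2] at hfin
  have h3 : 0 < (n : ℝ) ^ (1 + η) * (n : ℝ) ^ x' := by positivity
  exact absurd (le_of_mul_le_mul_left hfin h3) (not_le.2 hn2)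

end Pool.Agent.W_7d29a1_KP
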