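import Pool.Agent.W_7d29a1_KP.DefsKO62
import Pool.Agent.W_7d29a1_KP.FinK25

/-!
Theorem KPZO, leaf FIN: almost surely, at all large lengths (helper25).
-/

namespace Pool.Agent.W_7d29a1_KP

open MeasureTheory ProbabilityTheory Filter Topology Pool.Agent.W_MP_7d29a1_pr
  Pool.Agent.W_7d29a1_h46 Pool.Agent.W_7d29a1_h46u Pool.Agent.W_7d29a1_D2.B35
  Pool.Agent.W_7d29a1_Q29 Pool.Agent.W_7d29a1_R34 Pool.Agent.W_7d29a1_SP Pool.Agent.W_7d29a1_SD
  Pool.Agent.W_7d29a1_SQ Pool.Agent.W_7d29a1_KZ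

namespace F25

/-- Borel - Cantelli along the powers of two. -/
lemma bc25 {Ω : Type*} [MeasurableSpace Ω] (μ : Measure Ω) [IsProbabilityMeasure μ]
    (s : ℕ → Set Ω) {p : ℝ} (hp : 0 < p) (hs : ∀ᶠ N : ℕ in atTop, μ.real (s N) ≤ (N : ℝ) ^ (-p)) :
    ∀ᵐ x ∂μ, ∀ᶠ j : ℕ in atTop, x ∉ s (2 ^ j) := by
  obtain ⟨N₀, hN₀⟩ := eventually_atTop.1 hs
  obtain ⟨q, hq⟩ : ∃ q : ℝ, q = (2 : ℝ) ^ (-p) := ⟨_, rfl⟩
  have hq0 : 0 < q := by
    rw [hq]
    positivity
  have hq1 : q < 1 := by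
    rw [hq]
    exact Real.rpow_lt_one_of_one_lt_of_neg (by norm_num) (by linarith)
  have h1 : ∀ j : ℕ, μ (s (2 ^ (j + N₀))) ≤ ENNReal.ofReal q ^ j := by
    intro j
    have h2 : N₀ ≤ 2 ^ (j + N₀) := by
      have h3 : j + N₀ < 2 ^ (j + N₀) := Nat.lt_two_pow_self
      omega
    have h3 := hN₀ _ h2
    have h4 : (((2 ^ (j + N₀) : ℕ) : ℝ)) ^ (-p) ≤ q ^ j := by
      have e1 : (((2 ^ (j + N₀) : ℕ) : ℝ)) ^ (-p) = q ^ (j + N₀) := by
        rw [hq]
        push_cast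
        rw [← Real.rpow_natCast, ← Real.rpow_mul (by norm_num), ← Real.rpow_natCast,
          ← Real.rpow_mul (by norm_num)]
        congr 1
        push_cast
        ring
      rw [e1]
      exact pow_le_pow_of_le_one hq0.le hq1.le (by omega)
    rw [← ofReal_measureReal, ← ENNReal.ofReal_pow hq0.le]
    exact ENNReal.ofReal_le_ofReal (h3.trans h4)
  have h2 : ∑' j : ℕ, μ (s (2 ^ (j + N₀))) ≠ ⊤ := by
    refine ne_top_of_le_ne_top ?_ (ENNReal.tsum_le_tsum h1)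
    rw [ENNReal.tsum_geometric]
    refine ENNReal.inv_ne_top.2 ?_
    have h3 : ENNReal.ofReal q < 1 := by
      rw [← ENNReal.ofReal_one]
      exact (ENNReal.ofReal_lt_ofReal_iff one_pos).2 hq1
    exact (tsub_pos_of_lt h3).ne'
  filter_upwards [ae_eventually_notMem h2] with x hx
  obtain ⟨J, hJ⟩ := eventually_atTop.1 hx
  refine eventually_atTop.2 ⟨J + N₀, fun j hj => ?_⟩
  have h3 := hJ (j - N₀) (by omega)
  rwa [Nat.sub_add_cancel (by omega)] at h3

end F25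

open F25 in
/-- **FIN, almost surely**, with the bound of the nonrandom fluctuation at the tilt as a
hypothesis. -/
theorem mainOE25 {d : ℕ} {ρ : Measure ℝ} [IsProbabilityMeasure ρ] (hd : 0 < d) {β : ℝ}
    (hT : TubN d ρ β) (hP : ParK d ρ β) : ∀ᵐ h : Vec d, ∃ v : Vec d,
      (∀ k : Vec d, lam ρ β h + inner ℝ v k ≤ lam ρ β (h + k)) ∧
      ∀ x δ : ℝ, 0 < x → x < 1 → (∀ᶠ k : ℕ in atTop, Fn ρ β h k ≤ (k : ℝ) ^ x) →
        (∀ x' : ℝ, x < x' → ∀ᶠ k : ℕ in atTop, En ρ β h k ≤ (k : ℝ) ^ x') → x / 2 < δ →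
        ∀ᵐ ξ ∂(law d ρ), ∀ᶠ n : ℕ in atTop,
          1 - PolT β h ξ (tube d n v ((n : ℝ) ^ (1 / 2 + δ))) ≤ 2 / n := by
  unfold ParK at hP
  filter_upwards [hP] with h hh
  obtain ⟨v, M, δ₀, hM, hδ₀, hsub, hpar, hnb⟩ := hh
  refine ⟨v, hsub, fun x δ hx hx1 hF hEn hxδ => ?_⟩
  -- a smaller exponent
  obtain ⟨e, he⟩ : ∃ e, e = min δ (x / 4 + 1 / 4) := ⟨_, rfl⟩
  have he1 : e ≤ δ := by
    rw [he]
    exact min_le_left _ _
  have he2 : e < 1 / 2 := by
    have := min_le_right δ (x / 4 + 1 / 4)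
    rw [he]
    linarith
  have he3 : x / 2 < e := by
    rw [he]
    exact lt_min hxδ (by linarith)
  obtain ⟨x', hx'⟩ : ∃ x', x' = (x + 2 * e) / 2 := ⟨_, rfl⟩
  have hxx' : x < x' := by linarith
  have hx'0 : 0 < x' := by linarith
  obtain ⟨η, hη⟩ : ∃ η, η = (2 * e - x') / 4 := ⟨_, rfl⟩
  have hη0 : 0 < η := by linarith
  obtain ⟨p, hp⟩ : ∃ p, p = (2 * e - x') / 64 := ⟨_, rfl⟩
  have hp0 : 0 < p := by linarith
  have hgap : 0 < 2 * e - (η + 16 * p) - x' := by linarith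
  have hd0 : (0 : ℝ) < d := by exact_mod_cast hd
  have hsd : 0 < Real.sqrt d := Real.sqrt_pos.2 hd0
  obtain ⟨C, N₁, hC, hT'⟩ := hT η M p hη0 hM hp0
  obtain ⟨N', δ', hδ', hN⟩ := hnb x hx hF x' hxx' (1 / (4 * Real.sqrt d)) (by positivity)
  obtain ⟨C₁, hC₁, hF1⟩ := bd25 (f := fun k => Fn ρ β h k) hx.le hF
  obtain ⟨C₂, hC₂, hE1⟩ := bd25 (f := fun k => En ρ β h k) hx'0.le (hEn x' hxx')
  beta_reduce at hF1 hE1
  obtain ⟨C', hC'⟩ : ∃ C', C' = C₁ + C₂ + |N'| := ⟨_, rfl⟩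
  have hN0 : 0 ≤ |N'| := abs_nonneg N'
  have hC'1 : 1 ≤ C' := by linarith
  -- the limits
  have l1 : Tendsto (fun n : ℕ => (n : ℝ) ^ (e - 1 / 2)) atTop (𝓝 0) := by
    have h1 := (tendsto_rpow_neg_atTop (show 0 < 1 / 2 - e by linarith)).comp
      tendsto_natCast_atTop_atTop
    refine h1.congr fun n => ?_
    simp only [Function.comp_apply]
    congr 1
    ring
  have l2 : Tendsto (fun n : ℕ => (n : ℝ) ^ (2 * e - (η + 16 * p) - x')) atTop atTop :=
    (tendsto_rpow_atTop hgap).comp tendsto_natCast_atTop_atTop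
  have hmin : 0 < 32 * M * Real.sqrt d * min δ' (δ₀ / 2) := by
    have : 0 < min δ' (δ₀ / 2) := lt_min hδ' (by linarith)
    positivity
  obtain ⟨S, hS⟩ : ∃ S : ℕ → Set (Env d), S = fun N => {ξ | ∃ n : ℕ, N ≤ n ∧ n ≤ 2 * N ∧
    1 / (N : ℝ) < 1 - PolT β h ξ (tube d n v ((N : ℝ) ^ (1 / 2 + e)))} := ⟨_, rfl⟩
  have hprob : ∀ᶠ N : ℕ in atTop, (law d ρ).real (S N) ≤ (N : ℝ) ^ (-p) := by
    filter_upwards [l1.eventually (gt_mem_nhds hmin),
      l2.eventually_gt_atTop (C * (C' * 2 ^ x')), eventually_ge_atTop (max 1 N₁)]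
      with N hn1 hn2 hn3
    have hN1 : 1 ≤ N := (le_max_left _ _).trans hn3
    have hNN : N₁ ≤ N := (le_max_right _ _).trans hn3
    by_contra hcon
    rw [not_le] at hcon
    have hnR : (1 : ℝ) ≤ N := by exact_mod_cast hN1
    have hn0 : (0 : ℝ) < N := by linarith
    obtain ⟨R, hR⟩ : ∃ R, R = (N : ℝ) ^ (1 / 2 + e) := ⟨_, rfl⟩
    have hR0 : 0 < R := by
      rw [hR]
      positivity
    have hR2 : R ^ 2 = (N : ℝ) ^ (1 + 2 * e) := by
      rw [hR, ← Real.rpow_natCast, ← Real.rpow_mul hn0.le]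
      congr 1
      push_cast
      ring
    obtain ⟨r, hr⟩ : ∃ r, r = R / (16 * M * Real.sqrt d * ((2 * N : ℕ) : ℝ)) := ⟨_, rfl⟩
    have h2N : (0 : ℝ) < ((2 * N : ℕ) : ℝ) := by
      push_cast
      linarith
    have hr0 : 0 < r := by
      rw [hr]
      positivity
    have hrR : 16 * M * Real.sqrt d * ((2 * N : ℕ) : ℝ) * r = R := by
      rw [hr]
      field_simp
    have hr1 : r < min δ' (δ₀ / 2) := by
      have h1 : r = (N : ℝ) ^ (e - 1 / 2) / (32 * M * Real.sqrt d) := by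
        have h2 : (N : ℝ) ^ (1 / 2 + e) = (N : ℝ) ^ (e - 1 / 2) * N := by
          rw [← Real.rpow_add_one hn0.ne']
          congr 1
          ring
        rw [hr, hR, h2]
        push_cast
        field_simp
        ring
      rw [h1, div_lt_iff₀ (by positivity)]
      linarith
    have hrδ' : r ≤ δ' := (hr1.trans_le (min_le_left _ _)).le
    have hrδ₀ : 2 * r ≤ δ₀ := by
      have := hr1.trans_le (min_le_right δ' (δ₀ / 2))
      linarith
    have h2N1 : 1 ≤ 2 * N := by omega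
    have h2NR : (1 : ℝ) ≤ ((2 * N : ℕ) : ℝ) := by exact_mod_cast h2N1
    obtain ⟨P, hPdef⟩ : ∃ P, P = C' * ((2 * N : ℕ) : ℝ) ^ x' := ⟨_, rfl⟩
    have hnx : 1 ≤ ((2 * N : ℕ) : ℝ) ^ x' := Real.one_le_rpow h2NR hx'0.le
    have hP1 : 1 ≤ P := by
      rw [hPdef]
      exact one_le_mul_of_one_le_of_one_le hC'1 hnx
    have hnxx : ((2 * N : ℕ) : ℝ) ^ x ≤ ((2 * N : ℕ) : ℝ) ^ x' :=
      Real.rpow_le_rpow_of_exponent_le h2NR hxx'.le
    have hDk : Dk ρ β h v (2 * N) M P r := by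
      refine ⟨fun k hk => ⟨?_, ?_⟩, fun j s hs => ?_⟩
      · rw [hPdef]
        refine (hF1 (2 * N) k h2N1 hk).trans ?_
        exact mul_le_mul (by linarith) hnxx (by positivity) (by linarith)
      · rw [hPdef]
        refine (hE1 (2 * N) k h2N1 hk).trans ?_
        exact mul_le_mul_of_nonneg_right (by linarith) (by positivity)
      · obtain ⟨g, hg1, hg2⟩ := hN r hr0 hrδ' j s hs
        have h1 : 1 / (4 * Real.sqrt d) * r = r / (4 * Real.sqrt d) := by ring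
        refine ⟨g, by rw [← h1]; exact hg1, fun k hk => ?_, ?_⟩
        · refine (hg2 k).trans ?_
          rw [hPdef]
          have h2 : (k : ℝ) ^ x' ≤ ((2 * N : ℕ) : ℝ) ^ x' :=
            Real.rpow_le_rpow (Nat.cast_nonneg k) (by exact_mod_cast hk) hx'0.le
          calc N' * (k : ℝ) ^ x' ≤ |N'| * ((2 * N : ℕ) : ℝ) ^ x' :=
                mul_le_mul (le_abs_self N') h2 (by positivity) hN0
            _ ≤ C' * ((2 * N : ℕ) : ℝ) ^ x' :=
                mul_le_mul_of_nonneg_right (by linarith) (by positivity)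
        · have h2 := hpar (g - h) ?_
          · rwa [add_sub_cancel] at h2
          · have hs1 : |s| = 1 := by
              rcases hs with h3 | h3 <;> rw [h3] <;> norm_num
            have h3 : ‖(s * r) • (uv j : Vec d)‖ = r := by
              rw [norm_smul, norm_uv25, mul_one, Real.norm_eq_abs, abs_mul, hs1, one_mul,
                abs_of_pos hr0]
            have h4 : 1 / (4 * Real.sqrt d) * r ≤ r := by
              have h5 : 1 / (4 * Real.sqrt d) ≤ 1 := by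
                rw [div_le_one (by positivity)]
                have h6 : 1 ≤ Real.sqrt d := by
                  rw [Real.one_le_sqrt]
                  exact_mod_cast hd
                linarith
              calc 1 / (4 * Real.sqrt d) * r ≤ 1 * r := mul_le_mul_of_nonneg_right h5 hr0.le
                _ = r := one_mul r
            have h5 : g - h = (g - h - (s * r) • uv j) + (s * r) • uv j := by abel
            rw [h5]
            refine (norm_add_le _ _).trans ?_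
            rw [h3]
            linarith
    have hfin := hT' h v N P R r hNN hP1 hR0 hrR hDk (by
      rw [hS] at hcon
      rw [hR]
      exact hcon)
    rw [hR2, hPdef] at hfin
    have h0 : ((2 * N : ℕ) : ℝ) ^ x' = 2 ^ x' * (N : ℝ) ^ x' := by
      push_cast
      rw [Real.mul_rpow (by norm_num) hn0.le]
    have h1 : (N : ℝ) ^ (1 + 2 * e) = (N : ℝ) ^ (1 + η + 16 * p) * (N : ℝ) ^ x' *
        (N : ℝ) ^ (2 * e - (η + 16 * p) - x') := by
      rw [← Real.rpow_add hn0, ← Real.rpow_add hn0]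
      congr 1
      ring
    have h2 : C * (N : ℝ) ^ (1 + η + 16 * p) * (C' * (2 ^ x' * (N : ℝ) ^ x')) =
        (N : ℝ) ^ (1 + η + 16 * p) * (N : ℝ) ^ x' * (C * (C' * 2 ^ x')) := by ring
    rw [h0, h1, h2] at hfin
    have h3 : 0 < (N : ℝ) ^ (1 + η + 16 * p) * (N : ℝ) ^ x' := by positivity
    exact absurd (le_of_mul_le_mul_left hfin h3) (not_le.2 hn2)
  filter_upwards [bc25 (law d ρ) S hp0 hprob] with ξ hξ
  obtain ⟨J, hJ⟩ := eventually_atTop.1 hξ
  refine eventually_atTop.2 ⟨2 ^ J, fun n hn => ?_⟩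
  have hn1 : 1 ≤ n := Nat.one_le_two_pow.trans hn
  obtain ⟨j, hj⟩ : ∃ j, j = Nat.log 2 n := ⟨_, rfl⟩
  have hjn : 2 ^ j ≤ n := by
    rw [hj]
    exact Nat.pow_log_le_self 2 (by omega)
  have hjn2 : n < 2 ^ (j + 1) := by
    rw [hj]
    exact Nat.lt_pow_succ_log_self (by norm_num) n
  have hJj : J ≤ j := by
    rw [hj]
    exact (Nat.le_log_iff_pow_le (by norm_num) (by omega)).2 hn
  have h1 := hJ j hJj
  rw [hS] at h1
  simp only [Set.mem_setOf_eq, not_exists, not_and, not_lt] at h1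
  have h2 := h1 n hjn (by
    rw [pow_succ] at hjn2
    omega)
  have h2j : (0 : ℝ) < ((2 ^ j : ℕ) : ℝ) := by positivity
  have hnR : (1 : ℝ) ≤ n := by exact_mod_cast hn1
  have hn0 : (0 : ℝ) < n := by linarith
  have hR : ((2 ^ j : ℕ) : ℝ) ^ (1 / 2 + e) ≤ (n : ℝ) ^ (1 / 2 + δ) := by
    have e1 : ((2 ^ j : ℕ) : ℝ) ^ (1 / 2 + e) ≤ (n : ℝ) ^ (1 / 2 + e) :=
      Real.rpow_le_rpow h2j.le (by exact_mod_cast hjn) (by linarith)
    exact e1.trans (Real.rpow_le_rpow_of_exponent_le hnR (by linarith))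
  have h3 := PolT_mono β h ξ (tube_mono (n := n) v hR)
  have h4 : 1 / ((2 ^ j : ℕ) : ℝ) ≤ 2 / n := by
    rw [div_le_div_iff₀ h2j hn0]
    have e1 : (n : ℝ) < ((2 ^ (j + 1) : ℕ) : ℝ) := by exact_mod_cast hjn2
    have e2 : ((2 ^ (j + 1) : ℕ) : ℝ) = 2 * ((2 ^ j : ℕ) : ℝ) := by
      push_cast
      ring
    linarith
  linarith

/-- **FIN, almost surely.** -/
theorem mainHO25 {d : ℕ} {ρ : Measure ℝ} [IsProbabilityMeasure ρ] (hd : 0 < d) {β : ℝ}
    (hT : TubN d ρ β) (hP : ParK d ρ β) (hE : EfK d ρ β) : MainHO d ρ β := by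
  unfold MainHO
  filter_upwards [mainOE25 hd hT hP] with h hh
  obtain ⟨v, hv, H⟩ := hh
  exact ⟨v, hv, fun x δ hx hx1 hF hxδ => H x δ hx hx1 hF (hE h x hx hx1 hF) hxδ⟩

end Pool.Agent.W_7d29a1_KP
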