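import Pool.Agent.W_7d29a1_KP.FinO16

/-!
Theorem KPZO, every law: the same over `TubNU` (exponent `K p` with `K` free) and with the bound of
`En` as a hypothesis at the tilt (helper16).
-/

namespace Pool.Agent.W_7d29a1_KP

open MeasureTheory ProbabilityTheory Filter Topology Pool.Agent.W_MP_7d29a1_pr
  Pool.Agent.W_7d29a1_h46 Pool.Agent.W_7d29a1_h46u Pool.Agent.W_7d29a1_D2.B35
  Pool.Agent.W_7d29a1_Q29 Pool.Agent.W_7d29a1_R34 Pool.Agent.W_7d29a1_SP Pool.Agent.W_7d29a1_SD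
  Pool.Agent.W_7d29a1_SQ Pool.Agent.W_7d29a1_KZ

/-- TUBNU: `TubN` with a free factor of `p` in the exponent. -/
def TubNU16 (d : ℕ) (ρ : Measure ℝ) (β : ℝ) : Prop := ∀ η M : ℝ, 0 < η → 0 < M → ∃ K : ℝ, 0 ≤ K ∧
  ∀ p : ℝ, 0 < p → ∃ (C : ℝ) (N₀ : ℕ), 1 ≤ C ∧
  ∀ (h v : Vec d) (N : ℕ) (P R r : ℝ), N₀ ≤ N → 1 ≤ P → 0 < R →
    16 * M * Real.sqrt d * ((2 * N : ℕ) : ℝ) * r = R → Dk ρ β h v (2 * N) M P r →
    (N : ℝ) ^ (-p) < (law d ρ).real {ξ | ∃ n : ℕ, N ≤ n ∧ n ≤ 2 * N ∧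
      1 / (N : ℝ) < 1 - PolT β h ξ (tube d n v R)} →
      R ^ 2 ≤ C * (N : ℝ) ^ (1 + η + K * p) * P

/-- MAINHO with the bound of the gap `En` as a hypothesis at the tilt. -/
def MainHU16 (d : ℕ) (ρ : Measure ℝ) (β : ℝ) : Prop := ∀ᵐ h : Vec d, ∃ v : Vec d,
  (∀ k : Vec d, lam ρ β h + inner ℝ v k ≤ lam ρ β (h + k)) ∧
  ∀ x δ : ℝ, 0 < x → x < 1 → (∀ᶠ k : ℕ in atTop, Fn ρ β h k ≤ (k : ℝ) ^ x) →
    (∀ x' : ℝ, x < x' → ∀ᶠ k : ℕ in atTop, En ρ β h k ≤ (k : ℝ) ^ x') → x / 2 < δ →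
    ∀ᵐ ξ ∂(law d ρ), ∀ᶠ n : ℕ in atTop,
      1 - PolT β h ξ (tube d n v ((n : ℝ) ^ (1 / 2 + δ))) ≤ 2 / n

variable {d : ℕ} {ρ : Measure ℝ} {β : ℝ}

theorem tubNU16 (hT : TubN d ρ β) : TubNU16 d ρ β := fun η M hη hM =>
  ⟨16, by norm_num, fun p hp => hT η M p hη hM hp⟩

/-- One block: the exit from the tube of radius `N ^ (1 / 2 + δ)` is rare. -/
theorem blkU16 [IsProbabilityMeasure ρ] (hd : 0 < d) (hT : TubNU16 d ρ β)
    {h v : Vec d} {M δ₀ : ℝ} (hM : 0 < M) (hδ₀ : 0 < δ₀)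
    (hpar : ∀ k : Vec d, ‖k‖ ≤ δ₀ → lam ρ β (h + k) ≤ lam ρ β h + inner ℝ v k + M * ‖k‖ ^ 2)
    (hpart : ∀ x : ℝ, 0 < x → (∀ᶠ k : ℕ in atTop, Fn ρ β h k ≤ (k : ℝ) ^ x) →
      ∀ x' : ℝ, x < x' → ∀ κ : ℝ, 0 < κ → ∃ N δ' : ℝ, 0 < δ' ∧ ∀ r : ℝ, 0 < r → r ≤ δ' →
        ∀ (j : Fin d) (s : ℝ), (s = 1 ∨ s = -1) → ∃ g : Vec d,
          ‖g - h - (s * r) • uv j‖ ≤ κ * r ∧ ∀ k : ℕ, Fn ρ β g k ≤ N * (k : ℝ) ^ x')
    {x δ : ℝ} (hx : 0 < x) (_hx1 : x < 1) (hF : ∀ᶠ k : ℕ in atTop, Fn ρ β h k ≤ (k : ℝ) ^ x)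
    (hEf : ∀ x' : ℝ, x < x' → ∀ᶠ k : ℕ in atTop, En ρ β h k ≤ (k : ℝ) ^ x')
    (hxδ : x / 2 < δ) (hδ2 : δ < 1 / 2) : ∃ p : ℝ, 0 < p ∧ ∀ᶠ N : ℕ in atTop,
      (law d ρ).real {η | ∃ n : ℕ, N ≤ n ∧ n ≤ 2 * N ∧
        1 / (N : ℝ) < 1 - PolT β h η (tube d n v ((N : ℝ) ^ (1 / 2 + δ)))} ≤ (N : ℝ) ^ (-p) := by
  obtain ⟨x', hx'⟩ : ∃ x' : ℝ, x' = (x + 2 * δ) / 2 := ⟨_, rfl⟩
  have hxx' : x < x' := by rw [hx']; linarith
  have hx'δ : x' < 2 * δ := by rw [hx']; linarith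
  have hx'0 : 0 < x' := by linarith
  obtain ⟨η, hη⟩ : ∃ η : ℝ, η = (2 * δ - x') / 4 := ⟨_, rfl⟩
  have hη0 : 0 < η := by rw [hη]; linarith
  obtain ⟨L, hL, hTL⟩ := hT η M hη0 hM
  obtain ⟨p, hp⟩ : ∃ p : ℝ, p = (2 * δ - x') / (4 * (L + 1)) := ⟨_, rfl⟩
  have hp0 : 0 < p := by
    rw [hp]
    have : 0 < 2 * δ - x' := by linarith
    positivity
  have hLp : L * p ≤ (2 * δ - x') / 4 := by
    rw [hp, mul_div_assoc', div_le_div_iff₀ (by positivity) (by norm_num)]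
    have : 0 < 2 * δ - x' := by linarith
    nlinarith
  have hdp : (0 : ℝ) < Real.sqrt d := Real.sqrt_pos.2 (by exact_mod_cast hd)
  obtain ⟨K, δ', hδ', hg⟩ := hpart x hx hF x' hxx' (1 / (4 * Real.sqrt d)) (by positivity)
  have hEe := hEf x' hxx'
  obtain ⟨k₁, hk₁⟩ := eventually_atTop.1 (hF.and hEe)
  obtain ⟨B, hB⟩ : ∃ B : ℝ, B = ∑ k ∈ Finset.range k₁, (|Fn ρ β h k| + |En ρ β h k|) := ⟨_, rfl⟩
  have hB0 : 0 ≤ B := by
    rw [hB]
    exact Finset.sum_nonneg fun k _ => add_nonneg (abs_nonneg _) (abs_nonneg _)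
  obtain ⟨C, N₀, hC, htub⟩ := hTL p hp0
  obtain ⟨Q, hQ⟩ : ∃ Q : ℝ, Q = (1 + B + |K|) * 2 ^ x' := ⟨_, rfl⟩
  have h2x : (1 : ℝ) ≤ 2 ^ x' := Real.one_le_rpow (by norm_num) hx'0.le
  have hQ1 : 1 ≤ Q := by
    rw [hQ]
    have : 1 ≤ 1 + B + |K| := by
      have := abs_nonneg K
      linarith
    nlinarith
  -- the asymptotics
  have hr : Tendsto (fun N : ℕ => (N : ℝ) ^ (1 / 2 + δ) / (16 * M * Real.sqrt d * (2 * N)))
      atTop (𝓝 0) := by
    have t1 : Tendsto (fun N : ℕ => (N : ℝ) ^ (-(1 / 2 - δ))) atTop (𝓝 0) :=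
      (tendsto_rpow_neg_atTop (by linarith : (0 : ℝ) < 1 / 2 - δ)).comp
        (tendsto_natCast_atTop_atTop (R := ℝ))
    have t2 := t1.const_mul (1 / (32 * M * Real.sqrt d))
    rw [mul_zero] at t2
    refine t2.congr' ?_
    filter_upwards [eventually_ge_atTop 1] with N hN
    have hN0 : (0 : ℝ) < N := by exact_mod_cast hN
    have e1 : (N : ℝ) ^ (1 / 2 + δ) = (N : ℝ) ^ (-(1 / 2 - δ)) * N := by
      rw [← Real.rpow_add_one hN0.ne']
      congr 1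
      ring
    rw [e1]
    field_simp
    ring
  have hbig : Tendsto (fun N : ℕ => (N : ℝ) ^ (2 * δ - x' - η - L * p)) atTop atTop :=
    (tendsto_rpow_atTop (by linarith)).comp tendsto_natCast_atTop_atTop
  obtain ⟨r₀, hr₀⟩ : ∃ r₀ : ℝ, r₀ = min δ' (δ₀ / 2) := ⟨_, rfl⟩
  have hr₀0 : 0 < r₀ := by rw [hr₀]; exact lt_min hδ' (by linarith)
  refine ⟨p, hp0, ?_⟩
  filter_upwards [eventually_ge_atTop 1, eventually_ge_atTop N₀, hr.eventually (gt_mem_nhds hr₀0),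
    hbig.eventually_gt_atTop (C * Q)] with N hN hNN₀ hrN hbN
  by_contra hcon
  push Not at hcon
  have hN1 : (1 : ℝ) ≤ N := by exact_mod_cast hN
  have hN0 : (0 : ℝ) < N := by linarith
  obtain ⟨R, hR⟩ : ∃ R : ℝ, R = (N : ℝ) ^ (1 / 2 + δ) := ⟨_, rfl⟩
  obtain ⟨r, hrd⟩ : ∃ r : ℝ, r = R / (16 * M * Real.sqrt d * (2 * N)) := ⟨_, rfl⟩
  have hR0 : 0 < R := by rw [hR]; positivity
  have hr0 : 0 < r := by rw [hrd]; positivity
  rw [← hR] at hrN hcon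
  rw [← hrd] at hrN
  have hr1 : r ≤ δ' := hrN.le.trans (by rw [hr₀]; exact min_le_left _ _)
  have hr2 : r ≤ δ₀ / 2 := hrN.le.trans (by rw [hr₀]; exact min_le_right _ _)
  obtain ⟨P, hP⟩ : ∃ P : ℝ, P = Q * (N : ℝ) ^ x' := ⟨_, rfl⟩
  have hNx : 1 ≤ (N : ℝ) ^ x' := Real.one_le_rpow hN1 hx'0.le
  have hP1 : 1 ≤ P := by
    rw [hP]
    nlinarith
  have hPk : ∀ (a : ℝ) (k : ℕ), 0 ≤ a → a ≤ 1 + B + |K| → k ≤ 2 * N →
      a * (k : ℝ) ^ x' ≤ P := by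
    intro a k ha0 ha hk
    have e1 : (k : ℝ) ^ x' ≤ (2 * (N : ℝ)) ^ x' :=
      Real.rpow_le_rpow (Nat.cast_nonneg _) (by exact_mod_cast hk) hx'0.le
    rw [Real.mul_rpow (by norm_num) hN0.le] at e1
    rw [hP, hQ, mul_assoc]
    exact mul_le_mul ha e1 (Real.rpow_nonneg (Nat.cast_nonneg _) _) (ha0.trans ha)
  have hK0 := abs_nonneg K
  have hDk : Dk ρ β h v (2 * N) M P r := by
    refine ⟨fun k hk => ?_, fun j s hs => ?_⟩
    · rcases lt_or_ge k k₁ with e | e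
      · have e1 : |Fn ρ β h k| + |En ρ β h k| ≤ B := by
          rw [hB]
          exact Finset.single_le_sum (f := fun k => |Fn ρ β h k| + |En ρ β h k|)
            (fun i _ => add_nonneg (abs_nonneg _) (abs_nonneg _)) (Finset.mem_range.2 e)
        have e2 : B ≤ P := by
          have e3 : B ≤ Q := by
            rw [hQ]
            have : B ≤ 1 + B + |K| := by linarith
            nlinarith
          rw [hP]
          nlinarith
        have e3 := le_abs_self (Fn ρ β h k)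
        have e4 := le_abs_self (En ρ β h k)
        have e5 := abs_nonneg (Fn ρ β h k)
        have e6 := abs_nonneg (En ρ β h k)
        exact ⟨by linarith, by linarith⟩
      · obtain ⟨e1, e2⟩ := hk₁ k e
        have e3 := hPk 1 k zero_le_one (by linarith) hk
        rw [one_mul] at e3
        refine ⟨?_, e2.trans e3⟩
        rcases Nat.eq_zero_or_pos k with e4 | e4
        · rw [e4, Fn_zero15]
          linarith
        · refine e1.trans (le_trans ?_ e3)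
          exact Real.rpow_le_rpow_of_exponent_le (by exact_mod_cast e4) hxx'.le
    · obtain ⟨g, hg1, hg2⟩ := hg r hr0 hr1 j s hs
      refine ⟨g, ?_, fun k hk => ?_, ?_⟩
      · refine hg1.trans (le_of_eq ?_)
        rw [one_div, inv_mul_eq_div]
      · refine (hg2 k).trans (le_trans ?_ (hPk |K| k hK0 (by linarith) hk))
        exact mul_le_mul_of_nonneg_right (le_abs_self K)
          (Real.rpow_nonneg (Nat.cast_nonneg _) _)
      · have e1 : ‖g - h‖ ≤ δ₀ := by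
          have e2 : ‖g - h‖ ≤ ‖g - h - (s * r) • uv j‖ + ‖(s * r) • (uv j : Vec d)‖ := by
            have := norm_add_le (g - h - (s * r) • uv j) ((s * r) • (uv j : Vec d))
            rwa [sub_add_cancel] at this
          have e3 : ‖(s * r) • (uv j : Vec d)‖ = r := by
            have e4 : ‖(uv j : Vec d)‖ = 1 := by
              unfold uv
              simp
            rw [norm_smul, e4, mul_one, Real.norm_eq_abs, abs_mul]
            have : |s| = 1 := by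
              rcases hs with e | e <;> rw [e] <;> simp
            rw [this, one_mul, abs_of_pos hr0]
          have e4 : 1 / (4 * Real.sqrt d) * r ≤ r := by
            have e5 : (1 : ℝ) ≤ Real.sqrt d := Real.one_le_sqrt.2 (by exact_mod_cast hd)
            have e6 : 1 / (4 * Real.sqrt d) ≤ 1 := by
              rw [div_le_one (by positivity)]
              linarith
            nlinarith
          linarith
        have e2 := hpar (g - h) e1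
        rwa [add_sub_cancel] at e2
  have hmul : 16 * M * Real.sqrt d * ((2 * N : ℕ) : ℝ) * r = R := by
    rw [hrd]
    push_cast
    field_simp
  have key := htub h v N P R r hNN₀ hP1 hR0 hmul hDk hcon
  -- the contradiction
  have e1 : R ^ 2 = (N : ℝ) ^ (1 + 2 * δ) := by
    rw [hR, ← Real.rpow_natCast, ← Real.rpow_mul hN0.le]
    congr 1
    push_cast
    ring
  have e2 : (N : ℝ) ^ (1 + 2 * δ) = (N : ℝ) ^ (2 * δ - x' - η - L * p) *
      ((N : ℝ) ^ (1 + η + L * p) * (N : ℝ) ^ x') := by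
    rw [← Real.rpow_add hN0, ← Real.rpow_add hN0]
    congr 1
    ring
  rw [e1, e2, hP] at key
  have e3 : 0 < (N : ℝ) ^ (1 + η + L * p) * (N : ℝ) ^ x' := by positivity
  have e4 : C * (N : ℝ) ^ (1 + η + L * p) * (Q * (N : ℝ) ^ x') =
      (C * Q) * ((N : ℝ) ^ (1 + η + L * p) * (N : ℝ) ^ x') := by ring
  rw [e4] at key
  have e5 := le_of_mul_le_mul_right key e3
  linarith

/-- **MAINHO, every law.** -/
theorem finU16 {d : ℕ} {ρ : Measure ℝ} [IsProbabilityMeasure ρ] (hd : 0 < d) {β : ℝ}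
    (hT : TubNU16 d ρ β) (hP : ParK d ρ β) : MainHU16 d ρ β := by
  unfold ParK at hP
  filter_upwards [hP] with h hh
  obtain ⟨v, M, δ₀, hM, hδ₀, hsub, hpar, hnb⟩ := hh
  refine ⟨v, hsub, fun x δ hx hx1 hF hEf hxδ => ?_⟩
  obtain ⟨e, he⟩ : ∃ e, e = min δ (x / 4 + 1 / 4) := ⟨_, rfl⟩
  have he1 : e ≤ δ := by
    rw [he]
    exact min_le_left _ _
  have he2 : e < 1 / 2 := by
    have := min_le_right δ (x / 4 + 1 / 4)
    rw [he]
    linarith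
  have he3 : x / 2 < e := by
    rw [he]
    exact lt_min hxδ (by linarith)
  obtain ⟨p, hp, hb⟩ := blkU16 hd hT hM hδ₀ hpar hnb hx hx1 hF hEf he3 he2
  filter_upwards [bcO16 (by linarith) hp hb] with ξ hξ
  filter_upwards [hξ, eventually_ge_atTop 1] with n hn hn1
  have h5 : (n : ℝ) ^ (1 / 2 + e) ≤ (n : ℝ) ^ (1 / 2 + δ) :=
    Real.rpow_le_rpow_of_exponent_le (by exact_mod_cast hn1) (by linarith)
  have h6 := PolT_mono β h ξ (tube_mono (n := n) v h5)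
  linarith

/-- `MainHO` from `TubNU16`. -/
theorem finOU16 {d : ℕ} {ρ : Measure ℝ} [IsProbabilityMeasure ρ] (hd : 0 < d) {β : ℝ}
    (hT : TubNU16 d ρ β) (hP : ParK d ρ β) (hE : EfK d ρ β) : MainHO d ρ β := by
  have h0 := finU16 hd hT hP
  unfold MainHU16 at h0
  unfold MainHO
  filter_upwards [h0] with h hh
  obtain ⟨v, hsub, hv⟩ := hh
  exact ⟨v, hsub, fun x δ hx hx1 hF hxδ => hv x δ hx hx1 hF (hE h x hx hx1 hF) hxδ⟩

end Pool.Agent.W_7d29a1_KP
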