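import Pool.Agent.W_7d29a1_KP.DefsKP89
import Pool.Agent.W_7d29a1_KP.RelB19
import Pool.Agent.W_7d29a1_D2.AeG6

/-!
The exponent of the typical displacement is at most `(1 + χ') / 2`, where `χ'` is the exponent of
the variance: almost every tilt.
-/

namespace Pool.Agent.W_7d29a1_KP

open MeasureTheory ProbabilityTheory Filter Topology Pool.Agent.W_MP_7d29a1_pr
  Pool.Agent.W_7d29a1_h46 Pool.Agent.W_7d29a1_h46u Pool.Agent.W_7d29a1_D2
  Pool.Agent.W_7d29a1_D2.B35 Pool.Agent.W_7d29a1_Q29 Pool.Agent.W_7d29a1_R34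
  Pool.Agent.W_7d29a1_SP Pool.Agent.W_7d29a1_SD Pool.Agent.W_7d29a1_UC Pool.Agent.W_7d29a1_KZ
  Pool.Agent.W_7d29a1_KL

variable {d : ℕ} {Ω : Type*} [MeasurableSpace Ω] {μ : Measure Ω} [IsProbabilityMeasure μ]
  {ρ : Measure ℝ} [IsProbabilityMeasure ρ] {ω : ℕ × Site d → Ω → ℝ} {β : ℝ}

/-- With an upper parabola the subgradient is unique. -/
lemma sub_eq19 {L : Vec d → ℝ} {h v w : Vec d} (hU : UpG L h v 2)
    (hw : ∀ k : Vec d, L h + inner ℝ w k ≤ L (h + k)) : w = v := by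
  obtain ⟨C, δ, hδ, hC⟩ := hU
  by_contra hne
  obtain ⟨z, hz⟩ : ∃ z : Vec d, z = w - v := ⟨_, rfl⟩
  have hz0 : 0 < ‖z‖ := by
    rw [hz, norm_pos_iff]
    exact sub_ne_zero.2 hne
  obtain ⟨t, ht⟩ : ∃ t : ℝ, t = min (δ / ‖z‖) (1 / (2 * (|C| + 1))) := ⟨_, rfl⟩
  have hC1 : 0 < |C| + 1 := by positivity
  have ht0 : 0 < t := by
    rw [ht]
    exact lt_min (by positivity) (by positivity)
  have ht1 : t * ‖z‖ ≤ δ := by
    have h1 : t ≤ δ / ‖z‖ := by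
      rw [ht]
      exact min_le_left _ _
    rwa [le_div_iff₀ hz0] at h1
  have ht2 : (|C| + 1) * t ≤ 1 / 2 := by
    have h1 : t ≤ 1 / (2 * (|C| + 1)) := by
      rw [ht]
      exact min_le_right _ _
    rw [le_div_iff₀ (by positivity)] at h1
    linarith
  have hn : ‖t • z‖ = t * ‖z‖ := by
    rw [norm_smul, Real.norm_eq_abs, abs_of_pos ht0]
  have h1 := hC (t • z) (by rw [hn]; exact ht1)
  have h2 := hw (t • z)
  unfold gap at h1
  rw [hn, Real.rpow_two] at h1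
  have h3 : inner ℝ w (t • z) - inner ℝ v (t • z) = t * ‖z‖ ^ 2 := by
    rw [← inner_sub_left, ← hz, inner_smul_right, real_inner_self_eq_norm_sq]
  have h4 : t * ‖z‖ ^ 2 ≤ C * (t * ‖z‖) ^ 2 := by linarith
  have h5 : C * (t * ‖z‖) ^ 2 ≤ (|C| + 1) * (t * ‖z‖) ^ 2 :=
    mul_le_mul_of_nonneg_right (by linarith [le_abs_self C]) (sq_nonneg _)
  have h6 : (|C| + 1) * (t * ‖z‖) ^ 2 = ((|C| + 1) * t) * (t * ‖z‖ ^ 2) := by ring
  have h7 : ((|C| + 1) * t) * (t * ‖z‖ ^ 2) ≤ 1 / 2 * (t * ‖z‖ ^ 2) :=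
    mul_le_mul_of_nonneg_right ht2 (by positivity)
  have h8 : 0 < t * ‖z‖ ^ 2 := by positivity
  linarith

/-- `nuP` is at most `1 / 2 + δ` if the tube of radius `n ^ (1 / 2 + δ)` is typical. -/
lemma nuP_le19 (hω : IID μ ρ ω) {h v : Vec d} {δ : ℝ} (hδ : 0 < δ) (H : HalfD ρ β h v δ) :
    nuP μ β ω h v ≤ 1 / 2 + δ := by
  refine csInf_le ⟨0, fun b hb => hb.1.le⟩ ⟨by linarith, ?_⟩
  rw [Metric.tendsto_atTop]
  intro ε hε
  obtain ⟨n₀, hn₀⟩ := eventually_atTop.1 ((H (ε / 2) (half_pos hε)).and (eventually_ge_atTop 1))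
  refine ⟨n₀, fun n hn => ?_⟩
  obtain ⟨h1, h2⟩ := hn₀ n hn
  have hn0 : (0 : ℝ) < n := by exact_mod_cast h2
  have e : (n : ℝ) ^ δ * Real.sqrt n = (n : ℝ) ^ (1 / 2 + δ) := by
    rw [Real.sqrt_eq_rpow, ← Real.rpow_add hn0]
    congr 1
    ring
  have e2 : ∫ x, (1 - PolT β h (fun p => ω p x) (tube d n v ((n : ℝ) ^ (1 / 2 + δ)))) ∂μ =
      ∫ η, (1 - PolT β h η (tube d n v ((n : ℝ) ^ (1 / 2 + δ)))) ∂(law d ρ) :=
    StrA_int hω (F := fun η : Env d => 1 - PolT β h η (tube d n v ((n : ℝ) ^ (1 / 2 + δ))))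
      ((measurable_PolT β h _).const_sub 1)
  unfold Tb at h1
  rw [e] at h1
  rw [Real.dist_eq, sub_zero, abs_of_nonneg (out_nonneg19 h v n _), e2]
  linarith

/-- **Leaf REL, lower half**: at almost every tilt `h`, for every slope `v`,
`2 nuP - 1 ≤ chiV`. -/
theorem relA19 (hd : 0 < d) (hω : IID μ ρ ω) (hρ : EM ρ) (hM : MainHK d ρ β) :
    ∀ᵐ h : Vec d, ∀ v : Vec d, (∀ k : Vec d, lam ρ β h + inner ℝ v k ≤ lam ρ β (h + k)) →
      2 * nuP μ β ω h v - 1 ≤ chiV μ β ω h := by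
  have hM' : ∀ᵐ h : Vec d, ∃ v : Vec d,
      (∀ k : Vec d, lam ρ β h + inner ℝ v k ≤ lam ρ β (h + k)) ∧
      ∀ x δ : ℝ, 0 < x → x < 1 → (∀ᶠ k : ℕ in atTop, Fn ρ β h k ≤ (k : ℝ) ^ x) → x / 2 < δ →
        HalfD ρ β h v δ := hM
  have hL : ConvexOn ℝ Set.univ (lam (d := d) ρ β) := lam_convex hd hρ β
  filter_upwards [hM', ae_upG hL] with h hv hU v hs
  obtain ⟨v₀, hv₀, hH⟩ := hv
  obtain ⟨v₁, hU⟩ := hU
  have e1 : v₀ = v := (sub_eq19 hU hv₀).trans (sub_eq19 hU hs).symm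
  rw [e1] at hH
  have hc := chiV_le_half19 (μ := μ) (β := β) hd hω hρ h
  have hc0 : 0 ≤ chiV μ β ω h := Real.sInf_nonneg fun b hb => hb.1.le
  refine le_of_forall_gt_imp_ge_of_dense fun x hx => ?_
  -- `x > chiV`: a smaller number `y` with `Fn ≤ k ^ y`
  obtain ⟨y, hy1, hy2⟩ := exists_between
    (lt_min hx (show chiV μ β ω h < 1 by linarith))
  have hyx : y < x := hy2.trans_le (min_le_left _ _)
  have hy3 : y < 1 := hy2.trans_le (min_le_right _ _)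
  have hy0 : 0 < y := lt_of_le_of_lt hc0 hy1
  have hne : {x : ℝ | 0 < x ∧ ∀ᶠ n : ℕ in atTop,
      Var[fun y => Real.log (Zn β h (fun p => ω p y) n); μ] ≤ (n : ℝ) ^ (2 * x)}.Nonempty :=
    ⟨1, one_pos, var_half19 hd hω hρ h (by norm_num)⟩
  obtain ⟨b, hb, hby⟩ := exists_lt_of_csInf_lt hne hy1
  have hF : ∀ᶠ k : ℕ in atTop, Fn ρ β h k ≤ (k : ℝ) ^ y := by
    filter_upwards [hb.2, eventually_ge_atTop 1] with k hk hk1
    rw [varV19 hd hω hρ] at hk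
    have hk1' : (1 : ℝ) ≤ k := by exact_mod_cast hk1
    have hk0 : (0 : ℝ) < k := by linarith
    have h1 : Fn ρ β h k ^ 2 ≤ ((k : ℝ) ^ y) ^ 2 := by
      refine (fn_sq19 hd hρ h k).trans (hk.trans ?_)
      rw [← Real.rpow_natCast ((k : ℝ) ^ y) 2, ← Real.rpow_mul hk0.le]
      refine Real.rpow_le_rpow_of_exponent_le hk1' ?_
      push_cast
      linarith
    exact (sq_le_sq₀ (Fn_nonneg15 β h k) (Real.rpow_nonneg hk0.le y)).1 h1
  have h2 : nuP μ β ω h v ≤ 1 / 2 + x / 2 :=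
    nuP_le19 hω (by linarith) (hH y (x / 2) hy0 hy3 hF (by linarith))
  linarith

end Pool.Agent.W_7d29a1_KP
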