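import Pool.Agent.W_7d29a1_KP.FinK25
import Pool.Agent.W_7d29a1_KP.TubU68
import Pool.Agent.W_7d29a1_KP.SinK95
import Pool.Agent.W_7d29a1_KP.ParK16
import Pool.Agent.W_7d29a1_KP.RelA19
import Pool.Agent.W_7d29a1_NR.NrAll86

/-!
Theorem KPZV for every law: the bound of the displacement through the variance alone.
-/

set_option autoImplicit false

namespace Pool.Agent.W_7d29a1_KP

open MeasureTheory ProbabilityTheory Filter Topology Pool.Agent.W_MP_7d29a1_pr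
  Pool.Agent.W_7d29a1_h46 Pool.Agent.W_7d29a1_h46u Pool.Agent.W_7d29a1_D2
  Pool.Agent.W_7d29a1_D2.B35 Pool.Agent.W_7d29a1_Q29 Pool.Agent.W_7d29a1_R34
  Pool.Agent.W_7d29a1_SP Pool.Agent.W_7d29a1_SD Pool.Agent.W_7d29a1_SQ Pool.Agent.W_7d29a1_UC
  Pool.Agent.W_7d29a1_KZ Pool.Agent.W_7d29a1_KL Pool.Agent.W_7d29a1_NR

variable {d : ℕ} {ρ : Measure ℝ} [IsProbabilityMeasure ρ] {β : ℝ}

/-- The nonrandom fluctuation against the variance, every law of the problem. -/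
theorem efV42 (hd : 0 < d) (hρ : EM ρ) (hnc : ∀ c : ℝ, ρ {c} ≠ 1) (hβ : 0 < β) (h : Vec d)
    {x : ℝ} (hx : 0 ≤ x) (hV : ∀ᶠ n : ℕ in atTop, Va ρ β h n ≤ (n : ℝ) ^ (2 * x)) :
    ∀ x' : ℝ, x < x' → ∀ᶠ n : ℕ in atTop, En ρ β h n ≤ (n : ℝ) ^ x' := by
  intro x' hx'
  have h1 := nrX86 hd hρ hnc hβ h (x := 2 * x) (ε := 2 * (x' - x)) (by linarith) (by linarith) hV
  filter_upwards [h1] with n hn
  have hn0 : (0 : ℝ) ≤ n := Nat.cast_nonneg n
  have h2 : En ρ β h n ^ 2 ≤ ((n : ℝ) ^ x') ^ 2 := by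
    have h3 : 0 ≤ Va ρ β h n := Va_nonneg11 h n
    have h4 : ((n : ℝ) ^ x') ^ 2 = (n : ℝ) ^ (2 * x + 2 * (x' - x)) := by
      rw [← Real.rpow_natCast, ← Real.rpow_mul hn0]
      congr 1
      push_cast
      ring
    rw [h4]
    linarith
  exact le_of_sq_le_sq h2 (Real.rpow_nonneg hn0 _)

/-- The first moment against the variance. -/
lemma fnV42 (hd : 0 < d) (hρ : EM ρ) (h : Vec d) {x : ℝ}
    (hV : ∀ᶠ n : ℕ in atTop, Va ρ β h n ≤ (n : ℝ) ^ (2 * x)) :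
    ∀ᶠ k : ℕ in atTop, Fn ρ β h k ≤ (k : ℝ) ^ x := by
  filter_upwards [hV] with k hk
  have hk0 : (0 : ℝ) ≤ k := Nat.cast_nonneg k
  have h1 : Fn ρ β h k ^ 2 ≤ ((k : ℝ) ^ x) ^ 2 := by
    refine (fn_sq19 hd hρ h k).trans (hk.trans_eq ?_)
    rw [← Real.rpow_natCast ((k : ℝ) ^ x) 2, ← Real.rpow_mul hk0]
    congr 1
    push_cast
    ring
  exact le_of_sq_le_sq h1 (Real.rpow_nonneg hk0 x)

open F25 in
/-- FIN, with the bound of the nonrandom fluctuation at the tilt as a hypothesis (text of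
helper25). -/
theorem finE42 (hd : 0 < d) (hT : TubK d ρ β) (hP : ParK d ρ β) :
    ∀ᵐ h : Vec d, ∃ v : Vec d, (∀ k : Vec d, lam ρ β h + inner ℝ v k ≤ lam ρ β (h + k)) ∧
      ∀ x δ : ℝ, 0 < x → x < 1 → (∀ᶠ k : ℕ in atTop, Fn ρ β h k ≤ (k : ℝ) ^ x) →
        (∀ x' : ℝ, x < x' → ∀ᶠ k : ℕ in atTop, En ρ β h k ≤ (k : ℝ) ^ x') → x / 2 < δ →
          HalfD ρ β h v δ := by
  unfold ParK at hP
  filter_upwards [hP] with h hh
  obtain ⟨v, M, δ₀, hM, hδ₀, hsub, hpar, hnb⟩ := hh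
  refine ⟨v, hsub, fun x δ hx hx1 hF hE hxδ => ?_⟩
  -- a smaller exponent
  obtain ⟨e, he⟩ : ∃ e, e = min δ (x / 4 + 1 / 4) := ⟨_, rfl⟩
  have he1 : e ≤ δ := by
    rw [he]
    exact min_le_left _ _
  have he2 : e < 1 / 2 := by
    have := min_le_right δ (x / 4 + 1 / 4)
    rw [he]
    linarith
  have he3 : x / 2 < e := by
    rw [he]
    exact lt_min hxδ (by linarith)
  obtain ⟨x', hx'⟩ : ∃ x', x' = (x + 2 * e) / 2 := ⟨_, rfl⟩
  have hxx' : x < x' := by linarith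
  have hx'0 : 0 < x' := by linarith
  obtain ⟨η, hη⟩ : ∃ η, η = (2 * e - x') / 2 := ⟨_, rfl⟩
  have hη0 : 0 < η := by linarith
  have hgap : 0 < 2 * e - η - x' := by linarith
  have hd0 : (0 : ℝ) < d := by exact_mod_cast hd
  have hsd : 0 < Real.sqrt d := Real.sqrt_pos.2 hd0
  intro ε hε
  obtain ⟨C, hC, hT'⟩ := hT ε η M hε hη0 hM
  obtain ⟨N, δ', hδ', hN⟩ := hnb x hx hF x' hxx' (1 / (4 * Real.sqrt d)) (by positivity)
  obtain ⟨C₁, hC₁, hF1⟩ := bd25 (f := fun k => Fn ρ β h k) hx.le hF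
  obtain ⟨C₂, hC₂, hE1⟩ := bd25 (f := fun k => En ρ β h k) hx'0.le (hE x' hxx')
  beta_reduce at hF1 hE1
  obtain ⟨C', hC'⟩ : ∃ C', C' = C₁ + C₂ + |N| := ⟨_, rfl⟩
  have hN0 : 0 ≤ |N| := abs_nonneg N
  have hC'1 : 1 ≤ C' := by linarith
  -- the limits
  have l1 : Tendsto (fun n : ℕ => (n : ℝ) ^ (e - 1 / 2)) atTop (𝓝 0) := by
    have h1 := (tendsto_rpow_neg_atTop (show 0 < 1 / 2 - e by linarith)).comp
      tendsto_natCast_atTop_atTop
    refine h1.congr fun n => ?_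
    simp only [Function.comp_apply]
    congr 1
    ring
  have l2 : Tendsto (fun n : ℕ => (n : ℝ) ^ (2 * e - η - x')) atTop atTop :=
    (tendsto_rpow_atTop hgap).comp tendsto_natCast_atTop_atTop
  have hmin : 0 < 16 * M * Real.sqrt d * min δ' (δ₀ / 2) := by
    have : 0 < min δ' (δ₀ / 2) := lt_min hδ' (by linarith)
    positivity
  filter_upwards [l1.eventually (gt_mem_nhds hmin), l2.eventually_gt_atTop (C * C'),
    eventually_ge_atTop 1] with n hn1 hn2 hn3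
  refine (Tb_anti25 β h v n (R := (n : ℝ) ^ e) (Real.rpow_le_rpow_of_exponent_le
    (by exact_mod_cast hn3) he1)).trans ?_
  by_contra hcon
  rw [not_le] at hcon
  have hnR : (1 : ℝ) ≤ n := by exact_mod_cast hn3
  have hn0 : (0 : ℝ) < n := by linarith
  obtain ⟨R, hR⟩ : ∃ R, R = (n : ℝ) ^ e * Real.sqrt n := ⟨_, rfl⟩
  have hsn : 0 < Real.sqrt n := Real.sqrt_pos.2 hn0
  have hR0 : 0 < R := by
    rw [hR]
    positivity
  have hR2 : R ^ 2 = (n : ℝ) ^ (1 + 2 * e) := by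
    rw [hR, mul_pow, Real.sq_sqrt hn0.le, ← Real.rpow_natCast, ← Real.rpow_mul hn0.le,
      Real.rpow_add hn0, Real.rpow_one, mul_comm]
    congr 2
    push_cast
    ring
  obtain ⟨r, hr⟩ : ∃ r, r = R / (16 * M * Real.sqrt d * n) := ⟨_, rfl⟩
  have hr0 : 0 < r := by
    rw [hr]
    positivity
  have hrR : 16 * M * Real.sqrt d * n * r = R := by
    rw [hr]
    field_simp
  have hr1 : r < min δ' (δ₀ / 2) := by
    have h1 : r = (n : ℝ) ^ (e - 1 / 2) / (16 * M * Real.sqrt d) := by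
      rw [hr, hR, Real.rpow_sub hn0, ← Real.sqrt_eq_rpow]
      have h2 : Real.sqrt n * Real.sqrt n = n := Real.mul_self_sqrt hn0.le
      rw [div_div, div_eq_div_iff (by positivity) (by positivity)]
      calc (n : ℝ) ^ e * Real.sqrt n * (Real.sqrt n * (16 * M * Real.sqrt d)) =
            (n : ℝ) ^ e * (16 * M * Real.sqrt d) * (Real.sqrt n * Real.sqrt n) := by ring
        _ = (n : ℝ) ^ e * (16 * M * Real.sqrt d * n) := by
            rw [h2]
            ring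
    rw [h1, div_lt_iff₀ (by positivity)]
    linarith
  have hrδ' : r ≤ δ' := (hr1.trans_le (min_le_left _ _)).le
  have hrδ₀ : 2 * r ≤ δ₀ := by
    have := hr1.trans_le (min_le_right δ' (δ₀ / 2))
    linarith
  obtain ⟨P, hPdef⟩ : ∃ P, P = C' * (n : ℝ) ^ x' := ⟨_, rfl⟩
  have hnx : 1 ≤ (n : ℝ) ^ x' := Real.one_le_rpow hnR hx'0.le
  have hP1 : 1 ≤ P := by
    rw [hPdef]
    exact one_le_mul_of_one_le_of_one_le hC'1 hnx
  have hnxx : (n : ℝ) ^ x ≤ (n : ℝ) ^ x' := Real.rpow_le_rpow_of_exponent_le hnR hxx'.le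
  have hDk : Dk ρ β h v n M P r := by
    refine ⟨fun k hk => ⟨?_, ?_⟩, fun j s hs => ?_⟩
    · rw [hPdef]
      refine (hF1 n k hn3 hk).trans ?_
      exact mul_le_mul (by linarith) hnxx (by positivity) (by linarith)
    · rw [hPdef]
      refine (hE1 n k hn3 hk).trans ?_
      exact mul_le_mul_of_nonneg_right (by linarith) (by positivity)
    · obtain ⟨g, hg1, hg2⟩ := hN r hr0 hrδ' j s hs
      have h1 : 1 / (4 * Real.sqrt d) * r = r / (4 * Real.sqrt d) := by ring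
      refine ⟨g, by rw [← h1]; exact hg1, fun k hk => ?_, ?_⟩
      · refine (hg2 k).trans ?_
        rw [hPdef]
        have h2 : (k : ℝ) ^ x' ≤ (n : ℝ) ^ x' :=
          Real.rpow_le_rpow (Nat.cast_nonneg k) (by exact_mod_cast hk) hx'0.le
        calc N * (k : ℝ) ^ x' ≤ |N| * (n : ℝ) ^ x' :=
              mul_le_mul (le_abs_self N) h2 (by positivity) hN0
          _ ≤ C' * (n : ℝ) ^ x' := mul_le_mul_of_nonneg_right (by linarith) (by positivity)
      · have h2 := hpar (g - h) ?_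
        · rwa [add_sub_cancel] at h2
        · have hs1 : |s| = 1 := by
            rcases hs with h3 | h3 <;> rw [h3] <;> norm_num
          have h3 : ‖(s * r) • (uv j : Vec d)‖ = r := by
            rw [norm_smul, norm_uv25, mul_one, Real.norm_eq_abs, abs_mul, hs1, one_mul,
              abs_of_pos hr0]
          have h4 : 1 / (4 * Real.sqrt d) * r ≤ r := by
            have h5 : 1 / (4 * Real.sqrt d) ≤ 1 := by
              rw [div_le_one (by positivity)]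
              have h6 : 1 ≤ Real.sqrt d := by
                rw [Real.one_le_sqrt]
                exact_mod_cast hd
              linarith
            calc 1 / (4 * Real.sqrt d) * r ≤ 1 * r := mul_le_mul_of_nonneg_right h5 hr0.le
              _ = r := one_mul r
          have h5 : g - h = (g - h - (s * r) • uv j) + (s * r) • uv j := by abel
          rw [h5]
          refine (norm_add_le _ _).trans ?_
          rw [h3]
          linarith
  have hfin := hT' h v n P R r hn3 hP1 hR0 hrR hDk (by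
    unfold Tb at hcon
    rwa [← hR] at hcon)
  rw [hR2, hPdef] at hfin
  have h1 : (n : ℝ) ^ (1 + 2 * e) = (n : ℝ) ^ (1 + η) * (n : ℝ) ^ x' *
      (n : ℝ) ^ (2 * e - η - x') := by
    rw [← Real.rpow_add hn0, ← Real.rpow_add hn0]
    congr 1
    ring
  have h2 : C * (n : ℝ) ^ (1 + η) * (C' * (n : ℝ) ^ x') =
      (n : ℝ) ^ (1 + η) * (n : ℝ) ^ x' * (C * C') := by ring
  rw [h1, h2] at hfin
  have h3 : 0 < (n : ℝ) ^ (1 + η) * (n : ℝ) ^ x' := by positivity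
  exact absurd (le_of_mul_le_mul_left hfin h3) (not_le.2 hn2)



/-- FIN through the variance: at almost every tilt the tube of radius `n ^ ((1 + x) / 2 + ε)` is
typical, if the variance is at most `n ^ (2 x)`. -/
def MainHV (d : ℕ) (ρ : Measure ℝ) (β : ℝ) : Prop := ∀ᵐ h : Vec d, ∃ v : Vec d,
  (∀ k : Vec d, lam ρ β h + inner ℝ v k ≤ lam ρ β (h + k)) ∧
  ∀ x δ : ℝ, 0 < x → x < 1 → (∀ᶠ k : ℕ in atTop, Va ρ β h k ≤ (k : ℝ) ^ (2 * x)) → x / 2 < δ →
    HalfD ρ β h v δ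

/-- `MainHV` from `TubK` and `ParK`, every law. -/
theorem finVof42 (hd : 0 < d) (hρ : EM ρ) (hnc : ∀ c : ℝ, ρ {c} ≠ 1) (hβ : 0 < β)
    (hT : TubK d ρ β) (hP : ParK d ρ β) : MainHV d ρ β := by
  unfold MainHV
  filter_upwards [finE42 hd hT hP] with h hh
  obtain ⟨v, hv, H⟩ := hh
  exact ⟨v, hv, fun x δ hx hx1 hV hδ => H x δ hx hx1 (fnV42 hd hρ h hV)
    (efV42 hd hρ hnc hβ h hx.le hV) hδ⟩

/-- **`MainHV` for every law of the problem**, every dimension. -/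
theorem finV42 (hd : 0 < d) (hρ : EM ρ) (hnc : ∀ c : ℝ, ρ {c} ≠ 1) (hβ : 0 < β) :
    MainHV d ρ β :=
  finVof42 hd hρ hnc hβ (tubU68 hd hρ hnc hβ (sinK95 hd hρ)) (parK16 hd hρ β)

section Letters

variable {Ω : Type*} [MeasurableSpace Ω] {μ : Measure Ω} [IsProbabilityMeasure μ]
  {ω : ℕ × Site d → Ω → ℝ}

/-- **Leaf REL, lower half, every law** (text of helper19): at almost every tilt `h`, for every
slope `v`, `2 nuP - 1 ≤ chiV`. -/
theorem relVof42 (hd : 0 < d) (hω : IID μ ρ ω) (hρ : EM ρ) (hM : MainHV d ρ β) :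
    ∀ᵐ h : Vec d, ∀ v : Vec d, (∀ k : Vec d, lam ρ β h + inner ℝ v k ≤ lam ρ β (h + k)) →
      2 * nuP μ β ω h v - 1 ≤ chiV μ β ω h := by
  have hM' : ∀ᵐ h : Vec d, ∃ v : Vec d,
      (∀ k : Vec d, lam ρ β h + inner ℝ v k ≤ lam ρ β (h + k)) ∧
      ∀ x δ : ℝ, 0 < x → x < 1 → (∀ᶠ k : ℕ in atTop, Va ρ β h k ≤ (k : ℝ) ^ (2 * x)) →
        x / 2 < δ → HalfD ρ β h v δ := hM
  have hL : ConvexOn ℝ Set.univ (lam (d := d) ρ β) := lam_convex hd hρ β
  filter_upwards [hM', ae_upG hL] with h hv hU v hs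
  obtain ⟨v₀, hv₀, hH⟩ := hv
  obtain ⟨v₁, hU⟩ := hU
  have e1 : v₀ = v := (sub_eq19 hU hv₀).trans (sub_eq19 hU hs).symm
  rw [e1] at hH
  have hc := chiV_le_half19 (μ := μ) (β := β) hd hω hρ h
  have hc0 : 0 ≤ chiV μ β ω h := Real.sInf_nonneg fun b hb => hb.1.le
  refine le_of_forall_gt_imp_ge_of_dense fun x hx => ?_
  obtain ⟨y, hy1, hy2⟩ := exists_between
    (lt_min hx (show chiV μ β ω h < 1 by linarith))
  have hyx : y < x := hy2.trans_le (min_le_left _ _)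
  have hy3 : y < 1 := hy2.trans_le (min_le_right _ _)
  have hy0 : 0 < y := lt_of_le_of_lt hc0 hy1
  have hne : {x : ℝ | 0 < x ∧ ∀ᶠ n : ℕ in atTop,
      Var[fun y => Real.log (Zn β h (fun p => ω p y) n); μ] ≤ (n : ℝ) ^ (2 * x)}.Nonempty :=
    ⟨1, one_pos, var_half19 hd hω hρ h (by norm_num)⟩
  obtain ⟨b, hb, hby⟩ := exists_lt_of_csInf_lt hne hy1
  have hV : ∀ᶠ k : ℕ in atTop, Va ρ β h k ≤ (k : ℝ) ^ (2 * y) := by
    filter_upwards [hb.2, eventually_ge_atTop 1] with k hk hk1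
    rw [varV19 hd hω hρ] at hk
    have hk1' : (1 : ℝ) ≤ k := by exact_mod_cast hk1
    exact hk.trans (Real.rpow_le_rpow_of_exponent_le hk1' (by linarith))
  have h2 : nuP μ β ω h v ≤ 1 / 2 + x / 2 :=
    nuP_le19 hω (by linarith) (hH y (x / 2) hy0 hy3 hV (by linarith))
  linarith

/-- **REL, lower half**, every law of the problem, no hypothesis. -/
theorem relV42 (hd : 0 < d) (hω : IID μ ρ ω) (hρ : EM ρ) (hnc : ∀ c : ℝ, ρ {c} ≠ 1)
    (hβ : 0 < β) :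
    ∀ᵐ h : Vec d, ∀ v : Vec d, (∀ k : Vec d, lam ρ β h + inner ℝ v k ≤ lam ρ β (h + k)) →
      2 * nuP μ β ω h v - 1 ≤ chiV μ β ω h :=
  relVof42 hd hω hρ (finV42 hd hρ hnc hβ)

end Letters

end Pool.Agent.W_7d29a1_KP
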