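import Pool.Agent.W_7d29a1_KP.AmpE30
import Pool.Agent.W_7d29a1_NR.HalvA45

/-!
KPZV, HAL: the halving lemma for the free energies of finitely many sets of walks, with the first
step (a large probability instead of one half) inside.
-/

set_option autoImplicit false

namespace Pool.Agent.W_7d29a1_KP

open MeasureTheory ProbabilityTheory Filter Topology Set Pool.Agent.W_MP_7d29a1_pr
  Pool.Agent.W_7d29a1_h46 Pool.Agent.W_7d29a1_h46u Pool.Agent.W_7d29a1_SP
  Pool.Agent.W_7d29a1_SP.A84 Pool.Agent.W_7d29a1_NR.L84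

/-- **The halving lemma for sets of walks.** The sets may overlap. -/
def HalE (d : ℕ) (ρ : Measure ℝ) (β : ℝ) : Prop := ∀ c ε : ℝ, 0 < c → c ≤ 1 → 0 < ε →
  ε ≤ 1 / 2 → ∃ κ b : ℝ, 0 < κ ∧ 0 ≤ b ∧ ∀ (h : Vec d) (n : ℕ) (ι : Type) (Y : Finset ι)
    (E : ι → Set (Fin n → Step d)) (J : ℕ) (a T u₀ : ℝ), Y.Nonempty →
      (∀ y ∈ Y, (E y).Nonempty) → Y.card ≤ 2 ^ J → 0 ≤ a →
        (∀ y ∈ Y, ∀ u : ℝ, u₀ < u →
          (law d ρ).real {η | u ≤ Real.log (ZT β h η (E y))} < 1 / 2) →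
        ε ≤ (law d ρ).real {η | T ≤ Real.log (∑ y ∈ Y, ZT β h η (E y))} →
        (law d ρ).real {η | T + a < Real.log (∑ y ∈ Y, ZT β h η (E y))} < κ →
        T ≤ u₀ + (a + b) * (3 / c) * (1 + c) ^ J

section

variable {d : ℕ}

lemma ztPos30 {n : ℕ} (β : ℝ) (h : Vec d) (η : Env d) {E : Set (Fin n → Step d)}
    (hE : E.Nonempty) : 0 < ZT β h η E := by
  classical
  obtain ⟨s, hs⟩ := hE
  unfold ZT
  refine Finset.sum_pos' (fun w _ => ?_) ⟨s, Finset.mem_univ _, ?_⟩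
  · split_ifs
    · exact (Real.exp_pos _).le
    · exact le_rfl
  · rw [if_pos hs]
    exact Real.exp_pos _

/-- The index type of a family of sets of walks. -/
abbrev SE30 {n : ℕ} {ι : Type} (D : Finset ι) (E : ι → Set (Fin n → Step d)) : Type :=
  {z : {y // y ∈ D} × (Fin n → Step d) // z.2 ∈ E z.1.1}

/-- The free energy of a family of sets of walks is of the form `LS`. -/
lemma lsE30 {n : ℕ} {ι : Type} (β : ℝ) (h : Vec d) (D : Finset ι)
    (E : ι → Set (Fin n → Step d)) [Fintype (SE30 D E)] (η : Env d) :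
    Real.log (∑ y ∈ D, ZT β h η (E y)) =
      LS β (fun z : SE30 D E => inner ℝ h (emb (pos z.1.2 n)))
        (fun z (i : Fin n) => ((i : ℕ) + 1, pos z.1.2 ((i : ℕ) + 1))) η := by
  classical
  unfold LS
  congr 1
  rw [← Finset.sum_coe_sort D]
  have h1 : ∑ z : SE30 D E, Real.exp (inner ℝ h (emb (pos z.1.2 n)) +
      β * ∑ i : Fin n, η ((i : ℕ) + 1, pos z.1.2 ((i : ℕ) + 1))) =
      ∑ z ∈ (Finset.univ : Finset ({y // y ∈ D} × (Fin n → Step d))).filter
        (fun z => z.2 ∈ E z.1.1), Real.exp (inner ℝ h (emb (pos z.2 n)) +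
      β * ∑ i : Fin n, η ((i : ℕ) + 1, pos z.2 ((i : ℕ) + 1))) := by
    symm
    exact Finset.sum_subtype _ (fun z => by simp) _
  rw [h1, Finset.sum_filter, Fintype.sum_prod_type]
  refine Finset.sum_congr rfl fun y _ => ?_
  unfold ZT wgt energy
  refine Finset.sum_congr rfl fun w _ => ?_
  rfl

lemma injE30 {n : ℕ} (w : Fin n → Step d) :
    Function.Injective fun i : Fin n => ((i : ℕ) + 1, pos w ((i : ℕ) + 1)) := by
  intro i j hij
  have h1 := congrArg Prod.fst hij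
  have h2 : (i : ℕ) + 1 = (j : ℕ) + 1 := h1
  exact Fin.ext (by omega)

end

/-- **The halving lemma for sets of walks**, from the amplification. -/
theorem halE30 {d : ℕ} {ρ : Measure ℝ} [IsProbabilityMeasure ρ] {β : ℝ} (hA : AmpE d ρ β) :
    HalE d ρ β := by
  classical
  intro c ε hc hc1 hε hε2
  obtain ⟨κ, b₀, hκ, hb₀, hA⟩ := hA c (min ε (1 / 4)) hc hc1 (lt_min hε (by norm_num))
    ((min_le_left _ _).trans hε2)
  refine ⟨κ, b₀ + 2, hκ, by linarith, ?_⟩
  intro h n ι Y E J a T u₀ hY hE hJ ha hu hT1 hT2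
  obtain ⟨V, hV⟩ : ∃ V : ι → Env d → ℝ, V = fun y η => Real.log (ZT β h η (E y)) := ⟨_, rfl⟩
  have hW : ∀ D ⊆ Y, ∀ η, W_7d29a1_NR.WD45 (fun _ => 1) V D η =
      Real.log (∑ y ∈ D, ZT β h η (E y)) := by
    intro D hD η
    unfold W_7d29a1_NR.WD45
    congr 1
    refine Finset.sum_congr rfl fun y hy => ?_
    rw [one_mul, hV]
    exact Real.exp_log (ztPos30 β h η (hE y (hD hy)))
  have mLS : ∀ D : Finset ι, Measurable fun η : Env d => Real.log (∑ y ∈ D, ZT β h η (E y)) := by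
    intro D
    have h1 : (fun η : Env d => Real.log (∑ y ∈ D, ZT β h η (E y))) =
        LS β (fun z : SE30 D E => inner ℝ h (emb (pos z.1.2 n)))
          (fun z (i : Fin n) => ((i : ℕ) + 1, pos z.1.2 ((i : ℕ) + 1))) :=
      funext fun η => lsE30 β h D E η
    rw [h1]
    exact measurable_LS _ _ _
  have mV : ∀ y ∈ Y, Measurable (V y) := by
    intro y _
    have h1 := mLS {y}
    simp only [Finset.sum_singleton] at h1
    rw [hV]
    exact h1
  -- the amplification for the partial sums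
  have hamp : ∀ D ⊆ Y, D.Nonempty → ∀ M b L : ℝ, b₀ ≤ b → 0 < b → c * (L - (M + b)) ≤ b →
      min ε (1 / 4) ≤ (law d ρ).real {η | W_7d29a1_NR.WD45 (fun _ => 1) V D η ≤ M} →
        min ε (1 / 4) ≤ (law d ρ).real {η | M + b ≤ W_7d29a1_NR.WD45 (fun _ => 1) V D η} →
          κ ≤ (law d ρ).real {η | L ≤ W_7d29a1_NR.WD45 (fun _ => 1) V D η} := by
    intro D hD hne M b L hb1 hb2 hL h0 h1
    obtain ⟨y, hy⟩ := hne
    obtain ⟨w, hw⟩ := hE y (hD hy)
    have : Nonempty (SE30 D E) := ⟨⟨(⟨y, hy⟩, w), hw⟩⟩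
    have e1 : ∀ η, W_7d29a1_NR.WD45 (fun _ => 1) V D η =
        LS β (fun z : SE30 D E => inner ℝ h (emb (pos z.1.2 n)))
          (fun z (i : Fin n) => ((i : ℕ) + 1, pos z.1.2 ((i : ℕ) + 1))) η := fun η => by
      rw [hW D hD]
      exact lsE30 β h D E η
    simp only [e1] at h0 h1 ⊢
    exact hA n (SE30 D E) _ _ (fun z => injE30 z.1.2) M b L hb1 hb2 hL h0 h1
  have hT1' : ε ≤ (law d ρ).real {η | T ≤ W_7d29a1_NR.WD45 (fun _ => 1) V Y η} := by
    simp only [hW Y (Finset.Subset.refl Y)]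
    exact hT1
  have hT2' : (law d ρ).real {η | T + (a + 1) ≤ W_7d29a1_NR.WD45 (fun _ => 1) V Y η} < κ := by
    refine lt_of_le_of_lt (measureReal_mono fun η hη => ?_) hT2
    have hη' : T + (a + 1) ≤ W_7d29a1_NR.WD45 (fun _ => 1) V Y η := hη
    rw [hW Y (Finset.Subset.refl Y)] at hη'
    show T + a < _
    linarith
  -- the first step
  obtain ⟨M, hM1, hM2⟩ := W_7d29a1_NR.median45 (law d ρ)
    (W_7d29a1_NR.wd_meas45 (μ := fun _ => 1) (V := V) (D := Y) mV)
  have hMT : T - (a + 1 + b₀) ≤ M := by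
    by_contra hcon
    push Not at hcon
    have h1 := hamp Y (Finset.Subset.refl Y) hY M (T - M) (T + (a + 1)) (by linarith)
      (by linarith) ?_ ?_ ?_
    · linarith
    · have h2 : c * (a + 1) ≤ 1 * (a + 1) := mul_le_mul_of_nonneg_right hc1 (by linarith)
      have h3 : T + (a + 1) - (M + (T - M)) = a + 1 := by ring
      rw [h3]
      linarith
    · exact ((min_le_right _ _).trans (by norm_num)).trans hM1
    · have h3 : M + (T - M) = T := by ring
      rw [h3]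
      exact (min_le_left _ _).trans hT1'
  have hT3 : 1 / 2 ≤ (law d ρ).real {η | T - (a + 1 + b₀) ≤
      W_7d29a1_NR.WD45 (fun _ => 1) V Y η} :=
    hM2.trans (measureReal_mono fun η hη => hMT.trans hη)
  have hT4 : (law d ρ).real {η | T - (a + 1 + b₀) + (2 * (a + 1) + b₀) ≤
      W_7d29a1_NR.WD45 (fun _ => 1) V Y η} < κ := by
    have h3 : T - (a + 1 + b₀) + (2 * (a + 1) + b₀) = T + (a + 1) := by ring
    rw [h3]
    exact hT2'
  have key := W_7d29a1_NR.halvB45 (law d ρ) (μ := fun _ : ι => (1 : ℝ)) (V := V) (S := Y) hY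
    (fun _ _ => one_pos) (fun _ _ => le_rfl) mV (T := T - (a + 1 + b₀))
    (a := 2 * (a + 1) + b₀) (c := c) (κ := κ) (b₀ := b₀) (u₀ := u₀) hc hc1 (by linarith) hb₀
    ?_ ?_ hT4 hT3 hJ
  · have hp : (1 : ℝ) ≤ (1 + c) ^ J := one_le_pow₀ (by linarith)
    have h1c : (1 : ℝ) ≤ 1 / c := by rw [le_div_iff₀ hc]; linarith
    have h2 : (1 : ℝ) ≤ 1 / c * (1 + c) ^ J := one_le_mul_of_one_le_of_one_le h1c hp
    have h3 : (a + b₀ + 2) * 1 ≤ (a + b₀ + 2) * (1 / c * (1 + c) ^ J) :=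
      mul_le_mul_of_nonneg_left h2 (by linarith)
    have h4 : (2 * (a + 1) + b₀ + b₀ + 2) / c * (1 + c) ^ J =
        2 * ((a + b₀ + 2) * (1 / c * (1 + c) ^ J)) := by ring
    have h5 : (a + (b₀ + 2)) * (3 / c) * (1 + c) ^ J =
        3 * ((a + b₀ + 2) * (1 / c * (1 + c) ^ J)) := by ring
    rw [h4] at key
    rw [h5]
    linarith
  · intro y hy u hu0
    have h1 := hu y hy u hu0
    rw [hV]
    exact h1
  · intro D hD hne M b hb1 hb2 hL _ h0 _ h1
    exact hamp D hD hne M b _ hb2 hb1 hL ((min_le_right _ _).trans (le_trans (by norm_num) h0))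
      ((min_le_right _ _).trans h1)

/-- The halving lemma for sets of walks, for the laws of convex functions of a Gaussian variable. -/
theorem halEG30 {d : ℕ} {ρ : Measure ℝ} [IsProbabilityMeasure ρ] (hG : GC ρ) {β : ℝ}
    (hβ : 0 ≤ β) : HalE d ρ β :=
  halE30 (ampEG30 hG hβ)

end Pool.Agent.W_7d29a1_KP
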