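import Pool.Agent.W_7d29a1_KP.DefsKP89
import Pool.Agent.W_7d29a1_KZ.Gap42

/-!
Theorem KPZV: labels of the walks outside a tube, Markov, medians (helper89).
-/

namespace Pool.Agent.W_7d29a1_KP

open MeasureTheory ProbabilityTheory Filter Topology Pool.Agent.W_MP_7d29a1_pr
  Pool.Agent.W_7d29a1_h46 Pool.Agent.W_7d29a1_h46u Pool.Agent.W_7d29a1_D2.B35
  Pool.Agent.W_7d29a1_Q29 Pool.Agent.W_7d29a1_R34 Pool.Agent.W_7d29a1_SP Pool.Agent.W_7d29a1_SD
  Pool.Agent.W_7d29a1_SQ Pool.Agent.W_7d29a1_KZ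

section Lab

variable {d n : ℕ}

open Classical in
/-- A time and a site at which the walk is outside the tube. -/
noncomputable def lb89 (v : Vec d) (R : ℝ) (s : Fin n → Step d) : ℕ × Site d :=
  if hs : ∃ i : ℕ, i ≤ n ∧ R < ‖emb (pos s i) - (i : ℝ) • v‖ then (hs.choose, pos s hs.choose)
  else (0, 0)

lemma lb_spec89 {v : Vec d} {R : ℝ} {s : Fin n → Step d} (hs : s ∉ tube d n v R) :
    (lb89 v R s).1 ≤ n ∧ pos s (lb89 v R s).1 = (lb89 v R s).2 ∧
      R < ‖emb (lb89 v R s).2 - ((lb89 v R s).1 : ℝ) • v‖ := by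
  have h1 : ∃ i : ℕ, i ≤ n ∧ R < ‖emb (pos s i) - (i : ℝ) • v‖ := by
    by_contra hcon
    push Not at hcon
    exact hs fun i hi => hcon i hi
  have h2 : lb89 v R s = (h1.choose, pos s h1.choose) := by
    unfold lb89
    rw [dif_pos h1]
  rw [h2]
  exact ⟨h1.choose_spec.1, rfl, h1.choose_spec.2⟩

/-- The walks outside the tube with a label in `D`. -/
def Ex89 (n : ℕ) (v : Vec d) (R : ℝ) (D : Finset (ℕ × Site d)) : Set (Fin n → Step d) :=
  {s | s ∉ tube d n v R ∧ lb89 v R s ∈ D}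

open Classical in
/-- The labels. -/
noncomputable def La89 (n : ℕ) (v : Vec d) (R : ℝ) : Finset (ℕ × Site d) :=
  (Finset.univ.filter fun s : Fin n → Step d => s ∉ tube d n v R).image (lb89 v R)

lemma mem_La89 {v : Vec d} {R : ℝ} {y : ℕ × Site d} (hy : y ∈ La89 n v R) :
    ∃ s : Fin n → Step d, s ∉ tube d n v R ∧ lb89 v R s = y := by
  classical
  unfold La89 at hy
  obtain ⟨s, hs, hsy⟩ := Finset.mem_image.1 hy
  exact ⟨s, (Finset.mem_filter.1 hs).2, hsy⟩

lemma La_mem89 {v : Vec d} {R : ℝ} {s : Fin n → Step d} (hs : s ∉ tube d n v R) :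
    lb89 v R s ∈ La89 n v R := by
  classical
  unfold La89
  exact Finset.mem_image.2 ⟨s, Finset.mem_filter.2 ⟨Finset.mem_univ _, hs⟩, rfl⟩

lemma Ex_all89 (v : Vec d) (R : ℝ) : Ex89 n v R (La89 n v R) = (tube d n v R)ᶜ := by
  ext s
  exact ⟨fun hs => hs.1, fun hs => ⟨hs, La_mem89 hs⟩⟩

lemma Ex_ne89 {v : Vec d} {R : ℝ} {D : Finset (ℕ × Site d)} (hD : D ⊆ La89 n v R)
    (hn : D.Nonempty) : (Ex89 n v R D).Nonempty := by
  obtain ⟨y, hy⟩ := hn
  obtain ⟨s, hs, hsy⟩ := mem_La89 (hD hy)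
  exact ⟨s, hs, hsy ▸ hy⟩

lemma card_La89 (v : Vec d) (R : ℝ) : (La89 n v R).card ≤ (2 * n + 1) ^ (d + 1) := by
  classical
  have h1 : La89 n v R ⊆ Finset.range (n + 1) ×ˢ boxF d n := by
    intro y hy
    obtain ⟨s, hs, hsy⟩ := mem_La89 hy
    obtain ⟨h2, h3, -⟩ := lb_spec89 hs
    rw [hsy] at h2 h3
    refine Finset.mem_product.2 ⟨Finset.mem_range.2 (by omega), ?_⟩
    rw [← h3]
    exact pos_mem_box s y.1
  refine (Finset.card_le_card h1).trans ?_
  rw [Finset.card_product, Finset.card_range, card_boxF, pow_succ, mul_comm]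
  exact Nat.mul_le_mul_left _ (by omega)

/-- The weight of the union of classes. -/
lemma sum_Ex89 (β : ℝ) (h : Vec d) (η : Env d) (v : Vec d) (R : ℝ) (D : Finset (ℕ × Site d)) :
    ∑ y ∈ D, ZT β h η (Ex89 n v R {y}) = ZT β h η (Ex89 n v R D) := by
  classical
  unfold ZT
  rw [Finset.sum_comm]
  refine Finset.sum_congr rfl fun s _ => ?_
  by_cases hs : s ∈ Ex89 n v R D
  · rw [if_pos hs, Finset.sum_eq_single (lb89 v R s)]
    · rw [if_pos ⟨hs.1, Finset.mem_singleton_self _⟩]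
    · intro y _ hy
      rw [if_neg]
      intro hc
      exact hy (Finset.mem_singleton.1 hc.2).symm
    · intro hc
      exact absurd hs.2 hc
  · rw [if_neg hs]
    refine Finset.sum_eq_zero fun y hy => ?_
    rw [if_neg]
    intro hc
    exact hs ⟨hc.1, (Finset.mem_singleton.1 hc.2) ▸ hy⟩

/-- The logarithm of the weight of a set of walks is a logarithm of a sum of exponentials. -/
lemma log_ZT89 (β : ℝ) (h : Vec d) (E : Set (Fin n → Step d)) [Fintype {s // s ∈ E}] :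
    (fun η : Env d => Real.log (ZT β h η E)) =
      Pool.Agent.W_7d29a1_NR.L84.LS β (fun s : {s // s ∈ E} => inner ℝ h (emb (pos s.1 n)))
        (fun s (i : Fin n) => (((i : ℕ) + 1, pos s.1 ((i : ℕ) + 1)) : ℕ × Site d)) := by
  classical
  funext η
  unfold Pool.Agent.W_7d29a1_NR.L84.LS ZT
  congr 1
  rw [← Finset.sum_filter]
  rw [Finset.sum_subtype (p := fun s => s ∈ E) (Finset.univ.filter fun s => s ∈ E) (by simp)]
  rfl

end Lab

section Tub

variable {d : ℕ} {ρ : Measure ℝ} {β : ℝ}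

/-- Markov. -/
lemma mk89 [IsProbabilityMeasure ρ] (hd : 0 < d) (hρ : EM ρ) (β : ℝ) (h : Vec d) (n : ℕ)
    {P κ : ℝ} (hP : 0 < P) (hκ : 0 < κ) (hF : Fn ρ β h n ≤ P) :
    (law d ρ).real {η | P / κ ≤ |X β h η n - A ρ β h n|} ≤ κ := by
  have hi := (intX15 (ρ := ρ) hd hρ β h n).abs
  have h1 := mul_meas_ge_le_integral_of_nonneg (μ := law d ρ)
    (Eventually.of_forall fun η => abs_nonneg (X β h η n - A ρ β h n)) hi (P / κ)
  have h2 : ∫ η, |X β h η n - A ρ β h n| ∂(law d ρ) = Fn ρ β h n := rfl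
  rw [h2] at h1
  have h3 : P / κ * (law d ρ).real {η | P / κ ≤ |X β h η n - A ρ β h n|} ≤ P := h1.trans hF
  rw [div_mul_eq_mul_div, div_le_iff₀ hκ] at h3
  nlinarith

/-- A level of `Phi` near one. -/
lemma z89 {ε : ℝ} (hε : 0 < ε) : ∃ z : ℝ, 0 ≤ z ∧ 1 - ε / 4 ≤ Ehr.Phi z := by
  obtain ⟨b, hb⟩ : ∃ b : ℝ, b = |Real.log (ε / 4)| := ⟨_, rfl⟩
  have hb0 : 0 ≤ b := by rw [hb]; exact abs_nonneg _
  refine ⟨1 + b, by linarith, ?_⟩
  have h1 := A84.Phi_add (1 + b)
  have h2 := A84.Phi_upper (b := 1 + b) (by linarith)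
  have h3 : Real.exp (-(1 + b) ^ 2 / 2) ≤ ε / 4 := by
    have h4 : -(1 + b) ^ 2 / 2 ≤ Real.log (ε / 4) := by
      have h5 := neg_abs_le (Real.log (ε / 4))
      rw [← hb] at h5
      nlinarith [sq_nonneg b]
    calc Real.exp (-(1 + b) ^ 2 / 2) ≤ Real.exp (Real.log (ε / 4)) := Real.exp_le_exp.2 h4
      _ = ε / 4 := Real.exp_log (by linarith)
  linarith

/-- The median of the logarithm of the weight of the exit. -/
lemma med89 {P : Measure (Env d)} [IsProbabilityMeasure P] {W : Env d → ℝ} (hW : Measurable W)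
    (hL : Lk42 P W) {ε z T top : ℝ} (hzε : 1 - ε / 4 ≤ Ehr.Phi z)
    (h1 : ε / 4 ≤ P.real {x | T ≤ W x}) (h2 : Ehr.Phi (2 * z) < P.real {x | W x ≤ top}) :
    1 / 2 ≤ P.real {x | 2 * T - top - 1 ≤ W x} := by
  by_contra hcon
  push Not at hcon
  have hc : P.real {x | 2 * T - top - 1 ≤ W x} = 1 - P.real {x | W x < 2 * T - top - 1} := by
    rw [← probReal_compl_eq_one_sub (measurableSet_lt hW measurable_const)]
    congr 1
    ext x
    simp
  have hc2 : P.real {x | T ≤ W x} = 1 - P.real {x | W x < T} := by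
    rw [← probReal_compl_eq_one_sub (measurableSet_lt hW measurable_const)]
    congr 1
    ext x
    simp
  have h3 : Ehr.Phi 0 ≤ P.real {x | W x ≤ 2 * T - top - 1} := by
    rw [Pool.Agent.W_7d29a1_NR.Phi_zero44]
    have h4 : P.real {x | W x < 2 * T - top - 1} ≤ P.real {x | W x ≤ 2 * T - top - 1} :=
      measureReal_mono fun x (hx : W x < 2 * T - top - 1) => hx.le
    linarith
  have h5 : P.real {x | W x ≤ T - 1 / 2} ≤ Ehr.Phi z := by
    have h6 : P.real {x | W x ≤ T - 1 / 2} ≤ P.real {x | W x < T} :=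
      measureReal_mono fun x (hx : W x ≤ T - 1 / 2) => by
        show W x < T
        linarith
    linarith
  have h7 := hL 0 z (2 * T - top - 1) (T - 1 / 2) 1 (by norm_num) h3 h5
  have e1 : T - 1 / 2 + 1 * (T - 1 / 2 - (2 * T - top - 1)) = top := by ring
  have e2 : z + 1 * (z - 0) = 2 * z := by ring
  rw [e1, e2] at h7
  linarith

end Tub

end Pool.Agent.W_7d29a1_KP
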