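import Pool.Agent.W_7d29a1_KP.Lab89

/-!
The exit has a large weight with positive probability (helper89).
-/

namespace Pool.Agent.W_7d29a1_KP

open MeasureTheory ProbabilityTheory Filter Topology Pool.Agent.W_MP_7d29a1_pr
  Pool.Agent.W_7d29a1_h46 Pool.Agent.W_7d29a1_h46u Pool.Agent.W_7d29a1_D2.B35
  Pool.Agent.W_7d29a1_Q29 Pool.Agent.W_7d29a1_R34 Pool.Agent.W_7d29a1_SP Pool.Agent.W_7d29a1_SD
  Pool.Agent.W_7d29a1_SQ Pool.Agent.W_7d29a1_KZ

section Tub

variable {d : ℕ} {ρ : Measure ℝ} {β : ℝ}

/-- The exit has a large weight with positive probability. -/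
lemma low89 [IsProbabilityMeasure ρ] (hd : 0 < d) (hρ : EM ρ) {h v : Vec d} {n : ℕ}
    {ε P R : ℝ} (hε : 0 < ε) (hP : 0 < P) (hF : Fn ρ β h n ≤ P) (hE : En ρ β h n ≤ P)
    (hx : ε < ∫ η, (1 - PolT β h η (tube d n v R)) ∂(law d ρ)) :
    ε / 4 ≤ (law d ρ).real {η | n * lam ρ β h - P - 4 * P / ε + Real.log (ε / 2) ≤
      Real.log (ZT β h η (tube d n v R)ᶜ)} := by
  have hm : Measurable fun η : Env d => 1 - PolT β h η (tube d n v R) :=
    (measurable_PolT β h _).const_sub 1
  have h0 : ∀ η : Env d, 0 ≤ 1 - PolT β h η (tube d n v R) := fun η => by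
    have := PolT_le_one β h η (tube d n v R)
    linarith
  have h1 : ∀ η : Env d, 1 - PolT β h η (tube d n v R) ≤ 1 := fun η => by
    have := PolT_nonneg β h η (tube d n v R)
    linarith
  obtain ⟨S, hS⟩ : ∃ S : Set (Env d), S = {η | ε / 2 ≤ 1 - PolT β h η (tube d n v R)} := ⟨_, rfl⟩
  have hSm : MeasurableSet S := by
    rw [hS]
    exact measurableSet_le measurable_const hm
  -- Markov from below
  have h2 : ε / 2 ≤ (law d ρ).real S := by
    have h3 : ∫ η, (1 - PolT β h η (tube d n v R)) ∂(law d ρ) ≤
        ∫ η, (S.indicator (fun _ => (1 : ℝ)) η + ε / 2) ∂(law d ρ) := by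
      refine integral_mono ?_ ?_ fun η => ?_
      · refine Integrable.of_bound (C := 1) hm.aestronglyMeasurable
          (Eventually.of_forall fun η => ?_)
        rw [Real.norm_eq_abs, abs_of_nonneg (h0 η)]
        exact h1 η
      · exact ((integrable_const (1 : ℝ)).indicator hSm).add (integrable_const _)
      · show 1 - PolT β h η (tube d n v R) ≤ S.indicator (fun _ => (1 : ℝ)) η + ε / 2
        by_cases hη : η ∈ S
        · rw [Set.indicator_of_mem hη]
          have := h1 η
          linarith
        · rw [Set.indicator_of_notMem hη]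
          rw [hS] at hη
          have h4 : ¬ ε / 2 ≤ 1 - PolT β h η (tube d n v R) := hη
          push Not at h4
          linarith
    rw [integral_add ((integrable_const (1 : ℝ)).indicator hSm) (integrable_const _),
      integral_indicator_const _ hSm] at h3
    simp only [integral_const, smul_eq_mul, mul_one, probReal_univ, one_mul] at h3
    linarith
  have h5 := mk89 hd hρ β h n (κ := ε / 4) hP (by linarith) hF
  obtain ⟨B, hB⟩ : ∃ B : Set (Env d), B = {η | P / (ε / 4) ≤ |X β h η n - A ρ β h n|} := ⟨_, rfl⟩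
  rw [← hB] at h5
  have h6 : S ⊆ {η | n * lam ρ β h - P - 4 * P / ε + Real.log (ε / 2) ≤
      Real.log (ZT β h η (tube d n v R)ᶜ)} ∪ B := by
    intro η hη
    by_cases hηB : η ∈ B
    · exact Or.inr hηB
    · left
      rw [hB] at hηB
      rw [hS] at hη
      have h7 : ¬ P / (ε / 4) ≤ |X β h η n - A ρ β h n| := hηB
      push Not at h7
      have h8 : ε / 2 ≤ 1 - PolT β h η (tube d n v R) := hη
      have hZ := ZT_univ_pos (n := n) hd β h η
      have h9 : ZT β h η (tube d n v R) + ZT β h η (tube d n v R)ᶜ =
          ZT β h η (Set.univ : Set (Fin n → Step d)) := by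
        classical
        unfold ZT
        rw [← Finset.sum_add_distrib]
        refine Finset.sum_congr rfl fun s _ => ?_
        by_cases hs : s ∈ tube d n v R
        · rw [if_pos hs, if_neg (fun hc => hc hs), if_pos (Set.mem_univ s), add_zero]
        · rw [if_neg hs, if_pos (show s ∈ (tube d n v R)ᶜ from hs), if_pos (Set.mem_univ s), zero_add]
      have h10 : ε / 2 * Z β h η n ≤ ZT β h η (tube d n v R)ᶜ := by
        have h11 : PolT β h η (tube d n v R) * Z β h η n = ZT β h η (tube d n v R) := by
          unfold PolT Z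
          exact div_mul_cancel₀ _ hZ.ne'
        have h12 : Z β h η n = ZT β h η (Set.univ : Set (Fin n → Step d)) := rfl
        rw [← h12] at h9 hZ
        nlinarith
      have hZ' : 0 < Z β h η n := hZ
      have h13 : Real.log (ε / 2) + X β h η n ≤ Real.log (ZT β h η (tube d n v R)ᶜ) := by
        have := Real.log_le_log (by positivity) h10
        rw [Real.log_mul (by positivity) hZ'.ne'] at this
        exact this
      have h14 := neg_abs_le (X β h η n - A ρ β h n)
      have h15 : P / (ε / 4) = 4 * P / ε := by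
        field_simp
      rw [h15] at h7
      unfold En at hE
      show n * lam ρ β h - P - 4 * P / ε + Real.log (ε / 2) ≤ _
      linarith
  have h16 := (measureReal_mono h6 (measure_ne_top _ _)).trans
    (measureReal_union_le (μ := law d ρ) _ _)
  linarith

end Tub

end Pool.Agent.W_7d29a1_KP
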