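import Pool.Agent.W_7d29a1_KP.DefsKO62
import Pool.Agent.W_7d29a1_h46u.ConcV
import Pool.Agent.W_7d29a1_h46u.LamU

/-!
LOWN (helper11): the lower tails of the free energies of all lengths between `N` and `2 N`.
-/

namespace Pool.Agent.W_7d29a1_KP

open MeasureTheory ProbabilityTheory Filter Topology Pool.Agent.W_MP_7d29a1_pr
  Pool.Agent.W_7d29a1_h46 Pool.Agent.W_7d29a1_h46u Pool.Agent.W_7d29a1_D2.B35
  Pool.Agent.W_7d29a1_Q29 Pool.Agent.W_7d29a1_R34 Pool.Agent.W_7d29a1_SP Pool.Agent.W_7d29a1_SD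
  Pool.Agent.W_7d29a1_SQ

/-- The lower tail at one length. -/
lemma lowOne11 {d : ℕ} {ρ : Measure ℝ} [IsProbabilityMeasure ρ] {β : ℝ} (hd : 0 < d) (hρ : EM ρ)
    (hE : EhlP d ρ β) (h : Vec d) (n : ℕ) {P t : ℝ} (hP : 0 < P) (ht : 0 ≤ t)
    (hF : Fn ρ β h n ≤ P) (hEn : En ρ β h n ≤ P) :
    (law d ρ).real {η | X β h η n ≤ n * lam ρ β h - (4 + 8 * t) * P} ≤ Real.exp (-(t ^ 2 / 4)) := by
  have hi : Integrable (fun η => X β h η n - A ρ β h n) (law d ρ) :=
    (concU hd hρ β h n).1.sub (integrable_const _)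
  have mk : ∀ c : ℝ, 0 < c → (law d ρ).real {η | c * P ≤ |X β h η n - A ρ β h n|} ≤ 1 / c := by
    intro c hc
    have h1 := mul_meas_ge_le_integral_of_nonneg (μ := law d ρ)
      (f := fun η => |X β h η n - A ρ β h n|) (Eventually.of_forall fun η => abs_nonneg _)
      hi.abs (c * P)
    have h2 : ∫ η, |X β h η n - A ρ β h n| ∂(law d ρ) ≤ P := hF
    have hcP : 0 < c * P := mul_pos hc hP
    rw [le_div_iff₀ hc]
    have h3 : (c * P) * (law d ρ).real {η | c * P ≤ |X β h η n - A ρ β h n|} ≤ P := h1.trans h2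
    have h4 : P * ((law d ρ).real {η | c * P ≤ |X β h η n - A ρ β h n|} * c) ≤ P * 1 := by
      rw [mul_one]
      calc P * ((law d ρ).real {η | c * P ≤ |X β h η n - A ρ β h n|} * c) =
          (c * P) * (law d ρ).real {η | c * P ≤ |X β h η n - A ρ β h n|} := by ring
        _ ≤ P := h3
    exact le_of_mul_le_mul_left h4 hP
  have h0 : (law d ρ).real {η | X β h η n ≤ A ρ β h n - 3 * P} ≤ 1 / 2 := by
    refine (measureReal_mono fun η hη => ?_).trans ((mk 3 (by norm_num)).trans (by norm_num))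
    have hη' : X β h η n ≤ A ρ β h n - 3 * P := hη
    show 3 * P ≤ |X β h η n - A ρ β h n|
    rw [abs_sub_comm]
    exact le_trans (by linarith) (le_abs_self _)
  have h1 : (law d ρ).real {η | A ρ β h n + 5 * P < X β h η n} ≤ 1 / 5 := by
    refine (measureReal_mono fun η hη => ?_).trans (mk 5 (by norm_num))
    have hη' : A ρ β h n + 5 * P < X β h η n := hη
    show 5 * P ≤ |X β h η n - A ρ β h n|
    exact le_trans (by linarith) (le_abs_self _)
  have h2 := hE h n (A ρ β h n - 3 * P) (A ρ β h n + 5 * P) t ht (by linarith) h0 h1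
  refine (measureReal_mono fun η hη => ?_).trans h2
  have hη' : X β h η n ≤ n * lam ρ β h - (4 + 8 * t) * P := hη
  show X β h η n ≤ A ρ β h n - 3 * P - t * (A ρ β h n + 5 * P - (A ρ β h n - 3 * P))
  have h3 : n * lam ρ β h - A ρ β h n ≤ P := hEn
  linarith

/-- LOWN with a constant. -/
theorem lowNC11 {d : ℕ} {ρ : Measure ℝ} [IsProbabilityMeasure ρ] {β : ℝ} (hd : 0 < d) (hρ : EM ρ)
    (hE : EhlP d ρ β) : ∀ η' p : ℝ, 0 < η' → 0 < p → ∃ C : ℝ, 1 ≤ C ∧
      ∀ (h : Vec d) (N : ℕ) (P : ℝ), 1 ≤ N → 0 < P →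
        (∀ k : ℕ, k ≤ 2 * N → Fn ρ β h k ≤ P ∧ En ρ β h k ≤ P) →
        (law d ρ).real {η | ∃ n : ℕ, N ≤ n ∧ n ≤ 2 * N ∧
          X β h η n ≤ n * lam ρ β h - C * (N : ℝ) ^ η' * P} ≤ (N : ℝ) ^ (-p) / 2 := by
  intro η' p hη hp
  obtain ⟨c, hc⟩ : ∃ c : ℝ, c = 8 + 2 * (p + 1) / η' := ⟨_, rfl⟩
  have hc8 : 8 ≤ c := by
    rw [hc]
    have : 0 ≤ 2 * (p + 1) / η' := by positivity
    linarith
  refine ⟨4 + 8 * c, by linarith, fun h N P hN hP H => ?_⟩
  have hN1 : (1 : ℝ) ≤ N := by exact_mod_cast hN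
  have hN0 : (0 : ℝ) < N := by linarith
  have hx : 1 ≤ (N : ℝ) ^ η' := Real.one_le_rpow hN1 hη.le
  obtain ⟨t, ht⟩ : ∃ t : ℝ, t = c * (N : ℝ) ^ η' := ⟨_, rfl⟩
  have ht0 : 0 ≤ t := by rw [ht]; positivity
  have hlog : 0 ≤ Real.log N := Real.log_nonneg hN1
  have hsub : {η : Env d | ∃ n : ℕ, N ≤ n ∧ n ≤ 2 * N ∧
      X β h η n ≤ n * lam ρ β h - (4 + 8 * c) * (N : ℝ) ^ η' * P} ⊆
      ⋃ n ∈ Finset.Icc N (2 * N), {η : Env d | X β h η n ≤ n * lam ρ β h - (4 + 8 * t) * P} := by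
    rintro η ⟨n, h1, h2, h3⟩
    refine Set.mem_iUnion₂.2 ⟨n, Finset.mem_Icc.2 ⟨h1, h2⟩, ?_⟩
    show X β h η n ≤ n * lam ρ β h - (4 + 8 * t) * P
    have h4 : (4 + 8 * t) * P ≤ (4 + 8 * c) * (N : ℝ) ^ η' * P := by
      refine mul_le_mul_of_nonneg_right ?_ hP.le
      rw [ht]
      nlinarith
    linarith
  have key : 4 * (N : ℝ) * Real.exp (-(t ^ 2 / 4)) ≤ (N : ℝ) ^ (-p) := by
    have h1 : Real.log 4 + (p + 1) * Real.log N ≤ t ^ 2 / 4 := by
      have h2 : 1 + 2 * η' * Real.log N ≤ ((N : ℝ) ^ η') ^ 2 := by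
        have h3 := Real.add_one_le_exp (2 * η' * Real.log N)
        have h4 : ((N : ℝ) ^ η') ^ 2 = Real.exp (2 * η' * Real.log N) := by
          rw [Real.rpow_def_of_pos hN0, ← Real.exp_nat_mul]
          congr 1
          push_cast
          ring
        rw [h4]
        linarith
      have h5 : Real.log 4 ≤ 2 := by
        have h6 : Real.log 4 = 2 * Real.log 2 := by
          rw [show (4 : ℝ) = 2 ^ 2 by norm_num, Real.log_pow]
          norm_num
        have := Real.log_two_lt_d9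
        linarith
      have h7 : 2 * (p + 1) ≤ c * η' := by
        rw [hc, add_mul, div_mul_cancel₀ _ hη.ne']
        nlinarith
      have h8 : t ^ 2 = c * (c * ((N : ℝ) ^ η') ^ 2) := by rw [ht]; ring
      have h9 : c * (1 + 2 * η' * Real.log N) ≤ c * ((N : ℝ) ^ η') ^ 2 :=
        mul_le_mul_of_nonneg_left h2 (by linarith)
      have h10 : c * (1 + 2 * η' * Real.log N) = c + 2 * (c * η') * Real.log N := by ring
      have h11 : 2 * (2 * (p + 1)) * Real.log N ≤ 2 * (c * η') * Real.log N :=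
        mul_le_mul_of_nonneg_right (by linarith) hlog
      have h12 : 8 + 4 * (p + 1) * Real.log N ≤ c * ((N : ℝ) ^ η') ^ 2 := by linarith
      have h13 : 8 * (8 + 4 * (p + 1) * Real.log N) ≤ t ^ 2 := by
        rw [h8]
        have h14 : 0 ≤ 8 + 4 * (p + 1) * Real.log N := by positivity
        nlinarith
      have h15 : 0 ≤ (p + 1) * Real.log N := by positivity
      linarith
    have h2 : 4 * (N : ℝ) = Real.exp (Real.log 4 + Real.log N) := by
      rw [Real.exp_add, Real.exp_log (by norm_num), Real.exp_log hN0]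
    rw [h2, ← Real.exp_add, Real.rpow_def_of_pos hN0]
    refine Real.exp_le_exp.2 ?_
    linarith
  calc (law d ρ).real {η : Env d | ∃ n : ℕ, N ≤ n ∧ n ≤ 2 * N ∧
        X β h η n ≤ n * lam ρ β h - (4 + 8 * c) * (N : ℝ) ^ η' * P}
      ≤ (law d ρ).real (⋃ n ∈ Finset.Icc N (2 * N),
          {η : Env d | X β h η n ≤ n * lam ρ β h - (4 + 8 * t) * P}) :=
        measureReal_mono hsub (measure_ne_top _ _)
    _ ≤ ∑ n ∈ Finset.Icc N (2 * N),
          (law d ρ).real {η : Env d | X β h η n ≤ n * lam ρ β h - (4 + 8 * t) * P} :=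
        measureReal_biUnion_finset_le _ _
    _ ≤ ∑ n ∈ Finset.Icc N (2 * N), Real.exp (-(t ^ 2 / 4)) := by
        refine Finset.sum_le_sum fun n hn => ?_
        have h1 := H n (Finset.mem_Icc.1 hn).2
        exact lowOne11 hd hρ hE h n hP ht0 h1.1 h1.2
    _ ≤ (N : ℝ) ^ (-p) / 2 := by
        rw [Finset.sum_const, Nat.card_Icc, nsmul_eq_mul]
        have h1 : ((2 * N + 1 - N : ℕ) : ℝ) ≤ 2 * N := by
          have : 2 * N + 1 - N ≤ 2 * N := by omega
          exact_mod_cast this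
        have h2 := mul_le_mul_of_nonneg_right h1 (Real.exp_pos (-(t ^ 2 / 4))).le
        linarith

/-- **LOWN.** -/
theorem lowN11 {d : ℕ} {ρ : Measure ℝ} [IsProbabilityMeasure ρ] {β : ℝ} (hd : 0 < d) (hρ : EM ρ)
    (hE : EhlP d ρ β) : LowN d ρ β := by
  intro η p hη hp
  obtain ⟨C, hC, H⟩ := lowNC11 hd hρ hE (η / 2) p (half_pos hη) hp
  have h1 : Tendsto (fun n : ℕ => (n : ℝ) ^ (η / 2)) atTop atTop :=
    (tendsto_rpow_atTop (half_pos hη)).comp tendsto_natCast_atTop_atTop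
  obtain ⟨N₀, hN₀⟩ := eventually_atTop.1 (h1.eventually_ge_atTop C)
  refine ⟨max N₀ 1, fun h N P hN hP hFE => ?_⟩
  have hN1 : 1 ≤ N := (le_max_right _ _).trans hN
  have hN0 : (0 : ℝ) < N := by exact_mod_cast hN1
  have h2 : C * (N : ℝ) ^ (η / 2) ≤ (N : ℝ) ^ η := by
    have h3 : (N : ℝ) ^ η = (N : ℝ) ^ (η / 2) * (N : ℝ) ^ (η / 2) := by
      rw [← Real.rpow_add hN0]
      congr 1
      ring
    rw [h3]
    exact mul_le_mul_of_nonneg_right (hN₀ N ((le_max_left _ _).trans hN))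
      (Real.rpow_nonneg hN0.le _)
  refine (measureReal_mono ?_ (measure_ne_top _ _)).trans (H h N P hN1 (by linarith) hFE)
  rintro ξ ⟨n, h3, h4, h5⟩
  refine ⟨n, h3, h4, ?_⟩
  have h6 : C * (N : ℝ) ^ (η / 2) * P ≤ (N : ℝ) ^ η * P :=
    mul_le_mul_of_nonneg_right h2 (by linarith)
  linarith

end Pool.Agent.W_7d29a1_KP
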