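import Pool.Agent.W_7d29a1_KZ.Gap42

/-!
Ehrhard's inequality for logarithms of positive sums of exponentials of sums of the environment over
sets of sites of different sizes (helper89; after Law84 of helper84).
-/

namespace Pool.Agent.W_7d29a1_KP

open MeasureTheory ProbabilityTheory Filter Topology Set Pool.Agent.W_MP_7d29a1_pr
  Pool.Agent.W_7d29a1_h46 Pool.Agent.W_7d29a1_h46u Pool.Agent.W_7d29a1_SP Pool.Agent.W_7d29a1_SP.A84
  Pool.Agent.W_7d29a1_KZ

variable {d : ℕ} {S : Type*} [Fintype S] {m : S → ℕ}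

/-- the logarithm of a sum of exponentials of sums of sites -/
noncomputable def LSn (β : ℝ) (c : S → ℝ) (q : (s : S) → Fin (m s) → ℕ × Site d) (η : Env d) : ℝ :=
  Real.log (∑ s, Real.exp (c s + β * ∑ i, η (q s i)))

open Classical in
/-- the sites which are used -/
noncomputable def Iqn (q : (s : S) → Fin (m s) → ℕ × Site d) : Finset (ℕ × Site d) :=
  Finset.univ.image fun z : (s : S) × Fin (m s) => q z.1 z.2

lemma mem_Iqn (q : (s : S) → Fin (m s) → ℕ × Site d) (s : S) (i : Fin (m s)) : q s i ∈ Iqn q := by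
  classical
  unfold Iqn
  exact Finset.mem_image.2 ⟨⟨s, i⟩, Finset.mem_univ _, rfl⟩

lemma LSn_ex (β : ℝ) (c : S → ℝ) (q : (s : S) → Fin (m s) → ℕ × Site d) (η : Env d) :
    LSn β c q (ex (Iqn q) ((Iqn q).restrict η)) = LSn β c q η := by
  unfold LSn
  have : ∀ (s : S) (i : Fin (m s)), ex (Iqn q) ((Iqn q).restrict η) (q s i) = η (q s i) :=
    fun s i => by
      unfold ex
      rw [dif_pos (mem_Iqn q s i)]
      rfl
  simp only [this]

lemma LSn_cont [Nonempty S] (β : ℝ) (c : S → ℝ) (q : (s : S) → Fin (m s) → ℕ × Site d)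
    (I : Finset (ℕ × Site d)) : Continuous fun y : I → ℝ => LSn β c q (ex I y) := by
  unfold LSn
  refine Continuous.log ?_ fun y =>
    (Finset.sum_pos (fun s _ => Real.exp_pos _) Finset.univ_nonempty).ne'
  exact continuous_finsetSum _ fun s _ =>
    Real.continuous_exp.comp (continuous_const.add (continuous_const.mul
      (continuous_finsetSum _ fun i _ => ex_cont I _)))

lemma LSn_conv [Nonempty S] {φ : ℝ → ℝ} (hφ : ConvexOn ℝ univ φ) {β : ℝ} (hβ : 0 ≤ β) (c : S → ℝ)
    (q : (s : S) → Fin (m s) → ℕ × Site d) (I : Finset (ℕ × Site d)) :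
    ConvexOn ℝ univ fun x : I → ℝ => LSn β c q (ex I fun i => φ (x i)) := by
  unfold LSn
  refine lse fun s => ?_
  refine (convexOn_const _ convex_univ).add (ConvexOn.smul hβ ?_)
  refine ⟨convex_univ, fun x _ y _ l k hl hk hlk => ?_⟩
  simp only [smul_eq_mul]
  rw [Finset.mul_sum, Finset.mul_sum, ← Finset.sum_add_distrib]
  refine Finset.sum_le_sum fun i _ => ?_
  exact (ex_conv hφ I _).2 (mem_univ x) (mem_univ y) hl hk hlk

lemma LSn_law [Nonempty S] {ρ : Measure ℝ} [IsProbabilityMeasure ρ] {φ : ℝ → ℝ} (hφ : Continuous φ)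
    (hρ : ρ = (gaussianReal 0 1).map φ) (β : ℝ) (c : S → ℝ)
    (q : (s : S) → Fin (m s) → ℕ × Site d)
    {T : Set ℝ} (hT : MeasurableSet T) : (law d ρ).real {η | LSn β c q η ∈ T} =
      (Ehr.gpi (Iqn q)).real {x | LSn β c q (ex (Iqn q) fun i => φ (x i)) ∈ T} := by
  have h1 : (law d ρ).map (Iqn q).restrict = Measure.pi fun _ : Iqn q => ρ :=
    Measure.infinitePi_map_restrict _
  have h2 : (Ehr.gpi (Iqn q)).map (fun x i => φ (x i)) = Measure.pi fun _ : Iqn q => ρ := by
    have := Measure.pi_map_pi (μ := fun _ : Iqn q => Ehr.ga) (f := fun _ => φ)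
      (fun _ => hφ.measurable.aemeasurable)
    rw [hρ]
    exact this
  have mY : MeasurableSet {y : Iqn q → ℝ | LSn β c q (ex (Iqn q) y) ∈ T} :=
    (LSn_cont β c q (Iqn q)).measurable hT
  have h3 : (law d ρ).real {η | LSn β c q η ∈ T} =
      (Measure.pi fun _ : Iqn q => ρ).real {y | LSn β c q (ex (Iqn q) y) ∈ T} := by
    rw [← h1, map_measureReal_apply (Finset.measurable_restrict _) mY]
    congr 1
    ext η
    show LSn β c q η ∈ T ↔ LSn β c q _ ∈ T
    rw [LSn_ex]
  rw [h3, ← h2, map_measureReal_apply (by fun_prop) mY]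
  rfl

/-- Ehrhard for `LSn`: the upper tail. -/
theorem luckn89 [Nonempty S] {ρ : Measure ℝ} [IsProbabilityMeasure ρ] (hG : GC ρ) {β : ℝ}
    (hβ : 0 ≤ β) (c : S → ℝ) (q : (s : S) → Fin (m s) → ℕ × Site d) :
    Lk42 (law d ρ) (LSn β c q) := by
  intro a b s0 s1 t ht h0 h1
  obtain ⟨φ, hφ, hρ⟩ := hG
  have hc : Continuous φ := by
    rw [← continuousOn_univ]
    exact hφ.continuousOn isOpen_univ
  have e0 := LSn_law hc hρ β c q (T := Iic s0) measurableSet_Iic
  have e1 := LSn_law hc hρ β c q (T := Iic s1) measurableSet_Iic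
  have e2 := LSn_law hc hρ β c q (T := Iic (s1 + t * (s1 - s0))) measurableSet_Iic
  simp only [mem_Iic] at e0 e1 e2
  rw [e2]
  exact Ehr.luck (LSn_conv hφ hβ c q (Iqn q)) ((LSn_cont β c q (Iqn q)).comp (by fun_prop)) ht
    (by rw [← e0]; exact h0) (by rw [← e1]; exact h1)

end Pool.Agent.W_7d29a1_KP
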