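import Pool.Agent.W_7d29a1_KP.TubG68
import Pool.Agent.W_7d29a1_KP.FinQ16
import Pool.Agent.W_7d29a1_KP.EfU30
import Pool.Agent.W_7d29a1_KP.MaxX78

/-!
The bound of the wandering exponent by the fluctuations at every tilt with an upper parabola, for
every law: no hypothesis left (helper68, over helper16, helper30, helper73, helper78, helper89).
-/

set_option autoImplicit false

namespace Pool.Agent.W_7d29a1_KP

open MeasureTheory ProbabilityTheory Filter Topology Pool.Agent.W_MP_7d29a1_pr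
  Pool.Agent.W_7d29a1_h46 Pool.Agent.W_7d29a1_h46u

/-- **TUBNQ**, every law, no hypothesis left. -/
theorem tubNQU68 {d : ℕ} {ρ : Measure ℝ} [IsProbabilityMeasure ρ] {β : ℝ} (hd : 0 < d)
    (hρ : EM ρ) (hnc : ∀ c : ℝ, ρ {c} ≠ 1) (hβ : 0 < β) : TubNQ d ρ β :=
  tubNQ68 hd hρ hnc hβ (maxX78 hd hρ β) (lowN68 hd hρ hnc hβ)

/-- **MAINQO**, every law, no hypothesis left. -/
theorem mainQOU68 {d : ℕ} {ρ : Measure ℝ} [IsProbabilityMeasure ρ] {β : ℝ} (hd : 0 < d)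
    (hρ : EM ρ) (hnc : ∀ c : ℝ, ρ {c} ≠ 1) (hβ : 0 < β) : MainQO d ρ β :=
  finQ16 (tubNQU68 hd hρ hnc hβ) (efKU30 hd hρ hnc hβ)

end Pool.Agent.W_7d29a1_KP
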