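import Pool.Agent.W_7d29a1_PL.Ott7

/-!
The maximal inequality for the free energies of all lengths (helper95, from helper7's `ott7`).
-/

set_option autoImplicit false

namespace Pool.Agent.W_7d29a1_KP

open MeasureTheory ProbabilityTheory Filter Topology Pool.Agent.W_MP_7d29a1_pr
  Pool.Agent.W_7d29a1_h46 Pool.Agent.W_7d29a1_h46u Pool.Agent.W_7d29a1_D2.B35
  Pool.Agent.W_7d29a1_Q29 Pool.Agent.W_7d29a1_R34 Pool.Agent.W_7d29a1_SP

/-- The maximum over the lengths. -/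
theorem maxN95 {d : ℕ} {ρ : Measure ℝ} [IsProbabilityMeasure ρ] (hd : 0 < d) (hρ : EM ρ) (β : ℝ)
    (h : Vec d) (m : ℕ) (u P : ℝ) (hP : 0 < P)
    (hE : ∀ k : ℕ, k ≤ m → Fn ρ β h k ≤ P ∧ En ρ β h k ≤ P) :
    (law d ρ).real {η | ∃ n : ℕ, n ≤ m ∧ n * lam ρ β h + u ≤ X β h η n} ≤
      2 * (law d ρ).real {η | m * lam ρ β h + u - 3 * P ≤ X β h η m} := by
  have h1 := W_7d29a1_PL.ott7 (ρ := ρ) hd hρ β h 0 m (-u) P hP fun k hk => ⟨(hE k hk).2, (hE k hk).1⟩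
  simpa only [Nat.zero_add, sub_neg_eq_add] using h1

end Pool.Agent.W_7d29a1_KP
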