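import Pool.Agent.W_7d29a1_KP.DefsKO62
import Pool.Agent.W_7d29a1_SP.Amp84

/-!
Theorem KPZO: the block of the lengths in `[N, 2 N]`, from one length.
-/

set_option autoImplicit false

namespace Pool.Agent.W_7d29a1_KP

open MeasureTheory ProbabilityTheory Filter Topology Pool.Agent.W_MP_7d29a1_pr
  Pool.Agent.W_7d29a1_h46 Pool.Agent.W_7d29a1_h46u Pool.Agent.W_7d29a1_D2.B35
  Pool.Agent.W_7d29a1_Q29 Pool.Agent.W_7d29a1_R34 Pool.Agent.W_7d29a1_SP Pool.Agent.W_7d29a1_SD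
  Pool.Agent.W_7d29a1_SQ Pool.Agent.W_7d29a1_KZ

/-- The weight of the complement of a set of walks. -/
lemma ZT_compl62 {d n : ℕ} (hd : 0 < d) (β : ℝ) (h : Vec d) (η : Env d)
    (E : Set (Fin n → Step d)) :
    ZT β h η Eᶜ = (1 - PolT β h η E) * Z β h η n := by
  classical
  have h1 : ZT β h η E + ZT β h η Eᶜ = Z β h η n := by
    unfold ZT Z ZT
    rw [← Finset.sum_add_distrib]
    refine Finset.sum_congr rfl fun s _ => ?_
    by_cases hs : s ∈ E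
    · simp [hs]
    · simp [hs]
  have h2 : 0 < Z β h η n := Z_pos hd β h η n
  have h3 : PolT β h η E * Z β h η n = ZT β h η E := by
    unfold PolT
    exact div_mul_cancel₀ _ h2.ne'
  rw [sub_mul, one_mul, h3]
  linarith

/-- **Leaf TUBN.** -/
theorem tubN62 {d : ℕ} {ρ : Measure ℝ} [IsProbabilityMeasure ρ] (hd : 0 < d) {β : ℝ}
    (h1 : Tub1 d ρ β) (h2 : MaxX d ρ β) (h3 : LowN d ρ β) : TubN d ρ β := by
  intro η M p hη hM hp
  obtain ⟨C₁, hC₁, hT⟩ := h1 (η / 2) M (by linarith) hM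
  obtain ⟨N₁, hL⟩ := h3 (η / 2) p (by linarith) hp
  have hcA : 0 < A84.cA := A84.cA_pos
  have hC₁0 : 0 < C₁ := by linarith
  -- the size of `N`
  have ev1 : ∀ᶠ N : ℕ in atTop, (4 : ℝ) ≤ (N : ℝ) ^ p :=
    ((tendsto_rpow_atTop hp).comp tendsto_natCast_atTop_atTop).eventually_ge_atTop 4
  have ev2 : ∀ᶠ N : ℕ in atTop, 1 / (4 * p) ≤ Real.log N :=
    (Real.tendsto_log_atTop.comp tendsto_natCast_atTop_atTop).eventually_ge_atTop _
  have ev3 : ∀ᶠ N : ℕ in atTop, Real.log N ≤ (N : ℝ) ^ (η / 2) := by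
    have h4 := (isLittleO_log_rpow_atTop (show 0 < η / 2 by linarith)).bound
      (show (0 : ℝ) < 1 by norm_num)
    have h5 := tendsto_natCast_atTop_atTop.eventually h4
    filter_upwards [h5, eventually_ge_atTop 1] with N hN hN1
    have h6 : 0 ≤ Real.log (N : ℝ) := Real.log_nonneg (by exact_mod_cast hN1)
    have h7 : (0 : ℝ) ≤ (N : ℝ) ^ (η / 2) := Real.rpow_nonneg (Nat.cast_nonneg N) _
    rw [one_mul, Real.norm_eq_abs, Real.norm_eq_abs, abs_of_nonneg h6, abs_of_nonneg h7] at hN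
    exact hN
  obtain ⟨N₂, hN₂⟩ := eventually_atTop.1 (ev1.and (ev2.and ev3))
  refine ⟨C₁ * 2 ^ (1 + η / 2) * (1 / A84.cA + 4), max (max N₁ N₂) 2, ?_, ?_⟩
  · have e1 : (1 : ℝ) ≤ 2 ^ (1 + η / 2) := Real.one_le_rpow (by norm_num) (by linarith)
    have e2 : (1 : ℝ) ≤ 1 / A84.cA + 4 := by
      have : 0 < 1 / A84.cA := by positivity
      linarith
    have e3 : (1 : ℝ) ≤ C₁ * 2 ^ (1 + η / 2) := one_le_mul_of_one_le_of_one_le hC₁ e1
    exact one_le_mul_of_one_le_of_one_le e3 e2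
  intro h v N P R r hN hP hR hr hD hE
  have hN1 : N₁ ≤ N := (le_max_left _ _).trans ((le_max_left _ _).trans hN)
  have hN2 : N₂ ≤ N := (le_max_right _ _).trans ((le_max_left _ _).trans hN)
  have hN3 : 2 ≤ N := (le_max_right _ _).trans hN
  obtain ⟨hA, hB, hC⟩ := hN₂ N hN2
  have hNR : (2 : ℝ) ≤ N := by exact_mod_cast hN3
  have hN0 : (0 : ℝ) < N := by linarith
  have hlogN : 0 ≤ Real.log (N : ℝ) := Real.log_nonneg (by linarith)
  -- the lower tail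
  have hlow := hL h N P hN1 hP hD.fl
  obtain ⟨w, hw⟩ : ∃ w : ℝ, w = -((N : ℝ) ^ (η / 2) * P) - Real.log N := ⟨_, rfl⟩
  obtain ⟨E₁, hE₁⟩ : ∃ E₁ : Set (Env d), E₁ = {ξ | ∃ s : ℕ, s ≤ N ∧
    Real.exp (((N + s : ℕ) : ℝ) * lam ρ β h + w) ≤ ZT β h ξ (tube d (N + s) v R)ᶜ} := ⟨_, rfl⟩
  have hsub : {ξ : Env d | ∃ n : ℕ, N ≤ n ∧ n ≤ 2 * N ∧
      1 / (N : ℝ) < 1 - PolT β h ξ (tube d n v R)} ⊆ {ξ | ∃ n : ℕ, N ≤ n ∧ n ≤ 2 * N ∧
      X β h ξ n < n * lam ρ β h - (N : ℝ) ^ (η / 2) * P} ∪ E₁ := by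
    rintro ξ ⟨n, hn1, hn2, hn3⟩
    by_cases hx : X β h ξ n < n * lam ρ β h - (N : ℝ) ^ (η / 2) * P
    · exact Or.inl ⟨n, hn1, hn2, hx⟩
    · right
      rw [hE₁]
      obtain ⟨s, rfl⟩ : ∃ s, n = N + s := ⟨n - N, by omega⟩
      refine ⟨s, by omega, ?_⟩
      rw [ZT_compl62 hd]
      have hZ : 0 < Z β h ξ (N + s) := Z_pos hd β h ξ (N + s)
      have e1 : Z β h ξ (N + s) = Real.exp (X β h ξ (N + s)) := (Real.exp_log hZ).symm
      have e2 : Real.exp (((N + s : ℕ) : ℝ) * lam ρ β h + w) =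
          1 / (N : ℝ) * Real.exp (((N + s : ℕ) : ℝ) * lam ρ β h - (N : ℝ) ^ (η / 2) * P) := by
        have e3 : ((N + s : ℕ) : ℝ) * lam ρ β h + w =
            -Real.log N + (((N + s : ℕ) : ℝ) * lam ρ β h - (N : ℝ) ^ (η / 2) * P) := by
          rw [hw]
          ring
        rw [e3, Real.exp_add, Real.exp_neg, Real.exp_log hN0, one_div]
      rw [e2, e1]
      exact mul_le_mul hn3.le (Real.exp_le_exp.2 (not_lt.1 hx)) (Real.exp_pos _).le
        ((by positivity : (0 : ℝ) ≤ 1 / N).trans hn3.le)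
  have hE₁p : (N : ℝ) ^ (-p) / 2 ≤ (law d ρ).real E₁ := by
    have h4 := hE.le.trans ((measureReal_mono hsub).trans (measureReal_union_le _ _))
    linarith
  -- the end of the window
  have hmax := h2 h v N N R w P (by linarith) fun k hk =>
    ⟨(hD.fl k (by omega)).2, (hD.fl k (by omega)).1⟩
  rw [← hE₁] at hmax
  obtain ⟨T, hTd⟩ : ∃ T : ℝ, T = ((N + N : ℕ) : ℝ) * lam ρ β h + w - 2 * P := ⟨_, rfl⟩
  rw [← hTd] at hmax
  obtain ⟨z, hz⟩ : ∃ z : ℝ, z = 2 * Real.sqrt (p * Real.log N) := ⟨_, rfl⟩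
  have hpl : 0 ≤ p * Real.log N := mul_nonneg hp.le hlogN
  have hz2 : z ^ 2 = 4 * (p * Real.log N) := by
    rw [hz, mul_pow, Real.sq_sqrt hpl]
    norm_num
  have hz0 : 0 ≤ z := by
    rw [hz]
    positivity
  have hz1 : 1 ≤ z := by
    have h4 : (1 : ℝ) ≤ z ^ 2 := by
      rw [hz2]
      rw [div_le_iff₀ (by positivity)] at hB
      linarith
    nlinarith
  have hNp : (N : ℝ) ^ (-p) = Real.exp (-(p * Real.log N)) := by
    rw [Real.rpow_def_of_pos hN0]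
    congr 1
    ring
  have hzu : Ehr.Phi (-z) ≤ (N : ℝ) ^ (-p) / 4 := by
    refine (A84.Phi_upper hz0).trans ?_
    rw [hz2, hNp]
    have e1 : Real.exp (-(4 * (p * Real.log N)) / 2) =
        Real.exp (-(p * Real.log N)) * Real.exp (-(p * Real.log N)) := by
      rw [← Real.exp_add]
      congr 1
      ring
    have e2 : Real.exp (-(p * Real.log N)) ≤ 1 / 4 := by
      rw [← hNp, Real.rpow_neg hN0.le]
      rw [inv_eq_one_div]
      exact one_div_le_one_div_of_le (by norm_num) hA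
    rw [e1]
    have e3 := Real.exp_pos (-(p * Real.log N))
    nlinarith
  have hzl : A84.cA * (N : ℝ) ^ (-(16 * p)) ≤ Ehr.Phi (-(2 * z)) := by
    have h4 := A84.Phi_lower (r := 2 * z) (by positivity)
    refine le_trans (le_of_eq ?_) h4
    rw [Real.rpow_def_of_pos hN0]
    congr 2
    rw [mul_pow, hz2]
    ring
  have hTP : Ehr.Phi (-z) ≤ (law d ρ).real {ξ | Real.exp T ≤ ZT β h ξ (tube d (N + N) v R)ᶜ} := by
    linarith
  have hNη : (1 : ℝ) ≤ (N : ℝ) ^ (η / 2) := Real.one_le_rpow (by linarith) (by linarith)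
  have hT1 : ((N + N : ℕ) : ℝ) * lam ρ β h - T ≤ 4 * ((N : ℝ) ^ (η / 2) * P) := by
    rw [hTd, hw]
    have e1 : P ≤ (N : ℝ) ^ (η / 2) * P := le_mul_of_one_le_left (by linarith) hNη
    have e2 : Real.log N ≤ (N : ℝ) ^ (η / 2) * P :=
      hC.trans (le_mul_of_one_le_right (by linarith) hP)
    linarith
  have hT0 : T ≤ ((N + N : ℕ) : ℝ) * lam ρ β h := by
    rw [hTd, hw]
    have : 0 ≤ (N : ℝ) ^ (η / 2) * P := by positivity
    linarith
  rw [two_mul] at hD hr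
  have hfin := hT h v (N + N) P R r T z (by omega) hP hR hz1 hr hD hT0 hTP
  refine hfin.trans ?_
  -- the numbers
  have hΦ : 0 < Ehr.Phi (-(2 * z)) := Ehr.Phi_pos _
  have n1 : P / Ehr.Phi (-(2 * z)) ≤ 1 / A84.cA * ((N : ℝ) ^ (16 * p) * P) := by
    have e1 : 0 < A84.cA * (N : ℝ) ^ (-(16 * p)) := by positivity
    have e2 : P / Ehr.Phi (-(2 * z)) ≤ P / (A84.cA * (N : ℝ) ^ (-(16 * p))) :=
      div_le_div_of_nonneg_left (by linarith) e1 hzl
    refine e2.trans (le_of_eq ?_)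
    rw [Real.rpow_neg hN0.le]
    field_simp
  have n2 : (1 : ℝ) ≤ (N : ℝ) ^ (16 * p) := Real.one_le_rpow (by linarith) (by positivity)
  have n3 : 0 < (N : ℝ) ^ (η / 2) := by linarith
  have n4 : P / Ehr.Phi (-(2 * z)) + (((N + N : ℕ) : ℝ) * lam ρ β h - T) ≤
      (1 / A84.cA + 4) * ((N : ℝ) ^ (16 * p) * (N : ℝ) ^ (η / 2) * P) := by
    have e1 : (N : ℝ) ^ (16 * p) * P ≤ (N : ℝ) ^ (16 * p) * (N : ℝ) ^ (η / 2) * P := by
      refine mul_le_mul_of_nonneg_right ?_ (by linarith)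
      exact le_mul_of_one_le_right (by linarith) hNη
    have e2 : (N : ℝ) ^ (η / 2) * P ≤ (N : ℝ) ^ (16 * p) * (N : ℝ) ^ (η / 2) * P := by
      refine mul_le_mul_of_nonneg_right ?_ (by linarith)
      exact le_mul_of_one_le_left n3.le n2
    have e3 : 1 / A84.cA * ((N : ℝ) ^ (16 * p) * P) ≤
        1 / A84.cA * ((N : ℝ) ^ (16 * p) * (N : ℝ) ^ (η / 2) * P) :=
      mul_le_mul_of_nonneg_left e1 (by positivity)
    linarith
  have n5 : (((N + N : ℕ) : ℝ)) ^ (1 + η / 2) = 2 ^ (1 + η / 2) * (N : ℝ) ^ (1 + η / 2) := by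
    rw [← Real.mul_rpow (by norm_num) hN0.le]
    congr 1
    push_cast
    ring
  rw [n5]
  have n6 : 0 ≤ C₁ * (2 ^ (1 + η / 2) * (N : ℝ) ^ (1 + η / 2)) := by positivity
  refine (mul_le_mul_of_nonneg_left n4 n6).trans (le_of_eq ?_)
  have n7 : (N : ℝ) ^ (1 + η + 16 * p) =
      (N : ℝ) ^ (1 + η / 2) * ((N : ℝ) ^ (16 * p) * (N : ℝ) ^ (η / 2)) := by
    rw [← Real.rpow_add hN0, ← Real.rpow_add hN0]
    congr 1
    ring
  rw [n7]
  ring

end Pool.Agent.W_7d29a1_KP
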