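import Pool.Agent.W_7d29a1_KP.TubN62

/-!
Theorem KPZO: the reduction of the block of the lengths in `[N, 2 N]` to the length `2 N`.
-/

set_option autoImplicit false

namespace Pool.Agent.W_7d29a1_KP

open MeasureTheory ProbabilityTheory Filter Topology Pool.Agent.W_MP_7d29a1_pr
  Pool.Agent.W_7d29a1_h46 Pool.Agent.W_7d29a1_h46u Pool.Agent.W_7d29a1_D2.B35
  Pool.Agent.W_7d29a1_Q29 Pool.Agent.W_7d29a1_R34 Pool.Agent.W_7d29a1_SP Pool.Agent.W_7d29a1_SD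
  Pool.Agent.W_7d29a1_SQ Pool.Agent.W_7d29a1_KZ

/-- The block is reduced to its end. -/
theorem red62 {d : ℕ} {ρ : Measure ℝ} [IsProbabilityMeasure ρ] (hd : 0 < d) {β : ℝ}
    (h2 : MaxX d ρ β) (h3 : LowN d ρ β) {η p : ℝ} (hη : 0 < η) (hp : 0 < p) :
    ∃ N₀ : ℕ, 2 ≤ N₀ ∧ ∀ (h v : Vec d) (N : ℕ) (P R : ℝ), N₀ ≤ N → 1 ≤ P →
      (∀ k : ℕ, k ≤ 2 * N → Fn ρ β h k ≤ P ∧ En ρ β h k ≤ P) →
      (N : ℝ) ^ (-p) < (law d ρ).real {ξ | ∃ n : ℕ, N ≤ n ∧ n ≤ 2 * N ∧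
        1 / (N : ℝ) < 1 - PolT β h ξ (tube d n v R)} →
      ∃ T : ℝ, T ≤ ((N + N : ℕ) : ℝ) * lam ρ β h ∧
        ((N + N : ℕ) : ℝ) * lam ρ β h - T ≤ 4 * ((N : ℝ) ^ η * P) ∧
        (N : ℝ) ^ (-p) / 4 ≤ (law d ρ).real
          {ξ | Real.exp T ≤ ZT β h ξ (tube d (N + N) v R)ᶜ} := by
  obtain ⟨N₁, hL⟩ := h3 η p hη hp
  have ev3 : ∀ᶠ N : ℕ in atTop, Real.log N ≤ (N : ℝ) ^ η := by
    have h4 := (isLittleO_log_rpow_atTop hη).bound (show (0 : ℝ) < 1 by norm_num)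
    have h5 := tendsto_natCast_atTop_atTop.eventually h4
    filter_upwards [h5, eventually_ge_atTop 1] with N hN hN1
    have h6 : 0 ≤ Real.log (N : ℝ) := Real.log_nonneg (by exact_mod_cast hN1)
    have h7 : (0 : ℝ) ≤ (N : ℝ) ^ η := Real.rpow_nonneg (Nat.cast_nonneg N) _
    rw [one_mul, Real.norm_eq_abs, Real.norm_eq_abs, abs_of_nonneg h6, abs_of_nonneg h7] at hN
    exact hN
  obtain ⟨N₂, hN₂⟩ := eventually_atTop.1 ev3
  refine ⟨max (max N₁ N₂) 2, le_max_right _ _, ?_⟩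
  intro h v N P R hN hP hfl hE
  have hN1 : N₁ ≤ N := (le_max_left _ _).trans ((le_max_left _ _).trans hN)
  have hN2 : N₂ ≤ N := (le_max_right _ _).trans ((le_max_left _ _).trans hN)
  have hN3 : 2 ≤ N := (le_max_right _ _).trans hN
  have hC := hN₂ N hN2
  have hNR : (2 : ℝ) ≤ N := by exact_mod_cast hN3
  have hN0 : (0 : ℝ) < N := by linarith
  have hlogN : 0 ≤ Real.log (N : ℝ) := Real.log_nonneg (by linarith)
  have hlow := hL h N P hN1 hP hfl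
  obtain ⟨w, hw⟩ : ∃ w : ℝ, w = -((N : ℝ) ^ η * P) - Real.log N := ⟨_, rfl⟩
  obtain ⟨E₁, hE₁⟩ : ∃ E₁ : Set (Env d), E₁ = {ξ | ∃ s : ℕ, s ≤ N ∧
    Real.exp (((N + s : ℕ) : ℝ) * lam ρ β h + w) ≤ ZT β h ξ (tube d (N + s) v R)ᶜ} := ⟨_, rfl⟩
  have hsub : {ξ : Env d | ∃ n : ℕ, N ≤ n ∧ n ≤ 2 * N ∧
      1 / (N : ℝ) < 1 - PolT β h ξ (tube d n v R)} ⊆ {ξ | ∃ n : ℕ, N ≤ n ∧ n ≤ 2 * N ∧
      X β h ξ n < n * lam ρ β h - (N : ℝ) ^ η * P} ∪ E₁ := by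
    rintro ξ ⟨n, hn1, hn2, hn3⟩
    by_cases hx : X β h ξ n < n * lam ρ β h - (N : ℝ) ^ η * P
    · exact Or.inl ⟨n, hn1, hn2, hx⟩
    · right
      rw [hE₁]
      obtain ⟨s, rfl⟩ : ∃ s, n = N + s := ⟨n - N, by omega⟩
      refine ⟨s, by omega, ?_⟩
      rw [ZT_compl62 hd]
      have hZ : 0 < Z β h ξ (N + s) := Z_pos hd β h ξ (N + s)
      have e1 : Z β h ξ (N + s) = Real.exp (X β h ξ (N + s)) := (Real.exp_log hZ).symm
      have e2 : Real.exp (((N + s : ℕ) : ℝ) * lam ρ β h + w) =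
          1 / (N : ℝ) * Real.exp (((N + s : ℕ) : ℝ) * lam ρ β h - (N : ℝ) ^ η * P) := by
        have e3 : ((N + s : ℕ) : ℝ) * lam ρ β h + w =
            -Real.log N + (((N + s : ℕ) : ℝ) * lam ρ β h - (N : ℝ) ^ η * P) := by
          rw [hw]
          ring
        rw [e3, Real.exp_add, Real.exp_neg, Real.exp_log hN0, one_div]
      rw [e2, e1]
      exact mul_le_mul hn3.le (Real.exp_le_exp.2 (not_lt.1 hx)) (Real.exp_pos _).le
        ((by positivity : (0 : ℝ) ≤ 1 / N).trans hn3.le)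
  have hE₁p : (N : ℝ) ^ (-p) / 2 ≤ (law d ρ).real E₁ := by
    have h4 := hE.le.trans ((measureReal_mono hsub).trans (measureReal_union_le _ _))
    linarith
  have hmax := h2 h v N N R w P (by linarith) fun k hk =>
    ⟨(hfl k (by omega)).2, (hfl k (by omega)).1⟩
  rw [← hE₁] at hmax
  have hNη : (1 : ℝ) ≤ (N : ℝ) ^ η := Real.one_le_rpow (by linarith) (by linarith)
  refine ⟨((N + N : ℕ) : ℝ) * lam ρ β h + w - 2 * P, ?_, ?_, by linarith⟩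
  · rw [hw]
    have : 0 ≤ (N : ℝ) ^ η * P := by positivity
    linarith
  · rw [hw]
    have e1 : P ≤ (N : ℝ) ^ η * P := le_mul_of_one_le_left (by linarith) hNη
    have e2 : Real.log N ≤ (N : ℝ) ^ η * P :=
      hC.trans (le_mul_of_one_le_right (by linarith) hP)
    linarith

/-- The level of the normal distribution. -/
theorem lev62 {p : ℝ} (hp : 0 < p) : ∃ N₀ : ℕ, 2 ≤ N₀ ∧ ∀ N : ℕ, N₀ ≤ N → ∃ z : ℝ, 1 ≤ z ∧
    Ehr.Phi (-z) ≤ (N : ℝ) ^ (-p) / 4 ∧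
    A84.cA * (N : ℝ) ^ (-(16 * p)) ≤ Ehr.Phi (-(2 * z)) := by
  have ev1 : ∀ᶠ N : ℕ in atTop, (4 : ℝ) ≤ (N : ℝ) ^ p :=
    ((tendsto_rpow_atTop hp).comp tendsto_natCast_atTop_atTop).eventually_ge_atTop 4
  have ev2 : ∀ᶠ N : ℕ in atTop, 1 / (4 * p) ≤ Real.log N :=
    (Real.tendsto_log_atTop.comp tendsto_natCast_atTop_atTop).eventually_ge_atTop _
  obtain ⟨N₂, hN₂⟩ := eventually_atTop.1 (ev1.and ev2)
  refine ⟨max N₂ 2, le_max_right _ _, fun N hN => ?_⟩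
  obtain ⟨hA, hB⟩ := hN₂ N ((le_max_left _ _).trans hN)
  have hNR : (2 : ℝ) ≤ N := by exact_mod_cast (le_max_right _ _).trans hN
  have hN0 : (0 : ℝ) < N := by linarith
  have hlogN : 0 ≤ Real.log (N : ℝ) := Real.log_nonneg (by linarith)
  obtain ⟨z, hz⟩ : ∃ z : ℝ, z = 2 * Real.sqrt (p * Real.log N) := ⟨_, rfl⟩
  have hpl : 0 ≤ p * Real.log N := mul_nonneg hp.le hlogN
  have hz2 : z ^ 2 = 4 * (p * Real.log N) := by
    rw [hz, mul_pow, Real.sq_sqrt hpl]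
    norm_num
  have hz0 : 0 ≤ z := by
    rw [hz]
    positivity
  have hz1 : 1 ≤ z := by
    have h4 : (1 : ℝ) ≤ z ^ 2 := by
      rw [hz2]
      rw [div_le_iff₀ (by positivity)] at hB
      linarith
    nlinarith
  have hNp : (N : ℝ) ^ (-p) = Real.exp (-(p * Real.log N)) := by
    rw [Real.rpow_def_of_pos hN0]
    congr 1
    ring
  refine ⟨z, hz1, ?_, ?_⟩
  · refine (A84.Phi_upper hz0).trans ?_
    rw [hz2, hNp]
    have e1 : Real.exp (-(4 * (p * Real.log N)) / 2) =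
        Real.exp (-(p * Real.log N)) * Real.exp (-(p * Real.log N)) := by
      rw [← Real.exp_add]
      congr 1
      ring
    have e2 : Real.exp (-(p * Real.log N)) ≤ 1 / 4 := by
      rw [← hNp, Real.rpow_neg hN0.le]
      rw [inv_eq_one_div]
      exact one_div_le_one_div_of_le (by norm_num) hA
    rw [e1]
    have e3 := Real.exp_pos (-(p * Real.log N))
    nlinarith
  · have h4 := A84.Phi_lower (r := 2 * z) (by positivity)
    refine le_trans (le_of_eq ?_) h4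
    rw [Real.rpow_def_of_pos hN0]
    congr 2
    rw [mul_pow, hz2]
    ring

end Pool.Agent.W_7d29a1_KP
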