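import Pool.Agent.W_7d29a1_KZ.TrZ19
import Pool.Agent.W_7d29a1_KL.FlucD46
import Pool.Agent.W_7d29a1_KP.DefsKP89
import Pool.Agent.W_7d29a1_D2.AeV6

/-!
Theorem KPZV: the inequality `2 ν' - 1 ≤ χ'` in the letters of the problem.
-/

namespace Pool.Agent.W_7d29a1_KP

open MeasureTheory ProbabilityTheory Filter Topology Pool.Agent.W_MP_7d29a1_pr
  Pool.Agent.W_7d29a1_h46 Pool.Agent.W_7d29a1_h46u Pool.Agent.W_7d29a1_D2
  Pool.Agent.W_7d29a1_D2.B35 Pool.Agent.W_7d29a1_Q29 Pool.Agent.W_7d29a1_R34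
  Pool.Agent.W_7d29a1_SP Pool.Agent.W_7d29a1_SD Pool.Agent.W_7d29a1_UC
  Pool.Agent.W_7d29a1_KZ Pool.Agent.W_7d29a1_KL

variable {d : ℕ} {Ω : Type*} [MeasurableSpace Ω] {μ : Measure Ω} [IsProbabilityMeasure μ]
  {ρ : Measure ℝ} [IsProbabilityMeasure ρ] {ω : ℕ × Site d → Ω → ℝ} {β : ℝ}

/-- The mean mass outside a tube, in the letters of the problem. -/
lemma mass27 (hω : IID μ ρ ω) (h v : Vec d) (n : ℕ) (r : ℝ) :
    ∫ x, (1 - PolT β h (fun p => ω p x) (tube d n v r)) ∂μ =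
      ∫ η, (1 - PolT β h η (tube d n v r)) ∂(law d ρ) := by
  have hm : Measurable fun η : Env d => 1 - PolT β h η (tube d n v r) :=
    measurable_const.sub (measurable_PolT β h _)
  have h1 := mp_env hω
  rw [← h1.map_eq, integral_map h1.measurable.aemeasurable hm.aestronglyMeasurable]

/-- The typical tube of the frame gives the limit of the problem. -/
lemma tend27 (hω : IID μ ρ ω) {h v : Vec d} {a : ℝ}
    (hH : HalfD ρ β h v (a - 1 / 2)) : Tendsto (fun n : ℕ =>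
      ∫ x, (1 - PolT β h (fun p => ω p x) (tube d n v ((n : ℝ) ^ a))) ∂μ) atTop (𝓝 0) := by
  rw [Metric.tendsto_atTop]
  intro ε hε
  obtain ⟨N, hN⟩ := eventually_atTop.1 (hH (ε / 2) (half_pos hε))
  refine ⟨max N 1, fun n hn => ?_⟩
  have hn1 : 1 ≤ n := (le_max_right _ _).trans hn
  have hn0 : (0 : ℝ) < n := by exact_mod_cast hn1
  have h1 := hN n ((le_max_left _ _).trans hn)
  have e : (n : ℝ) ^ (a - 1 / 2) * Real.sqrt n = (n : ℝ) ^ a := by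
    rw [Real.sqrt_eq_rpow, ← Real.rpow_add hn0]
    congr 1
    ring
  unfold Tb at h1
  rw [e, ← mass27 (β := β) hω h v n] at h1
  have h0 : 0 ≤ ∫ x, (1 - PolT β h (fun p => ω p x) (tube d n v ((n : ℝ) ^ a))) ∂μ :=
    integral_nonneg fun x => sub_nonneg.2 (PolT_le_one β h _ _)
  rw [Real.dist_eq, sub_zero, abs_of_nonneg h0]
  linarith

/-- Typical tubes bound `ν'`. -/
lemma nuP_le27 (hω : IID μ ρ ω) {h v : Vec d} {a : ℝ} (ha : 0 < a)
    (hH : HalfD ρ β h v (a - 1 / 2)) : nuP μ β ω h v ≤ a :=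
  csInf_le ⟨0, fun _ hx => hx.1.le⟩ ⟨ha, tend27 hω hH⟩

/-- The variance is at most `n ^ (3 / 2)` for all large `n`. -/
lemma varH27 (hd : 0 < d) (hω : IID μ ρ ω) (hρ : EM ρ) (h : Vec d) : ∀ᶠ n : ℕ in atTop,
    Var[fun y => Real.log (Zn β h (fun p => ω p y) n); μ] ≤ (n : ℝ) ^ (2 * (3 / 4 : ℝ)) := by
  obtain ⟨-, hF⟩ := (mem_chiSetF (μ := μ) (β := β) hd hω hρ h (1 / 2)).1
    (half_mem_chiSetF hd hω hρ h)
  obtain ⟨C, hC⟩ := hF 2
  have ht : Tendsto (fun n : ℕ => (n : ℝ) ^ (1 / 2 : ℝ)) atTop atTop :=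
    (tendsto_rpow_atTop (by norm_num)).comp tendsto_natCast_atTop_atTop
  filter_upwards [ht.eventually_ge_atTop |C|, eventually_ge_atTop 1] with n hn hn1
  have hn1' : (1 : ℝ) ≤ n := by exact_mod_cast hn1
  have hn0 : (0 : ℝ) < n := by linarith
  have h6 := hC n hn1
  rw [show (1 / 2 * ((2 : ℕ) : ℝ)) = 1 by norm_num, Real.rpow_one] at h6
  have h7 : ∫ η, |X β h η n - A ρ β h n| ^ 2 ∂(law d ρ) = Va ρ β h n := by
    unfold Va
    simp only [sq_abs]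
  rw [h7] at h6
  rw [varV19 hd hω hρ]
  have e : (n : ℝ) ^ (2 * (3 / 4 : ℝ)) = (n : ℝ) ^ (1 / 2 : ℝ) * n := by
    rw [← Real.rpow_add_one hn0.ne']
    congr 1
    norm_num
  rw [e]
  exact h6.trans (mul_le_mul_of_nonneg_right ((le_abs_self C).trans hn) (by linarith))

/-- The bound at one tilt. -/
lemma one27 (hd : 0 < d) (hω : IID μ ρ ω) (hρ : EM ρ) {h v : Vec d}
    (hK : ∀ x δ : ℝ, 0 < x → x < 1 → (∀ᶠ k : ℕ in atTop, Fn ρ β h k ≤ (k : ℝ) ^ x) →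
      x / 2 < δ → HalfD ρ β h v δ) :
    2 * nuP μ β ω h v - 1 ≤ chiV μ β ω h := by
  have key : ∀ x : ℝ, 0 < x → x < 1 → (∀ᶠ n : ℕ in atTop,
      Var[fun y => Real.log (Zn β h (fun p => ω p y) n); μ] ≤ (n : ℝ) ^ (2 * x)) →
      2 * nuP μ β ω h v - 1 ≤ x := by
    intro x hx0 hx1 hx
    have h1 : ∀ᶠ k : ℕ in atTop, Fn ρ β h k ≤ (k : ℝ) ^ x := by
      filter_upwards [hx] with n hn
      rw [varV19 hd hω hρ] at hn
      have h2 := (fn_sq19 (β := β) hd hρ h n).trans hn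
      have h3 : (n : ℝ) ^ (2 * x) = ((n : ℝ) ^ x) ^ 2 := by
        rw [← Real.rpow_natCast ((n : ℝ) ^ x) 2, ← Real.rpow_mul (Nat.cast_nonneg n)]
        congr 1
        push_cast
        ring
      rw [h3] at h2
      exact (abs_le_of_sq_le_sq' h2 (Real.rpow_nonneg (Nat.cast_nonneg n) x)).2
    have h2 : nuP μ β ω h v ≤ (1 + x) / 2 := by
      refine le_of_forall_gt_imp_ge_of_dense fun a ha => ?_
      exact nuP_le27 hω (by linarith) (hK x (a - 1 / 2) hx0 hx1 h1 (by linarith))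
    linarith
  refine le_csInf ⟨3 / 4, by norm_num, varH27 hd hω hρ h⟩ fun x hx => ?_
  rcases lt_or_ge x 1 with h1 | h1
  · exact key x hx.1 h1 hx.2
  · have h2 := key (3 / 4) (by norm_num) (by norm_num) (varH27 hd hω hρ h)
    linarith

omit [IsProbabilityMeasure ρ] in
/-- At a tilt with an upper parabola the slope is unique. -/
lemma slope_uniq27 {h v w : Vec d} {C δ : ℝ} (hδ : 0 < δ)
    (hC : ∀ u : Vec d, ‖u‖ ≤ δ →
      lam ρ β (h + u) ≤ lam ρ β h + inner ℝ v u + C * ‖u‖ ^ 2)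
    (hw : ∀ k : Vec d, lam ρ β h + inner ℝ w k ≤ lam ρ β (h + k)) : w = v := by
  by_contra hne
  have hp : 0 < ‖w - v‖ := norm_pos_iff.2 (sub_ne_zero.2 hne)
  obtain ⟨t, ht⟩ : ∃ t : ℝ, t = min (δ / ‖w - v‖) (1 / (2 * (|C| + 1))) := ⟨_, rfl⟩
  have hC1 : 0 < |C| + 1 := by linarith [abs_nonneg C]
  have ht0 : 0 < t := by
    rw [ht]
    exact lt_min (div_pos hδ hp) (by positivity)
  have h1 := hw (t • (w - v))
  have h3 : ‖t • (w - v)‖ = t * ‖w - v‖ := by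
    rw [norm_smul, Real.norm_eq_abs, abs_of_pos ht0]
  have h4 : t * ‖w - v‖ ≤ δ := by
    have h5 : t ≤ δ / ‖w - v‖ := by
      rw [ht]
      exact min_le_left _ _
    rwa [le_div_iff₀ hp] at h5
  have h2 := hC (t • (w - v)) (by rw [h3]; exact h4)
  rw [h3] at h2
  have h5 : inner ℝ w (t • (w - v)) - inner ℝ v (t • (w - v)) = t * ‖w - v‖ ^ 2 := by
    rw [← inner_sub_left, inner_smul_right, real_inner_self_eq_norm_sq]
  have h6 : t * ‖w - v‖ ^ 2 ≤ C * (t * ‖w - v‖) ^ 2 := by linarith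
  have h7 : C * (t * ‖w - v‖) ^ 2 ≤ (|C| + 1) * (t * ‖w - v‖) ^ 2 :=
    mul_le_mul_of_nonneg_right (by linarith [le_abs_self C]) (sq_nonneg _)
  have h8 : t * (|C| + 1) ≤ 1 / 2 := by
    have h9 : t ≤ 1 / (2 * (|C| + 1)) := by
      rw [ht]
      exact min_le_right _ _
    calc t * (|C| + 1) ≤ 1 / (2 * (|C| + 1)) * (|C| + 1) :=
          mul_le_mul_of_nonneg_right h9 hC1.le
      _ = 1 / 2 := by field_simp
  have h9 : 0 < t * ‖w - v‖ ^ 2 := by positivity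
  have h10 : (|C| + 1) * (t * ‖w - v‖) ^ 2 = (t * (|C| + 1)) * (t * ‖w - v‖ ^ 2) := by ring
  have h11 : (t * (|C| + 1)) * (t * ‖w - v‖ ^ 2) ≤ 1 / 2 * (t * ‖w - v‖ ^ 2) :=
    mul_le_mul_of_nonneg_right h8 h9.le
  linarith

/-- **THEOREM KPZV, the inequality `2 ν' - 1 ≤ χ'` in the letters of the problem**: at almost every
tilt `h` and every slope `v` of the free energy at `h`. -/
theorem relA27 (hd : 0 < d) (hω : IID μ ρ ω) (hρ : EM ρ) (hM : MainHK d ρ β) :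
    ∀ᵐ h : Vec d, ∀ v : Vec d, (∀ k, lam ρ β h + inner ℝ v k ≤ lam ρ β (h + k)) →
      2 * nuP μ β ω h v - 1 ≤ chiV μ β ω h := by
  have hM' : ∀ᵐ h : Vec d, ∃ v : Vec d,
      (∀ k : Vec d, lam ρ β h + inner ℝ v k ≤ lam ρ β (h + k)) ∧
      ∀ x δ : ℝ, 0 < x → x < 1 → (∀ᶠ k : ℕ in atTop, Fn ρ β h k ≤ (k : ℝ) ^ x) → x / 2 < δ →
        HalfD ρ β h v δ := hM
  filter_upwards [hM', ae_upp (lam_convex (ρ := ρ) hd hρ β)] with h hh hup v hv
  obtain ⟨w, hw, hK⟩ := hh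
  obtain ⟨g, C, -, δ, hδ, hC⟩ := hup
  have e1 : w = g := slope_uniq27 hδ hC hw
  have e2 : v = g := slope_uniq27 hδ hC hv
  rw [e2, ← e1]
  exact one27 hd hω hρ hK

end Pool.Agent.W_7d29a1_KP
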