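import Pool.Agent.W_7d29a1_KP.DefsKO62
import Pool.Agent.W_7d29a1_KP.TwoT19

/-!
The wandering exponent of the problem is at most `(1 + χ') / 2`, where `χ'` is the exponent of the
variance: almost every tilt.
-/

namespace Pool.Agent.W_7d29a1_KP

open MeasureTheory ProbabilityTheory Filter Topology Pool.Agent.W_MP_7d29a1_pr
  Pool.Agent.W_7d29a1_h46 Pool.Agent.W_7d29a1_h46u Pool.Agent.W_7d29a1_D2
  Pool.Agent.W_7d29a1_D2.B35 Pool.Agent.W_7d29a1_Q29 Pool.Agent.W_7d29a1_R34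
  Pool.Agent.W_7d29a1_SP Pool.Agent.W_7d29a1_SD Pool.Agent.W_7d29a1_UC Pool.Agent.W_7d29a1_KZ
  Pool.Agent.W_7d29a1_KL

variable {d : ℕ} {Ω : Type*} [MeasurableSpace Ω] {μ : Measure Ω} [IsProbabilityMeasure μ]
  {ρ : Measure ℝ} [IsProbabilityMeasure ρ] {ω : ℕ × Site d → Ω → ℝ} {β : ℝ}

/-- If almost surely the tube of radius `n ^ a` has mass at least `1 - 2 / n` for all large `n`,
then `ν ≤ a`. -/
lemma nuT_le19 (hω : IID μ ρ ω) {h v : Vec d} {a : ℝ} (ha : 0 < a)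
    (H : ∀ᵐ η ∂(law d ρ), ∀ᶠ n : ℕ in atTop,
      1 - PolT β h η (tube d n v ((n : ℝ) ^ a)) ≤ 2 / n) : nuT μ β ω h v ≤ a := by
  refine csInf_le ⟨0, fun b hb => hb.1.le⟩ ⟨ha, ?_⟩
  have h1 : ∀ᵐ x ∂μ, ∀ᶠ n : ℕ in atTop,
      1 - PolT β h (fun p => ω p x) (tube d n v ((n : ℝ) ^ a)) ≤ 2 / n :=
    (mp_env hω).quasiMeasurePreserving.ae H
  have h2 : ∀ᵐ x ∂μ, liminf (fun n : ℕ => PolT β h (fun p => ω p x)
      (tube d n v ((n : ℝ) ^ a))) atTop = 1 := by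
    filter_upwards [h1] with x hx
    have h3 : Tendsto (fun n : ℕ => 1 - (2 : ℝ) / n) atTop (𝓝 1) := by
      have h4 : Tendsto (fun n : ℕ => (2 : ℝ) / n) atTop (𝓝 0) :=
        tendsto_const_nhds.div_atTop tendsto_natCast_atTop_atTop
      simpa using h4.const_sub 1
    have h5 : Tendsto (fun n : ℕ => PolT β h (fun p => ω p x)
        (tube d n v ((n : ℝ) ^ a))) atTop (𝓝 1) := by
      refine tendsto_of_tendsto_of_tendsto_of_le_of_le' h3 tendsto_const_nhds ?_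
        (Eventually.of_forall fun n => PolT_le_one β h _ _)
      filter_upwards [hx] with n hn
      linarith
    exact h5.liminf_eq
  rw [integral_congr_ae h2]
  simp

/-- Above the exponent of the variance the random fluctuation is at most the power. -/
lemma fn_le19 (hd : 0 < d) (hω : IID μ ρ ω) (hρ : EM ρ) {h : Vec d} {y : ℝ}
    (hy : chiV μ β ω h < y) : ∀ᶠ k : ℕ in atTop, Fn ρ β h k ≤ (k : ℝ) ^ y := by
  have hne : {x : ℝ | 0 < x ∧ ∀ᶠ n : ℕ in atTop,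
      Var[fun y => Real.log (Zn β h (fun p => ω p y) n); μ] ≤ (n : ℝ) ^ (2 * x)}.Nonempty :=
    ⟨1, one_pos, var_half19 hd hω hρ h (by norm_num)⟩
  obtain ⟨b, hb, hby⟩ := exists_lt_of_csInf_lt hne hy
  filter_upwards [hb.2, eventually_ge_atTop 1] with k hk hk1
  rw [varV19 hd hω hρ] at hk
  have hk1' : (1 : ℝ) ≤ k := by exact_mod_cast hk1
  have hk0 : (0 : ℝ) < k := by linarith
  have h1 : Fn ρ β h k ^ 2 ≤ ((k : ℝ) ^ y) ^ 2 := by
    refine (fn_sq19 hd hρ h k).trans (hk.trans ?_)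
    rw [← Real.rpow_natCast ((k : ℝ) ^ y) 2, ← Real.rpow_mul hk0.le]
    refine Real.rpow_le_rpow_of_exponent_le hk1' ?_
    push_cast
    linarith
  exact (sq_le_sq₀ (Fn_nonneg15 β h k) (Real.rpow_nonneg hk0.le y)).1 h1

/-- **The problem's own wandering exponent**: at almost every tilt `h`, for every slope `v`,
`2 ν - 1 ≤ χ'`, hence `ν ≤ 2 / 3`. -/
theorem relO19 (hd : 0 < d) (hω : IID μ ρ ω) (hρ : EM ρ) (hM : MainHO d ρ β) :
    ∀ᵐ h : Vec d, ∀ v : Vec d, (∀ k : Vec d, lam ρ β h + inner ℝ v k ≤ lam ρ β (h + k)) →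
      2 * nuT μ β ω h v - 1 ≤ chiV μ β ω h ∧ nuT μ β ω h v ≤ 2 / 3 ∧
        chiV μ β ω h ≤ 1 / 3 := by
  have hM' : ∀ᵐ h : Vec d, ∃ v : Vec d,
      (∀ k : Vec d, lam ρ β h + inner ℝ v k ≤ lam ρ β (h + k)) ∧
      ∀ x δ : ℝ, 0 < x → x < 1 → (∀ᶠ k : ℕ in atTop, Fn ρ β h k ≤ (k : ℝ) ^ x) → x / 2 < δ →
        ∀ᵐ η ∂(law d ρ), ∀ᶠ n : ℕ in atTop,
          1 - PolT β h η (tube d n v ((n : ℝ) ^ (1 / 2 + δ))) ≤ 2 / n := hM
  have hL : ConvexOn ℝ Set.univ (lam (d := d) ρ β) := lam_convex hd hρ β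
  filter_upwards [hM', ae_upG hL] with h hv hU v hs
  obtain ⟨v₀, hv₀, hH⟩ := hv
  obtain ⟨v₁, hU⟩ := hU
  have e1 : v₀ = v := (sub_eq19 hU hv₀).trans (sub_eq19 hU hs).symm
  rw [e1] at hH
  have hc := chiV_le_half19 (μ := μ) (β := β) hd hω hρ h
  have hc0 : 0 ≤ chiV μ β ω h := Real.sInf_nonneg fun b hb => hb.1.le
  have key : 2 * nuT μ β ω h v - 1 ≤ chiV μ β ω h := by
    refine le_of_forall_gt_imp_ge_of_dense fun x hx => ?_
    obtain ⟨y, hy1, hy2⟩ := exists_between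
      (lt_min hx (show chiV μ β ω h < 1 by linarith))
    have hyx : y < x := hy2.trans_le (min_le_left _ _)
    have hy3 : y < 1 := hy2.trans_le (min_le_right _ _)
    have hy0 : 0 < y := lt_of_le_of_lt hc0 hy1
    have h2 : nuT μ β ω h v ≤ 1 / 2 + x / 2 :=
      nuT_le19 hω (by linarith) (hH y (x / 2) hy0 hy3 (fn_le19 hd hω hρ hy1) (by linarith))
    linarith
  have h1 := two_chiV19 (β := β) hd hω hρ h v
  have h2 := nuP_le_nuT19 (β := β) hd hω h v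
  refine ⟨key, ?_, ?_⟩ <;> linarith

end Pool.Agent.W_7d29a1_KP
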