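import Pool.Agent.W_7d29a1_KZ.MainKH70
import Pool.Agent.W_7d29a1_KL.SubD46
import Pool.Agent.W_7d29a1_KP.RelO19

/-!
Theorem KH in the letters of the problem: almost every tilt, with the alternative that the free
energy is flat to second order.
-/

namespace Pool.Agent.W_7d29a1_KP

open MeasureTheory ProbabilityTheory Filter Topology Pool.Agent.W_MP_7d29a1_pr
  Pool.Agent.W_7d29a1_h46 Pool.Agent.W_7d29a1_h46u Pool.Agent.W_7d29a1_D2
  Pool.Agent.W_7d29a1_D2.B35 Pool.Agent.W_7d29a1_Q29 Pool.Agent.W_7d29a1_R34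
  Pool.Agent.W_7d29a1_SP Pool.Agent.W_7d29a1_SD Pool.Agent.W_7d29a1_UC Pool.Agent.W_7d29a1_KZ
  Pool.Agent.W_7d29a1_KL Pool.Agent.W_7d29a1_D2.NuH99

variable {d : ℕ} {Ω : Type*} [MeasurableSpace Ω] {μ : Measure Ω} [IsProbabilityMeasure μ]
  {ρ : Measure ℝ} [IsProbabilityMeasure ρ] {ω : ℕ × Site d → Ω → ℝ} {β : ℝ}

/-- A function which is not flat to second order has a quadratic lower bound at small scales. -/
lemma loG19 {L : Vec d → ℝ} {h v : Vec d} (hF : ¬ FlG L h v) : LoG L h v 2 := by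
  unfold FlG at hF
  push Not at hF
  obtain ⟨c, hc, H⟩ := hF
  refine ⟨c, hc, fun δ hδ => ?_⟩
  obtain ⟨r, hr, h1⟩ := H δ hδ
  refine ⟨r, ?_, hr, ?_⟩
  · rcases (norm_nonneg r).eq_or_lt with h0 | h0
    · exfalso
      have hr0 : r = 0 := norm_eq_zero.1 h0.symm
      rw [hr0] at h1
      simp at h1
    · exact h0
  · unfold gap
    rw [Real.rpow_two]
    exact h1.le

/-- At almost every tilt with a quadratic upper and lower bound, `1 / 2 ≤ nuP`. -/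
theorem nuPH19 (hd : 0 < d) (hω : IID μ ρ ω) (hρ : EM ρ) : ∀ᵐ h : Vec d, ∀ v : Vec d,
    UpG (lam ρ β) h v 2 → LoG (lam ρ β) h v 2 → 1 / 2 ≤ nuP μ β ω h v := by
  have hL : ConvexOn ℝ Set.univ (lam (d := d) ρ β) := lam_convex hd hρ β
  have key : ∀ᵐ h : Vec d, ∀ (q : ℚ) (m : ℕ), h ∈ Gd (lam ρ β) μ β ω (q : ℝ) m →
      ∀ ε : ℝ, 0 < ε → ∃ s0 : ℝ, 0 < s0 ∧ ∀ r : Vec d, 0 < ‖r‖ → ‖r‖ ≤ s0 →
        ∃ k ∈ Gd (lam ρ β) μ β ω (q : ℝ) m, ‖k - (h + r)‖ ≤ ε * ‖r‖ :=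
    ae_all_iff.2 fun q => ae_all_iff.2 fun m => ae_dens _
  filter_upwards [key] with h hh v hU hLo
  by_contra hcon
  push Not at hcon
  have h0 : 0 ≤ nuP μ β ω h v := Real.sInf_nonneg fun b hb => hb.1.le
  obtain ⟨q, hq1, hq2⟩ := exists_rat_btwn hcon
  obtain ⟨n0, hn0⟩ := n0P19 hd hω.meas hq1 (show (0 : ℝ) < 1 / 8 by norm_num)
  obtain ⟨m, hm⟩ : ∃ m : ℕ, Pc μ β ω (1 / 8) (q : ℝ) (m + 1) h v := by
    refine ⟨max n0 ⌈‖v‖⌉₊, ?_, fun N hN => hn0 N ?_⟩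
    · have h1 := Nat.le_ceil ‖v‖
      have h2 : (⌈‖v‖⌉₊ : ℝ) ≤ (max n0 ⌈‖v‖⌉₊ : ℕ) := by exact_mod_cast le_max_right _ _
      push_cast at h2 ⊢
      linarith
    · exact (le_max_left n0 _).trans ((Nat.le_succ _).trans hN)
  exact no_density hd hL (h0.trans_lt hq1) hq2 m (hh q m ⟨v, gap_nonneg hL hU, hm⟩)
    (gap_nonneg hL hU) hU hLo hm

/-- **Theorem KH in the letters of the problem.** At almost every tilt `h`, for every slope `v`:
the free energy is flat to second order at `h`, or `1 / 2 ≤ ν'`, `χ' ≤ 2 ν' - 1` and both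
fluctuations are at most `n ^ x` for every `x > 2 ν' - 1`. -/
theorem relH19 (hd : 0 < d) (hω : IID μ ρ ω) (hρ : EM ρ) (hM : MainKH d ρ β)
    (hN : NvsP d ρ β) : ∀ᵐ h : Vec d, ∀ v : Vec d,
      (∀ k : Vec d, lam ρ β h + inner ℝ v k ≤ lam ρ β (h + k)) →
      FlG (lam ρ β) h v ∨ (1 / 2 ≤ nuP μ β ω h v ∧
        chiV μ β ω h ≤ 2 * nuP μ β ω h v - 1 ∧ ∀ x : ℝ, 2 * nuP μ β ω h v - 1 < x →
          FlucLe μ β ω h (lamN ρ β h) x) := by
  have hL : ConvexOn ℝ Set.univ (lam (d := d) ρ β) := lam_convex hd hρ β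
  have hM' : ∀ᵐ h : Vec d, ∀ v : Vec d,
      (∀ k : Vec d, lam ρ β h + inner ℝ v k ≤ lam ρ β (h + k)) →
      (∀ ε : ℝ, 0 < ε → ∃ δ : ℝ, 0 < δ ∧ ∀ r : Vec d, ‖r‖ ≤ δ →
        gap (lam ρ β) h v r ≤ ε * ‖r‖ ^ 2) ∨ (VSD ρ β h → KzAt ρ β h v) := hM
  filter_upwards [hM', ae_upG hL, nuPH19 (β := β) hd hω hρ] with h hh hU hn v hs
  obtain ⟨v₁, hU⟩ := hU
  have e1 : v = v₁ := sub_eq19 hU hs
  rw [← e1] at hU
  by_cases hF : FlG (lam ρ β) h v
  · exact Or.inl hF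
  · refine Or.inr ?_
    have hn := hn v hU (loG19 hF)
    have hK : VSD ρ β h → KzAt ρ β h v := by
      rcases hh v hs with h1 | h1
      · exact absurd h1 hF
      · exact h1
    have hK' : VSD ρ β h → ∀ δ : ℝ, 0 ≤ δ → δ < 1 / 2 → HalfD ρ β h v δ → ∀ x : ℝ, 2 * δ < x →
        ∀ᶠ n : ℕ in atTop, Va ρ β h n ≤ (n : ℝ) ^ (2 * x) ∧ En ρ β h n ≤ (n : ℝ) ^ x := by
      intro hV δ h0 h1 hH x hx
      obtain ⟨y, hy1, hy2⟩ := exists_between hx
      obtain ⟨C, hC0, hC⟩ := hK hV δ h0 h1 hH y hy1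
      have t1 : Tendsto (fun n : ℕ => (n : ℝ) ^ (x - y)) atTop atTop :=
        (tendsto_rpow_atTop (by linarith)).comp tendsto_natCast_atTop_atTop
      filter_upwards [t1.eventually_ge_atTop (max C 1), eventually_ge_atTop 1] with n hn1 hn2
      have hn2' : (1 : ℝ) ≤ n := by exact_mod_cast hn2
      have hn0 : (0 : ℝ) < n := by linarith
      have hC1 : C ≤ (n : ℝ) ^ (x - y) := (le_max_left _ _).trans hn1
      have h1' : 1 ≤ (n : ℝ) ^ (x - y) := (le_max_right _ _).trans hn1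
      obtain ⟨c1, c2, -⟩ := hC n hn2
      constructor
      · have e2 : (n : ℝ) ^ (2 * x) = (n : ℝ) ^ (x - y) * (n : ℝ) ^ (x - y) *
            (n : ℝ) ^ (2 * y) := by
          rw [← Real.rpow_add hn0, ← Real.rpow_add hn0]
          congr 1
          ring
        rw [e2]
        refine c1.trans (mul_le_mul_of_nonneg_right ?_ (Real.rpow_nonneg hn0.le _))
        nlinarith
      · have e2 : (n : ℝ) ^ x = (n : ℝ) ^ (x - y) * (n : ℝ) ^ y := by
          rw [← Real.rpow_add hn0]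
          congr 1
          ring
        rw [e2]
        exact c2.trans (mul_le_mul_of_nonneg_right hC1 (Real.rpow_nonneg hn0.le _))
    have key : ∀ x : ℝ, 2 * nuP μ β ω h v - 1 < x → FlucLe μ β ω h (lamN ρ β h) x := by
      intro x hx
      unfold FlucLe
      filter_upwards [upP19 hd hω hρ hN hK' (fun a ha => halfP19 hd hω ha) hn hx] with n h2
      rw [varV19 hd hω hρ, en19 hd hω hρ]
      exact ⟨h2.1, En_nonneg15 hd hρ β h n, h2.2⟩
    refine ⟨hn, ?_, key⟩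
    refine le_of_forall_gt_imp_ge_of_dense fun x hx => ?_
    exact csInf_le ⟨0, fun b hb => hb.1.le⟩ ⟨by linarith, (key x hx).mono fun n h3 => h3.1⟩

/-- The same with the wandering exponent of the problem. -/
theorem relHT19 (hd : 0 < d) (hω : IID μ ρ ω) (hρ : EM ρ) (hM : MainKH d ρ β)
    (hN : NvsP d ρ β) : ∀ᵐ h : Vec d, ∀ v : Vec d,
      (∀ k : Vec d, lam ρ β h + inner ℝ v k ≤ lam ρ β (h + k)) →
      FlG (lam ρ β) h v ∨ (1 / 2 ≤ nuT μ β ω h v ∧ chiV μ β ω h ≤ 2 * nuT μ β ω h v - 1) := by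
  filter_upwards [relH19 (μ := μ) hd hω hρ hM hN] with h hh v hs
  rcases hh v hs with h1 | ⟨b1, b2, b3⟩
  · exact Or.inl h1
  · have a4 := nuP_le_nuT19 (β := β) hd hω h v
    exact Or.inr ⟨by linarith, by linarith⟩

/-- **The scaling relation at almost every tilt**, with the exponent of the variance and the
wandering exponent of the problem, unless the free energy is flat to second order. -/
theorem relE19 (hd : 0 < d) (hω : IID μ ρ ω) (hρ : EM ρ) (hO : MainHO d ρ β)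
    (hM : MainKH d ρ β) (hN : NvsP d ρ β) : ∀ᵐ h : Vec d, ∀ v : Vec d,
      (∀ k : Vec d, lam ρ β h + inner ℝ v k ≤ lam ρ β (h + k)) →
      nuT μ β ω h v ≤ 2 / 3 ∧ chiV μ β ω h ≤ 1 / 3 ∧ 2 * nuT μ β ω h v - 1 ≤ chiV μ β ω h ∧
      (FlG (lam ρ β) h v ∨ (1 / 2 ≤ nuT μ β ω h v ∧ nuP μ β ω h v = nuT μ β ω h v ∧
        chiV μ β ω h = 2 * nuT μ β ω h v - 1 ∧ ∀ x : ℝ, 2 * nuT μ β ω h v - 1 < x →
          FlucLe μ β ω h (lamN ρ β h) x)) := by
  filter_upwards [relO19 (μ := μ) hd hω hρ hO, relH19 (μ := μ) hd hω hρ hM hN] with h h1 h2 v hs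
  obtain ⟨a1, a2, a3⟩ := h1 v hs
  have a4 := nuP_le_nuT19 (β := β) hd hω h v
  refine ⟨a2, a3, a1, ?_⟩
  rcases h2 v hs with h3 | ⟨b1, b2, b3⟩
  · exact Or.inl h3
  · have e : nuP μ β ω h v = nuT μ β ω h v := by linarith
    refine Or.inr ⟨by linarith, e, by linarith, fun x hx => b3 x ?_⟩
    rw [e]
    exact hx

end Pool.Agent.W_7d29a1_KP
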