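import Pool.Agent.W_7d29a1_KP.RelO27
import Pool.Agent.W_7d29a1_KP.DefsCQ16
import Pool.Agent.W_7d29a1_D2.Defs46

/-!
Theorem CURV in the form of KPZO: `2 ν - 1 ≤ χ'` for the wandering exponent of the problem, at every
tilt with an upper parabola.
-/

namespace Pool.Agent.W_7d29a1_KP

open MeasureTheory ProbabilityTheory Filter Topology Pool.Agent.W_MP_7d29a1_pr
  Pool.Agent.W_7d29a1_h46 Pool.Agent.W_7d29a1_h46u Pool.Agent.W_7d29a1_D2
  Pool.Agent.W_7d29a1_D2.B35 Pool.Agent.W_7d29a1_Q29 Pool.Agent.W_7d29a1_R34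
  Pool.Agent.W_7d29a1_SP Pool.Agent.W_7d29a1_SD Pool.Agent.W_7d29a1_UC
  Pool.Agent.W_7d29a1_KZ Pool.Agent.W_7d29a1_KL

variable {d : ℕ} {Ω : Type*} [MeasurableSpace Ω] {μ : Measure Ω} [IsProbabilityMeasure μ]
  {ρ : Measure ℝ} [IsProbabilityMeasure ρ] {ω : ℕ × Site d → Ω → ℝ} {β : ℝ}

/-- **The inequality `2 ν - 1 ≤ χ'` for the exponent `ν` of the problem at EVERY tilt `h` and every
`v` with an upper parabola of slope `v` at `h`** (`h = v = 0` included). -/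
theorem relQ27 (hd : 0 < d) (hω : IID μ ρ ω) (hρ : EM ρ) (hM : MainQO d ρ β) {h v : Vec d}
    (hU : UpG (lam ρ β) h v 2) : 2 * nuT μ β ω h v - 1 ≤ chiV μ β ω h := by
  obtain ⟨C, δ, hδ, hC⟩ := hU
  refine oneO27 hd hω hρ (hM h v (max C 1) δ (by positivity) hδ fun k hk => ?_)
  have h1 := hC k hk
  have h2 : gap (lam ρ β) h v k = lam ρ β (h + k) - lam ρ β h - inner ℝ v k := rfl
  have h3 : C * ‖k‖ ^ (2 : ℝ) ≤ max C 1 * ‖k‖ ^ 2 := by
    rw [show (2 : ℝ) = ((2 : ℕ) : ℝ) by norm_num, Real.rpow_natCast]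
    exact mul_le_mul_of_nonneg_right (le_max_left _ _) (sq_nonneg _)
  linarith

end Pool.Agent.W_7d29a1_KP
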