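import Pool.Agent.W_7d29a1_KP.RelQ27
import Pool.Agent.W_7d29a1_KP.FinQ16
import Pool.Agent.W_7d29a1_KP.QN89
import Pool.Agent.W_7d29a1_KP.MaxX78
import Pool.Agent.W_7d29a1_KP.LowU68
import Pool.Agent.W_7d29a1_KP.EfU30
import Pool.Agent.W_7d29a1_QM.KwE74
import Pool.Agent.W_7d29a1_QM.SinQ95

/-!
Theorem CURV in the form of KPZO: closed form for the laws of convex functions of a Gaussian.
-/

namespace Pool.Agent.W_7d29a1_KP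

open MeasureTheory ProbabilityTheory Filter Topology Pool.Agent.W_MP_7d29a1_pr
  Pool.Agent.W_7d29a1_h46 Pool.Agent.W_7d29a1_h46u Pool.Agent.W_7d29a1_D2
  Pool.Agent.W_7d29a1_D2.B35 Pool.Agent.W_7d29a1_Q29 Pool.Agent.W_7d29a1_R34
  Pool.Agent.W_7d29a1_SP Pool.Agent.W_7d29a1_SD Pool.Agent.W_7d29a1_UC
  Pool.Agent.W_7d29a1_KZ Pool.Agent.W_7d29a1_KL Pool.Agent.W_7d29a1_CV

variable {d : ℕ} {Ω : Type*} [MeasurableSpace Ω] {μ : Measure Ω} [IsProbabilityMeasure μ]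
  {ρ : Measure ℝ} [IsProbabilityMeasure ρ] {ω : ℕ × Site d → Ω → ℝ} {β : ℝ}

/-- The almost sure tube at every tilt with an upper parabola. -/
theorem mainQG27 (hd : 0 < d) (hρ : EM ρ) (hG : GC ρ) (hnc : ∀ c : ℝ, ρ {c} ≠ 1)
    (hβ : 0 < β) : MainQO d ρ β :=
  finQ16 (tubNQ89 hd hρ hG hβ (maxX78 hd hρ β) (lowN68 hd hρ hnc hβ)
    (sinQ95 hd hρ (kwE74 hd hρ hG hβ.le))) (efKU30 hd hρ hnc hβ)

/-- `2 ν - 1 ≤ χ'` at every tilt with an upper parabola, no hypothesis left. -/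
theorem relQG27 (hd : 0 < d) (hω : IID μ ρ ω) (hρ : EM ρ) (hG : GC ρ)
    (hnc : ∀ c : ℝ, ρ {c} ≠ 1) (hβ : 0 < β) {h v : Vec d} (hU : UpG (lam ρ β) h v 2) :
    2 * nuT μ β ω h v - 1 ≤ chiV μ β ω h :=
  relQ27 hd hω hρ (mainQG27 hd hρ hG hnc hβ) hU

end Pool.Agent.W_7d29a1_KP
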