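import Pool.Agent.W_7d29a1_KP.RelQ27
import Pool.Agent.W_7d29a1_KP.MainQ16
import Pool.Agent.W_7d29a1_KP.MainO30

/-!
Theorem CURV in the form of KPZO, and theorem KPZO: closed forms for every law with exponential
moments.
-/

namespace Pool.Agent.W_7d29a1_KP

open MeasureTheory ProbabilityTheory Filter Topology Pool.Agent.W_MP_7d29a1_pr
  Pool.Agent.W_7d29a1_h46 Pool.Agent.W_7d29a1_h46u Pool.Agent.W_7d29a1_D2
  Pool.Agent.W_7d29a1_D2.B35 Pool.Agent.W_7d29a1_Q29 Pool.Agent.W_7d29a1_R34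
  Pool.Agent.W_7d29a1_SP Pool.Agent.W_7d29a1_SD Pool.Agent.W_7d29a1_UC
  Pool.Agent.W_7d29a1_KZ Pool.Agent.W_7d29a1_KL

variable {d : ℕ} {Ω : Type*} [MeasurableSpace Ω] {μ : Measure Ω} [IsProbabilityMeasure μ]
  {ρ : Measure ℝ} [IsProbabilityMeasure ρ] {ω : ℕ × Site d → Ω → ℝ} {β : ℝ}

/-- `2 ν - 1 ≤ χ'` at every tilt and every `v` with an upper parabola, every law. -/
theorem relQU27 (hd : 0 < d) (hω : IID μ ρ ω) (hρ : EM ρ) (hnc : ∀ c : ℝ, ρ {c} ≠ 1)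
    (hβ : 0 < β) (h v : Vec d) (hU : UpG (lam ρ β) h v 2) :
    2 * nuT μ β ω h v - 1 ≤ chiV μ β ω h :=
  relQ27 hd hω hρ (mainQ16 hd hρ hnc hβ) hU

/-- `2 ν - 1 ≤ χ'` at almost every tilt and every slope, every law. -/
theorem relOU27 (hd : 0 < d) (hω : IID μ ρ ω) (hρ : EM ρ) (hnc : ∀ c : ℝ, ρ {c} ≠ 1)
    (hβ : 0 < β) : ∀ᵐ h : Vec d, ∀ v : Vec d,
      (∀ k, lam ρ β h + inner ℝ v k ≤ lam ρ β (h + k)) →
        2 * nuT μ β ω h v - 1 ≤ chiV μ β ω h :=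
  relO27 hd hω hρ (mainHOU30 hd hρ hnc hβ)

end Pool.Agent.W_7d29a1_KP
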