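import Pool.Agent.W_7d29a1_KP.DefsKO62
import Pool.Agent.W_7d29a1_KZ.Gap42

/-!
Theorem KPZO, leaf TUB1 (helper88): the tube at one length, by halving over the exit points.
-/

namespace Pool.Agent.W_7d29a1_KP.T88

open MeasureTheory ProbabilityTheory Filter Topology Pool.Agent.W_MP_7d29a1_pr
  Pool.Agent.W_7d29a1_h46 Pool.Agent.W_7d29a1_h46u Pool.Agent.W_7d29a1_D2.B35
  Pool.Agent.W_7d29a1_Q29 Pool.Agent.W_7d29a1_R34 Pool.Agent.W_7d29a1_SP Pool.Agent.W_7d29a1_SD
  Pool.Agent.W_7d29a1_SQ Pool.Agent.W_7d29a1_KZ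

variable {d n : ℕ} {ρ : Measure ℝ} {β : ℝ}

/-- The exit labels. -/
lemma lab88 (n : ℕ) (v : Vec d) (R : ℝ) : ∃ l : (Fin n → Step d) → ℕ × Site d,
    ∀ s, s ∉ tube d n v R → (l s).1 ≤ n ∧ pos s (l s).1 = (l s).2 ∧
      R < ‖emb (l s).2 - ((l s).1 : ℝ) • v‖ := by
  have h : ∀ s : Fin n → Step d, ∃ y : ℕ × Site d, s ∉ tube d n v R →
      y.1 ≤ n ∧ pos s y.1 = y.2 ∧ R < ‖emb y.2 - (y.1 : ℝ) • v‖ := by
    intro s
    by_cases hs : s ∈ tube d n v R
    · exact ⟨0, fun h => absurd hs h⟩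
    · have h1 : ∃ i ≤ n, R < ‖emb (pos s i) - (i : ℝ) • v‖ := by
        by_contra hcon
        push Not at hcon
        exact hs hcon
      obtain ⟨i, hi, hR⟩ := h1
      exact ⟨(i, pos s i), fun _ => ⟨hi, rfl, hR⟩⟩
  choose l hl using h
  exact ⟨l, hl⟩

/-- The class of the walks of `O` with the label `y`. -/
def cl (O : Set (Fin n → Step d)) (l : (Fin n → Step d) → ℕ × Site d) (y : ℕ × Site d) :
    Set (Fin n → Step d) := {s | s ∈ O ∧ l s = y}

/-- The walks of `O` with labels in `D`. -/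
def cD (O : Set (Fin n → Step d)) (l : (Fin n → Step d) → ℕ × Site d)
    (D : Finset (ℕ × Site d)) : Set (Fin n → Step d) := {s | s ∈ O ∧ l s ∈ D}

/-- The free energy of a class. -/
noncomputable def V88 (β : ℝ) (h : Vec d) (O : Set (Fin n → Step d))
    (l : (Fin n → Step d) → ℕ × Site d) (y : ℕ × Site d) (η : Env d) : ℝ :=
  Real.log (ZT β h η (cl O l y))

lemma V_meas88 (h : Vec d) (O : Set (Fin n → Step d)) (l : (Fin n → Step d) → ℕ × Site d)
    (y : ℕ × Site d) : Measurable (V88 β h O l y) :=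
  Real.measurable_log.comp (measurable_ZT β h _)

lemma sum_cl88 (h : Vec d) (O : Set (Fin n → Step d)) (l : (Fin n → Step d) → ℕ × Site d)
    (D : Finset (ℕ × Site d)) (η : Env d) :
    ∑ y ∈ D, ZT β h η (cl O l y) = ZT β h η (cD O l D) := by
  classical
  unfold ZT
  rw [Finset.sum_comm]
  refine Finset.sum_congr rfl fun s _ => ?_
  by_cases hs : s ∈ O
  · have h1 : ∀ y ∈ D, (if s ∈ cl O l y then wgt β h η s else 0) =
        if l s = y then wgt β h η s else 0 := by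
      intro y _
      by_cases hy : l s = y
      · have h2 : s ∈ cl O l y := ⟨hs, hy⟩
        rw [if_pos h2, if_pos hy]
      · have h2 : s ∉ cl O l y := fun h3 => hy h3.2
        rw [if_neg h2, if_neg hy]
    rw [Finset.sum_congr rfl h1, Finset.sum_ite_eq]
    by_cases hD : l s ∈ D
    · have h2 : s ∈ cD O l D := ⟨hs, hD⟩
      rw [if_pos hD, if_pos h2]
    · have h2 : s ∉ cD O l D := fun h3 => hD h3.2
      rw [if_neg hD, if_neg h2]
  · have h1 : ∀ y ∈ D, (if s ∈ cl O l y then wgt β h η s else 0) = 0 := by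
      intro y _
      have h2 : s ∉ cl O l y := fun h3 => hs h3.1
      rw [if_neg h2]
    have h3 : s ∉ cD O l D := fun h4 => hs h4.1
    rw [Finset.sum_congr rfl h1, Finset.sum_const_zero, if_neg h3]

lemma W_eq88 (h : Vec d) (O : Set (Fin n → Step d)) (l : (Fin n → Step d) → ℕ × Site d)
    {D : Finset (ℕ × Site d)} (hD : ∀ y ∈ D, (cl O l y).Nonempty) (η : Env d) :
    W42 (fun _ => 1) (V88 β h O l) D η = Real.log (ZT β h η (cD O l D)) := by
  unfold W42
  rw [← sum_cl88]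
  congr 1
  refine Finset.sum_congr rfl fun y hy => ?_
  rw [one_mul]
  exact Real.exp_log (ZT_pos β h η (hD y hy))

/-- Ehrhard's inequality for the free energy of a nonempty set of walks. -/
lemma lkE88 [IsProbabilityMeasure ρ] (hG : GC ρ) (hβ : 0 ≤ β) (h : Vec d)
    {E : Set (Fin n → Step d)} (hE : E.Nonempty) :
    Lk42 (law d ρ) (fun η => Real.log (ZT β h η E)) := by
  classical
  have hn : Nonempty {s : Fin n → Step d // s ∈ E} := hE.to_subtype
  have h1 : (fun η : Env d => Real.log (ZT β h η E)) =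
      Pool.Agent.W_7d29a1_NR.L84.LS (m := n) β
        (fun s : {s : Fin n → Step d // s ∈ E} => inner ℝ h (emb (pos s.1 n)))
        (fun s i => ((i : ℕ) + 1, pos s.1 ((i : ℕ) + 1))) := by
    funext η
    unfold Pool.Agent.W_7d29a1_NR.L84.LS ZT
    congr 1
    rw [← Finset.sum_filter, Finset.sum_subtype (p := fun s => s ∈ E)
      (Finset.univ.filter fun s => s ∈ E) (by intro s; simp)]
    rfl
  rw [h1]
  intro a b s0 s1 t ht ha hb
  exact Pool.Agent.W_7d29a1_NR.L84.luckS84 hG hβ _ _ ht ha hb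

/-! ### Probabilities -/

section Pr

variable {Ω : Type*} [MeasurableSpace Ω]

/-- The median from a tail of positive probability. -/
lemma half88 (P : Measure Ω) [IsProbabilityMeasure P] {W : Ω → ℝ} (hW : Measurable W)
    (hL : Lk42 P W) {q z T U : ℝ} (hz : 1 - q ≤ Ehr.Phi z) (hz0 : 0 ≤ z)
    (hq : q ≤ P.real {x | T + 1 ≤ W x}) (hTU : T < U)
    (hU : P.real {x | U < W x} < 1 - Ehr.Phi (2 * z)) :
    1 / 2 ≤ P.real {x | T - (U - T) ≤ W x} := by
  obtain ⟨M, hM1, hM2⟩ := med42 P hW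
  rcases lt_or_ge (T - (U - T)) M with h | h
  · have h1 := hM2 _ h
    have h2 := gt42 P hW (T - (U - T))
    have h3 : P.real {x | T - (U - T) < W x} ≤ P.real {x | T - (U - T) ≤ W x} :=
      measureReal_mono fun x (hx : T - (U - T) < W x) => hx.le
    linarith
  · exfalso
    obtain ⟨b, hb⟩ : ∃ b : ℝ, b = T - M := ⟨_, rfl⟩
    have hb0 : 0 < b := by rw [hb]; linarith
    have hbU : U - T ≤ b := by rw [hb]; linarith
    obtain ⟨τ, hτ⟩ : ∃ τ : ℝ, τ = (U - T) / b := ⟨_, rfl⟩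
    have hτ0 : 0 ≤ τ := by
      rw [hτ]
      exact div_nonneg (by linarith) hb0.le
    have hτ1 : τ ≤ 1 := by
      rw [hτ]
      exact (div_le_one hb0).2 hbU
    have h1 : P.real {x | W x ≤ T} ≤ Ehr.Phi z := by
      have hm : MeasurableSet {x : Ω | T + 1 ≤ W x} := measurableSet_le measurable_const hW
      have h2 := probReal_compl_eq_one_sub (μ := P) hm
      have h3 : P.real {x | W x ≤ T} ≤ P.real {x | T + 1 ≤ W x}ᶜ := by
        refine measureReal_mono fun x (hx : W x ≤ T) => ?_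
        show ¬ (T + 1 ≤ W x)
        push Not
        linarith
      linarith
    have h5 := hL 0 z M T τ hτ0 (by
      rw [Pool.Agent.W_7d29a1_NR.Phi_zero44]
      exact hM1) h1
    have e1 : T + τ * (T - M) = U := by
      rw [← hb, hτ]
      field_simp
      ring
    rw [e1, sub_zero] at h5
    have h6 : Ehr.Phi (z + τ * z) ≤ Ehr.Phi (2 * z) :=
      Ehr.Phi_strictMono.monotone (by nlinarith)
    have h7 := gt42 P hW U
    linarith

/-- Markov's inequality for a variable with values in `[0,1]`. -/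
lemma mk88 (P : Measure Ω) [IsProbabilityMeasure P] {p : Ω → ℝ} (hp : Measurable p)
    (h0 : ∀ x, 0 ≤ p x) (h1 : ∀ x, p x ≤ 1) {ε : ℝ} (hε : ε < ∫ x, p x ∂P) :
    ε / 2 ≤ P.real {x | ε / 2 ≤ p x} := by
  by_contra hcon
  push Not at hcon
  have hm : MeasurableSet {x : Ω | ε / 2 ≤ p x} := measurableSet_le measurable_const hp
  have h2 : ∀ x, p x ≤ ({x | ε / 2 ≤ p x}.indicator (fun _ => (1 : ℝ)) x) + ε / 2 := by
    intro x
    by_cases hx : x ∈ {x | ε / 2 ≤ p x}
    · rw [Set.indicator_of_mem hx]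
      have hx' : ε / 2 ≤ p x := hx
      rcases le_or_gt 0 ε with h | h
      · linarith [h1 x]
      · exfalso
        linarith [measureReal_nonneg (μ := P) (s := {x | ε / 2 ≤ p x})]
    · rw [Set.indicator_of_notMem hx]
      have hx' : ¬ (ε / 2 ≤ p x) := hx
      push Not at hx'
      linarith
  have hi : Integrable p P := by
    refine Integrable.of_bound hp.aestronglyMeasurable 1 (Eventually.of_forall fun x => ?_)
    rw [Real.norm_eq_abs, abs_of_nonneg (h0 x)]
    exact h1 x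
  have hI : Integrable ({x | ε / 2 ≤ p x}.indicator (fun _ => (1 : ℝ))) P :=
    (integrable_const 1).indicator hm
  have h3 : ∫ x, p x ∂P ≤ ∫ x, (({x | ε / 2 ≤ p x}.indicator (fun _ => (1 : ℝ)) x) + ε / 2) ∂P :=
    integral_mono hi (hI.add (integrable_const _)) h2
  rw [integral_add hI (integrable_const _), integral_indicator_const _ hm] at h3
  simp only [smul_eq_mul, mul_one, integral_const, probReal_univ, one_mul] at h3
  linarith

end Pr

/-- The upper tail of the free energy. -/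
lemma up88 [IsProbabilityMeasure ρ] (hd : 0 < d) (hρ : EM ρ) (h : Vec d) {P κ : ℝ}
    (hF : Fn ρ β h n ≤ P) (hP : 0 < P) (hκ : 0 < κ) :
    (law d ρ).real {η | n * lam ρ β h + P / κ < X β h η n} ≤ κ := by
  have hi := (intX15 (ρ := ρ) hd hρ β h n).abs
  have h1 := mul_meas_ge_le_integral_of_nonneg (μ := law d ρ)
    (Eventually.of_forall fun η => abs_nonneg (X β h η n - A ρ β h n)) hi (P / κ)
  have h2 : ∫ η, |X β h η n - A ρ β h n| ∂(law d ρ) = Fn ρ β h n := rfl
  rw [h2] at h1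
  have hA := A_le_lam hd hρ β h n
  have h3 : (law d ρ).real {η | n * lam ρ β h + P / κ < X β h η n} ≤
      (law d ρ).real {η | P / κ ≤ |X β h η n - A ρ β h n|} := by
    refine measureReal_mono fun η (hη : n * lam ρ β h + P / κ < X β h η n) => ?_
    show P / κ ≤ |X β h η n - A ρ β h n|
    exact le_trans (by linarith) (le_abs_self _)
  have h4 : P / κ * (law d ρ).real {η | P / κ ≤ |X β h η n - A ρ β h n|} ≤ P := h1.trans hF
  rw [div_mul_eq_mul_div, div_le_iff₀ hκ] at h4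
  have h5 := le_of_mul_le_mul_left h4 hP
  exact h3.trans h5

/-- The lower tail of the free energy. -/
lemma low88 [IsProbabilityMeasure ρ] (hd : 0 < d) (hρ : EM ρ) (h : Vec d) {P ε : ℝ}
    (hF : Fn ρ β h n ≤ P) (hP : 0 < P) (hε : 0 < ε) :
    (law d ρ).real {η | X β h η n < A ρ β h n - 4 * P / ε} ≤ ε / 4 := by
  have hi := (intX15 (ρ := ρ) hd hρ β h n).abs
  have h1 := mul_meas_ge_le_integral_of_nonneg (μ := law d ρ)
    (Eventually.of_forall fun η => abs_nonneg (X β h η n - A ρ β h n)) hi (4 * P / ε)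
  have h2 : ∫ η, |X β h η n - A ρ β h n| ∂(law d ρ) = Fn ρ β h n := rfl
  rw [h2] at h1
  have h3 : (law d ρ).real {η | X β h η n < A ρ β h n - 4 * P / ε} ≤
      (law d ρ).real {η | 4 * P / ε ≤ |X β h η n - A ρ β h n|} := by
    refine measureReal_mono fun η (hη : X β h η n < A ρ β h n - 4 * P / ε) => ?_
    show 4 * P / ε ≤ |X β h η n - A ρ β h n|
    rw [abs_sub_comm]
    exact le_trans (by linarith) (le_abs_self _)
  have h4 : 4 * P / ε * (law d ρ).real {η | 4 * P / ε ≤ |X β h η n - A ρ β h n|} ≤ P :=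
    h1.trans hF
  rw [div_mul_eq_mul_div, div_le_iff₀ hε] at h4
  have h5 : (law d ρ).real {η | 4 * P / ε ≤ |X β h η n - A ρ β h n|} ≤ ε / 4 := by
    have h6 : P * (4 * (law d ρ).real {η | 4 * P / ε ≤ |X β h η n - A ρ β h n|}) ≤ P * ε := by
      calc P * (4 * (law d ρ).real {η | 4 * P / ε ≤ |X β h η n - A ρ β h n|})
          = 4 * P * (law d ρ).real {η | 4 * P / ε ≤ |X β h η n - A ρ β h n|} := by ring
        _ ≤ P * ε := h4
    have h7 := le_of_mul_le_mul_left h6 hP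
    linarith
  exact h3.trans h5

/-- The mass outside. -/
lemma out88 (hd : 0 < d) (h : Vec d) (η : Env d) (E : Set (Fin n → Step d)) :
    1 - PolT β h η E = ZT β h η Eᶜ / Z β h η n := by
  classical
  have hZ : 0 < ZT β h η (Set.univ : Set (Fin n → Step d)) := ZT_univ_pos hd β h η
  have h1 : ZT β h η E + ZT β h η Eᶜ = ZT β h η (Set.univ : Set (Fin n → Step d)) := by
    unfold ZT
    rw [← Finset.sum_add_distrib]
    refine Finset.sum_congr rfl fun s _ => ?_
    by_cases hs : s ∈ E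
    · have h2 : s ∉ Eᶜ := fun h3 => h3 hs
      rw [if_pos hs, if_neg h2, if_pos (Set.mem_univ s), add_zero]
    · have h2 : s ∈ Eᶜ := hs
      rw [if_neg hs, if_pos h2, if_pos (Set.mem_univ s), zero_add]
  unfold PolT Z
  rw [← h1] at hZ ⊢
  rw [eq_div_iff hZ.ne', sub_mul, div_mul_cancel₀ _ hZ.ne']
  ring

/-- **Leaf TUB1.** -/
theorem tubA88 [IsProbabilityMeasure ρ] (hd : 0 < d) (hρ : EM ρ) (hG : GC ρ) (hβ : 0 ≤ β)
    (hS : SinK d ρ β) : Tub1 d ρ β := by
  classical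
  intro η₁ M hη hM
  obtain ⟨c, K, hc0, hc1, hK, hnum⟩ := num42 (d := d + 1) (Nat.succ_pos d) hη
  obtain ⟨κ₁, hκ₁⟩ : ∃ κ₁ : ℝ, κ₁ = Ehr.Phi (-(1 + 1 / c)) := ⟨_, rfl⟩
  have hκ₁p : 0 < κ₁ := by
    rw [hκ₁]
    exact Ehr.Phi_pos _
  obtain ⟨B, hB⟩ : ∃ B : ℝ, B = 3 + 2 / κ₁ := ⟨_, rfl⟩
  have hB0 : 0 ≤ B := by rw [hB]; positivity
  obtain ⟨B', hB'⟩ : ∃ B' : ℝ, B' = 18 + K * (B + (B + 3) / c) := ⟨_, rfl⟩
  refine ⟨max 1 (32 * M * d * B'), le_max_left _ _, ?_⟩
  intro h v n P R r T z hn hP hR hz1 hr hD hTl hprob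
  have hn1 : (1 : ℝ) ≤ n := by exact_mod_cast hn
  have hd1 : (1 : ℝ) ≤ d := by exact_mod_cast hd
  have hP0 : 0 < P := by linarith
  obtain ⟨hFP, hEP⟩ := hD.fl n le_rfl
  obtain ⟨O, hO⟩ : ∃ O : Set (Fin n → Step d), O = (tube d n v R)ᶜ := ⟨_, rfl⟩
  rw [← hO] at hprob
  obtain ⟨l, hl⟩ := lab88 (d := d) n v R
  have hOne : O.Nonempty := by
    by_contra hcon
    rw [Set.not_nonempty_iff_eq_empty] at hcon
    have h1 : {η : Env d | Real.exp T ≤ ZT β h η O} = ∅ := by
      ext η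
      constructor
      · intro h2
        have h3 : Real.exp T ≤ ZT β h η O := h2
        rw [hcon] at h3
        unfold ZT at h3
        simp only [Set.mem_empty_iff_false, if_false, Finset.sum_const_zero] at h3
        exact absurd h3 (not_le.2 (Real.exp_pos T))
      · intro h2
        exact absurd h2 (Set.notMem_empty η)
    rw [h1, measureReal_empty] at hprob
    linarith [Ehr.Phi_pos (-z)]
  -- the labels
  obtain ⟨S, hSd⟩ : ∃ S : Finset (ℕ × Site d), S = (Finset.univ.filter fun s => s ∈ O).image l :=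
    ⟨_, rfl⟩
  have hScl : ∀ y ∈ S, (cl O l y).Nonempty := by
    intro y hy
    rw [hSd, Finset.mem_image] at hy
    obtain ⟨s, hs, hsy⟩ := hy
    exact ⟨s, (Finset.mem_filter.1 hs).2, hsy⟩
  have hSO : ∀ s ∈ O, l s ∈ S := by
    intro s hs
    rw [hSd]
    exact Finset.mem_image_of_mem l (Finset.mem_filter.2 ⟨Finset.mem_univ _, hs⟩)
  have hlO : ∀ s ∈ O, (l s).1 ≤ n ∧ pos s (l s).1 = (l s).2 ∧
      R < ‖emb (l s).2 - ((l s).1 : ℝ) • v‖ := by
    intro s hs
    rw [hO] at hs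
    exact hl s hs
  have hSn : S.Nonempty := by
    obtain ⟨s, hs⟩ := hOne
    exact ⟨l s, hSO s hs⟩
  obtain ⟨J, hJ1, hJ2⟩ := hnum n hn
  have hScard : S.card ≤ 2 ^ J := by
    refine le_trans ?_ hJ1
    have h1 : S ⊆ Finset.range (n + 1) ×ˢ boxF d n := by
      intro y hy
      obtain ⟨s, hs, hsy⟩ := hScl y hy
      obtain ⟨h2, h3, -⟩ := hlO s hs
      rw [hsy] at h2 h3
      rw [Finset.mem_product, Finset.mem_range, ← h3]
      exact ⟨by omega, pos_mem_box s _⟩
    refine (Finset.card_le_card h1).trans ?_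
    rw [Finset.card_product, Finset.card_range]
    have h2 : (boxF d n).card = (2 * n + 1) ^ d := by exact_mod_cast card_boxF d n
    rw [h2]
    calc (n + 1) * (2 * n + 1) ^ d ≤ (2 * n + 1) * (2 * n + 1) ^ d :=
          Nat.mul_le_mul_right _ (by omega)
      _ = (2 * n + 1) ^ (d + 1) := by ring
  have hcD : cD O l S = O := by
    ext s
    exact ⟨fun hs => hs.1, fun hs => ⟨hs, hSO s hs⟩⟩
  have hWe : ∀ η : Env d, W42 (fun _ => 1) (V88 β h O l) S η = Real.log (ZT β h η O) := by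
    intro η
    rw [W_eq88 h O l hScl η, hcD]
  have hw : ∀ y ∈ S, (0 : ℝ) < (fun _ : ℕ × Site d => (1 : ℝ)) y ∧
      (fun _ : ℕ × Site d => (1 : ℝ)) y ≤ 1 := fun y _ => ⟨one_pos, le_rfl⟩
  have hVm : ∀ y ∈ S, Measurable (V88 β h O l y) := fun y _ => V_meas88 h O l y
  have hL : ∀ D : Finset (ℕ × Site d), D ⊆ S → D.Nonempty →
      Lk42 (law d ρ) (W42 (fun _ => 1) (V88 β h O l) D) := by
    intro D hDS hDn
    have h1 : W42 (fun _ => 1) (V88 β h O l) D = fun η : Env d =>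
        Real.log (ZT β h η (cD O l D)) := by
      funext η
      exact W_eq88 h O l (fun y hy => hScl y (hDS hy)) η
    rw [h1]
    refine lkE88 hG hβ h ?_
    obtain ⟨y, hy⟩ := hDn
    obtain ⟨s, hs, hsy⟩ := hScl y (hDS hy)
    refine ⟨s, hs, ?_⟩
    rw [hsy]
    exact hy
  have hWm : Measurable (W42 (fun _ => 1) (V88 β h O l) S) := W_meas42 hVm
  -- the levels
  obtain ⟨Q, hQ⟩ : ∃ Q : ℝ, Q = Ehr.Phi (-(2 * z)) := ⟨_, rfl⟩
  have hQ0 : 0 < Q := by
    rw [hQ]
    exact Ehr.Phi_pos _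
  have hadd := A84.Phi_add
  have hQ1 : Q ≤ 1 := by
    have h1 := hadd (2 * z)
    have h2 := Ehr.Phi_pos (2 * z)
    rw [hQ]
    linarith
  obtain ⟨κ, hκ⟩ : ∃ κ : ℝ, κ = min Q κ₁ / 2 := ⟨_, rfl⟩
  have hmp : 0 < min Q κ₁ := lt_min hQ0 hκ₁p
  have hκp : 0 < κ := by rw [hκ]; linarith
  have hκQ : κ < Q := by
    have := min_le_left Q κ₁
    rw [hκ]
    linarith
  have hκκ : κ < κ₁ := by
    have := min_le_right Q κ₁
    rw [hκ]
    linarith
  obtain ⟨U, hU⟩ : ∃ U : ℝ, U = n * lam ρ β h + P / κ := ⟨_, rfl⟩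
  obtain ⟨T₀, hT₀⟩ : ∃ T₀ : ℝ, T₀ = T - 1 := ⟨_, rfl⟩
  have hPκ : 0 < P / κ := div_pos hP0 hκp
  have hTU : T₀ < U := by rw [hT₀, hU]; linarith
  have hXle : ∀ η : Env d, Real.log (ZT β h η O) ≤ X β h η n := fun η =>
    Real.log_le_log (ZT_pos β h η hOne) (ZT_mono β h η (Set.subset_univ O))
  have hup : (law d ρ).real {η | U < W42 (fun _ => 1) (V88 β h O l) S η} ≤ κ := by
    refine le_trans (measureReal_mono fun η hη => ?_) (up88 (β := β) hd hρ h hFP hP0 hκp)
    have h1 : U < W42 (fun _ => 1) (V88 β h O l) S η := hη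
    rw [hWe, hU] at h1
    show n * lam ρ β h + P / κ < X β h η n
    exact h1.trans_le (hXle η)
  have hlow : Ehr.Phi (-z) ≤
      (law d ρ).real {η | T₀ + 1 ≤ W42 (fun _ => 1) (V88 β h O l) S η} := by
    refine hprob.trans (measureReal_mono fun η hη => ?_)
    have h1 : Real.exp T ≤ ZT β h η O := hη
    show T₀ + 1 ≤ W42 (fun _ => 1) (V88 β h O l) S η
    rw [hWe, hT₀, sub_add_cancel]
    exact (Real.le_log_iff_exp_le (ZT_pos β h η hOne)).2 h1
  have hhalf := half88 (law d ρ) hWm (hL S (Finset.Subset.refl S) hSn) (q := Ehr.Phi (-z))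
    (z := z) (by linarith [hadd z]) (by linarith) hlow hTU (by
      have h1 := hadd (2 * z)
      rw [← hQ] at h1
      linarith)
  have h4 : Ehr.Phi (1 + 1 / c) <
      (law d ρ).real {η | W42 (fun _ => 1) (V88 β h O l) S η ≤ T₀ + (U - T₀)} := by
    have h5 := gt42 (law d ρ) hWm U
    have e1 : T₀ + (U - T₀) = U := by ring
    have h6 := hadd (1 + 1 / c)
    rw [← hκ₁] at h6
    rw [e1]
    linarith
  have hu : ∀ y ∈ S, ∀ u, n * lam ρ β h - R ^ 2 / (32 * M * d * n) + 16 * P < u →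
      (law d ρ).real {η | u ≤ V88 β h O l y η} < 1 / 2 := by
    intro y hy u hu
    have hcls : ∀ s ∈ cl O l y, pos s y.1 = y.2 := by
      intro s hs
      have h5 := (hlO s hs.1).2.1
      rw [hs.2] at h5
      exact h5
    obtain ⟨s, hs, hsy⟩ := hScl y hy
    obtain ⟨h5, -, h7⟩ := hlO s hs
    rw [hsy] at h5 h7
    exact hS h v n M P R r hn hM hP0.le hR hr hD y.1 y.2 (cl O l y) h5 (hScl y hy) hcls h7 u hu
  have key := halv42 (law d ρ) hw hVm hL hc0 hc1 (a := U - T₀) (T := T₀)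
    (u₀ := n * lam ρ β h - R ^ 2 / (32 * M * d * n) + 16 * P) (by linarith) h4 hu J S
    (Finset.Subset.refl S) hSn hScard (T₀ - (U - T₀)) (by linarith) hhalf
  -- the arithmetic
  obtain ⟨a, ha⟩ : ∃ a : ℝ, a = U - T₀ := ⟨_, rfl⟩
  obtain ⟨N, hN⟩ : ∃ N : ℝ, N = (n : ℝ) ^ η₁ := ⟨_, rfl⟩
  obtain ⟨G, hGd⟩ : ∃ G : ℝ, G = n * lam ρ β h - T := ⟨_, rfl⟩
  obtain ⟨F, hF⟩ : ∃ F : ℝ, F = P / Q := ⟨_, rfl⟩
  have hG0 : 0 ≤ G := by rw [hGd]; linarith
  have hPF : P ≤ F := by
    rw [hF]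
    exact le_div_self hP0.le hQ0 hQ1
  obtain ⟨H, hH⟩ : ∃ H : ℝ, H = F + G := ⟨_, rfl⟩
  have hH0 : 0 ≤ H := by rw [hH]; linarith
  have hN1 : 1 ≤ N := by
    rw [hN]
    exact Real.one_le_rpow hn1 hη.le
  rw [← hN] at hJ2
  have e2 : T₀ - (T₀ - (U - T₀)) = a := by rw [ha]; ring
  rw [e2, ← ha] at key
  have hPκ2 : P / κ ≤ 2 * F + 2 / κ₁ * F := by
    have h5 : 1 / min Q κ₁ ≤ 1 / Q + 1 / κ₁ := by
      rcases min_choice Q κ₁ with h6 | h6
      · rw [h6]
        have : 0 < 1 / κ₁ := by positivity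
        linarith
      · rw [h6]
        have : 0 < 1 / Q := by positivity
        linarith
    have e3 : P / κ = 2 * P * (1 / min Q κ₁) := by
      rw [hκ]
      field_simp
    have h7 : 2 * P * (1 / min Q κ₁) ≤ 2 * P * (1 / Q + 1 / κ₁) :=
      mul_le_mul_of_nonneg_left h5 (by linarith)
    have e4 : 2 * P * (1 / Q + 1 / κ₁) = 2 * F + 2 / κ₁ * P := by
      rw [hF]
      ring
    have h8 : 2 / κ₁ * P ≤ 2 / κ₁ * F := mul_le_mul_of_nonneg_left hPF (by positivity)
    rw [e3]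
    linarith
  have ha1 : a ≤ B * H := by
    have e3 : B * H = 3 * F + 2 / κ₁ * F + B * G := by
      rw [hB, hH]
      ring
    have h5 : G ≤ B * G := by
      refine le_mul_of_one_le_left hG0 ?_
      rw [hB]
      have : 0 < 2 / κ₁ := by positivity
      linarith
    rw [e3, ha, hU, hT₀]
    linarith
  have ha0 : 0 ≤ a := by rw [ha]; linarith
  have hKN : 0 ≤ K * N := mul_nonneg hK.le (by linarith)
  have h8 : ((1 + c) ^ J - 1) / c ≤ K * N / c :=
    div_le_div_of_nonneg_right (by linarith) hc0.le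
  have h9 : (1 + c) ^ J * a ≤ K * N * (B * H) := by
    calc (1 + c) ^ J * a ≤ K * N * a := mul_le_mul_of_nonneg_right hJ2 ha0
      _ ≤ K * N * (B * H) := mul_le_mul_of_nonneg_left ha1 hKN
  have h10 : (a + 3) * (((1 + c) ^ J - 1) / c) ≤ (B + 3) * H * (K * N / c) := by
    have h11 : 0 ≤ K * N / c := div_nonneg hKN hc0.le
    have e6 : (B + 3) * H = B * H + 3 * H := by ring
    have h12 : a + 3 ≤ (B + 3) * H := by
      rw [e6]
      linarith
    calc (a + 3) * (((1 + c) ^ J - 1) / c) ≤ (a + 3) * (K * N / c) :=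
          mul_le_mul_of_nonneg_left h8 (by linarith)
      _ ≤ (B + 3) * H * (K * N / c) := mul_le_mul_of_nonneg_right h12 h11
  have h13 : R ^ 2 / (32 * M * d * n) ≤ 18 * H + K * N * (B * H) +
      (B + 3) * H * (K * N / c) := by
    rw [hT₀] at key
    linarith
  have h15 : 18 * H + K * N * (B * H) + (B + 3) * H * (K * N / c) ≤ B' * (N * H) := by
    have e4 : B' * (N * H) = 18 * (N * H) + K * N * (B * H) +
        (B + 3) * H * (K * N / c) := by
      rw [hB']
      ring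
    have h16 : H ≤ N * H := le_mul_of_one_le_left hH0 hN1
    rw [e4]
    linarith
  have h18 : 0 < 32 * M * d * n :=
    mul_pos (mul_pos (mul_pos (by norm_num) hM) (by linarith)) (by linarith)
  have h19 := h13.trans h15
  rw [div_le_iff₀ h18] at h19
  have e5 : (n : ℝ) ^ (1 + η₁) = n * N := by
    rw [hN, Real.rpow_add (by linarith), Real.rpow_one]
  rw [e5, ← hQ, ← hF, ← hGd, ← hH]
  calc R ^ 2 ≤ B' * (N * H) * (32 * M * d * n) := h19
    _ = 32 * M * d * B' * (n * N) * H := by ring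
    _ ≤ max 1 (32 * M * d * B') * (n * N) * H := by
        refine mul_le_mul_of_nonneg_right (mul_le_mul_of_nonneg_right (le_max_right _ _) ?_)
          hH0
        exact mul_nonneg (by linarith) (by linarith)

end Pool.Agent.W_7d29a1_KP.T88
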