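import Pool.Agent.W_7d29a1_KP.Low89

/-!
Theorem KPZV, leaf TUB: the halving over the exit points (helper89).
-/

namespace Pool.Agent.W_7d29a1_KP

open MeasureTheory ProbabilityTheory Filter Topology Pool.Agent.W_MP_7d29a1_pr
  Pool.Agent.W_7d29a1_h46 Pool.Agent.W_7d29a1_h46u Pool.Agent.W_7d29a1_D2.B35
  Pool.Agent.W_7d29a1_Q29 Pool.Agent.W_7d29a1_R34 Pool.Agent.W_7d29a1_SP Pool.Agent.W_7d29a1_SD
  Pool.Agent.W_7d29a1_SQ Pool.Agent.W_7d29a1_KZ

section Tub

variable {d : ℕ} {ρ : Measure ℝ} {β : ℝ}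

/-- **Leaf TUB.** -/
theorem tub89 [IsProbabilityMeasure ρ] (hρ : EM ρ) (hG : GC ρ) (hβ : 0 < β)
    (hS : SinK d ρ β) : TubK d ρ β := by
  intro ε η₁ M hε hη hM
  rcases Nat.eq_zero_or_pos d with hd0 | hd
  · refine ⟨1, le_rfl, fun h v n P R r hn hP hR hr => ?_⟩
    subst hd0
    simp at hr
    linarith
  obtain ⟨c, K, hc0, hc1, hK, hJ⟩ := num42 (d := d + 1) (by omega) hη
  obtain ⟨z, hz0, hz⟩ := z89 hε
  obtain ⟨m, hm⟩ : ∃ m : ℝ, m = max (Ehr.Phi (2 * z)) (Ehr.Phi (1 + 1 / c)) := ⟨_, rfl⟩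
  have hm1 : m < 1 := by
    rw [hm]
    exact max_lt (Ehr.Phi_lt_one _) (Ehr.Phi_lt_one _)
  obtain ⟨κ, hκ⟩ : ∃ κ : ℝ, κ = (1 - m) / 2 := ⟨_, rfl⟩
  have hκ0 : 0 < κ := by rw [hκ]; linarith
  obtain ⟨G, hGd⟩ : ∃ G : ℝ, G = 16 + (2 * (1 / κ + 1 + 4 / ε + |Real.log (ε / 2)|) + 1) + 3 / c :=
    ⟨_, rfl⟩
  have hG0 : 16 ≤ G := by
    rw [hGd]
    have := abs_nonneg (Real.log (ε / 2))
    have h1 : 0 < 1 / κ := by positivity
    have h2 : 0 < 4 / ε := by positivity
    have h3 : 0 < 3 / c := by positivity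
    linarith
  refine ⟨max 1 (32 * M * d * K * G), le_max_left _ _, fun h v n P R r hn hP hR hr hD hx => ?_⟩
  have hP0 : (0 : ℝ) < P := by linarith
  have hn1 : (1 : ℝ) ≤ n := by exact_mod_cast hn
  have hd1 : (1 : ℝ) ≤ d := by exact_mod_cast hd
  obtain ⟨J, hJ1, hJ2⟩ := hJ n hn
  have hFn := (hD.fl n le_rfl).1
  have hEn := (hD.fl n le_rfl).2
  have hAn : A ρ β h n ≤ n * lam ρ β h := A_le_lam hd hρ β h n
  -- the exit is possible
  have hne : ((tube d n v R)ᶜ : Set (Fin n → Step d)).Nonempty := by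
    by_contra hcon
    rw [Set.not_nonempty_iff_eq_empty, Set.compl_empty_iff] at hcon
    rw [hcon] at hx
    have h1 : ∀ η : Env d, 1 - PolT β h η (Set.univ : Set (Fin n → Step d)) = 0 := fun η => by
      unfold PolT
      rw [div_self (ZT_univ_pos hd β h η).ne', sub_self]
    simp only [h1, integral_zero] at hx
    linarith
  obtain ⟨s₀, hs₀⟩ := hne
  have hSn : (La89 n v R).Nonempty := ⟨_, La_mem89 hs₀⟩
  -- the functions
  obtain ⟨V, hV⟩ : ∃ V : ℕ × Site d → Env d → ℝ, V = fun y η =>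
    Real.log (ZT β h η (Ex89 n v R {y})) := ⟨_, rfl⟩
  have hVm : ∀ y ∈ La89 n v R, Measurable (V y) := fun y _ => by
    rw [hV]
    exact Real.measurable_log.comp (measurable_ZT β h _)
  have hW : ∀ D : Finset (ℕ × Site d), D ⊆ La89 n v R → W42 (fun _ => (1 : ℝ)) V D =
      fun η : Env d => Real.log (ZT β h η (Ex89 n v R D)) := by
    intro D hDL
    funext η
    unfold W42
    congr 1
    rw [← sum_Ex89]
    refine Finset.sum_congr rfl fun y hy => ?_
    rw [one_mul, hV]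
    exact Real.exp_log (ZT_pos β h η (Ex_ne89 (Finset.singleton_subset_iff.2 (hDL hy))
      (Finset.singleton_nonempty y)))
  have hL : ∀ D : Finset (ℕ × Site d), D ⊆ La89 n v R → D.Nonempty →
      Lk42 (law d ρ) (W42 (fun _ => (1 : ℝ)) V D) := by
    classical
    intro D hDL hDn a b s0 s1 t ht h0 h1
    have hne' : Nonempty {s // s ∈ Ex89 n v R D} := (Ex_ne89 hDL hDn).to_subtype
    rw [hW D hDL, log_ZT89] at h0 h1 ⊢
    exact Pool.Agent.W_7d29a1_NR.L84.luckS84 hG hβ.le _ _ ht h0 h1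
  -- the whole exit
  obtain ⟨W, hWd⟩ : ∃ W : Env d → ℝ, W = W42 (fun _ => (1 : ℝ)) V (La89 n v R) := ⟨_, rfl⟩
  have hWe : W = fun η : Env d => Real.log (ZT β h η (tube d n v R)ᶜ) := by
    rw [hWd, hW _ (Finset.Subset.refl _), Ex_all89]
  have hWm : Measurable W := by
    rw [hWe]
    exact Real.measurable_log.comp (measurable_ZT β h _)
  obtain ⟨T, hT⟩ : ∃ T : ℝ, T = n * lam ρ β h - P - 4 * P / ε + Real.log (ε / 2) := ⟨_, rfl⟩
  obtain ⟨top, htop⟩ : ∃ top : ℝ, top = n * lam ρ β h + P / κ := ⟨_, rfl⟩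
  have hlow : ε / 4 ≤ (law d ρ).real {η | T ≤ W η} := by
    rw [hWe, hT]
    exact low89 hd hρ hε hP0 hFn hEn hx
  have hup : m < (law d ρ).real {η | W η ≤ top} := by
    have h1 := mk89 hd hρ β h n (κ := κ) hP0 hκ0 hFn
    obtain ⟨B, hB⟩ : ∃ B : Set (Env d), B = {η | P / κ ≤ |X β h η n - A ρ β h n|} := ⟨_, rfl⟩
    have hBm : MeasurableSet B := by
      rw [hB]
      exact measurableSet_le measurable_const (((measurable_X β h n).sub_const _).abs)
    rw [← hB] at h1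
    have h2 : Bᶜ ⊆ {η | W η ≤ top} := by
      intro η hη
      rw [hB] at hη
      have h3 : ¬ P / κ ≤ |X β h η n - A ρ β h n| := hη
      push Not at h3
      show W η ≤ top
      rw [hWe, htop]
      have h4 : Real.log (ZT β h η (tube d n v R)ᶜ) ≤ X β h η n := by
        unfold X Z
        exact Real.log_le_log (ZT_pos β h η ⟨s₀, hs₀⟩) (ZT_mono β h η (Set.subset_univ _))
      have h5 := le_abs_self (X β h η n - A ρ β h n)
      show Real.log (ZT β h η (tube d n v R)ᶜ) ≤ _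
      linarith
    have h6 := measureReal_mono (μ := law d ρ) h2
    rw [probReal_compl_eq_one_sub hBm] at h6
    rw [hκ] at h1
    linarith
  have hmz : Ehr.Phi (2 * z) ≤ m := by rw [hm]; exact le_max_left _ _
  have hmc : Ehr.Phi (1 + 1 / c) ≤ m := by rw [hm]; exact le_max_right _ _
  have hmed := med89 hWm (by rw [hWd]; exact hL _ (Finset.Subset.refl _) hSn) hz hlow
    (hmz.trans_lt hup)
  -- one class
  have hu : ∀ y ∈ La89 n v R, ∀ u, n * lam ρ β h - R ^ 2 / (32 * M * d * n) + 16 * P < u →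
      (law d ρ).real {η | u ≤ V y η} < 1 / 2 := by
    intro y hy u hu
    obtain ⟨s, hs, hsy⟩ := mem_La89 hy
    obtain ⟨h2, -, h4⟩ := lb_spec89 hs
    rw [hsy] at h2 h4
    rw [hV]
    refine hS h v n M P R r hn hM hP0.le hR hr hD y.1 y.2 (Ex89 n v R {y}) h2
      ⟨s, hs, Finset.mem_singleton.2 hsy⟩ (fun s' hs' => ?_) h4 u hu
    obtain ⟨-, h5, -⟩ := lb_spec89 hs'.1
    rw [Finset.mem_singleton.1 hs'.2] at h5
    exact h5
  have hpk : 0 < P / κ := by positivity
  have h4e : 0 < 4 * P / ε := by positivity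
  have hε1 : ε ≤ 1 := by
    refine hx.le.trans ?_
    have h1 : ∫ η, (1 - PolT β h η (tube d n v R)) ∂(law d ρ) ≤ ∫ _η, (1 : ℝ) ∂(law d ρ) := by
      refine integral_mono_of_nonneg (Eventually.of_forall fun η => ?_) (integrable_const _)
        (Eventually.of_forall fun η => ?_)
      · show (0 : ℝ) ≤ 1 - PolT β h η (tube d n v R)
        have := PolT_le_one β h η (tube d n v R)
        linarith
      · show 1 - PolT β h η (tube d n v R) ≤ 1
        have := PolT_nonneg β h η (tube d n v R)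
        linarith
    simpa using h1
  have hlog : Real.log (ε / 2) ≤ 0 := Real.log_nonpos (by linarith) (by linarith)
  have hTt : 2 * T - top - 1 ≤ top := by
    rw [hT, htop]
    linarith
  have hlabs := neg_abs_le (Real.log (ε / 2))
  obtain ⟨l, hl⟩ : ∃ l : ℝ, l = |Real.log (ε / 2)| := ⟨_, rfl⟩
  have hl0 : 0 ≤ l := by rw [hl]; exact abs_nonneg _
  rw [← hl] at hlabs hGd
  have hfin := halv42 (law d ρ) (S := La89 n v R) (w := fun _ => (1 : ℝ)) (V := V)
    (fun y _ => ⟨one_pos, le_rfl⟩) hVm hL hc0 hc1 (a := 0) (T := top) le_rfl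
    (by
      rw [← hWd, add_zero]
      exact hmc.trans_lt hup) hu J (La89 n v R) (Finset.Subset.refl _) hSn
    ((card_La89 v R).trans hJ1) (2 * T - top - 1) hTt (by rw [← hWd]; exact hmed)
  obtain ⟨q, hq⟩ : ∃ q : ℝ, q = (1 + c) ^ J := ⟨_, rfl⟩
  have hq1 : 1 ≤ q := by
    rw [hq]
    exact one_le_pow₀ (by linarith)
  rw [← hq] at hfin hJ2
  have e1 : top - (n * lam ρ β h - R ^ 2 / (32 * M * d * n) + 16 * P) =
      P / κ + R ^ 2 / (32 * M * d * n) - 16 * P := by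
    rw [htop]
    ring
  have e2 : top - (2 * T - top - 1) = 2 * (P / κ + P + 4 * P / ε - Real.log (ε / 2)) + 1 := by
    rw [htop, hT]
    ring
  rw [e1, e2] at hfin
  have h1 : 2 * (P / κ + P + 4 * P / ε - Real.log (ε / 2)) + 1 ≤
      P * (2 * (1 / κ + 1 + 4 / ε + l) + 1) := by
    have e3 : P * (2 * (1 / κ + 1 + 4 / ε + l) + 1) = 2 * (P / κ + P + 4 * P / ε) + 2 * (P * l) + P := by
      field_simp
    rw [e3]
    have h2 : l ≤ P * l := by nlinarith
    linarith
  have h3 : (0 + 3) * ((q - 1) / c) ≤ q * (P * (3 / c)) := by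
    have h4 : (0 + 3) * ((q - 1) / c) = (q - 1) * (3 / c) := by
      field_simp
      ring
    rw [h4]
    have h5 : 0 < 3 / c := by positivity
    have h6 : (q - 1) * (3 / c) ≤ q * (3 / c) := mul_le_mul_of_nonneg_right (by linarith) h5.le
    have h7 : q * (3 / c) * 1 ≤ q * (3 / c) * P :=
      mul_le_mul_of_nonneg_left hP (by positivity)
    nlinarith
  have h8 : q * (2 * (P / κ + P + 4 * P / ε - Real.log (ε / 2)) + 1) ≤
      q * (P * (2 * (1 / κ + 1 + 4 / ε + l) + 1)) :=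
    mul_le_mul_of_nonneg_left h1 (by linarith)
  have h9 : 16 * P ≤ q * (P * 16) := by nlinarith
  have h10 : R ^ 2 / (32 * M * d * n) ≤ q * (P * G) := by
    have e4 : q * (P * G) = q * (P * 16) + q * (P * (2 * (1 / κ + 1 + 4 / ε + l) + 1)) +
        q * (P * (3 / c)) := by
      rw [hGd]
      ring
    rw [e4]
    linarith
  rw [div_le_iff₀ (by positivity)] at h10
  have h11 : q * (P * G) * (32 * M * d * n) ≤ K * (n : ℝ) ^ η₁ * (P * G) * (32 * M * d * n) := by
    have h12 : q * (P * G) ≤ K * (n : ℝ) ^ η₁ * (P * G) :=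
      mul_le_mul_of_nonneg_right hJ2 (by positivity)
    exact mul_le_mul_of_nonneg_right h12 (by positivity)
  have e5 : (n : ℝ) ^ (1 + η₁) = n * (n : ℝ) ^ η₁ := by
    rw [Real.rpow_add (by linarith), Real.rpow_one]
  calc R ^ 2 ≤ K * (n : ℝ) ^ η₁ * (P * G) * (32 * M * d * n) := h10.trans h11
    _ = (32 * M * d * K * G) * (n : ℝ) ^ (1 + η₁) * P := by
        rw [e5]
        ring
    _ ≤ max 1 (32 * M * d * K * G) * (n : ℝ) ^ (1 + η₁) * P := by
        refine mul_le_mul_of_nonneg_right (mul_le_mul_of_nonneg_right (le_max_right _ _)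
          (by positivity)) hP0.le

end Tub

end Pool.Agent.W_7d29a1_KP
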