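import Pool.Agent.W_7d29a1_KP.Lab89

/-!
The halving over the exit points at one length, for any level of one exit point (helper89).
-/

namespace Pool.Agent.W_7d29a1_KP

open MeasureTheory ProbabilityTheory Filter Topology Pool.Agent.W_MP_7d29a1_pr
  Pool.Agent.W_7d29a1_h46 Pool.Agent.W_7d29a1_h46u Pool.Agent.W_7d29a1_D2.B35
  Pool.Agent.W_7d29a1_Q29 Pool.Agent.W_7d29a1_R34 Pool.Agent.W_7d29a1_SP Pool.Agent.W_7d29a1_SD
  Pool.Agent.W_7d29a1_SQ Pool.Agent.W_7d29a1_KZ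

section Tub

variable {d : ℕ} {ρ : Measure ℝ} {β : ℝ}

/-- One exit point: the walks which are at `y` at the time `i` are light, with a probability larger
than `1 / 2`. -/
def Sl89 {d : ℕ} (ρ : Measure ℝ) (β : ℝ) (h v : Vec d) (n : ℕ) (R u₀ : ℝ) : Prop :=
  ∀ (i : ℕ) (y : Site d) (E : Set (Fin n → Step d)), i ≤ n → E.Nonempty →
    (∀ s ∈ E, pos s i = y) → R < ‖emb y - (i : ℝ) • v‖ →
    ∀ u : ℝ, u₀ < u → (law d ρ).real {η | u ≤ Real.log (ZT β h η E)} < 1 / 2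

/-- **TUBG.** The halving over the exit points. -/
theorem tubG89 [IsProbabilityMeasure ρ] (hd : 0 < d) (hρ : EM ρ) (hG : GC ρ) (hβ : 0 < β)
    {η₁ : ℝ} (hη : 0 < η₁) : ∃ C : ℝ, 1 ≤ C ∧
    ∀ (h v : Vec d) (n : ℕ) (P R T z u₀ : ℝ), 1 ≤ n → 1 ≤ P → Fn ρ β h n ≤ P →
      T ≤ n * lam ρ β h → Sl89 ρ β h v n R u₀ →
      Ehr.Phi (-z) ≤ (law d ρ).real {η | Real.exp T ≤ ZT β h η (tube d n v R)ᶜ} →
      n * lam ρ β h - u₀ ≤
        C * (n : ℝ) ^ η₁ * (P / Ehr.Phi (-(2 * z)) + (n * lam ρ β h - T)) := by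
  obtain ⟨c, K, hc0, hc1, hK, hJ⟩ := num42 (d := d + 1) (by omega) hη
  obtain ⟨f, hf⟩ : ∃ f : ℝ, f = Ehr.Phi (-(1 + 1 / c)) := ⟨_, rfl⟩
  have hf0 : 0 < f := by rw [hf]; exact Ehr.Phi_pos _
  have hf1 : f ≤ 1 := by rw [hf]; exact Ehr.Phi_le_one _
  obtain ⟨G, hGd⟩ : ∃ G : ℝ, G = 16 + 2 + 4 / f + 1 + 3 / c := ⟨_, rfl⟩
  have hG0 : 16 ≤ G := by
    rw [hGd]
    have h1 : 0 < 4 / f := by positivity
    have h3 : 0 < 3 / c := by positivity
    linarith
  refine ⟨max 1 (K * G), le_max_left _ _, fun h v n P R T z u₀ hn hP hFn hTn hS hx => ?_⟩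
  have hP0 : (0 : ℝ) < P := by linarith
  have hn1 : (1 : ℝ) ≤ n := by exact_mod_cast hn
  obtain ⟨J, hJ1, hJ2⟩ := hJ n hn
  have hAn : A ρ β h n ≤ n * lam ρ β h := A_le_lam hd hρ β h n
  obtain ⟨g, hg⟩ : ∃ g : ℝ, g = Ehr.Phi (-(2 * z)) := ⟨_, rfl⟩
  have hg0 : 0 < g := by rw [hg]; exact Ehr.Phi_pos _
  have hg1 : g ≤ 1 := by rw [hg]; exact Ehr.Phi_le_one _
  rw [← hg]
  obtain ⟨κ, hκ⟩ : ∃ κ : ℝ, κ = g * f := ⟨_, rfl⟩
  have hκ0 : 0 < κ := by rw [hκ]; positivity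
  have hκf : κ ≤ f := by rw [hκ]; nlinarith
  have hκg : κ ≤ g := by rw [hκ]; nlinarith
  -- the exit is possible
  have hne : ((tube d n v R)ᶜ : Set (Fin n → Step d)).Nonempty := by
    by_contra hcon
    rw [Set.not_nonempty_iff_eq_empty] at hcon
    rw [hcon] at hx
    have h1 : {η : Env d | Real.exp T ≤ ZT β h η (∅ : Set (Fin n → Step d))} = ∅ := by
      ext η
      constructor
      · intro hη
        have h2 : Real.exp T ≤ ZT β h η (∅ : Set (Fin n → Step d)) := hη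
        have h3 : ZT β h η (∅ : Set (Fin n → Step d)) = 0 := by
          unfold ZT
          simp
        rw [h3] at h2
        exact absurd h2 (not_le.2 (Real.exp_pos _))
      · intro hη
        exact absurd hη (Set.notMem_empty _)
    rw [h1, measureReal_empty] at hx
    exact absurd hx (not_le.2 (Ehr.Phi_pos _))
  obtain ⟨s₀, hs₀⟩ := hne
  have hSn : (La89 n v R).Nonempty := ⟨_, La_mem89 hs₀⟩
  -- the functions
  obtain ⟨V, hV⟩ : ∃ V : ℕ × Site d → Env d → ℝ, V = fun y η =>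
    Real.log (ZT β h η (Ex89 n v R {y})) := ⟨_, rfl⟩
  have hVm : ∀ y ∈ La89 n v R, Measurable (V y) := fun y _ => by
    rw [hV]
    exact Real.measurable_log.comp (measurable_ZT β h _)
  have hW : ∀ D : Finset (ℕ × Site d), D ⊆ La89 n v R → W42 (fun _ => (1 : ℝ)) V D =
      fun η : Env d => Real.log (ZT β h η (Ex89 n v R D)) := by
    intro D hDL
    funext η
    unfold W42
    congr 1
    rw [← sum_Ex89]
    refine Finset.sum_congr rfl fun y hy => ?_
    rw [one_mul, hV]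
    exact Real.exp_log (ZT_pos β h η (Ex_ne89 (Finset.singleton_subset_iff.2 (hDL hy))
      (Finset.singleton_nonempty y)))
  have hL : ∀ D : Finset (ℕ × Site d), D ⊆ La89 n v R → D.Nonempty →
      Lk42 (law d ρ) (W42 (fun _ => (1 : ℝ)) V D) := by
    classical
    intro D hDL hDn a b s0 s1 t ht h0 h1
    have hne' : Nonempty {s // s ∈ Ex89 n v R D} := (Ex_ne89 hDL hDn).to_subtype
    rw [hW D hDL, log_ZT89] at h0 h1 ⊢
    exact Pool.Agent.W_7d29a1_NR.L84.luckS84 hG hβ.le _ _ ht h0 h1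
  -- the whole exit
  obtain ⟨W, hWd⟩ : ∃ W : Env d → ℝ, W = W42 (fun _ => (1 : ℝ)) V (La89 n v R) := ⟨_, rfl⟩
  have hWe : W = fun η : Env d => Real.log (ZT β h η (tube d n v R)ᶜ) := by
    rw [hWd, hW _ (Finset.Subset.refl _), Ex_all89]
  have hWm : Measurable W := by
    rw [hWe]
    exact Real.measurable_log.comp (measurable_ZT β h _)
  obtain ⟨top, htop⟩ : ∃ top : ℝ, top = n * lam ρ β h + P / (κ / 2) := ⟨_, rfl⟩
  have hlow : 4 * Ehr.Phi (-z) / 4 ≤ (law d ρ).real {η | T ≤ W η} := by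
    have h1 : {η : Env d | Real.exp T ≤ ZT β h η (tube d n v R)ᶜ} ⊆ {η | T ≤ W η} := by
      intro η hη
      have h2 : Real.exp T ≤ ZT β h η (tube d n v R)ᶜ := hη
      show T ≤ W η
      rw [hWe]
      exact (Real.le_log_iff_exp_le (ZT_pos β h η ⟨s₀, hs₀⟩)).2 h2
    have h3 := hx.trans (measureReal_mono h1 (measure_ne_top _ _))
    linarith
  have hup : 1 - κ < (law d ρ).real {η | W η ≤ top} := by
    have h1 := mk89 hd hρ β h n (κ := κ / 2) hP0 (by linarith) hFn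
    obtain ⟨B, hB⟩ : ∃ B : Set (Env d), B = {η | P / (κ / 2) ≤ |X β h η n - A ρ β h n|} :=
      ⟨_, rfl⟩
    have hBm : MeasurableSet B := by
      rw [hB]
      exact measurableSet_le measurable_const (((measurable_X β h n).sub_const _).abs)
    rw [← hB] at h1
    have h2 : Bᶜ ⊆ {η | W η ≤ top} := by
      intro η hη
      rw [hB] at hη
      have h3 : ¬ P / (κ / 2) ≤ |X β h η n - A ρ β h n| := hη
      push Not at h3
      show W η ≤ top
      rw [hWe, htop]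
      have h4 : Real.log (ZT β h η (tube d n v R)ᶜ) ≤ X β h η n := by
        unfold X Z
        exact Real.log_le_log (ZT_pos β h η ⟨s₀, hs₀⟩) (ZT_mono β h η (Set.subset_univ _))
      have h5 := le_abs_self (X β h η n - A ρ β h n)
      show Real.log (ZT β h η (tube d n v R)ᶜ) ≤ _
      linarith
    have h6 := measureReal_mono (μ := law d ρ) h2 (measure_ne_top _ _)
    rw [probReal_compl_eq_one_sub hBm] at h6
    linarith
  have hPz := A84.Phi_add (2 * z)
  have hPz1 := A84.Phi_add z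
  have hPc := A84.Phi_add (1 + 1 / c)
  rw [← hg] at hPz
  rw [← hf] at hPc
  have hmed := med89 (ε := 4 * Ehr.Phi (-z)) (z := z) hWm
    (by rw [hWd]; exact hL _ (Finset.Subset.refl _) hSn) (by linarith) hlow
    (lt_of_le_of_lt (by linarith) hup)
  -- one class
  have hu : ∀ y ∈ La89 n v R, ∀ u, u₀ < u →
      (law d ρ).real {η | u ≤ V y η} < 1 / 2 := by
    intro y hy u hu
    obtain ⟨s, hs, hsy⟩ := mem_La89 hy
    obtain ⟨h2, -, h4⟩ := lb_spec89 hs
    rw [hsy] at h2 h4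
    rw [hV]
    refine hS y.1 y.2 (Ex89 n v R {y}) h2
      ⟨s, hs, Finset.mem_singleton.2 hsy⟩ (fun s' hs' => ?_) h4 u hu
    obtain ⟨-, h5, -⟩ := lb_spec89 hs'.1
    rw [Finset.mem_singleton.1 hs'.2] at h5
    exact h5
  have hpk : 0 < P / (κ / 2) := by positivity
  have hTt : 2 * T - top - 1 ≤ top := by
    rw [htop]
    linarith
  have hfin := halv42 (law d ρ) (S := La89 n v R) (w := fun _ => (1 : ℝ)) (V := V)
    (fun y _ => ⟨one_pos, le_rfl⟩) hVm hL hc0 hc1 (a := 0) (T := top) le_rfl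
    (by
      rw [← hWd, add_zero]
      exact lt_of_le_of_lt (by linarith) hup) hu J (La89 n v R) (Finset.Subset.refl _) hSn
    ((card_La89 v R).trans hJ1) (2 * T - top - 1) hTt (by rw [← hWd]; exact hmed)
  obtain ⟨q, hq⟩ : ∃ q : ℝ, q = (1 + c) ^ J := ⟨_, rfl⟩
  have hq1 : 1 ≤ q := by
    rw [hq]
    exact one_le_pow₀ (by linarith)
  rw [← hq] at hfin hJ2
  obtain ⟨Q, hQ⟩ : ∃ Q : ℝ, Q = P / g := ⟨_, rfl⟩
  have hQP : P ≤ Q := by
    rw [hQ, le_div_iff₀ hg0]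
    nlinarith
  have hQ1 : 1 ≤ Q := hP.trans hQP
  have hkQ : P / (κ / 2) = 2 / f * Q := by
    rw [hQ, hκ]
    field_simp
  obtain ⟨D, hDd⟩ : ∃ D : ℝ, D = n * lam ρ β h - T := ⟨_, rfl⟩
  have hD0 : 0 ≤ D := by rw [hDd]; linarith
  rw [← hQ, ← hDd]
  have e1 : n * lam ρ β h - u₀ ≤ top - u₀ := by linarith
  have e2 : top - (2 * T - top - 1) = 2 * D + 4 / f * Q + 1 := by
    rw [htop, hkQ, hDd]
    ring
  rw [e2] at hfin
  have h4f : 0 < 4 / f := by positivity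
  have h3c : 0 < 3 / c := by positivity
  have h3 : (0 + 3) * ((q - 1) / c) ≤ q * (3 / c * Q) := by
    have h4 : (0 + 3) * ((q - 1) / c) = (q - 1) * (3 / c) := by
      field_simp
      ring
    rw [h4]
    have h6 : (q - 1) * (3 / c) ≤ q * (3 / c) := mul_le_mul_of_nonneg_right (by linarith) h3c.le
    have h7 : q * (3 / c) * 1 ≤ q * (3 / c) * Q :=
      mul_le_mul_of_nonneg_left hQ1 (by positivity)
    linarith
  have h10 : n * lam ρ β h - u₀ ≤ q * (G * (Q + D)) := by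
    have h11 : (2 * D + 4 / f * Q + 1) + 3 / c * Q ≤ G * (Q + D) := by
      rw [hGd]
      have h12 : 0 ≤ (16 + 4 / f + 1 + 3 / c) * D := by positivity
      nlinarith
    have h13 : q * ((2 * D + 4 / f * Q + 1) + 3 / c * Q) ≤ q * (G * (Q + D)) :=
      mul_le_mul_of_nonneg_left h11 (by linarith)
    linarith
  have hQD : 0 < Q + D := by linarith
  calc n * lam ρ β h - u₀ ≤ q * (G * (Q + D)) := h10
    _ ≤ K * (n : ℝ) ^ η₁ * (G * (Q + D)) :=
        mul_le_mul_of_nonneg_right hJ2 (by positivity)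
    _ = (K * G) * (n : ℝ) ^ η₁ * (Q + D) := by ring
    _ ≤ max 1 (K * G) * (n : ℝ) ^ η₁ * (Q + D) := by
        refine mul_le_mul_of_nonneg_right (mul_le_mul_of_nonneg_right (le_max_right _ _)
          (by positivity)) hQD.le

end Tub

end Pool.Agent.W_7d29a1_KP
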