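import Pool.Agent.W_7d29a1_KP.TubGU16
import Pool.Agent.W_7d29a1_QM.DefsCV

/-!
Theorem CURV in the form of KPZO, every law: one length and the block, from the level of one exit
point (helper16, after helper68).
-/

set_option autoImplicit false

namespace Pool.Agent.W_7d29a1_KP

open MeasureTheory ProbabilityTheory Filter Topology Pool.Agent.W_MP_7d29a1_pr
  Pool.Agent.W_7d29a1_h46 Pool.Agent.W_7d29a1_h46u Pool.Agent.W_7d29a1_D2.B35
  Pool.Agent.W_7d29a1_Q29 Pool.Agent.W_7d29a1_R34 Pool.Agent.W_7d29a1_SP Pool.Agent.W_7d29a1_SD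
  Pool.Agent.W_7d29a1_SQ Pool.Agent.W_7d29a1_KZ Pool.Agent.W_7d29a1_AM Pool.Agent.W_7d29a1_NR.L84
  Pool.Agent.W_7d29a1_NR.TrU41 Pool.Agent.W_7d29a1_NR.HaN41 Pool.Agent.W_7d29a1_CV U68

/-- SINQU: the level of one exit point, every law. -/
def SinQU16 (d : ℕ) (ρ : Measure ℝ) (β : ℝ) : Prop := ∃ C : ℝ, 1 ≤ C ∧
  ∀ (h v : Vec d) (n : ℕ) (P R r W : ℝ), 1 ≤ P → 0 ≤ r → 0 ≤ R → Fn ρ β h n ≤ P →
    Cap ρ β h v r W → Sl89 ρ β h v n R (n * lam ρ β h - (r * R - n * W) / C + C * P)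

/-- TUB1QU: one length, explicit in the probability, every law. -/
def Tub1QU16 (d : ℕ) (ρ : Measure ℝ) (β : ℝ) : Prop := ∀ η : ℝ, 0 < η → ∃ C : ℝ, 1 ≤ C ∧
  ∀ (h v : Vec d) (n : ℕ) (P R r W T ε : ℝ), 1 ≤ n → 1 ≤ P → 0 ≤ R → 0 ≤ r →
    Fn ρ β h n ≤ P → Cap ρ β h v r W → 0 < ε → ε ≤ 1 / 2 → T ≤ n * lam ρ β h →
    ε ≤ (law d ρ).real {η | Real.exp T ≤ ZT β h η (tube d n v R)ᶜ} →
      r * R - n * W ≤ C * (n : ℝ) ^ η * (P / ε ^ C + (n * lam ρ β h - T))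

/-- The level of one exit point from the sharp form of the laws in `GC`. -/
theorem sinQU_of16 {d : ℕ} {ρ : Measure ℝ} {β : ℝ} (hS : SinQ d ρ β) : SinQU16 d ρ β := by
  refine ⟨1, le_rfl, fun h v n P R r W hP hr hR _ hC i y E hi hE hs hf u hu => ?_⟩
  refine hS h v n R r W hr hR hC i y E hi hE hs hf u ?_
  rw [div_one, one_mul] at hu
  linarith

/-- **TUB1QU.** -/
theorem tub1QU16 {d : ℕ} {ρ : Measure ℝ} [IsProbabilityMeasure ρ] {β : ℝ} (hd : 0 < d) (hρ : EM ρ)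
    (hnc : ∀ c : ℝ, ρ {c} ≠ 1) (hβ : 0 < β) (hS : SinQU16 d ρ β) : Tub1QU16 d ρ β := by
  intro η hη
  obtain ⟨C₀, hC₀, hS⟩ := hS
  obtain ⟨C₁, hC₁, hT⟩ := tubGU16 (d := d) hd hρ hnc hβ hη
  refine ⟨C₀ * (C₀ + C₁), by nlinarith, ?_⟩
  intro h v n P R r W T ε hn hP hR hr hF hcap hε hε2 hTn hx
  have hP0 : 0 < P := by linarith
  have hC00 : 0 < C₀ := by linarith
  have key := hT h v n P R T ε _ hn hP hF hε hε2 hTn (hS h v n P R r W hP hr hR hF hcap) hx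
  obtain ⟨g, hg⟩ : ∃ g : ℝ, g = (n : ℝ) ^ η := ⟨_, rfl⟩
  obtain ⟨t, ht⟩ : ∃ t : ℝ, t = n * lam ρ β h - T := ⟨_, rfl⟩
  obtain ⟨D, hD⟩ : ∃ D : ℝ, D = r * R - n * W := ⟨_, rfl⟩
  have ht0 : 0 ≤ t := by rw [ht]; linarith
  have hg1 : 1 ≤ g := by
    rw [hg]
    exact Real.one_le_rpow (by exact_mod_cast hn) hη.le
  rw [← hg, ← ht, ← hD] at key
  rw [← hg, ← ht, ← hD]
  have e1 : P / ε ^ C₁ ≤ P / ε ^ (C₀ * (C₀ + C₁)) := by
    refine div_le_div_of_nonneg_left hP0.le (Real.rpow_pos_of_pos hε _) ?_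
    exact Real.rpow_le_rpow_of_exponent_ge hε (by linarith) (by nlinarith)
  have e2 : P ≤ P / ε ^ C₁ := by
    rw [le_div_iff₀ (Real.rpow_pos_of_pos hε _)]
    have : ε ^ C₁ ≤ 1 := Real.rpow_le_one hε.le (by linarith) (by linarith)
    nlinarith
  obtain ⟨F, hF'⟩ : ∃ F : ℝ, F = P / ε ^ (C₀ * (C₀ + C₁)) := ⟨_, rfl⟩
  rw [← hF'] at e1
  rw [← hF']
  have hF0 : 0 < F := by linarith
  -- `D / C₀ ≤ C₁ g (..) + C₀ P`
  have e3 : D / C₀ ≤ C₁ * g * (P / ε ^ C₁ + t) + C₀ * P := by linarith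
  have e4 : C₁ * g * (P / ε ^ C₁ + t) ≤ C₁ * g * (F + t) :=
    mul_le_mul_of_nonneg_left (by linarith) (by positivity)
  have e5 : C₀ * P ≤ C₀ * g * (F + t) := by
    have e6 : P ≤ g * (F + t) := by
      have e7 : F + t ≤ g * (F + t) := le_mul_of_one_le_left (by linarith) hg1
      linarith
    have := mul_le_mul_of_nonneg_left e6 hC00.le
    linarith
  have e6 : D / C₀ ≤ (C₀ + C₁) * g * (F + t) := by linarith
  rw [div_le_iff₀ hC00] at e6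
  linarith

/-- **TUBNQ**, from one length. -/
theorem tubNQ16 {d : ℕ} {ρ : Measure ℝ} [IsProbabilityMeasure ρ] {β : ℝ} (hd : 0 < d)
    (hT : Tub1QU16 d ρ β) (hX : MaxX d ρ β) (hL : LowN d ρ β) : TubNQ d ρ β := by
  intro η hη
  have hη2 : 0 < η / 2 := by positivity
  obtain ⟨C₁, hC1, hC⟩ := hT (η / 2) hη2
  refine ⟨C₁, by linarith, fun p hp => ?_⟩
  obtain ⟨N₁, hN₁⟩ := hL (η / 2) p hη2 hp
  obtain ⟨Q, hQ⟩ : ∃ Q : ℝ, Q = C₁ * 2 ^ (η / 2) * (4 ^ C₁ + (3 + 1 / (η / 2))) := ⟨_, rfl⟩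
  have h4C : (0 : ℝ) < 4 ^ C₁ := Real.rpow_pos_of_pos (by norm_num) _
  have h2C : (0 : ℝ) < 2 ^ (η / 2) := Real.rpow_pos_of_pos (by norm_num) _
  have hiη : 0 < 1 / (η / 2) := by positivity
  have hQ0 : 0 < Q := by
    rw [hQ]
    positivity
  refine ⟨1 + Q, max N₁ 1, by linarith, ?_⟩
  intro h v N P R r W hN hP hR hr0 hW0 hfl hcap hex
  have hNN : N₁ ≤ N := (le_max_left _ _).trans hN
  have hN1 : 1 ≤ N := (le_max_right _ _).trans hN
  have hn : (1 : ℝ) ≤ N := by exact_mod_cast hN1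
  have hn0 : (0 : ℝ) < N := by linarith
  have hP0 : 0 < P := by linarith
  obtain ⟨x, hx⟩ : ∃ x : ℝ, x = (N : ℝ) ^ (-p) := ⟨_, rfl⟩
  have hx0 : 0 < x := by rw [hx]; exact Real.rpow_pos_of_pos hn0 _
  have hx1 : x ≤ 1 := by
    rw [hx]
    exact Real.rpow_le_one_of_one_le_of_nonpos hn (by linarith)
  obtain ⟨w, hw⟩ : ∃ w : ℝ, w = -((N : ℝ) ^ (η / 2) * P + Real.log N) := ⟨_, rfl⟩
  have hlogN : 0 ≤ Real.log N := Real.log_nonneg hn
  have hlow := hN₁ h N P hNN hP hfl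
  rw [← hx] at hex hlow
  -- from the block to its end
  have h1 : x ≤ (law d ρ).real {ξ | ∃ n : ℕ, N ≤ n ∧ n ≤ 2 * N ∧
      X β h ξ n < n * lam ρ β h - (N : ℝ) ^ (η / 2) * P} +
      (law d ρ).real {η | ∃ s : ℕ, s ≤ N ∧ Real.exp (((N + s : ℕ) : ℝ) * lam ρ β h + w) ≤
        ZT β h η (tube d (N + s) v R)ᶜ} := by
    refine hex.le.trans ((measureReal_mono ?_ (measure_ne_top _ _)).trans
      (measureReal_union_le _ _))
    intro ξ hξ
    obtain ⟨n, hn1, hn2, hn3⟩ := hξ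
    by_cases h2 : X β h ξ n < n * lam ρ β h - (N : ℝ) ^ (η / 2) * P
    · exact Or.inl ⟨n, hn1, hn2, h2⟩
    · right
      obtain ⟨s, rfl⟩ := Nat.exists_eq_add_of_le hn1
      refine ⟨s, by omega, ?_⟩
      push Not at h2
      have h3 : 0 < Z β h ξ (N + s) := ZT_univ_pos hd β h ξ
      have h4 := ZT_compl68 β h ξ (tube d (N + s) v R)
      have h5 : PolT β h ξ (tube d (N + s) v R) * Z β h ξ (N + s) =
          ZT β h ξ (tube d (N + s) v R) := by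
        unfold PolT
        exact div_mul_cancel₀ _ h3.ne'
      have h6 : 1 / (N : ℝ) * Z β h ξ (N + s) ≤ ZT β h ξ (tube d (N + s) v R)ᶜ := by
        have h7 := mul_le_mul_of_nonneg_right hn3.le h3.le
        have h8 : (1 - PolT β h ξ (tube d (N + s) v R)) * Z β h ξ (N + s) =
            ZT β h ξ (tube d (N + s) v R)ᶜ := by
          rw [sub_mul, one_mul, h5]
          linarith
        rw [h8] at h7
        exact h7
      refine le_trans ?_ h6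
      have h9 : Z β h ξ (N + s) = Real.exp (X β h ξ (N + s)) := (Real.exp_log h3).symm
      have h10 : 1 / (N : ℝ) = Real.exp (-Real.log N) := by
        rw [Real.exp_neg, Real.exp_log hn0, one_div]
      rw [h9, h10, ← Real.exp_add]
      apply Real.exp_le_exp.2
      rw [hw]
      linarith
  have h2 := hX h v N N R w P hP0 fun r hr =>
    ⟨(hfl r (by omega)).2, (hfl r (by omega)).1⟩
  have hε : x / 4 ≤ (law d ρ).real {η | Real.exp (((N + N : ℕ) : ℝ) * lam ρ β h + w - 2 * P) ≤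
      ZT β h η (tube d (N + N) v R)ᶜ} := by linarith
  have e2 : 2 * N = N + N := two_mul N
  rw [e2]
  have hNη : 0 < (N : ℝ) ^ (η / 2) := Real.rpow_pos_of_pos hn0 _
  have hNη1 : 1 ≤ (N : ℝ) ^ (η / 2) := Real.one_le_rpow hn hη2.le
  have hw0 : w ≤ 0 := by
    rw [hw]
    have : 0 ≤ (N : ℝ) ^ (η / 2) * P := by positivity
    linarith
  have key := hC h v (N + N) P R r W (((N + N : ℕ) : ℝ) * lam ρ β h + w - 2 * P) (x / 4)
    (by omega) hP hR.le hr0.le (hfl (N + N) (by omega)).1 hcap (by positivity) (by linarith)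
    (by linarith) hε
  have e3 : ((N + N : ℕ) : ℝ) * lam ρ β h - (((N + N : ℕ) : ℝ) * lam ρ β h + w - 2 * P) =
      2 * P - w := by ring
  rw [e3] at key
  have e4 : ((N + N : ℕ) : ℝ) ^ (η / 2) = 2 ^ (η / 2) * (N : ℝ) ^ (η / 2) := by
    have : ((N + N : ℕ) : ℝ) = 2 * N := by push_cast; ring
    rw [this, Real.mul_rpow (by norm_num) hn0.le]
  have e5 : P / (x / 4) ^ C₁ = 4 ^ C₁ * (N : ℝ) ^ (C₁ * p) * P := by
    rw [hx, Real.div_rpow (Real.rpow_nonneg hn0.le _) (by norm_num), ← Real.rpow_mul hn0.le]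
    have h6 : -p * C₁ = -(C₁ * p) := by ring
    rw [h6, Real.rpow_neg hn0.le]
    have h7 : 0 < (N : ℝ) ^ (C₁ * p) := Real.rpow_pos_of_pos hn0 _
    field_simp
  have h11 : Real.log N ≤ (N : ℝ) ^ (η / 2) / (η / 2) := Real.log_le_rpow_div hn0.le hη2
  have h12 : 2 * P - w ≤ (3 + 1 / (η / 2)) * (N : ℝ) ^ (η / 2) * P := by
    have h13 : P ≤ (N : ℝ) ^ (η / 2) * P := le_mul_of_one_le_left hP0.le hNη1
    have h14 : (N : ℝ) ^ (η / 2) / (η / 2) ≤ 1 / (η / 2) * (N : ℝ) ^ (η / 2) * P := by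
      have h15 : (N : ℝ) ^ (η / 2) / (η / 2) = 1 / (η / 2) * (N : ℝ) ^ (η / 2) := by ring
      rw [h15]
      exact le_mul_of_one_le_right (by positivity) hP
    have h16 : (3 + 1 / (η / 2)) * (N : ℝ) ^ (η / 2) * P = 3 * ((N : ℝ) ^ (η / 2) * P) +
        1 / (η / 2) * (N : ℝ) ^ (η / 2) * P := by ring
    rw [h16, hw]
    linarith
  obtain ⟨u, hu⟩ : ∃ u : ℝ, u = (N : ℝ) ^ (η / 2 + C₁ * p) := ⟨_, rfl⟩
  have hCp : 0 ≤ C₁ * p := by positivity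
  have hu1 : (N : ℝ) ^ (C₁ * p) ≤ u := by
    rw [hu]
    exact Real.rpow_le_rpow_of_exponent_le hn (by linarith)
  have hu2 : (N : ℝ) ^ (η / 2) ≤ u := by
    rw [hu]
    exact Real.rpow_le_rpow_of_exponent_le hn (by linarith)
  have h17 : P / (x / 4) ^ C₁ + (2 * P - w) ≤ (4 ^ C₁ + (3 + 1 / (η / 2))) * u * P := by
    rw [e5]
    have h18 : 4 ^ C₁ * (N : ℝ) ^ (C₁ * p) * P ≤ 4 ^ C₁ * u * P :=
      mul_le_mul_of_nonneg_right (mul_le_mul_of_nonneg_left hu1 h4C.le) hP0.le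
    have h19 : (3 + 1 / (η / 2)) * (N : ℝ) ^ (η / 2) * P ≤ (3 + 1 / (η / 2)) * u * P :=
      mul_le_mul_of_nonneg_right (mul_le_mul_of_nonneg_left hu2 (by positivity)) hP0.le
    have h20 : (4 ^ C₁ + (3 + 1 / (η / 2))) * u * P = 4 ^ C₁ * u * P +
        (3 + 1 / (η / 2)) * u * P := by ring
    rw [h20]
    linarith
  have e6 : (N : ℝ) ^ (η + C₁ * p) = (N : ℝ) ^ (η / 2) * u := by
    rw [hu, ← Real.rpow_add hn0]
    congr 1
    ring
  rw [e6]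
  rw [e4] at key
  have h21 : 0 ≤ C₁ * (2 ^ (η / 2) * (N : ℝ) ^ (η / 2)) := by positivity
  have h22 := mul_le_mul_of_nonneg_left h17 h21
  have h23 : C₁ * (2 ^ (η / 2) * (N : ℝ) ^ (η / 2)) *
      ((4 ^ C₁ + (3 + 1 / (η / 2))) * u * P) = Q * ((N : ℝ) ^ (η / 2) * u) * P := by
    rw [hQ]
    ring
  have hu0 : 0 < u := by linarith
  have h24 : 0 ≤ (N : ℝ) ^ (η / 2) * u * P := by positivity
  have h25 : (1 + Q) * ((N : ℝ) ^ (η / 2) * u) * P = (N : ℝ) ^ (η / 2) * u * P +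
      Q * ((N : ℝ) ^ (η / 2) * u) * P := by ring
  rw [h25]
  linarith

end Pool.Agent.W_7d29a1_KP
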