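import Pool.Agent.W_7d29a1_KP.TubG89
import Pool.Agent.W_7d29a1_KP.Low89
import Pool.Agent.W_7d29a1_QM.DefsCV

/-!
Theorem CURV, leaf TUBQ: one tilt, one length (helper89).
-/

set_option autoImplicit false

namespace Pool.Agent.W_7d29a1_KP

open MeasureTheory ProbabilityTheory Filter Topology Pool.Agent.W_MP_7d29a1_pr
  Pool.Agent.W_7d29a1_h46 Pool.Agent.W_7d29a1_h46u Pool.Agent.W_7d29a1_D2.B35
  Pool.Agent.W_7d29a1_Q29 Pool.Agent.W_7d29a1_R34 Pool.Agent.W_7d29a1_SP Pool.Agent.W_7d29a1_SD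
  Pool.Agent.W_7d29a1_SQ Pool.Agent.W_7d29a1_KZ

/-- **Leaf TUBQ.** -/
theorem tubQ89 {d : ℕ} {ρ : Measure ℝ} [IsProbabilityMeasure ρ] (hd : 0 < d) (hρ : EM ρ)
    (hG : GC ρ) {β : ℝ} (hβ : 0 < β) (hQ : Pool.Agent.W_7d29a1_CV.SinQ d ρ β) :
    Pool.Agent.W_7d29a1_CV.TubQ d ρ β := by
  intro ε η hε hη
  obtain ⟨C₁, hC₁, hT⟩ := tubG89 (ρ := ρ) (d := d) hd hρ hG hβ hη
  obtain ⟨z, hz0, hz⟩ := z89 hε
  have hΦ : 0 < Ehr.Phi (-(2 * z)) := Ehr.Phi_pos _
  obtain ⟨l, hl⟩ : ∃ l : ℝ, l = |Real.log (ε / 2)| := ⟨_, rfl⟩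
  have hl0 : 0 ≤ l := by rw [hl]; exact abs_nonneg _
  obtain ⟨G, hGd⟩ : ∃ G : ℝ, G = 1 / Ehr.Phi (-(2 * z)) + 1 + 4 / ε + l := ⟨_, rfl⟩
  have hG1 : 1 ≤ G := by
    rw [hGd]
    have h1 : 0 < 1 / Ehr.Phi (-(2 * z)) := by positivity
    have h2 : 0 < 4 / ε := by positivity
    linarith
  refine ⟨C₁ * G, one_le_mul_of_one_le_of_one_le hC₁ hG1,
    fun h v n P R r W hn hP hr hR hW hF hE hcap hx => ?_⟩
  have hP0 : 0 < P := by linarith
  have hn1 : (1 : ℝ) ≤ n := by exact_mod_cast hn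
  have hε1 : ε ≤ 1 := by
    refine hx.le.trans ?_
    have h1 : ∫ η, (1 - PolT β h η (tube d n v R)) ∂(law d ρ) ≤ ∫ _η, (1 : ℝ) ∂(law d ρ) := by
      refine integral_mono_of_nonneg (Eventually.of_forall fun η => ?_) (integrable_const _)
        (Eventually.of_forall fun η => ?_)
      · show (0 : ℝ) ≤ 1 - PolT β h η (tube d n v R)
        have := PolT_le_one β h η (tube d n v R)
        linarith
      · show 1 - PolT β h η (tube d n v R) ≤ 1
        have := PolT_nonneg β h η (tube d n v R)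
        linarith
    simpa using h1
  have hlog : Real.log (ε / 2) ≤ 0 := Real.log_nonpos (by linarith) (by linarith)
  have hlabs := neg_abs_le (Real.log (ε / 2))
  rw [← hl] at hlabs
  -- the exit is possible
  have hne : ((tube d n v R)ᶜ : Set (Fin n → Step d)).Nonempty := by
    by_contra hcon
    rw [Set.not_nonempty_iff_eq_empty, Set.compl_empty_iff] at hcon
    rw [hcon] at hx
    have h1 : ∀ η : Env d, 1 - PolT β h η (Set.univ : Set (Fin n → Step d)) = 0 := fun η => by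
      unfold PolT
      rw [div_self (ZT_univ_pos hd β h η).ne', sub_self]
    simp only [h1, integral_zero] at hx
    linarith
  obtain ⟨T, hTd⟩ : ∃ T : ℝ, T = n * lam ρ β h - P - 4 * P / ε + Real.log (ε / 2) := ⟨_, rfl⟩
  have h4e : 0 < 4 * P / ε := by positivity
  have hlow := low89 (β := β) (v := v) hd hρ hε hP0 hF hE hx
  rw [← hTd] at hlow
  have hpr : Ehr.Phi (-z) ≤ (law d ρ).real {η | Real.exp T ≤ ZT β h η (tube d n v R)ᶜ} := by
    have h1 := A84.Phi_add z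
    have h2 : {η : Env d | T ≤ Real.log (ZT β h η (tube d n v R)ᶜ)} ⊆
        {η | Real.exp T ≤ ZT β h η (tube d n v R)ᶜ} := by
      intro η hη
      exact (Real.le_log_iff_exp_le (ZT_pos β h η hne)).1 hη
    have h3 := measureReal_mono (μ := law d ρ) h2 (measure_ne_top _ _)
    linarith
  have hTn : T ≤ n * lam ρ β h := by
    rw [hTd]
    linarith
  have hfin := hT h v n P R T z _ hn hP hF hTn (hQ h v n R r W hr hR hcap) hpr
  have e1 : n * lam ρ β h - (n * lam ρ β h - (r * R - n * W)) = r * R - n * W := by ring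
  rw [e1] at hfin
  have h5 : P / Ehr.Phi (-(2 * z)) + (n * lam ρ β h - T) ≤ G * P := by
    rw [hTd, hGd]
    have e2 : (1 / Ehr.Phi (-(2 * z)) + 1 + 4 / ε + l) * P =
        P / Ehr.Phi (-(2 * z)) + P + 4 * P / ε + l * P := by
      field_simp
    rw [e2]
    have h6 : l ≤ l * P := by nlinarith
    linarith
  have h7 : 0 < (n : ℝ) ^ η := by positivity
  have h8 : C₁ * (n : ℝ) ^ η * (P / Ehr.Phi (-(2 * z)) + (n * lam ρ β h - T)) ≤
      C₁ * (n : ℝ) ^ η * (G * P) := mul_le_mul_of_nonneg_left h5 (by positivity)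
  have e3 : C₁ * (n : ℝ) ^ η * (G * P) = C₁ * G * (n : ℝ) ^ η * P := by ring
  linarith

end Pool.Agent.W_7d29a1_KP
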